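import Pool.Agent.P8H84.MX.Defs

/-!
# Part A: a double circulant code of large distance exists (counting)
-/

set_option autoImplicit false

namespace Pool.Agent.P8H84.MX.PA

open Finset Pool.Agent.P8H84.MX

instance : Fact (Nat.Prime 5) := ⟨by norm_num⟩

section shift
variable {N : ℕ} [NeZero N]

/-- the shift -/
def T (N : ℕ) [NeZero N] : Module.End (ZMod 5) (ZMod N → ZMod 5) where
  toFun f := fun i => f (i + 1)
  map_add' f g := rfl
  map_smul' c f := rfl

/-- the difference operator -/
def D (N : ℕ) [NeZero N] : Module.End (ZMod 5) (ZMod N → ZMod 5) := T N - 1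

theorem T_pow (k : ℕ) (f : ZMod N → ZMod 5) (i : ZMod N) : ((T N) ^ k) f i = f (i + k) := by
  induction k generalizing f i with
  | zero => simp
  | succ k ih =>
    rw [pow_succ, Module.End.mul_apply, ih]
    show f (i + k + 1) = _
    congr 1
    push_cast
    ring

theorem D_pow (m : ℕ) : (D N) ^ (5 ^ m) = (T N) ^ (5 ^ m) - 1 := by
  have h := congrArg (Polynomial.aeval (T N))
    (sub_pow_char_pow (R := Polynomial (ZMod 5)) (p := 5) (n := m) Polynomial.X 1)
  simpa [D] using h

theorem D_pow_apply (m : ℕ) (f : ZMod N → ZMod 5) (i : ZMod N) :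
    ((D N) ^ (5 ^ m)) f i = f (i + (5 ^ m : ℕ)) - f i := by
  rw [D_pow, LinearMap.sub_apply, Pi.sub_apply, T_pow]
  rfl

/-- convolution as a linear map in the second argument -/
def C (a : ZMod N → ZMod 5) : Module.End (ZMod 5) (ZMod N → ZMod 5) where
  toFun b := conv a b
  map_add' b c := by
    funext i
    simp [conv, mul_add, Finset.sum_add_distrib]
  map_smul' r b := by
    funext i
    simp only [conv, Pi.smul_apply, smul_eq_mul, RingHom.id_apply, Finset.mul_sum]
    exact Finset.sum_congr rfl fun j _ => by ring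

theorem conv_T (a b : ZMod N → ZMod 5) : conv (T N a) b = T N (conv a b) := by
  funext i
  show ∑ j, a (j + 1) * b (i - j) = ∑ j, a j * b (i + 1 - j)
  rw [← Equiv.sum_comp (Equiv.addRight (1 : ZMod N)) (fun j => a j * b (i + 1 - j))]
  refine Finset.sum_congr rfl fun j _ => ?_
  simp only [Equiv.coe_addRight]
  congr 2
  ring

theorem conv_T' (a b : ZMod N → ZMod 5) : conv a (T N b) = T N (conv a b) := by
  funext i
  show ∑ j, a j * b (i - j + 1) = ∑ j, a j * b (i + 1 - j)
  refine Finset.sum_congr rfl fun j _ => ?_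
  congr 2
  ring

theorem conv_D (a b : ZMod N → ZMod 5) : conv (D N a) b = D N (conv a b) := by
  have h1 : conv (D N a) b = conv (T N a) b - conv a b := by
    funext i
    simp [conv, D, sub_mul, Finset.sum_sub_distrib]
  rw [h1, conv_T]
  rfl

theorem conv_D' (a b : ZMod N → ZMod 5) : conv a (D N b) = D N (conv a b) := by
  have h1 : conv a (D N b) = conv a (T N b) - conv a b := by
    show C a ((T N - 1) b) = C a (T N b) - C a b
    rw [LinearMap.sub_apply, map_sub]
    rfl
  rw [h1, conv_T']
  rfl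

theorem conv_D_pow (k : ℕ) (a b : ZMod N → ZMod 5) : conv ((D N ^ k) a) b = (D N ^ k) (conv a b) := by
  induction k generalizing a with
  | zero => rfl
  | succ k ih => rw [pow_succ, Module.End.mul_apply, Module.End.mul_apply, ih, conv_D]

theorem conv_D_pow' (k : ℕ) (a b : ZMod N → ZMod 5) : conv a ((D N ^ k) b) = (D N ^ k) (conv a b) := by
  induction k generalizing b with
  | zero => rfl
  | succ k ih => rw [pow_succ, Module.End.mul_apply, Module.End.mul_apply, ih, conv_D']

theorem conv_delta (a : ZMod N → ZMod 5) : conv a (Pi.single 0 1) = a := by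
  funext i
  unfold conv
  rw [Finset.sum_eq_single i]
  · simp
  · intro j _ hj
    rw [Pi.single_eq_of_ne (sub_ne_zero.mpr hj.symm), mul_zero]
  · simp

/-- `D ^ i a` is in the range of `b ↦ conv a b` -/
theorem mem_range (a : ZMod N → ZMod 5) (k : ℕ) : (D N ^ k) a ∈ LinearMap.range (C a) :=
  ⟨(D N ^ k) (Pi.single 0 1), by
    show conv a _ = _
    rw [conv_D_pow', conv_delta]⟩

/-- the vectors `a, D a, …, D ^ (r-1) a` are linearly independent if `D ^ r a ≠ 0` and `D` is
nilpotent -/
theorem linInd (hnil : ∃ k, (D N) ^ k = 0) (a : ZMod N → ZMod 5) (r : ℕ) (hr : (D N ^ r) a ≠ 0) :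
    LinearIndependent (ZMod 5) (fun i : Fin r => (D N ^ (i : ℕ)) a) := by
  classical
  have hex : ∃ R, (D N ^ R) a = 0 := by
    obtain ⟨k, hk⟩ := hnil
    exact ⟨k, by rw [hk]; rfl⟩
  have hR := Nat.find_spec hex
  have hRmin := fun m => Nat.find_min hex (m := m)
  set R := Nat.find hex with hRdef
  have hz : ∀ m, R ≤ m → (D N ^ m) a = 0 := by
    intro m hm
    obtain ⟨d, rfl⟩ := Nat.exists_eq_add_of_le hm
    rw [add_comm, pow_add, Module.End.mul_apply, hR, map_zero]
  have hrR : r < R := by
    by_contra h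
    exact hr (hz r (by omega))
  rw [Fintype.linearIndependent_iff]
  intro g hg
  by_contra hne
  push Not at hne
  obtain ⟨i1, hi1⟩ := hne
  have hex2 : ∃ i : ℕ, ∃ h : i < r, g ⟨i, h⟩ ≠ 0 := ⟨i1, i1.2, by simpa using hi1⟩
  obtain ⟨hi0, hgi⟩ := Nat.find_spec hex2
  have hmin := fun m => Nat.find_min hex2 (m := m)
  set i0 := Nat.find hex2 with hi0def
  have h2 := congrArg (fun v => (D N ^ (R - 1 - i0)) v) hg
  simp only [map_sum, map_smul, map_zero] at h2
  rw [Finset.sum_eq_single (⟨i0, hi0⟩ : Fin r)] at h2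
  · rw [← Module.End.mul_apply, ← pow_add] at h2
    have e1 : R - 1 - i0 + i0 = R - 1 := by omega
    rw [show (R - 1 - i0 + ((⟨i0, hi0⟩ : Fin r) : ℕ)) = R - 1 from e1] at h2
    rcases smul_eq_zero.mp h2 with h3 | h3
    · exact hgi h3
    · exact hRmin (R - 1) (by omega) h3
  · intro i _ hi
    rcases lt_trichotomy (i : ℕ) i0 with h3 | h3 | h3
    · have h4 := hmin i h3
      push Not at h4
      rw [show g i = 0 from h4 i.2, zero_smul]
    · exact absurd (Fin.ext h3) hi
    · rw [← Module.End.mul_apply, ← pow_add, hz _ (by omega), smul_zero]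
  · simp

/-- the fibres of `b ↦ conv a b` -/
theorem card_fibre (hnil : ∃ k, (D N) ^ k = 0) (a : ZMod N → ZMod 5) (r : ℕ)
    (hr : (D N ^ r) a ≠ 0) (c : ZMod N → ZMod 5) :
    5 ^ r * (univ.filter fun b : ZMod N → ZMod 5 => conv a b = c).card ≤ 5 ^ N := by
  classical
  have h1 : r ≤ Module.finrank (ZMod 5) (LinearMap.range (C a)) := by
    have h2 : LinearIndependent (ZMod 5)
        (fun i : Fin r => (⟨(D N ^ (i : ℕ)) a, mem_range a i⟩ : LinearMap.range (C a))) :=
      LinearIndependent.of_comp (LinearMap.range (C a)).subtype (linInd hnil a r hr)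
    have := h2.fintype_card_le_finrank
    simpa using this
  have h3 : Module.finrank (ZMod 5) (LinearMap.range (C a)) +
      Module.finrank (ZMod 5) (LinearMap.ker (C a)) = N := by
    rw [LinearMap.finrank_range_add_finrank_ker, Module.finrank_fintype_fun_eq_card, ZMod.card]
  have h4 : Fintype.card (LinearMap.ker (C a)) = 5 ^ Module.finrank (ZMod 5) (LinearMap.ker (C a)) := by
    rw [Module.card_eq_pow_finrank (K := ZMod 5), ZMod.card]
  have h5 : (univ.filter fun b : ZMod N → ZMod 5 => conv a b = c).card ≤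
      Fintype.card (LinearMap.ker (C a)) := by
    rcases (univ.filter fun b : ZMod N → ZMod 5 => conv a b = c).eq_empty_or_nonempty with h | ⟨b0, hb0⟩
    · rw [h]; simp
    · rw [← Fintype.card_coe]
      have hb0' : C a b0 = c := (Finset.mem_filter.mp hb0).2
      refine Fintype.card_le_of_injective (fun b => (⟨b.1 - b0, by
        rw [LinearMap.mem_ker, map_sub, hb0']
        exact sub_eq_zero.mpr (Finset.mem_filter.mp b.2).2⟩ : LinearMap.ker (C a))) ?_
      intro b b' h
      simp only [Subtype.mk.injEq, sub_left_inj] at h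
      exact Subtype.ext h
  calc 5 ^ r * _ ≤ 5 ^ Module.finrank (ZMod 5) (LinearMap.range (C a)) *
        5 ^ Module.finrank (ZMod 5) (LinearMap.ker (C a)) :=
        Nat.mul_le_mul (Nat.pow_le_pow_right (by norm_num) h1) (h5.trans_eq h4)
    _ = 5 ^ N := by rw [← pow_add, h3]

end shift

end Pool.Agent.P8H84.MX.PA
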