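import Pool.Agent.P8H84.MX.A1

/-!
# Part A: a double circulant code of large distance exists (counting)
-/

set_option autoImplicit false

namespace Pool.Agent.P8H84.MX.PA

open Finset Pool.Agent.P8H84.MX

/-- the ball of radius `n / 100` -/
def ball (n : ℕ) : Finset (Fin n → ZMod 5) := univ.filter fun g => 100 * wt g < n

theorem ball_card (n : ℕ) : (ball n).card ^ 20 ≤ 5 ^ n := by
  classical
  set B := (ball n).card with hB
  set w := n / 100 with hw
  have h1 : ∑ g : Fin n → ZMod 5, ∏ k, (if g k = 0 then 400 else 1 : ℕ) = 404 ^ n := by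
    have h2 := Finset.prod_univ_sum (fun _ : Fin n => (univ : Finset (ZMod 5)))
      (fun _ x => (if x = 0 then 400 else 1 : ℕ))
    rw [Fintype.piFinset_univ] at h2
    rw [← h2]
    rw [Finset.prod_const, Finset.card_univ, Fintype.card_fin]
    congr 1
  have h3 : B * 400 ^ (n - w) ≤ 404 ^ n := by
    rw [← h1, hB]
    calc (ball n).card * 400 ^ (n - w) = ∑ g ∈ ball n, 400 ^ (n - w) := by
          rw [Finset.sum_const, smul_eq_mul]
      _ ≤ ∑ g ∈ ball n, ∏ k, (if g k = 0 then 400 else 1 : ℕ) := by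
          refine Finset.sum_le_sum fun g hg => ?_
          have hg' : 100 * wt g < n := (Finset.mem_filter.mp hg).2
          rw [Finset.prod_ite, Finset.prod_const, Finset.prod_const_one, mul_one]
          refine Nat.pow_le_pow_right (by norm_num) ?_
          have h4 := Finset.card_filter_add_card_filter_not (s := (univ : Finset (Fin n)))
            (fun k => g k = 0)
          rw [Finset.card_univ, Fintype.card_fin] at h4
          have h5 : wt g = (univ.filter fun k : Fin n => ¬ g k = 0).card := rfl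
          omega
      _ ≤ _ := Finset.sum_le_sum_of_subset (Finset.subset_univ _)
  have h6 : 100 * w ≤ n := by omega
  have h7 : B ^ 100 * (400 ^ 99) ^ n ≤ (5 ^ n) ^ 5 * (400 ^ 99) ^ n := by
    calc B ^ 100 * (400 ^ 99) ^ n ≤ B ^ 100 * (400 ^ (n - w)) ^ 100 := by
          refine Nat.mul_le_mul_left _ ?_
          rw [← pow_mul, ← pow_mul]
          exact Nat.pow_le_pow_right (by norm_num) (by omega)
      _ = (B * 400 ^ (n - w)) ^ 100 := by rw [mul_pow]
      _ ≤ (404 ^ n) ^ 100 := Nat.pow_le_pow_left h3 _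
      _ = (404 ^ 100) ^ n := by rw [← pow_mul, ← pow_mul, mul_comm]
      _ ≤ (5 ^ 5 * 400 ^ 99) ^ n := Nat.pow_le_pow_left (by norm_num) _
      _ = _ := by rw [mul_pow, ← pow_mul, ← pow_mul 5 n 5, mul_comm 5 n]
  have h8 : B ^ 100 ≤ (5 ^ n) ^ 5 := Nat.le_of_mul_le_mul_right h7 (by positivity)
  have h9 : (B ^ 20) ^ 5 ≤ (5 ^ n) ^ 5 := by rw [← pow_mul]; exact h8
  exact (Nat.pow_le_pow_iff_left (by norm_num)).mp h9

section per
variable {N : ℕ} [NeZero N]

theorem per_mul {n : ℕ} {f : ZMod N → ZMod 5} (hf : ∀ i, f (i + (n : ℕ)) = f i) (l : ℕ) (i : ZMod N) :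
    f (i + ((n * l : ℕ) : ZMod N)) = f i := by
  induction l with
  | zero => simp
  | succ l ih =>
    rw [← ih, ← hf (i + ((n * l : ℕ) : ZMod N))]
    congr 1
    push_cast
    ring

/-- the restriction of a periodic function to a period -/
def res (n : ℕ) (f : ZMod N → ZMod 5) : Fin n → ZMod 5 := fun k => f ((k : ℕ) : ZMod N)

theorem res_inj {n : ℕ} (hn : 0 < n) {f g : ZMod N → ZMod 5} (hf : ∀ i, f (i + (n : ℕ)) = f i)
    (hg : ∀ i, g (i + (n : ℕ)) = g i) (h : res n f = res n g) : f = g := by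
  funext i
  have h1 : i = ((i.val % n : ℕ) : ZMod N) + ((n * (i.val / n) : ℕ) : ZMod N) := by
    rw [← Nat.cast_add, Nat.mod_add_div, ZMod.natCast_zmod_val]
  rw [h1, per_mul hf, per_mul hg]
  exact congrFun h ⟨i.val % n, Nat.mod_lt _ hn⟩

theorem wt_res {n q : ℕ} (hN : N = n * q) {f : ZMod N → ZMod 5}
    (hf : ∀ i, f (i + (n : ℕ)) = f i) : q * wt (res n f) ≤ wt f := by
  classical
  unfold wt
  have h1 : (((univ : Finset (Fin q)) ×ˢ (univ.filter fun k : Fin n => res n f k ≠ 0)).image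
      fun p => (((p.2 : ℕ) + n * (p.1 : ℕ) : ℕ) : ZMod N)).card =
      q * (univ.filter fun k : Fin n => res n f k ≠ 0).card := by
    rw [Finset.card_image_of_injOn, Finset.card_product, Finset.card_univ, Fintype.card_fin]
    intro p _ p' _ h
    have hb : ∀ p : Fin q × Fin n, (p.2 : ℕ) + n * (p.1 : ℕ) < N := by
      intro p
      have h2 := p.2.2
      have h3 : (p.1 : ℕ) + 1 ≤ q := p.1.2
      calc (p.2 : ℕ) + n * (p.1 : ℕ) < n + n * (p.1 : ℕ) := by omega
        _ = n * ((p.1 : ℕ) + 1) := by ring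
        _ ≤ n * q := Nat.mul_le_mul_left _ h3
        _ = N := hN.symm
    have h4 := congrArg ZMod.val h
    simp only at h4
    rw [ZMod.val_cast_of_lt (hb p), ZMod.val_cast_of_lt (hb p')] at h4
    have h5 : 0 < n := by have := p.2.2; omega
    have h6 := congrArg (· % n) h4
    have h7 := congrArg (· / n) h4
    simp only [Nat.add_mul_mod_self_left, Nat.mod_eq_of_lt p.2.2, Nat.mod_eq_of_lt p'.2.2,
      Nat.add_mul_div_left _ _ h5, Nat.div_eq_of_lt p.2.2, Nat.div_eq_of_lt p'.2.2, zero_add] at h6 h7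
    exact Prod.ext (Fin.ext h7) (Fin.ext h6)
  rw [← h1]
  refine Finset.card_le_card fun i hi => ?_
  obtain ⟨p, hp, rfl⟩ := Finset.mem_image.mp hi
  have hp2 := (Finset.mem_filter.mp (Finset.mem_product.mp hp).2).2
  refine Finset.mem_filter.mpr ⟨Finset.mem_univ _, ?_⟩
  rw [Nat.cast_add, per_mul hf]
  exact hp2

open Classical in
/-- functions killed by `D ^ (5 ^ m)` of small weight -/
noncomputable def W (N : ℕ) [NeZero N] (m : ℕ) : Finset (ZMod N → ZMod 5) :=
  univ.filter fun f => (D N ^ (5 ^ m)) f = 0 ∧ 100 * wt f < N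

theorem per_of {m : ℕ} {f : ZMod N → ZMod 5} (h : (D N ^ (5 ^ m)) f = 0) (i : ZMod N) :
    f (i + ((5 ^ m : ℕ) : ZMod N)) = f i := by
  have := congrFun h i
  rw [D_pow_apply] at this
  exact sub_eq_zero.mp this

theorem res_mem_ball {m q : ℕ} (hN : N = 5 ^ m * q) {f : ZMod N → ZMod 5} (h : f ∈ W N m) :
    res (5 ^ m) f ∈ ball (5 ^ m) := by
  obtain ⟨h1, h2⟩ := (Finset.mem_filter.mp h).2
  refine Finset.mem_filter.mpr ⟨Finset.mem_univ _, ?_⟩
  have h3 := wt_res hN (per_of h1)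
  have hq : 0 < q := Nat.pos_of_ne_zero (by rintro rfl; exact NeZero.ne N (by simpa using hN))
  refine Nat.lt_of_mul_lt_mul_left (a := q) ?_
  calc q * (100 * wt (res (5 ^ m) f)) = 100 * (q * wt (res (5 ^ m) f)) := by ring
    _ ≤ 100 * wt f := Nat.mul_le_mul_left _ h3
    _ < N := h2
    _ = q * 5 ^ m := by rw [hN, mul_comm]

theorem W_card {m q : ℕ} (hN : N = 5 ^ m * q) : (W N m).card ^ 20 ≤ 5 ^ (5 ^ m) := by
  refine le_trans (Nat.pow_le_pow_left ?_ 20) (ball_card (5 ^ m))
  refine Finset.card_le_card_of_injOn (res (5 ^ m)) (fun f hf => res_mem_ball hN hf) ?_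
  intro f hf g hg h
  exact res_inj (by positivity) (per_of (Finset.mem_filter.mp hf).2.1)
    (per_of (Finset.mem_filter.mp hg).2.1) h

/-- for `m ≤ 2` there is only `0` -/
theorem W_small {m q : ℕ} (hN : N = 5 ^ m * q) (hm : m ≤ 2) {f : ZMod N → ZMod 5} (h : f ∈ W N m) :
    f = 0 := by
  have h1 := (Finset.mem_filter.mp (res_mem_ball hN h)).2
  have h2 : 5 ^ m ≤ 5 ^ 2 := Nat.pow_le_pow_right (by norm_num) hm
  have h3 : wt (res (5 ^ m) f) = 0 := by omega
  have h4 : res (5 ^ m) f = res (5 ^ m) (0 : ZMod N → ZMod 5) := by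
    funext k
    by_contra hk
    have : k ∈ univ.filter fun k => res (5 ^ m) f k ≠ 0 := Finset.mem_filter.mpr ⟨mem_univ _, hk⟩
    rw [Finset.card_eq_zero.mp h3] at this
    simp at this
  exact res_inj (by positivity) (per_of (Finset.mem_filter.mp h).2.1) (fun _ => rfl) h4

end per

theorem lt_pow' (m : ℕ) (hm : 1 ≤ m) : m ≤ 5 ^ (m - 1) := by
  obtain ⟨k, rfl⟩ := Nat.exists_eq_add_of_le hm
  rw [Nat.add_sub_cancel_left]
  have := Nat.lt_pow_self (show 1 < 5 by norm_num) (n := k)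
  omega

/-- the contribution of `m` -/
theorem term_le {B m F N : ℕ} (hm : 1 ≤ m) (hB : B ^ 20 ≤ 5 ^ (5 ^ m))
    (hF : 5 ^ (5 ^ (m - 1)) * F ≤ 5 ^ N) : 2 ^ m * (B * B * F) ≤ 5 ^ N := by
  set r := 5 ^ (m - 1) with hr
  have h1 : 5 ^ m = 5 * r := by
    rw [hr, ← pow_succ']
    congr 1
    omega
  have h2 : B ^ 4 ≤ 5 ^ r := by
    have : (B ^ 4) ^ 5 ≤ (5 ^ r) ^ 5 := by
      rw [← pow_mul, ← pow_mul, mul_comm r 5, ← h1]
      exact hB
    exact (Nat.pow_le_pow_iff_left (by norm_num)).mp this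
  have h3 : 4 ^ m ≤ 5 ^ r := by
    calc 4 ^ m ≤ 5 ^ m := Nat.pow_le_pow_left (by norm_num) _
      _ ≤ 5 ^ r := Nat.pow_le_pow_right (by norm_num) (lt_pow' m hm)
  have h4 : 2 ^ m * (B * B) ≤ 5 ^ r := by
    have : (2 ^ m * (B * B)) ^ 2 ≤ (5 ^ r) ^ 2 := by
      calc (2 ^ m * (B * B)) ^ 2 = 4 ^ m * B ^ 4 := by
            rw [mul_pow, ← pow_mul, mul_comm m 2, pow_mul]; ring
        _ ≤ 5 ^ r * 5 ^ r := Nat.mul_le_mul h3 h2
        _ = _ := by ring
    exact (Nat.pow_le_pow_iff_left (by norm_num)).mp this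
  calc 2 ^ m * (B * B * F) = 2 ^ m * (B * B) * F := by ring
    _ ≤ 5 ^ r * F := Nat.mul_le_mul_right _ h4
    _ ≤ _ := hF

theorem geo (j : ℕ) : ∑ m ∈ Icc 3 j, (1 / 2 : ℝ) ^ m ≤ 1 / 4 := by
  rcases Nat.lt_or_ge j 2 with h | h
  · rw [Finset.Icc_eq_empty (by omega)]
    norm_num
  · have : ∑ m ∈ Icc 3 j, (1 / 2 : ℝ) ^ m ≤ 1 / 4 - (1 / 2) ^ j := by
      induction j, h using Nat.le_induction with
      | base => norm_num
      | succ j hj ih =>
        rw [Finset.sum_Icc_succ_top (by omega)]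
        have : (1 / 2 : ℝ) ^ (j + 1) = (1 / 2) ^ j / 2 := by rw [pow_succ]; ring
        linarith
    have h2 : (0 : ℝ) ≤ (1 / 2) ^ j := by positivity
    linarith

end Pool.Agent.P8H84.MX.PA

namespace Pool.Agent.P8H84.MX

open Finset PA

theorem part_A' (j : ℕ) : ∃ b : ZMod (5 ^ j) → ZMod 5, GoodCode (5 ^ j) b := by
  classical
  by_contra hcon
  push Not at hcon
  set N := 5 ^ j with hNj
  have hDN : D N ^ (5 ^ j) = 0 := by
    refine LinearMap.ext fun f => funext fun i => ?_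
    rw [D_pow_apply, ← hNj, ZMod.natCast_self, add_zero, sub_self]
    rfl
  have hnil : ∃ k, D N ^ k = 0 := ⟨_, hDN⟩
  have hcov : (univ : Finset (ZMod N → ZMod 5)) ⊆ (Icc 3 j).biUnion fun m =>
      ((W N m).filter fun a => (D N ^ (5 ^ (m - 1))) a ≠ 0).biUnion fun a =>
        (W N m).biUnion fun c => univ.filter fun b => conv a b = c := by
    intro b _
    have hb := hcon b
    unfold GoodCode at hb
    push Not at hb
    obtain ⟨a, ha0, ha⟩ := hb
    have hex : ∃ m, (D N ^ (5 ^ m)) a = 0 := ⟨j, by rw [hDN]; rfl⟩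
    have hm := Nat.find_spec hex
    have hmin := fun k => Nat.find_min hex (m := k)
    have hmj : Nat.find hex ≤ j := Nat.find_min' hex (by rw [hDN]; rfl)
    set m := Nat.find hex with hmdef
    have hq : N = 5 ^ m * 5 ^ (j - m) := by rw [← pow_add, hNj]; congr 1; omega
    have haW : a ∈ W N m := Finset.mem_filter.mpr ⟨mem_univ _, hm, by omega⟩
    have hcW : conv a b ∈ W N m := by
      refine Finset.mem_filter.mpr ⟨mem_univ _, ?_, by omega⟩
      rw [← conv_D_pow, hm]
      funext i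
      simp [conv]
    have hm3 : 3 ≤ m := by
      by_contra h
      exact ha0 (W_small hq (by omega) haW)
    simp only [Finset.mem_biUnion, Finset.mem_filter, Finset.mem_univ, true_and, Finset.mem_Icc]
    exact ⟨m, ⟨hm3, hmj⟩, a, ⟨haW, hmin (m - 1) (by omega)⟩, conv a b, hcW, rfl⟩
  have hcard := Finset.card_le_card hcov
  rw [Finset.card_univ, Fintype.card_fun, ZMod.card, ZMod.card] at hcard
  have hterm : ∀ m ∈ Icc 3 j, (((((W N m).filter fun a => (D N ^ (5 ^ (m - 1))) a ≠ 0).biUnion fun a =>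
        (W N m).biUnion fun c => univ.filter fun b => conv a b = c).card : ℕ) : ℝ) ≤
        (5 : ℝ) ^ N * (1 / 2) ^ m := by
    intro m hm
    obtain ⟨hm3, hmj⟩ := Finset.mem_Icc.mp hm
    have hq : N = 5 ^ m * 5 ^ (j - m) := by rw [← pow_add, hNj]; congr 1; omega
    set F := 5 ^ N / 5 ^ (5 ^ (m - 1)) with hF
    have h1 : ((((W N m).filter fun a => (D N ^ (5 ^ (m - 1))) a ≠ 0).biUnion fun a =>
        (W N m).biUnion fun c => univ.filter fun b => conv a b = c).card : ℕ) ≤
        (W N m).card * (W N m).card * F := by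
      refine Finset.card_biUnion_le.trans ?_
      calc _ ≤ ∑ a ∈ (W N m).filter fun a => (D N ^ (5 ^ (m - 1))) a ≠ 0, (W N m).card * F := by
            refine Finset.sum_le_sum fun a ha => ?_
            refine Finset.card_biUnion_le.trans ?_
            calc _ ≤ ∑ c ∈ W N m, F := by
                  refine Finset.sum_le_sum fun c _ => ?_
                  rw [hF, Nat.le_div_iff_mul_le (by positivity), mul_comm]
                  exact card_fibre hnil a _ (Finset.mem_filter.mp ha).2 c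
              _ = _ := by rw [Finset.sum_const, smul_eq_mul]
        _ ≤ ∑ a ∈ W N m, (W N m).card * F :=
            Finset.sum_le_sum_of_subset (Finset.filter_subset _ _)
        _ = _ := by rw [Finset.sum_const, smul_eq_mul, mul_assoc]
    have h2 : 2 ^ m * ((W N m).card * (W N m).card * F) ≤ 5 ^ N :=
      term_le (by omega) (W_card hq) (Nat.mul_div_le _ _)
    have h3 : 2 ^ m * (((((W N m).filter fun a => (D N ^ (5 ^ (m - 1))) a ≠ 0).biUnion fun a =>
        (W N m).biUnion fun c => univ.filter fun b => conv a b = c).card : ℕ)) ≤ 5 ^ N :=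
      le_trans (Nat.mul_le_mul_left _ h1) h2
    have h4 : (2 : ℝ) ^ m * (((((W N m).filter fun a => (D N ^ (5 ^ (m - 1))) a ≠ 0).biUnion fun a =>
        (W N m).biUnion fun c => univ.filter fun b => conv a b = c).card : ℕ) : ℝ) ≤ 5 ^ N := by
      exact_mod_cast h3
    rw [one_div, inv_pow, ← div_eq_mul_inv, le_div_iff₀ (by positivity), mul_comm]
    exact h4
  have h5 : ((5 ^ N : ℕ) : ℝ) ≤ (5 : ℝ) ^ N * ∑ m ∈ Icc 3 j, (1 / 2 : ℝ) ^ m := by
    calc ((5 ^ N : ℕ) : ℝ) ≤ _ := Nat.cast_le.mpr (hcard.trans Finset.card_biUnion_le)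
      _ ≤ _ := by
        rw [Nat.cast_sum, Finset.mul_sum]
        exact Finset.sum_le_sum hterm
  have h6 := geo j
  have h7 : (0 : ℝ) < 5 ^ N := by positivity
  push_cast at h5
  nlinarith

/-- Part A -/
theorem part_A : S_A := ⟨0, fun j _ => part_A' j⟩

end Pool.Agent.P8H84.MX
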