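import Pool.Agent.P8H84.MX.Defs

/-!
# Part C, step 1: norm bounds for powers of a symmetric matrix from bounds of its quadratic form
-/

set_option autoImplicit false

namespace Pool.Agent.P8H84.MX.PC

open Finset Matrix

section op
variable {ι : Type} [Fintype ι] [DecidableEq ι]

theorem op_bound (A : Matrix ι ι ℝ) (hs : A.IsSymm) (W : Submodule ℝ (ι → ℝ))
    (hW : ∀ g ∈ W, A *ᵥ g ∈ W) (mu : ℝ) (hmu : 0 ≤ mu)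
    (h0 : ∀ g ∈ W, 0 ≤ g ⬝ᵥ (A *ᵥ g)) (h1 : ∀ g ∈ W, g ⬝ᵥ (A *ᵥ g) ≤ mu * (g ⬝ᵥ g)) :
    ∀ g ∈ W, (A *ᵥ g) ⬝ᵥ (A *ᵥ g) ≤ mu ^ 2 * (g ⬝ᵥ g) := by
  intro g hg
  set w := A *ᵥ g with hw
  have hwW : w ∈ W := hW g hg
  have hgw : g ⬝ᵥ (A *ᵥ w) = w ⬝ᵥ w := by
    rw [Matrix.dotProduct_mulVec, ← Matrix.mulVec_transpose, hs.eq]
  have hq : ∀ s : ℝ, 0 ≤ (g ⬝ᵥ w) - 2 * s * (w ⬝ᵥ w) + s ^ 2 * (w ⬝ᵥ (A *ᵥ w)) := by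
    intro s
    have h2 := h0 (g - s • w) (W.sub_mem hg (W.smul_mem s hwW))
    rw [mulVec_sub, mulVec_smul] at h2
    simp only [sub_dotProduct, dotProduct_sub, smul_dotProduct, dotProduct_smul, smul_eq_mul,
      ← hw, hgw] at h2
    linarith
  have ha : g ⬝ᵥ w ≤ mu * (g ⬝ᵥ g) := h1 g hg
  have hc : w ⬝ᵥ (A *ᵥ w) ≤ mu * (w ⬝ᵥ w) := h1 w hwW
  have hww : 0 ≤ w ⬝ᵥ w := by
    rw [dotProduct]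
    exact sum_nonneg fun i _ => mul_self_nonneg _
  rcases eq_or_lt_of_le hmu with h | h
  · have h3 := hq 1
    rw [← h] at ha hc ⊢
    nlinarith
  · have h3 := hq (1 / mu)
    have h4 : (1 / mu) ^ 2 * (w ⬝ᵥ (A *ᵥ w)) ≤ (1 / mu) * (w ⬝ᵥ w) := by
      calc (1 / mu) ^ 2 * (w ⬝ᵥ (A *ᵥ w)) ≤ (1 / mu) ^ 2 * (mu * (w ⬝ᵥ w)) := by gcongr
        _ = (1 / mu) * (w ⬝ᵥ w) := by field_simp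
    have h5 : (1 / mu) * (w ⬝ᵥ w) ≤ mu * (g ⬝ᵥ g) := by linarith
    calc w ⬝ᵥ w = mu * ((1 / mu) * (w ⬝ᵥ w)) := by field_simp
      _ ≤ mu * (mu * (g ⬝ᵥ g)) := by gcongr
      _ = mu ^ 2 * (g ⬝ᵥ g) := by ring

theorem pow_bound (A : Matrix ι ι ℝ) (hs : A.IsSymm) (W : Submodule ℝ (ι → ℝ))
    (hW : ∀ g ∈ W, A *ᵥ g ∈ W) (mu : ℝ) (hmu : 0 ≤ mu)
    (h0 : ∀ g ∈ W, 0 ≤ g ⬝ᵥ (A *ᵥ g)) (h1 : ∀ g ∈ W, g ⬝ᵥ (A *ᵥ g) ≤ mu * (g ⬝ᵥ g)) (t : ℕ) :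
    ∀ g ∈ W, (A ^ t) *ᵥ g ∈ W ∧
      ((A ^ t) *ᵥ g) ⬝ᵥ ((A ^ t) *ᵥ g) ≤ (mu ^ t) ^ 2 * (g ⬝ᵥ g) := by
  induction t with
  | zero => intro g hg; simpa using hg
  | succ t ih =>
    intro g hg
    obtain ⟨h2, h3⟩ := ih g hg
    rw [pow_succ', ← Matrix.mulVec_mulVec]
    refine ⟨hW _ h2, ?_⟩
    calc _ ≤ mu ^ 2 * (((A ^ t) *ᵥ g) ⬝ᵥ ((A ^ t) *ᵥ g)) := op_bound A hs W hW mu hmu h0 h1 _ h2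
      _ ≤ mu ^ 2 * ((mu ^ t) ^ 2 * (g ⬝ᵥ g)) := by gcongr
      _ = (mu ^ (t + 1)) ^ 2 * (g ⬝ᵥ g) := by ring

theorem entry_bound (A : Matrix ι ι ℝ) (hs : A.IsSymm) (W : Submodule ℝ (ι → ℝ))
    (hW : ∀ g ∈ W, A *ᵥ g ∈ W) (mu : ℝ) (hmu : 0 ≤ mu)
    (h0 : ∀ g ∈ W, 0 ≤ g ⬝ᵥ (A *ᵥ g)) (h1 : ∀ g ∈ W, g ⬝ᵥ (A *ᵥ g) ≤ mu * (g ⬝ᵥ g)) (t : ℕ)
    (g : ι → ℝ) (hg : g ∈ W) (hg1 : g ⬝ᵥ g ≤ 1) (i : ι) : |((A ^ t) *ᵥ g) i| ≤ mu ^ t := by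
  obtain ⟨-, h3⟩ := pow_bound A hs W hW mu hmu h0 h1 t g hg
  apply abs_le_of_sq_le_sq _ (by positivity)
  have h4 : (((A ^ t) *ᵥ g) i) ^ 2 ≤ ((A ^ t) *ᵥ g) ⬝ᵥ ((A ^ t) *ᵥ g) := by
    rw [dotProduct, sq]
    exact single_le_sum (f := fun i => ((A ^ t) *ᵥ g) i * ((A ^ t) *ᵥ g) i)
      (fun i _ => mul_self_nonneg _) (mem_univ i)
  calc _ ≤ _ := h4
    _ ≤ (mu ^ t) ^ 2 * (g ⬝ᵥ g) := h3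
    _ ≤ (mu ^ t) ^ 2 * 1 := by gcongr
    _ = (mu ^ t) ^ 2 := by ring

end op

end Pool.Agent.P8H84.MX.PC
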