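import Pool.Agent.P8H84.MX.C1

/-!
# Part C, step 2: the walk of the marker in a potential
-/

set_option autoImplicit false

namespace Pool.Agent.P8H84.MX.PC

open Finset Matrix

section pot
variable {L : Type} [Group L] [Fintype L] [DecidableEq L]

/-- the lazy walk of the marker with potential `w` -/
noncomputable def PW (s : Fin 12 → L) (w : L → ℝ) : Matrix L L ℝ :=
  Matrix.of fun l m => (if l = m then 1 / 2 + w l / 40 else 0) +
    ∑ i, if m = s i * l then 1 / 40 else 0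

theorem PW_mulVec (s : Fin 12 → L) (w g : L → ℝ) (l : L) :
    (PW s w *ᵥ g) l = (1 / 2 + w l / 40) * g l + ∑ i, 1 / 40 * g (s i * l) := by
  rw [mulVec, dotProduct]
  simp only [PW, of_apply, add_mul, ite_mul, zero_mul, sum_add_distrib, sum_mul]
  congr 1
  · rw [sum_ite_eq]; simp
  · rw [sum_comm]
    refine sum_congr rfl fun i _ => ?_
    simp

theorem PW_mul (s : Fin 12 → L) (w : L → ℝ) (M : Matrix L L ℝ) (l m : L) :
    (PW s w * M) l m = (1 / 2 + w l / 40) * M l m + ∑ i, 1 / 40 * M (s i * l) m := by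
  have := PW_mulVec s w (fun k => M k m) l
  rw [← this]
  rfl

variable {lam : ℝ} {N : ℕ} {s : Fin 12 → L} {h : L}

theorem PW_symm (H : MarkerGroup lam N L s h) (w : L → ℝ) : (PW s w).IsSymm := by
  have key : ∀ l m : L, (∑ i, if m = s i * l then (1 / 40 : ℝ) else 0) =
      if m * l⁻¹ ∈ Set.range s then 1 / 40 else 0 := by
    intro l m
    classical
    split_ifs with hh
    · obtain ⟨i, hi⟩ := hh
      rw [sum_eq_single i]
      · rw [if_pos]; rw [hi]; group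
      · intro j _ hj
        rw [if_neg]
        intro h2
        apply hj
        apply H.inj
        rw [hi, h2]; group
      · simp
    · apply sum_eq_zero
      intro i _
      rw [if_neg]
      intro h2
      apply hh
      exact ⟨i, by rw [h2]; group⟩
  have inv' : ∀ x : L, x ∈ Set.range s → x⁻¹ ∈ Set.range s := by
    rintro x ⟨i, rfl⟩
    obtain ⟨j, hj⟩ := H.inv i
    exact ⟨j, hj⟩
  ext l m
  rw [transpose_apply]
  simp only [PW, of_apply, key]
  congr 1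
  · by_cases hlm : l = m
    · subst hlm; rfl
    · rw [if_neg hlm, if_neg (fun hh => hlm hh.symm)]
  · have : l * m⁻¹ ∈ Set.range s ↔ m * l⁻¹ ∈ Set.range s := by
      constructor
      · intro hh
        have := inv' _ hh
        simpa using this
      · intro hh
        have := inv' _ hh
        simpa using this
    simp only [this]

theorem quad_eq (s : Fin 12 → L) (w g : L → ℝ) :
    g ⬝ᵥ (PW s w *ᵥ g) = 1 / 2 * ∑ l, g l ^ 2 + 1 / 40 * ∑ l, w l * g l ^ 2 +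
      1 / 40 * ∑ i, ∑ l, g l * g (s i * l) := by
  rw [dotProduct]
  simp only [PW_mulVec]
  rw [sum_comm, mul_sum, mul_sum, mul_sum, ← sum_add_distrib, ← sum_add_distrib]
  refine sum_congr rfl fun l _ => ?_
  rw [mul_add, mul_sum, mul_sum]
  have : ∀ i, g l * (1 / 40 * g (s i * l)) = 1 / 40 * (g l * g (s i * l)) := fun i => by ring
  simp only [this]
  ring

theorem sum_shift (g : L → ℝ) (a : L) : ∑ l, g (a * l) = ∑ l, g l :=
  Equiv.sum_comp (Equiv.mulLeft a) g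

theorem quad_nonneg (s : Fin 12 → L) (w g : L → ℝ) (hw : ∀ l, -2 ≤ w l) :
    0 ≤ g ⬝ᵥ (PW s w *ᵥ g) := by
  rw [quad_eq]
  have h1 : -2 * ∑ l, g l ^ 2 ≤ ∑ l, w l * g l ^ 2 := by
    rw [mul_sum]
    exact sum_le_sum fun l _ => by have := hw l; nlinarith [sq_nonneg (g l)]
  have h2 : ∀ i, -(∑ l, g l ^ 2) ≤ ∑ l, g l * g (s i * l) := by
    intro i
    have h3 : ∑ l, g (s i * l) ^ 2 = ∑ l, g l ^ 2 := sum_shift (fun l => g l ^ 2) (s i)
    have h4 : ∑ l, (-(1 / 2) * g l ^ 2 + -(1 / 2) * g (s i * l) ^ 2) ≤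
        ∑ l, g l * g (s i * l) := by
      refine sum_le_sum fun l _ => ?_
      nlinarith [sq_nonneg (g l + g (s i * l))]
    rw [sum_add_distrib, ← mul_sum, ← mul_sum, h3] at h4
    linarith
  have h5 : ∑ i : Fin 12, -(∑ l, g l ^ 2) ≤ ∑ i, ∑ l, g l * g (s i * l) :=
    sum_le_sum fun i _ => h2 i
  rw [sum_const, card_univ, Fintype.card_fin, nsmul_eq_mul] at h5
  have h6 : 0 ≤ ∑ l, g l ^ 2 := sum_nonneg fun l _ => sq_nonneg _
  push_cast at h5
  linarith

/-- the gap, mean zero functions -/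
theorem corr_le (H : MarkerGroup lam N L s h) (f : L → ℝ) (hf : ∑ l, f l = 0) :
    ∑ i, ∑ l, f l * f (s i * l) ≤ (9 / 2 + 15 / 2 * lam) * ∑ l, f l ^ 2 := by
  have h1 := H.gap f hf
  have h2 : ∑ l, f l * (3 * f l + ∑ i, f (s i * l)) ≤
      ∑ l, (15 / 2 * f l ^ 2 + 1 / 30 * (3 * f l + ∑ i, f (s i * l)) ^ 2) := by
    refine sum_le_sum fun l _ => ?_
    nlinarith [sq_nonneg (15 * f l - (3 * f l + ∑ i, f (s i * l)))]
  rw [sum_add_distrib, ← mul_sum, ← mul_sum] at h2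
  have h3 : ∑ l, f l * (3 * f l + ∑ i, f (s i * l)) =
      3 * ∑ l, f l ^ 2 + ∑ i, ∑ l, f l * f (s i * l) := by
    rw [sum_comm, mul_sum, ← sum_add_distrib]
    refine sum_congr rfl fun l _ => ?_
    rw [mul_add, mul_sum]
    ring
  rw [h3] at h2
  nlinarith

theorem quad_le_mean_zero (H : MarkerGroup lam N L s h) (w f : L → ℝ) (hw : ∀ l, w l ≤ 8)
    (hf : ∑ l, f l = 0) :
    f ⬝ᵥ (PW s w *ᵥ f) ≤ (1 - 3 * (1 - lam) / 16) * (f ⬝ᵥ f) := by
  have h1 := corr_le H f hf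
  have h2 : ∑ l, w l * f l ^ 2 ≤ 8 * ∑ l, f l ^ 2 := by
    rw [mul_sum]
    exact sum_le_sum fun l _ => by have := hw l; nlinarith [sq_nonneg (f l)]
  have h3 : f ⬝ᵥ f = ∑ l, f l ^ 2 := by
    rw [dotProduct]; exact sum_congr rfl fun l _ => by ring
  rw [quad_eq, h3]
  linarith

theorem quad_le (H : MarkerGroup lam N L s h) (hl0 : 0 < lam) (hl : lam < 1) (w g : L → ℝ)
    (hw : ∀ l, w l ≤ 8) (B : Finset L) (hB : ∀ l ∈ B, w l ≤ 3) :
    g ⬝ᵥ (PW s w *ᵥ g) ≤ (1 - 3 * (1 - lam) / 64 * (B.card / Fintype.card L)) * (g ⬝ᵥ g) := by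
  classical
  have hcard : 0 < (Fintype.card L : ℝ) := by exact_mod_cast Fintype.card_pos
  obtain ⟨f, m, hgf, hf⟩ : ∃ (f : L → ℝ) (m : ℝ), (∀ l, g l = f l + m) ∧ ∑ l, f l = 0 := by
    refine ⟨fun l => g l - (∑ l, g l) / Fintype.card L, (∑ l, g l) / Fintype.card L,
      fun l => by ring, ?_⟩
    rw [sum_sub_distrib, sum_const, card_univ, nsmul_eq_mul]
    field_simp
    ring
  have hgg : g ⬝ᵥ g = ∑ l, g l ^ 2 := by
    rw [dotProduct]; exact sum_congr rfl fun l _ => by ring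
  have hsq : ∑ l, g l ^ 2 = ∑ l, f l ^ 2 + m ^ 2 * Fintype.card L := by
    have : ∀ l, g l ^ 2 = f l ^ 2 + 2 * m * f l + m ^ 2 := fun l => by rw [hgf l]; ring
    simp only [this]
    rw [sum_add_distrib, sum_add_distrib, ← mul_sum, hf, sum_const, card_univ, nsmul_eq_mul]
    ring
  have hcorr : ∑ i, ∑ l, g l * g (s i * l) =
      ∑ i, ∑ l, f l * f (s i * l) + 12 * m ^ 2 * Fintype.card L := by
    have h1 : ∀ i : Fin 12, ∑ l, g l * g (s i * l) =
        ∑ l, f l * f (s i * l) + m ^ 2 * Fintype.card L := by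
      intro i
      have h2 : ∀ l, g l * g (s i * l) = f l * f (s i * l) + m * f l + m * f (s i * l) + m ^ 2 :=
        fun l => by rw [hgf l, hgf (s i * l)]; ring
      simp only [h2]
      rw [sum_add_distrib, sum_add_distrib, sum_add_distrib, ← mul_sum, ← mul_sum,
        sum_shift f (s i), hf, sum_const, card_univ, nsmul_eq_mul]
      ring
    simp only [h1]
    rw [sum_add_distrib, sum_const, card_univ, Fintype.card_fin, nsmul_eq_mul]
    push_cast
    ring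
  have hw2 : ∑ l, w l * g l ^ 2 ≤ 8 * ∑ l, g l ^ 2 - 5 * ∑ l ∈ B, g l ^ 2 := by
    have h1 : ∑ l ∈ B, g l ^ 2 = ∑ l, if l ∈ B then g l ^ 2 else 0 := by
      rw [sum_ite_mem, univ_inter]
    rw [h1, mul_sum, mul_sum, ← sum_sub_distrib]
    refine sum_le_sum fun l _ => ?_
    split_ifs with hl2
    · have := hB l hl2; nlinarith [sq_nonneg (g l)]
    · have := hw l; nlinarith [sq_nonneg (g l)]
  have hBg : m ^ 2 / 2 * B.card - ∑ l, f l ^ 2 ≤ ∑ l ∈ B, g l ^ 2 := by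
    have h1 : ∑ l ∈ B, (m ^ 2 / 2 - f l ^ 2) ≤ ∑ l ∈ B, g l ^ 2 := by
      refine sum_le_sum fun l _ => ?_
      rw [hgf l]
      nlinarith [sq_nonneg (m + 2 * f l)]
    rw [sum_sub_distrib, sum_const, nsmul_eq_mul] at h1
    have h2 : ∑ l ∈ B, f l ^ 2 ≤ ∑ l, f l ^ 2 :=
      sum_le_sum_of_subset_of_nonneg (subset_univ _) fun l _ _ => sq_nonneg _
    linarith
  have hc := corr_le H f hf
  have hBn : 0 ≤ ∑ l ∈ B, g l ^ 2 := sum_nonneg fun l _ => sq_nonneg _
  have hfn : 0 ≤ ∑ l, f l ^ 2 := sum_nonneg fun l _ => sq_nonneg _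
  have hBc : (B.card : ℝ) ≤ Fintype.card L := by exact_mod_cast card_le_univ B
  have hd1 : (B.card : ℝ) / Fintype.card L ≤ 1 := by
    rw [div_le_one hcard]; exact hBc
  have hd2 : (B.card : ℝ) / Fintype.card L * (m ^ 2 * Fintype.card L) = m ^ 2 * B.card := by
    field_simp
  rw [quad_eq, hgg, hcorr]
  have h7 : (3 * (1 - lam) / 32) * ∑ l ∈ B, g l ^ 2 ≤ 1 / 8 * ∑ l ∈ B, g l ^ 2 := by
    apply mul_le_mul_of_nonneg_right _ hBn
    linarith
  have h8 : (3 * (1 - lam) / 32) * (m ^ 2 / 2 * B.card - ∑ l, f l ^ 2) ≤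
      (3 * (1 - lam) / 32) * ∑ l ∈ B, g l ^ 2 := by
    apply mul_le_mul_of_nonneg_left hBg
    linarith
  have h9 : (B.card : ℝ) / Fintype.card L * ∑ l, f l ^ 2 ≤ ∑ l, f l ^ 2 := by
    nlinarith
  have h10 : 3 * (1 - lam) / 64 * ((B.card : ℝ) / Fintype.card L) * ∑ l, g l ^ 2 ≤
      3 * (1 - lam) / 64 * (∑ l, f l ^ 2 + m ^ 2 * B.card) := by
    rw [hsq, mul_assoc, mul_add, hd2]
    apply mul_le_mul_of_nonneg_left _ (by linarith)
    linarith
  have h11 : 3 * (1 - lam) / 64 * (∑ l, f l ^ 2 + m ^ 2 * B.card) ≤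
      3 * (1 - lam) / 32 * ∑ l, f l ^ 2 + 3 * (1 - lam) / 64 * (m ^ 2 * B.card) := by
    nlinarith
  nlinarith

end pot

end Pool.Agent.P8H84.MX.PC
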