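import Pool.Agent.P8H84.MX.C2

/-!
# Part C, step 3: the characters of the lamps
-/

set_option autoImplicit false

namespace Pool.Agent.P8H84.MX.PC

open Finset Matrix

/-- the standard character -/
noncomputable def psi : AddChar (ZMod 5) ℂ := ZMod.stdAddChar

noncomputable def theta (y : ZMod 5) : ℝ := if y = 0 then 4 else -1

theorem norm_psi (y : ZMod 5) : ‖psi y‖ = 1 := AddChar.norm_apply psi y

theorem sum_psi (y : ZMod 5) : ∑ w : ZMod 5, psi (w * y) = if y = 0 then 5 else 0 := by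
  have h := AddChar.sum_mulShift (R := ZMod 5) (R' := ℂ) (ψ := psi) y
    (ZMod.isPrimitive_stdAddChar 5)
  rw [h]
  simp [ZMod.card]

theorem sum_psi_ne (y : ZMod 5) :
    ∑ w : {z : ZMod 5 // z ≠ 0}, psi (w.1 * y) = (theta y : ℂ) := by
  have h1 := sum_psi y
  have h2 : ∑ w : ZMod 5, psi (w * y) = psi (0 * y) +
      ∑ w : {z : ZMod 5 // z ≠ 0}, psi (w.1 * y) := by
    rw [Fintype.sum_eq_add_sum_subtype_ne _ (0 : ZMod 5)]
  rw [h1, zero_mul, AddChar.map_zero_eq_one] at h2
  unfold theta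
  split_ifs at h2 ⊢ with hy
  · push_cast; linear_combination -h2
  · push_cast; linear_combination -h2

section chi
variable {L : Type} [Fintype L] [DecidableEq L]

/-- the characters of the lamp group -/
noncomputable def chi (u x : L → ZMod 5) : ℂ := psi (∑ l, u l * x l)

theorem norm_chi (u x : L → ZMod 5) : ‖chi u x‖ = 1 := norm_psi _

theorem chi_add (u x y : L → ZMod 5) : chi u (x + y) = chi u x * chi u y := by
  unfold chi
  rw [← AddChar.map_add_eq_mul]
  congr 1
  rw [← sum_add_distrib]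
  exact sum_congr rfl fun l _ => by rw [Pi.add_apply]; ring

theorem sum_chi (x : L → ZMod 5) :
    ∑ u : L → ZMod 5, chi u x = if x = 0 then (5 : ℂ) ^ Fintype.card L else 0 := by
  have h1 : ∀ u : L → ZMod 5, chi u x = ∏ l, psi (u l * x l) := by
    intro u
    unfold chi
    exact map_sum psi.toAddMonoidHom (fun l => u l * x l) univ
  simp only [h1]
  have h2 := (Finset.prod_univ_sum (fun _ : L => (univ : Finset (ZMod 5)))
    (fun l w => psi (w * x l))).symm
  rw [Fintype.piFinset_univ] at h2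
  rw [h2]
  simp only [sum_psi]
  split_ifs with hx
  · subst hx
    simp
  · obtain ⟨l, hl⟩ : ∃ l, x l ≠ 0 := by
      by_contra hcon
      push Not at hcon
      exact hx (funext hcon)
    exact prod_eq_zero (mem_univ l) (by rw [if_neg hl])

end chi

section walk
variable {L : Type} [Group L] [Fintype L] [DecidableEq L] {N : ℕ} [NeZero N]

/-- the neighbours of `p` -/
def nbr (s : Fin 12 → L) (h : L) (b : ZMod N → ZMod 5) (p : (L → ZMod 5) × L) :
    Fin 12 ⊕ (Bool × {z : ZMod 5 // z ≠ 0}) → (L → ZMod 5) × L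
  | Sum.inl i => (p.1, s i * p.2)
  | Sum.inr (e, z) => (p.1 + tog h b p.2 (e, z.1), p.2)

/-- the pairing of `u` with the toggles -/
def par (h : L) (b : ZMod N → ZMod 5) (u : L → ZMod 5) (l : L) : ZMod 5 :=
  ∑ m, u m * bvec h b l m

noncomputable def ww (h : L) (b : ZMod N → ZMod 5) (u : L → ZMod 5) (l : L) : ℝ :=
  theta (u l) + theta (par h b u l)

theorem chi_tog_false (h : L) (b : ZMod N → ZMod 5) (u : L → ZMod 5) (l : L) (z : ZMod 5) :
    chi u (tog h b l (false, z)) = psi (z * u l) := by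
  unfold chi tog
  congr 1
  rw [sum_eq_single l]
  · simp; ring
  · intro m _ hm
    simp [Pi.single_eq_of_ne hm]
  · simp

theorem chi_tog_true (h : L) (b : ZMod N → ZMod 5) (u : L → ZMod 5) (l : L) (z : ZMod 5) :
    chi u (tog h b l (true, z)) = psi (z * par h b u l) := by
  unfold chi tog par
  congr 1
  rw [mul_sum]
  refine sum_congr rfl fun m _ => ?_
  simp
  ring

theorem sum_tog (h : L) (b : ZMod N → ZMod 5) (u : L → ZMod 5) (l : L) :
    ∑ j : Bool × {z : ZMod 5 // z ≠ 0}, chi u (tog h b l (j.1, j.2.1)) = (ww h b u l : ℂ) := by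
  rw [Fintype.sum_prod_type, Fintype.sum_bool]
  simp only [chi_tog_false, chi_tog_true, sum_psi_ne]
  unfold ww
  push_cast
  ring

/-- the hypotheses on the neighbours, proved in part G -/
structure Nbrs (s : Fin 12 → L) (h : L) (b : ZMod N → ZMod 5) : Prop where
  inj : ∀ p, Function.Injective (nbr s h b p)
  adj : ∀ p q, (LG s h b).Adj p q ↔ ∃ j, nbr s h b p j = q

open Classical in
theorem degree_eq {s : Fin 12 → L} {h : L} {b : ZMod N → ZMod 5} (H : Nbrs s h b)
    (p : (L → ZMod 5) × L) : (LG s h b).degree p = 20 := by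
  have h1 : (LG s h b).neighborFinset p = univ.map ⟨nbr s h b p, H.inj p⟩ := by
    ext q
    rw [SimpleGraph.mem_neighborFinset, H.adj]
    simp
  rw [← SimpleGraph.card_neighborFinset_eq_degree, h1, card_map, card_univ]
  decide

theorem walk_mul {s : Fin 12 → L} {h : L} {b : ZMod N → ZMod 5} (H : Nbrs s h b)
    (M : Matrix ((L → ZMod 5) × L) ((L → ZMod 5) × L) ℝ) (p q : (L → ZMod 5) × L) :
    (walk (LG s h b) * M) p q = 1 / 2 * M p q + 1 / 40 * ∑ j, M (nbr s h b p j) q := by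
  classical
  rw [mul_apply]
  have h1 : ∀ r, walk (LG s h b) p r * M r q = (if p = r then 1 / 2 * M r q else 0) +
      if (LG s h b).Adj p r then 1 / 40 * M r q else 0 := by
    intro r
    unfold walk
    rw [of_apply]
    by_cases hpr : p = r
    · subst hpr
      simp
    · rw [if_neg hpr, if_neg hpr, zero_add]
      split_ifs with ha
      · rw [degree_eq H]; norm_num
      · simp
  simp only [h1]
  rw [sum_add_distrib, sum_ite_eq, if_pos (mem_univ _)]
  congr 1
  rw [← sum_filter]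
  have h2 : univ.filter (fun r => (LG s h b).Adj p r) = univ.map ⟨nbr s h b p, H.inj p⟩ := by
    ext r
    simp [H.adj]
  rw [h2, sum_map, mul_sum]
  rfl

theorem walk_pow {s : Fin 12 → L} {h : L} {b : ZMod N → ZMod 5} (H : Nbrs s h b) (t : ℕ) :
    ∀ p q : (L → ZMod 5) × L, (((walk (LG s h b) ^ t) p q : ℝ) : ℂ) =
      ((5 : ℂ) ^ Fintype.card L)⁻¹ * ∑ u : L → ZMod 5, chi u (p.1 - q.1) *
        (((PW s (ww h b u) ^ t) p.2 q.2 : ℝ) : ℂ) := by
  induction t with
  | zero =>
    intro p q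
    simp only [pow_zero, one_apply]
    rw [← sum_mul, sum_chi]
    by_cases h1 : p.1 = q.1
    · by_cases h2 : p.2 = q.2
      · have h3 : p = q := Prod.ext h1 h2
        subst h3
        simp
      · have h3 : p ≠ q := fun hh => h2 (by rw [hh])
        simp [h2, h3]
    · have h3 : p ≠ q := fun hh => h1 (by rw [hh])
      have h4 : p.1 - q.1 ≠ 0 := sub_ne_zero.mpr h1
      simp [h3, h4]
  | succ t ih =>
    intro p q
    rw [pow_succ', walk_mul H]
    push_cast
    rw [Fintype.sum_sum_type]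
    simp only [ih]
    have h1 : ∀ u : L → ZMod 5, chi u (p.1 - q.1) *
        (((PW s (ww h b u) ^ (t + 1)) p.2 q.2 : ℝ) : ℂ) =
        1 / 2 * (chi u (p.1 - q.1) * (((PW s (ww h b u) ^ t) p.2 q.2 : ℝ) : ℂ)) +
        1 / 40 * (∑ i, chi u (p.1 - q.1) * (((PW s (ww h b u) ^ t) (s i * p.2) q.2 : ℝ) : ℂ) +
          ∑ j : Bool × {z : ZMod 5 // z ≠ 0}, chi u (p.1 + tog h b p.2 (j.1, j.2.1) - q.1) *
            (((PW s (ww h b u) ^ t) p.2 q.2 : ℝ) : ℂ)) := by
      intro u
      rw [pow_succ', PW_mul]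
      have h2 : ∀ j : Bool × {z : ZMod 5 // z ≠ 0}, chi u (p.1 + tog h b p.2 (j.1, j.2.1) - q.1) =
          chi u (p.1 - q.1) * chi u (tog h b p.2 (j.1, j.2.1)) := by
        intro j
        rw [← chi_add]
        congr 1
        abel
      simp only [h2]
      have h3 : ∑ j : Bool × {z : ZMod 5 // z ≠ 0}, chi u (p.1 - q.1) *
          chi u (tog h b p.2 (j.1, j.2.1)) * (((PW s (ww h b u) ^ t) p.2 q.2 : ℝ) : ℂ) =
          chi u (p.1 - q.1) * (ww h b u p.2 : ℂ) *
            (((PW s (ww h b u) ^ t) p.2 q.2 : ℝ) : ℂ) := by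
        rw [← sum_mul, ← mul_sum, sum_tog]
      have h4 : ∑ i, chi u (p.1 - q.1) *
          (((PW s (ww h b u) ^ t) (s i * p.2) q.2 : ℝ) : ℂ) = chi u (p.1 - q.1) *
          ∑ i, (((PW s (ww h b u) ^ t) (s i * p.2) q.2 : ℝ) : ℂ) := by
        rw [mul_sum]
      rw [h3, h4, ← mul_sum, Complex.ofReal_add, Complex.ofReal_mul, Complex.ofReal_mul,
        Complex.ofReal_sum]
      push_cast
      ring
    have gen : ∀ (a : (L → ZMod 5) → ℂ) (b : (L → ZMod 5) → Fin 12 → ℂ)
        (c : (L → ZMod 5) → (Bool × {z : ZMod 5 // z ≠ 0}) → ℂ),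
        ∑ u, (1 / 2 * a u + 1 / 40 * (∑ i, b u i + ∑ j, c u j)) =
        1 / 2 * ∑ u, a u + 1 / 40 * (∑ i, ∑ u, b u i + ∑ j, ∑ u, c u j) := by
      intro a b c
      rw [sum_add_distrib, ← mul_sum, ← mul_sum, sum_add_distrib, sum_comm,
        sum_comm (f := fun u j => c u j)]
    have h5 : ∑ u, chi u (p.1 - q.1) *
        (((PW s (ww h b u) ^ (t + 1)) p.2 q.2 : ℝ) : ℂ) =
        1 / 2 * ∑ u, (chi u (p.1 - q.1) * (((PW s (ww h b u) ^ t) p.2 q.2 : ℝ) : ℂ)) +
        1 / 40 * (∑ i, ∑ u, chi u (p.1 - q.1) *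
            (((PW s (ww h b u) ^ t) (s i * p.2) q.2 : ℝ) : ℂ) +
          ∑ j : Bool × {z : ZMod 5 // z ≠ 0}, ∑ u,
            chi u (p.1 + tog h b p.2 (j.1, j.2.1) - q.1) *
            (((PW s (ww h b u) ^ t) p.2 q.2 : ℝ) : ℂ)) := by
      rw [← gen]
      exact sum_congr rfl fun u _ => h1 u
    rw [h5]
    simp only [nbr]
    rw [← mul_sum, ← mul_sum]
    ring

end walk

end Pool.Agent.P8H84.MX.PC
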