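import Pool.Agent.P8H84.MX.C3

/-!
# Part C, step 4: the code and the sum over all characters
-/

set_option autoImplicit false

namespace Pool.Agent.P8H84.MX.PC

open Finset

section code
variable {L : Type} [Group L] [Fintype L] [DecidableEq L] {N : ℕ} [NeZero N]

/-- powers of `h` indexed by `ZMod N` -/
def hp (h : L) (i : ZMod N) : L := h ^ i.val

omit [Fintype L] [DecidableEq L] in
theorem hp_add {h : L} (hN : orderOf h = N) (i j : ZMod N) : hp h (i + j) = hp h i * hp h j := by
  unfold hp
  have h1 := pow_mod_orderOf h (i.val + j.val)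
  rw [hN] at h1
  rw [ZMod.val_add, h1, pow_add]

omit [Fintype L] [DecidableEq L] in
theorem hp_zero (h : L) : hp h (0 : ZMod N) = 1 := by
  simp [hp]

omit [Fintype L] [DecidableEq L] in
theorem hp_inj {h : L} (hN : orderOf h = N) : Function.Injective (hp (N := N) h) := by
  intro i j hij
  apply ZMod.val_injective
  exact pow_injOn_Iio_orderOf (by rw [hN]; exact ZMod.val_lt i) (by rw [hN]; exact ZMod.val_lt j)
    hij

omit [DecidableEq L] in
theorem exists_hp {h : L} (hN : orderOf h = N) {x : L} (hx : x ∈ Subgroup.zpowers h) :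
    ∃ i : ZMod N, x = hp h i := by
  classical
  rw [mem_zpowers_iff_mem_range_orderOf] at hx
  rw [mem_image] at hx
  obtain ⟨k, hk, rfl⟩ := hx
  rw [mem_range, hN] at hk
  exact ⟨(k : ZMod N), by unfold hp; rw [ZMod.val_cast_of_lt hk]⟩

theorem par_eq (h : L) (b : ZMod N → ZMod 5) (u : L → ZMod 5) (l : L) :
    par h b u l = ∑ i : ZMod N, u (hp h i * l) * b i := by
  unfold par bvec
  simp only [mul_sum]
  rw [sum_comm]
  refine sum_congr rfl fun i _ => ?_
  simp [hp]

/-- the restriction of `u` to the coset of `l`, reversed -/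
def res (h : L) (u : L → ZMod 5) (l : L) : ZMod N → ZMod 5 := fun i => u (hp h (-i) * l)

theorem conv_res {h : L} (hN : orderOf h = N) (b : ZMod N → ZMod 5) (u : L → ZMod 5) (l : L)
    (k : ZMod N) : conv (res h u l) b k = par h b u (hp h (-k) * l) := by
  rw [par_eq]
  unfold conv res
  rw [← Equiv.sum_comp (Equiv.subLeft k)]
  refine sum_congr rfl fun i _ => ?_
  rw [Equiv.subLeft_apply, ← mul_assoc, ← hp_add hN]
  congr 2
  · congr 2
    ring
  · ring

/-- positions where `u` or its pairing with the toggles is nonzero -/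
def BB (h : L) (b : ZMod N → ZMod 5) (u : L → ZMod 5) : Finset L :=
  univ.filter fun l => u l ≠ 0 ∨ par h b u l ≠ 0

open Classical in
/-- positions whose coset meets the support of `u` -/
noncomputable def SS (N : ℕ) [NeZero N] (h : L) (u : L → ZMod 5) : Finset L :=
  univ.filter fun l => (res h u l : ZMod N → ZMod 5) ≠ 0

theorem SS_card_le {h : L} (hN : orderOf h = N) (b : ZMod N → ZMod 5) (hb : GoodCode N b)
    (u : L → ZMod 5) : (SS N h u).card ≤ 200 * (BB h b u).card := by
  classical
  have hpos : 0 < N := Nat.pos_of_ne_zero (NeZero.ne N)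
  have e1 : ∀ (f : L → Prop) [DecidablePred f] (k : ZMod N),
      ∑ l : L, (if f (hp h (-k) * l) then 1 else 0) = (univ.filter f).card := by
    intro f _ k
    rw [card_filter]
    exact Equiv.sum_comp (Equiv.mulLeft (hp h (-k))) (fun l => if f l then 1 else 0)
  have h1 : ∑ l : L, wt (res (N := N) h u l) = N * (univ.filter fun l => u l ≠ 0).card := by
    unfold wt
    simp only [card_filter]
    rw [sum_comm]
    have : ∀ k : ZMod N, ∑ l : L, (if res (N := N) h u l k ≠ 0 then 1 else 0) =
        ∑ l : L, (if u l ≠ 0 then 1 else 0) := by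
      intro k
      rw [← card_filter (fun l => u l ≠ 0), ← e1 (fun l => u l ≠ 0) k]
      rfl
    rw [sum_congr rfl fun k _ => this k, sum_const, card_univ, ZMod.card, smul_eq_mul]
  have h2 : ∑ l : L, wt (conv (res (N := N) h u l) b) =
      N * (univ.filter fun l => par h b u l ≠ 0).card := by
    unfold wt
    simp only [card_filter]
    rw [sum_comm]
    have : ∀ k : ZMod N, ∑ l : L, (if conv (res (N := N) h u l) b k ≠ 0 then 1 else 0) =
        ∑ l : L, (if par h b u l ≠ 0 then 1 else 0) := by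
      intro k
      rw [← card_filter (fun l => par h b u l ≠ 0), ← e1 (fun l => par h b u l ≠ 0) k]
      exact sum_congr rfl fun l _ => by rw [conv_res hN]
    rw [sum_congr rfl fun k _ => this k, sum_const, card_univ, ZMod.card, smul_eq_mul]
  have h3 : (univ.filter fun l => u l ≠ 0).card ≤ (BB h b u).card :=
    card_le_card fun l hl => by
      unfold BB; rw [mem_filter] at hl ⊢; exact ⟨hl.1, Or.inl hl.2⟩
  have h4 : (univ.filter fun l => par h b u l ≠ 0).card ≤ (BB h b u).card :=
    card_le_card fun l hl => by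
      unfold BB; rw [mem_filter] at hl ⊢; exact ⟨hl.1, Or.inr hl.2⟩
  have h5 : N * (SS N h u).card ≤ ∑ l : L, 100 * (wt (res (N := N) h u l) +
      wt (conv (res (N := N) h u l) b)) := by
    calc N * (SS N h u).card = ∑ l ∈ SS N h u, N := by rw [sum_const, smul_eq_mul, mul_comm]
      _ ≤ ∑ l ∈ SS N h u, 100 * (wt (res (N := N) h u l) + wt (conv (res (N := N) h u l) b)) := by
          refine sum_le_sum fun l hl => hb _ ?_
          unfold SS at hl
          rw [mem_filter] at hl
          exact hl.2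
      _ ≤ _ := sum_le_sum_of_subset (subset_univ _)
  rw [← mul_sum, sum_add_distrib, h1, h2] at h5
  have h6 : N * (SS N h u).card ≤ N * (200 * (BB h b u).card) := by
    calc _ ≤ _ := h5
      _ ≤ 100 * (N * (BB h b u).card + N * (BB h b u).card) := by gcongr
      _ = _ := by ring
  exact Nat.le_of_mul_le_mul_left h6 hpos

/-! ### Cosets -/

/-- the right cosets of `⟨h⟩` -/
abbrev Co (h : L) : Type := Quotient (QuotientGroup.rightRel (Subgroup.zpowers h))

noncomputable instance (h : L) : Fintype (Co h) := Fintype.ofFinite _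

noncomputable instance (h : L) : DecidableEq (Co h) := Classical.decEq _

/-- coordinates -/
noncomputable def cc (h : L) (x : Co h × ZMod N) : L := hp h x.2 * x.1.out

theorem cc_surj {h : L} (hN : orderOf h = N) : Function.Surjective (cc (N := N) h) := by
  intro l
  have h1 : (⟦(⟦l⟧ : Co h).out⟧ : Co h) = ⟦l⟧ := Quotient.out_eq _
  have h2 := Quotient.exact h1
  have h3 : l * ((⟦l⟧ : Co h).out)⁻¹ ∈ Subgroup.zpowers h :=
    QuotientGroup.rightRel_apply.mp h2
  obtain ⟨i, hi⟩ := exists_hp hN h3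
  refine ⟨(⟦l⟧, i), ?_⟩
  unfold cc
  rw [← hi]
  group

theorem cc_mk {h : L} (x : Co h × ZMod N) : (⟦cc h x⟧ : Co h) = x.1 := by
  have h1 : (⟦x.1.out⟧ : Co h) = x.1 := Quotient.out_eq _
  refine Eq.trans ?_ h1
  apply Quotient.sound
  apply QuotientGroup.rightRel_apply.mpr
  unfold cc hp
  rw [mul_inv_rev, mul_inv_cancel_left]
  exact Subgroup.inv_mem _ (Subgroup.npow_mem_zpowers h _)

theorem cc_inj {h : L} (hN : orderOf h = N) : Function.Injective (cc (N := N) h) := by
  intro x y hxy
  have h1 : x.1 = y.1 := by rw [← cc_mk x, ← cc_mk y, hxy]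
  refine Prod.ext h1 ?_
  unfold cc at hxy
  rw [h1] at hxy
  exact hp_inj hN (mul_right_cancel hxy)

/-- `u` in coordinates -/
noncomputable def cod (h : L) (u : L → ZMod 5) : Co h → ZMod N → ZMod 5 :=
  fun x i => u (cc h (x, i))

theorem cod_inj {h : L} (hN : orderOf h = N) :
    Function.Injective (cod (N := N) h : (L → ZMod 5) → _) := by
  intro u v huv
  funext l
  obtain ⟨x, rfl⟩ := cc_surj hN l
  exact congrFun (congrFun huv x.1) x.2

theorem SS_card_ge {h : L} (hN : orderOf h = N) (u : L → ZMod 5) :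
    N * (univ.filter fun x : Co h => (cod h u x : ZMod N → ZMod 5) ≠ 0).card ≤
      (SS N h u).card := by
  classical
  have h1 : ((univ.filter fun x : Co h => (cod h u x : ZMod N → ZMod 5) ≠ 0) ×ˢ
      (univ : Finset (ZMod N))).card ≤ (SS N h u).card := by
    refine card_le_card_of_injOn (cc h) ?_ ((cc_inj hN).injOn)
    rintro ⟨x, i⟩ hx
    rw [mem_coe, mem_product, mem_filter] at hx
    obtain ⟨j, hj⟩ := Function.ne_iff.mp hx.1.2
    rw [mem_coe]
    unfold SS
    rw [mem_filter]
    refine ⟨mem_univ _, Function.ne_iff.mpr ⟨i - j, ?_⟩⟩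
    unfold res
    unfold cod at hj
    have : hp h (-(i - j)) * cc h (x, i) = cc h (x, j) := by
      unfold cc
      simp only
      rw [← mul_assoc, ← hp_add hN]
      congr 2
      ring
    rw [this]
    exact hj
  rw [card_product, card_univ, ZMod.card] at h1
  rw [mul_comm]
  exact h1

theorem sum_exp_le {h : L} (hN : orderOf h = N) (kap : ℝ) (hk : 0 ≤ kap) :
    ∑ u : L → ZMod 5, Real.exp (-(kap * (SS N h u).card)) ≤
      (1 + 5 ^ N * Real.exp (-(kap * N))) ^ Fintype.card (Co h) := by
  classical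
  set eps := Real.exp (-(kap * N)) with heps
  have heps0 : 0 < eps := Real.exp_pos _
  let phi : (ZMod N → ZMod 5) → ℝ := fun w => if w = 0 then 1 else eps
  have hphi0 : ∀ w, 0 ≤ phi w := by
    intro w
    simp only [phi]
    split_ifs <;> linarith
  have h1 : ∀ u : L → ZMod 5, Real.exp (-(kap * (SS N h u).card)) ≤
      ∏ x : Co h, phi (cod h u x) := by
    intro u
    have h2 : ∏ x : Co h, phi (cod h u x) = eps ^
        (univ.filter fun x : Co h => (cod h u x : ZMod N → ZMod 5) ≠ 0).card := by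
      simp only [phi]
      rw [prod_ite, prod_const_one, one_mul, prod_const]
    rw [h2, heps, ← Real.exp_nat_mul]
    apply Real.exp_le_exp.mpr
    have h3 : ((N * (univ.filter fun x : Co h =>
        (cod h u x : ZMod N → ZMod 5) ≠ 0).card : ℕ) : ℝ) ≤ ((SS N h u).card : ℕ) := by
      exact_mod_cast SS_card_ge hN u
    push_cast at h3
    have h4 := mul_le_mul_of_nonneg_left h3 hk
    nlinarith
  have h5 : ∑ w : ZMod N → ZMod 5, phi w ≤ 1 + 5 ^ N * eps := by
    have h6 : ∀ w : ZMod N → ZMod 5, phi w ≤ (if w = 0 then 1 else 0) + eps := by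
      intro w
      simp only [phi]
      split_ifs <;> linarith
    calc ∑ w : ZMod N → ZMod 5, phi w ≤ ∑ w : ZMod N → ZMod 5, ((if w = 0 then 1 else 0) + eps) :=
          sum_le_sum fun w _ => h6 w
      _ = 1 + 5 ^ N * eps := by
          rw [sum_add_distrib, sum_ite_eq', sum_const, card_univ, Fintype.card_fun, ZMod.card,
            ZMod.card, nsmul_eq_mul]
          simp
  calc ∑ u : L → ZMod 5, Real.exp (-(kap * (SS N h u).card))
      ≤ ∑ u : L → ZMod 5, ∏ x : Co h, phi (cod h u x) := sum_le_sum fun u _ => h1 u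
    _ ≤ ∑ v : Co h → ZMod N → ZMod 5, ∏ x : Co h, phi (v x) := by
        rw [← sum_image (f := fun v : Co h → ZMod N → ZMod 5 => ∏ x : Co h, phi (v x))
          ((cod_inj hN).injOn)]
        exact sum_le_sum_of_subset_of_nonneg (subset_univ _)
          fun v _ _ => prod_nonneg fun x _ => hphi0 _
    _ = (∑ w : ZMod N → ZMod 5, phi w) ^ Fintype.card (Co h) := by
        have h7 := Finset.prod_univ_sum (fun _ : Co h => (univ : Finset (ZMod N → ZMod 5)))
          (fun _ w => phi w)
        rw [Fintype.piFinset_univ] at h7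
        rw [← h7, prod_const, card_univ]
    _ ≤ _ := by
        apply pow_le_pow_left₀ _ h5
        exact sum_nonneg fun w _ => hphi0 w

theorem card_co_le (h : L) : Fintype.card (Co h) ≤ Fintype.card L :=
  Fintype.card_le_of_surjective (fun l => (⟦l⟧ : Co h)) Quotient.mk_surjective

/-- the total contribution of the nontrivial characters -/
theorem sum_small {h : L} (hN : orderOf h = N) (hN2 : 2 ≤ N)
    (hcard : Fintype.card L ≤ 5 ^ (9 * N)) :
    (Fintype.card L : ℝ) * ∑ u ∈ univ.filter (fun u : L → ZMod 5 => u ≠ 0),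
      Real.exp (-(40 * (SS N h u).card)) ≤ 1 / 8 := by
  classical
  have h1 := sum_exp_le (L := L) hN 40 (by norm_num)
  have hS0 : (SS N h (0 : L → ZMod 5)).card = 0 := by
    rw [card_eq_zero]
    unfold SS
    rw [filter_eq_empty_iff]
    intro l _
    rw [not_not]
    rfl
  have h2 : ∑ u : L → ZMod 5, Real.exp (-(40 * (SS N h u).card)) =
      ∑ u ∈ univ.filter (fun u : L → ZMod 5 => u ≠ 0), Real.exp (-(40 * (SS N h u).card)) +
        1 := by
    rw [← sum_filter_add_sum_filter_not univ (fun u : L → ZMod 5 => u ≠ 0)]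
    congr 1
    have : univ.filter (fun u : L → ZMod 5 => ¬ u ≠ 0) = {0} := by
      ext u; simp
    rw [this, sum_singleton, hS0]
    simp
  rw [h2] at h1
  have hm : (Fintype.card (Co h) : ℝ) ≤ 5 ^ (9 * N) := by
    have := (card_co_le h).trans hcard
    exact_mod_cast this
  have hL : (Fintype.card L : ℝ) ≤ 5 ^ (9 * N) := by exact_mod_cast hcard
  have he : Real.exp (-(40 * (N : ℝ))) ≤ (1 / 5) ^ (20 * N) := by
    have e1 : Real.exp (-2) ≤ 1 / 5 := by
      rw [Real.exp_neg, one_div]
      apply inv_anti₀ (by norm_num)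
      have e2 : Real.exp 2 = Real.exp 1 * Real.exp 1 := by rw [← Real.exp_add]; norm_num
      rw [e2]
      have := Real.exp_one_gt_d9
      nlinarith
    have e3 : Real.exp (-(40 * (N : ℝ))) = Real.exp (-2) ^ (20 * N) := by
      rw [← Real.exp_nat_mul]
      congr 1
      push_cast
      ring
    rw [e3]
    exact pow_le_pow_left₀ (Real.exp_pos _).le e1 _
  set a : ℝ := 5 ^ N * Real.exp (-(40 * (N : ℝ))) with ha
  have ha0 : 0 ≤ a := by positivity
  have ha1 : a ≤ 5 ^ N * (1 / 5) ^ (20 * N) := by rw [ha]; gcongr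
  have h3 : (1 + a) ^ Fintype.card (Co h) ≤ Real.exp (a * Fintype.card (Co h)) := by
    rw [mul_comm, Real.exp_nat_mul]
    apply pow_le_pow_left₀ (by positivity)
    have := Real.add_one_le_exp a
    linarith
  have h4 : a * Fintype.card (Co h) * 5 ^ (9 * N) ≤ (1 / 5) ^ N := by
    calc a * Fintype.card (Co h) * 5 ^ (9 * N) ≤
        (5 ^ N * (1 / 5) ^ (20 * N)) * 5 ^ (9 * N) * 5 ^ (9 * N) := by gcongr
      _ = (1 / 5) ^ N := by
          have : ((1 : ℝ) / 5) ^ (20 * N) = ((1 / 5) ^ N) ^ 20 := by rw [← pow_mul, mul_comm]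
          rw [this]
          have e5 : (5 : ℝ) ^ (9 * N) = (5 ^ N) ^ 9 := by rw [← pow_mul, mul_comm]
          rw [e5]
          have e6 : (5 : ℝ) ^ N * (1 / 5) ^ N = 1 := by rw [← mul_pow]; norm_num
          calc (5 : ℝ) ^ N * ((1 / 5) ^ N) ^ 20 * (5 ^ N) ^ 9 * (5 ^ N) ^ 9 =
              ((5 : ℝ) ^ N * (1 / 5) ^ N) ^ 19 * (1 / 5) ^ N := by ring
            _ = _ := by rw [e6]; ring
  have h5 : (1 : ℝ) ≤ 5 ^ (9 * N) := one_le_pow₀ (by norm_num)
  have h6 : ((1 : ℝ) / 5) ^ N ≤ 1 / 16 := by
    calc ((1 : ℝ) / 5) ^ N ≤ (1 / 5) ^ 2 := pow_le_pow_of_le_one (by norm_num) (by norm_num) hN2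
      _ ≤ 1 / 16 := by norm_num
  have h7 : 0 ≤ a * Fintype.card (Co h) := by positivity
  have h8 : a * Fintype.card (Co h) ≤ 1 := by nlinarith
  have h9 : Real.exp (a * Fintype.card (Co h)) - 1 ≤ 2 * (a * Fintype.card (Co h)) := by
    have := Real.abs_exp_sub_one_le (x := a * Fintype.card (Co h)) (by rw [abs_of_nonneg h7]; exact h8)
    rw [abs_of_nonneg h7] at this
    exact (le_abs_self _).trans this
  have h10 : ∑ u ∈ univ.filter (fun u : L → ZMod 5 => u ≠ 0),
      Real.exp (-(40 * (SS N h u).card)) ≤ 2 * (a * Fintype.card (Co h)) := by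
    linarith
  calc (Fintype.card L : ℝ) * ∑ u ∈ univ.filter (fun u : L → ZMod 5 => u ≠ 0),
      Real.exp (-(40 * (SS N h u).card)) ≤ 5 ^ (9 * N) * (2 * (a * Fintype.card (Co h))) := by
        gcongr
    _ = 2 * (a * Fintype.card (Co h) * 5 ^ (9 * N)) := by ring
    _ ≤ 2 * (1 / 16) := by linarith
    _ = 1 / 8 := by norm_num

end code

end Pool.Agent.P8H84.MX.PC
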