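import Pool.Agent.P8H84.MX.Defs

/-!
# Project MX, part G (first file): the neighbours in the graph `LG`
-/

set_option autoImplicit false

namespace Pool.Agent.P8H84.MX

open Finset

instance factPrime5 : Fact (Nat.Prime 5) := ⟨by norm_num⟩

section G1
variable {lam : ℝ} {N : ℕ} [NeZero N] {L : Type} [Group L] [Fintype L] [DecidableEq L]
  {s : Fin 12 → L} {h : L} {b : ZMod N → ZMod 5}

theorem hpowG_inj (hM : MarkerGroup lam N L s h) {i j : ZMod N}
    (hij : h ^ i.val = h ^ j.val) : i = j := by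
  have h1 : i.val = j.val := by
    have h2 := pow_injOn_Iio_orderOf (x := h)
    refine h2 ?_ ?_ hij
    · simp only [Set.mem_Iio]; rw [hM.ord]; exact ZMod.val_lt i
    · simp only [Set.mem_Iio]; rw [hM.ord]; exact ZMod.val_lt j
  exact ZMod.val_injective N h1

theorem bvec_apply (hM : MarkerGroup lam N L s h) (l : L) (i : ZMod N) :
    bvec h b l (h ^ i.val * l) = b i := by
  unfold bvec
  rw [Finset.sum_eq_single i]
  · simp
  · intro j _ hj
    rw [if_neg]
    intro h1
    exact hj (hpowG_inj hM (mul_right_cancel h1)).symm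
  · intro h1
    exact absurd (Finset.mem_univ i) h1

theorem two_supp (hN : 400 ≤ N) (hb : GoodCode N b) : ∃ i j : ZMod N, i ≠ j ∧ b i ≠ 0 ∧ b j ≠ 0 := by
  have h1 := hb (Pi.single 0 1) (by
    intro h2
    have h3 := congrFun h2 0
    simp at h3)
  have h2 : conv (Pi.single 0 1) b = b := by
    funext i
    unfold conv
    rw [Finset.sum_eq_single 0]
    · simp
    · intro j _ hj
      simp [Pi.single_apply, hj]
    · intro h3
      exact absurd (Finset.mem_univ _) h3
  have h3 : wt (Pi.single (0 : ZMod N) (1 : ZMod 5)) = 1 := by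
    unfold wt
    have : (univ.filter fun i => (Pi.single (0 : ZMod N) (1 : ZMod 5) : ZMod N → ZMod 5) i ≠ 0) =
        {0} := by
      ext i
      simp [Pi.single_apply]
    rw [this]; simp
  rw [h2, h3] at h1
  have h4 : 1 < wt b := by omega
  unfold wt at h4
  rw [Finset.one_lt_card] at h4
  obtain ⟨i, hi, j, hj, hij⟩ := h4
  exact ⟨i, j, hij, (Finset.mem_filter.1 hi).2, (Finset.mem_filter.1 hj).2⟩

theorem tog_false (l : L) (z : ZMod 5) : tog h b l (false, z) = z • (Pi.single l 1 : L → ZMod 5) := by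
  simp [tog]

theorem tog_true (l : L) (z : ZMod 5) : tog h b l (true, z) = z • bvec h b l := by
  simp [tog]

theorem tog_ne (hN : 400 ≤ N) (hM : MarkerGroup lam N L s h) (hb : GoodCode N b) (l : L)
    {z z' : ZMod 5} (hz : z ≠ 0) : z • bvec h b l ≠ z' • (Pi.single l 1 : L → ZMod 5) := by
  intro h1
  obtain ⟨i, j, hij, hi, hj⟩ := two_supp hN hb
  have key : ∀ k : ZMod N, b k ≠ 0 → h ^ k.val * l = l := by
    intro k hk
    have h2 := congrFun h1 (h ^ k.val * l)
    simp only [Pi.smul_apply, smul_eq_mul] at h2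
    rw [bvec_apply hM] at h2
    by_contra h3
    rw [Pi.single_apply, if_neg h3, mul_zero] at h2
    exact (mul_ne_zero hz hk) h2
  have h4 := (key i hi).trans (key j hj).symm
  exact hij (hpowG_inj hM (mul_right_cancel h4))

theorem bvec_ne (hN : 400 ≤ N) (hM : MarkerGroup lam N L s h) (hb : GoodCode N b) (l : L) :
    bvec h b l ≠ 0 := by
  intro h1
  obtain ⟨i, j, hij, hi, hj⟩ := two_supp hN hb
  have h2 := congrFun h1 (h ^ i.val * l)
  rw [bvec_apply hM] at h2
  exact hi h2

theorem tog_inj (hN : 400 ≤ N) (hM : MarkerGroup lam N L s h) (hb : GoodCode N b) (l : L)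
    {e e' : Bool × ZMod 5} (he : e.2 ≠ 0) (he' : e'.2 ≠ 0) (h1 : tog h b l e = tog h b l e') :
    e = e' := by
  rcases e with ⟨_ | _, z⟩ <;> rcases e' with ⟨_ | _, z'⟩ <;> simp only at he he'
  · rw [tog_false, tog_false] at h1
    have h2 := congrFun h1 l
    simp at h2
    rw [h2]
  · rw [tog_false, tog_true] at h1
    exact absurd h1.symm (tog_ne hN hM hb l he')
  · rw [tog_false, tog_true] at h1
    exact absurd h1 (tog_ne hN hM hb l he)
  · rw [tog_true, tog_true] at h1
    have h3 : (z - z') • bvec h b l = 0 := by rw [sub_smul, h1, sub_self]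
    rcases smul_eq_zero.1 h3 with h4 | h4
    · rw [sub_eq_zero.1 h4]
    · exact absurd h4 (bvec_ne hN hM hb l)

theorem tog_ne_zero (hN : 400 ≤ N) (hM : MarkerGroup lam N L s h) (hb : GoodCode N b) (l : L)
    {e : Bool × ZMod 5} (he : e.2 ≠ 0) : tog h b l e ≠ 0 := by
  rcases e with ⟨_ | _, z⟩ <;> simp only at he
  · rw [tog_false]
    intro h1
    have h2 := congrFun h1 l
    simp at h2
    exact he h2
  · rw [tog_true]
    intro h1
    rcases smul_eq_zero.1 h1 with h4 | h4
    · exact he h4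
    · exact bvec_ne hN hM hb l h4

/-- the index type of the neighbours -/
abbrev NbI : Type := Fin 12 ⊕ (Bool × {z : ZMod 5 // z ≠ 0})

/-- the neighbours of `p` -/
def nb (s : Fin 12 → L) (h : L) (b : ZMod N → ZMod 5) (p : (L → ZMod 5) × L) :
    NbI → (L → ZMod 5) × L
  | Sum.inl i => (p.1, s i * p.2)
  | Sum.inr e => (p.1 + tog h b p.2 (e.1, e.2.1), p.2)

theorem nb_inj (hN : 400 ≤ N) (hM : MarkerGroup lam N L s h) (hb : GoodCode N b)
    (p : (L → ZMod 5) × L) : Function.Injective (nb s h b p) := by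
  rintro (i | ⟨e, z⟩) (j | ⟨e', z'⟩) h1 <;> simp only [nb, Prod.mk.injEq] at h1
  · rw [hM.inj (mul_right_cancel h1.2)]
  · exact absurd (mul_eq_right.1 h1.2) (hM.ne_one i)
  · exact absurd (mul_eq_right.1 h1.2.symm) (hM.ne_one j)
  · have h2 := tog_inj hN hM hb p.2 (e := (e, z.1)) (e' := (e', z'.1)) z.2 z'.2
      (add_left_cancel h1.1)
    simp only [Prod.mk.injEq] at h2
    rw [h2.1, Subtype.ext h2.2]

theorem adj_iff (hN : 400 ≤ N) (hM : MarkerGroup lam N L s h) (hb : GoodCode N b)
    (p q : (L → ZMod 5) × L) : (LG s h b).Adj p q ↔ ∃ i, nb s h b p i = q := by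
  constructor
  · rintro ⟨hne, ⟨h1, ⟨i, hi⟩ | ⟨i, hi⟩⟩ | ⟨h1, e, he⟩⟩
    · exact ⟨Sum.inl i, Prod.ext h1 hi.symm⟩
    · obtain ⟨j, hj⟩ := hM.inv i
      refine ⟨Sum.inl j, Prod.ext h1 ?_⟩
      simp only [nb]
      rw [hj, hi, inv_mul_cancel_left]
    · have h2 : e.2 ≠ 0 := by
        intro h3
        apply hne
        refine Prod.ext ?_ h1
        rw [he]
        unfold tog
        split_ifs <;> simp [h3]
      exact ⟨Sum.inr (e.1, ⟨e.2, h2⟩), Prod.ext he.symm h1⟩
  · rintro ⟨i | ⟨e, z⟩, rfl⟩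
    · refine ⟨?_, Or.inl ⟨rfl, Or.inl ⟨i, rfl⟩⟩⟩
      intro h1
      have h2 := congrArg Prod.snd h1
      simp only [nb] at h2
      exact hM.ne_one i (mul_eq_right.1 h2.symm)
    · refine ⟨?_, Or.inr ⟨rfl, (e, z.1), rfl⟩⟩
      intro h1
      have h2 := congrArg Prod.fst h1
      simp only [nb] at h2
      exact tog_ne_zero hN hM hb p.2 (e := (e, z.1)) z.2 (left_eq_add.1 h2)

theorem card_NbI : Fintype.card NbI = 20 := by
  rw [Fintype.card_sum, Fintype.card_prod, Fintype.card_subtype_compl]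
  simp [ZMod.card]

theorem nb_card (hN : 400 ≤ N) (hM : MarkerGroup lam N L s h) (hb : GoodCode N b)
    (p : (L → ZMod 5) × L) : Nat.card ((LG s h b).neighborSet p) = 20 := by
  have h1 : (LG s h b).neighborSet p = Set.range (nb s h b p) := by
    ext q
    rw [SimpleGraph.mem_neighborSet, adj_iff hN hM hb]
    rfl
  rw [h1, ← card_NbI, ← Nat.card_eq_fintype_card]
  exact Nat.card_congr (Equiv.ofInjective _ (nb_inj hN hM hb p)).symm

theorem degree_LG (hN : 400 ≤ N) (hM : MarkerGroup lam N L s h) (hb : GoodCode N b)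
    (p : (L → ZMod 5) × L) [Fintype ((LG s h b).neighborSet p)] : (LG s h b).degree p = 20 := by
  rw [← nb_card hN hM hb p, Nat.card_eq_fintype_card, SimpleGraph.card_neighborSet_eq_degree]

theorem statLaw_LG (hN : 400 ≤ N) (hM : MarkerGroup lam N L s h) (hb : GoodCode N b)
    (p : (L → ZMod 5) × L) :
    statLaw (LG s h b) p = 1 / (Fintype.card ((L → ZMod 5) × L) : ℝ) := by
  classical
  unfold statLaw
  have h1 := (LG s h b).sum_degrees_eq_twice_card_edges
  simp only [degree_LG hN hM hb] at h1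
  rw [Finset.sum_const, smul_eq_mul, Finset.card_univ] at h1
  have h2 : (2 * ((LG s h b).edgeFinset.card : ℝ)) =
      (Fintype.card ((L → ZMod 5) × L) : ℝ) * 20 := by
    exact_mod_cast h1.symm
  have h3 : (0 : ℝ) < (Fintype.card ((L → ZMod 5) × L) : ℝ) := by
    have : 0 < Fintype.card ((L → ZMod 5) × L) := Fintype.card_pos_iff.2 ⟨p⟩
    exact_mod_cast this
  rw [degree_LG hN hM hb]
  have h4 : ((20 : ℕ) : ℝ) / (2 * ((LG s h b).edgeFinset.card : ℝ)) = 1 /
      (Fintype.card ((L → ZMod 5) × L) : ℝ) := by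
    rw [h2]; field_simp; norm_num
  convert h4 using 3

/-- the formula for one step of the walk, for functions with values in a real algebra -/
theorem walk_LG_gen {K : Type} [Field K] [Algebra ℝ K] (hN : 400 ≤ N)
    (hM : MarkerGroup lam N L s h) (hb : GoodCode N b) (F : (L → ZMod 5) × L → K)
    (p : (L → ZMod 5) × L) :
    ∑ q, algebraMap ℝ K (walk (LG s h b) p q) * F q = (1 / 2) * F p + (1 / 40) *
      ((∑ i, F (p.1, s i * p.2)) +
        (∑ z ∈ univ.erase (0 : ZMod 5), F (p.1 + z • (Pi.single p.2 1 : L → ZMod 5), p.2)) +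
        ∑ z ∈ univ.erase (0 : ZMod 5), F (p.1 + z • bvec h b p.2, p.2)) := by
  classical
  have h0 : ∀ q, algebraMap ℝ K (walk (LG s h b) p q) * F q =
      (if p = q then (1 / 2) * F q else 0) +
      (if (LG s h b).Adj p q then (1 / 40) * F q else 0) := by
    intro q
    unfold walk
    simp only [Matrix.of_apply]
    by_cases h1 : p = q
    · subst h1
      simp [map_ofNat]
    · rw [if_neg h1, if_neg h1, zero_add]
      by_cases h2 : (LG s h b).Adj p q
      · rw [if_pos h2, if_pos h2, degree_LG hN hM hb]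
        congr 1
        norm_num [map_ofNat]
      · rw [if_neg h2, if_neg h2]; simp
  rw [Finset.sum_congr rfl (fun q _ => h0 q), Finset.sum_add_distrib]
  congr 1
  · simp
  · rw [← Finset.sum_filter]
    have h1 : (univ.filter fun q => (LG s h b).Adj p q) = univ.image (nb s h b p) := by
      ext q
      simp only [Finset.mem_filter, Finset.mem_univ, true_and, Finset.mem_image]
      rw [adj_iff hN hM hb]
    rw [h1, Finset.sum_image (fun x _ y _ hxy => nb_inj hN hM hb p hxy), ← Finset.mul_sum]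
    congr 1
    rw [Fintype.sum_sum_type, add_assoc]
    congr 1
    rw [Fintype.sum_prod_type, Fintype.sum_bool, add_comm]
    congr 1

theorem walk_LG (hN : 400 ≤ N) (hM : MarkerGroup lam N L s h) (hb : GoodCode N b)
    (F : (L → ZMod 5) × L → ℂ) (x : L → ZMod 5) (l : L) :
    ∑ q, (walk (LG s h b) (x, l) q : ℂ) * F q = F (x, l) / 2 + (1 / 40) *
      ((∑ i, F (x, s i * l)) +
        (∑ z ∈ univ.erase (0 : ZMod 5), F (x + z • (Pi.single l 1 : L → ZMod 5), l)) +
        ∑ z ∈ univ.erase (0 : ZMod 5), F (x + z • bvec h b l, l)) := by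
  have h1 := walk_LG_gen hN hM hb F (x, l)
  rw [div_eq_mul_one_div (F (x, l)), mul_comm (F (x, l)), ← h1]
  rfl

theorem walk_LG_real (hN : 400 ≤ N) (hM : MarkerGroup lam N L s h) (hb : GoodCode N b)
    (F : (L → ZMod 5) × L → ℝ) (x : L → ZMod 5) (l : L) :
    ∑ q, walk (LG s h b) (x, l) q * F q = F (x, l) / 2 + (1 / 40) *
      ((∑ i, F (x, s i * l)) +
        (∑ z ∈ univ.erase (0 : ZMod 5), F (x + z • (Pi.single l 1 : L → ZMod 5), l)) +
        ∑ z ∈ univ.erase (0 : ZMod 5), F (x + z • bvec h b l, l)) := by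
  have h1 := walk_LG_gen hN hM hb F (x, l)
  rw [div_eq_mul_one_div (F (x, l)), mul_comm (F (x, l)), ← h1]
  rfl

end G1

end Pool.Agent.P8H84.MX
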