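import Pool.Agent.P8H84.MX.C4
import Pool.Agent.P8H84.MX.G1

/-!
# Part C: the lazy walk on the lamplighter graph is mixed at time `C |L|`
-/

set_option autoImplicit false

namespace Pool.Agent.P8H84.MX.PC

open Finset Matrix

section final
variable {lam : ℝ} {N : ℕ} [NeZero N] {L : Type} [Group L] [Fintype L] [DecidableEq L]
  {s : Fin 12 → L} {h : L} {b : ZMod N → ZMod 5}

theorem nbr_eq (p : (L → ZMod 5) × L) : nbr s h b p = nb s h b p := by
  funext j
  rcases j with i | ⟨e, z⟩
  · rfl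
  · rfl

theorem nbrs (hN : 400 ≤ N) (hM : MarkerGroup lam N L s h) (hb : GoodCode N b) :
    Nbrs s h b where
  inj p := by rw [nbr_eq]; exact nb_inj hN hM hb p
  adj p q := by rw [nbr_eq]; exact adj_iff hN hM hb p q

theorem theta_ge (y : ZMod 5) : -1 ≤ theta y := by
  unfold theta; split_ifs <;> norm_num

theorem theta_le (y : ZMod 5) : theta y ≤ 4 := by
  unfold theta; split_ifs <;> norm_num

theorem ww_ge (u : L → ZMod 5) (l : L) : -2 ≤ ww h b u l := by
  have h1 := theta_ge (u l)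
  have h2 := theta_ge (par h b u l)
  unfold ww
  linarith

theorem ww_le (u : L → ZMod 5) (l : L) : ww h b u l ≤ 8 := by
  have h1 := theta_le (u l)
  have h2 := theta_le (par h b u l)
  unfold ww
  linarith

theorem ww_BB (u : L → ZMod 5) (l : L) (hl : l ∈ BB h b u) : ww h b u l ≤ 3 := by
  unfold BB at hl
  rw [mem_filter] at hl
  have h1 := theta_le (u l)
  have h2 := theta_le (par h b u l)
  unfold ww
  rcases hl.2 with h3 | h3
  · have : theta (u l) = -1 := by unfold theta; rw [if_neg h3]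
    linarith
  · have : theta (par h b u l) = -1 := by unfold theta; rw [if_neg h3]
    linarith

theorem ww_zero (l : L) : ww h b 0 l = 8 := by
  have h1 : par h b 0 l = 0 := by
    unfold par
    simp
  unfold ww
  rw [h1]
  simp only [Pi.zero_apply, theta, if_true]
  norm_num

/-- nontrivial characters -/
theorem entry_u (hM : MarkerGroup lam N L s h) (hl0 : 0 < lam) (hl1 : lam < 1)
    (hb : GoodCode N b) (C : ℕ) (hC : 8000 ≤ 3 * (1 - lam) / 64 * C) (u : L → ZMod 5) (l m : L) :
    |(PW s (ww h b u) ^ (C * Fintype.card L)) l m| ≤ Real.exp (-(40 * (SS N h u).card)) := by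
  have hcard : 0 < (Fintype.card L : ℝ) := by exact_mod_cast Fintype.card_pos
  set mu : ℝ := 1 - 3 * (1 - lam) / 64 * ((BB h b u).card / Fintype.card L) with hmu
  have hB1 : ((BB h b u).card : ℝ) / Fintype.card L ≤ 1 := by
    rw [div_le_one hcard]; exact_mod_cast card_le_univ _
  have hB0 : 0 ≤ ((BB h b u).card : ℝ) / Fintype.card L := by positivity
  have hmu0 : 0 ≤ mu := by
    have : 3 * (1 - lam) / 64 * (((BB h b u).card : ℝ) / Fintype.card L) ≤ 1 * 1 := by
      apply mul_le_mul (by linarith) hB1 hB0 (by norm_num)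
    linarith
  have h1 := entry_bound (PW s (ww h b u)) (PW_symm hM _) ⊤ (fun _ _ => trivial) mu hmu0
    (fun g _ => quad_nonneg s _ g (ww_ge u))
    (fun g _ => quad_le hM hl0 hl1 _ g (ww_le u) (BB h b u) (ww_BB u))
    (C * Fintype.card L) (Pi.single m 1) trivial (by simp) l
  rw [mulVec_single_one] at h1
  refine (show |(PW s (ww h b u) ^ (C * Fintype.card L)) l m| ≤ _ from h1).trans ?_
  have h2 : mu ≤ Real.exp (-(3 * (1 - lam) / 64 * ((BB h b u).card / Fintype.card L))) := by
    have := Real.add_one_le_exp (-(3 * (1 - lam) / 64 *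
      (((BB h b u).card : ℝ) / Fintype.card L)))
    linarith
  calc mu ^ (C * Fintype.card L) ≤
      Real.exp (-(3 * (1 - lam) / 64 * ((BB h b u).card / Fintype.card L))) ^
        (C * Fintype.card L) := pow_le_pow_left₀ hmu0 h2 _
    _ = Real.exp (-((3 * (1 - lam) / 64 * C) * (BB h b u).card)) := by
        rw [← Real.exp_nat_mul]
        congr 1
        push_cast
        field_simp
    _ ≤ Real.exp (-(40 * (SS N h u).card)) := by
        apply Real.exp_le_exp.mpr
        have h3 : ((SS N h u).card : ℝ) ≤ 200 * (BB h b u).card := by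
          exact_mod_cast SS_card_le hM.ord b hb u
        have h4 : 0 ≤ ((BB h b u).card : ℝ) := by positivity
        nlinarith

/-- mean zero functions -/
def MZ (L : Type) [Fintype L] : Submodule ℝ (L → ℝ) where
  carrier := {f | ∑ l, f l = 0}
  add_mem' := by
    intro f g hf hg
    simp only [Set.mem_ofPred_eq, Pi.add_apply, sum_add_distrib] at *
    rw [hf, hg, add_zero]
  zero_mem' := by simp
  smul_mem' := by
    intro c f hf
    simp only [Set.mem_ofPred_eq, Pi.smul_apply, smul_eq_mul, ← mul_sum] at *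
    rw [hf, mul_zero]

theorem mem_MZ (f : L → ℝ) : f ∈ MZ L ↔ ∑ l, f l = 0 := Iff.rfl

theorem PW0_mulVec (g : L → ℝ) (l : L) :
    (PW s (ww h b 0) *ᵥ g) l = 7 / 10 * g l + ∑ i, 1 / 40 * g (s i * l) := by
  rw [PW_mulVec, ww_zero]
  norm_num

theorem PW0_MZ (g : L → ℝ) (hg : g ∈ MZ L) : PW s (ww h b 0) *ᵥ g ∈ MZ L := by
  rw [mem_MZ] at *
  simp only [PW0_mulVec]
  rw [sum_add_distrib, ← mul_sum, hg, sum_comm]
  simp only [← mul_sum, sum_shift, hg]
  simp

theorem PW0_const (c : ℝ) (t : ℕ) :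
    (PW s (ww h b 0) ^ t) *ᵥ (fun _ : L => c) = fun _ => c := by
  induction t with
  | zero => simp
  | succ t ih =>
    rw [pow_succ', ← mulVec_mulVec, ih]
    funext l
    rw [PW0_mulVec]
    simp
    ring

/-- the trivial character -/
theorem entry_0 (hM : MarkerGroup lam N L s h) (hl0 : 0 < lam) (hl1 : lam < 1)
    (C : ℕ) (hC : 8000 ≤ 3 * (1 - lam) / 64 * C) (l m : L) :
    |(Fintype.card L : ℝ) * (PW s (ww h b 0) ^ (C * Fintype.card L)) l m - 1| ≤ 1 / 8 := by
  have hcard : 0 < (Fintype.card L : ℝ) := by exact_mod_cast Fintype.card_pos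
  have hcard1 : 1 ≤ (Fintype.card L : ℝ) := by exact_mod_cast Fintype.card_pos
  set mu : ℝ := 1 - 3 * (1 - lam) / 16 with hmu
  have hmu0 : 0 ≤ mu := by rw [hmu]; linarith
  set g : L → ℝ := fun x => (Pi.single m (1 : ℝ) : L → ℝ) x - 1 / Fintype.card L with hg
  have hgMZ : g ∈ MZ L := by
    rw [mem_MZ, hg, sum_sub_distrib, sum_const, card_univ, nsmul_eq_mul]
    have : ∑ x, (Pi.single m (1 : ℝ) : L → ℝ) x = 1 := by simp
    rw [this]
    field_simp
    ring
  have hgg : g ⬝ᵥ g ≤ 1 := by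
    rw [dotProduct]
    have e1 : ∀ x, g x * g x = (Pi.single m (1 : ℝ) : L → ℝ) x -
        2 / Fintype.card L * (Pi.single m (1 : ℝ) : L → ℝ) x + 1 / Fintype.card L ^ 2 := by
      intro x
      rw [hg]
      by_cases hx : x = m
      · subst hx
        simp only [Pi.single_eq_same]
        ring
      · simp only [Pi.single_eq_of_ne hx]
        ring
    simp only [e1]
    rw [sum_add_distrib, sum_sub_distrib, ← mul_sum, sum_const, card_univ, nsmul_eq_mul]
    have e2 : ∑ x, (Pi.single m (1 : ℝ) : L → ℝ) x = 1 := by simp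
    rw [e2]
    have e3 : (Fintype.card L : ℝ) * (1 / Fintype.card L ^ 2) = 1 / Fintype.card L := by
      field_simp
    rw [e3]
    have e4 : 0 < 1 / (Fintype.card L : ℝ) := by positivity
    have e5 : 2 / (Fintype.card L : ℝ) * 1 = 2 * (1 / Fintype.card L) := by ring
    rw [e5]
    linarith
  have h1 := entry_bound (PW s (ww h b 0)) (PW_symm hM _) (MZ L) PW0_MZ mu hmu0
    (fun g _ => quad_nonneg s _ g (ww_ge 0))
    (fun g hg => quad_le_mean_zero hM _ g (ww_le 0) hg)
    (C * Fintype.card L) g hgMZ hgg l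
  have h2 : ((PW s (ww h b 0) ^ (C * Fintype.card L)) *ᵥ g) l =
      (PW s (ww h b 0) ^ (C * Fintype.card L)) l m - 1 / Fintype.card L := by
    have e1 : g = (Pi.single m (1 : ℝ) : L → ℝ) - fun _ => 1 / (Fintype.card L : ℝ) := by
      funext x; rfl
    rw [e1, mulVec_sub, PW0_const, mulVec_single_one]
    rfl
  rw [h2] at h1
  have h3 : |(Fintype.card L : ℝ) * (PW s (ww h b 0) ^ (C * Fintype.card L)) l m - 1| =
      Fintype.card L * |(PW s (ww h b 0) ^ (C * Fintype.card L)) l m - 1 / Fintype.card L| := by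
    rw [← abs_of_pos hcard, ← abs_mul, abs_of_pos hcard]
    congr 1
    field_simp
  rw [h3]
  have h4 : mu ^ (C * Fintype.card L) ≤ Real.exp (-(8 * Fintype.card L)) := by
    have e1 : mu ≤ Real.exp (-(3 * (1 - lam) / 16)) := by
      have := Real.add_one_le_exp (-(3 * (1 - lam) / 16))
      linarith
    calc mu ^ (C * Fintype.card L) ≤ Real.exp (-(3 * (1 - lam) / 16)) ^ (C * Fintype.card L) :=
          pow_le_pow_left₀ hmu0 e1 _
      _ = Real.exp (-((3 * (1 - lam) / 16 * C) * Fintype.card L)) := by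
          rw [← Real.exp_nat_mul]
          congr 1
          push_cast
          ring
      _ ≤ _ := by
          apply Real.exp_le_exp.mpr
          have : 8 ≤ 3 * (1 - lam) / 16 * C := by linarith
          nlinarith
  have h5 : (Fintype.card L : ℝ) * Real.exp (-(8 * Fintype.card L)) ≤ 1 / 8 := by
    have e1 := Real.add_one_le_exp (8 * (Fintype.card L : ℝ))
    rw [Real.exp_neg]
    rw [mul_inv_le_iff₀ (Real.exp_pos _)]
    linarith
  calc _ ≤ (Fintype.card L : ℝ) * Real.exp (-(8 * Fintype.card L)) := by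
        gcongr
        exact h1.trans h4
    _ ≤ 1 / 8 := h5

end final

theorem _root_.Pool.Agent.P8H84.MX.part_C : S_C := by
  intro lam hl0 hl1
  have hc : 0 < 3 * (1 - lam) / 64 := by linarith
  obtain ⟨C, hC⟩ := exists_nat_ge (8000 / (3 * (1 - lam) / 64))
  have hC' : 8000 ≤ 3 * (1 - lam) / 64 * C := by
    rw [div_le_iff₀ hc] at hC
    linarith
  refine ⟨C, 400, ?_⟩
  intro N _ hN L _ _ _ s h b hM hb
  classical
  have H := nbrs hN hM hb
  intro p q
  rw [statLaw_LG hN hM hb, div_div_eq_mul_div, div_one]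
  set T := C * Fintype.card L with hT
  have hV : (Fintype.card ((L → ZMod 5) × L) : ℝ) = 5 ^ Fintype.card L * Fintype.card L := by
    rw [Fintype.card_prod, Fintype.card_fun, ZMod.card]
    push_cast
    ring
  have h1 : (((walk (LG s h b) ^ T) p q * (Fintype.card ((L → ZMod 5) × L) : ℝ) - 1 : ℝ) : ℂ) =
      (Fintype.card L : ℂ) * (∑ u ∈ univ.filter (fun u : L → ZMod 5 => u ≠ 0),
        chi u (p.1 - q.1) * (((PW s (ww h b u) ^ T) p.2 q.2 : ℝ) : ℂ)) +
      ((((Fintype.card L : ℝ) * (PW s (ww h b 0) ^ T) p.2 q.2 - 1 : ℝ)) : ℂ) := by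
    push_cast
    rw [walk_pow H T p q]
    have e1 : (Fintype.card ((L → ZMod 5) × L) : ℂ) = 5 ^ Fintype.card L * Fintype.card L := by
      rw [Fintype.card_prod, Fintype.card_fun, ZMod.card]
      push_cast
      ring
    rw [e1]
    have e2 : ∑ u : L → ZMod 5, chi u (p.1 - q.1) * (((PW s (ww h b u) ^ T) p.2 q.2 : ℝ) : ℂ) =
        ∑ u ∈ univ.filter (fun u : L → ZMod 5 => u ≠ 0),
          chi u (p.1 - q.1) * (((PW s (ww h b u) ^ T) p.2 q.2 : ℝ) : ℂ) +
        (((PW s (ww h b 0) ^ T) p.2 q.2 : ℝ) : ℂ) := by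
      rw [← sum_filter_add_sum_filter_not univ (fun u : L → ZMod 5 => u ≠ 0)]
      congr 1
      have : univ.filter (fun u : L → ZMod 5 => ¬ u ≠ 0) = {0} := by
        ext u; simp
      rw [this, sum_singleton]
      have : chi (0 : L → ZMod 5) (p.1 - q.1) = 1 := by
        unfold chi
        simp
      rw [this, one_mul]
    rw [e2]
    have e3 : (5 : ℂ) ^ Fintype.card L ≠ 0 := pow_ne_zero _ (by norm_num)
    field_simp
    ring
  have h2 : |(walk (LG s h b) ^ T) p q * (Fintype.card ((L → ZMod 5) × L) : ℝ) - 1| =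
      ‖(((walk (LG s h b) ^ T) p q * (Fintype.card ((L → ZMod 5) × L) : ℝ) - 1 : ℝ) : ℂ)‖ := by
    rw [Complex.norm_real, Real.norm_eq_abs]
  rw [h2, h1]
  have h3 : ‖(Fintype.card L : ℂ) * (∑ u ∈ univ.filter (fun u : L → ZMod 5 => u ≠ 0),
        chi u (p.1 - q.1) * (((PW s (ww h b u) ^ T) p.2 q.2 : ℝ) : ℂ))‖ ≤ 1 / 8 := by
    rw [norm_mul, Complex.norm_natCast]
    refine le_trans ?_ (sum_small hM.ord (by omega) hM.card_le)
    gcongr
    refine (norm_sum_le _ _).trans ?_
    refine sum_le_sum fun u _ => ?_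
    rw [norm_mul, norm_chi, one_mul, Complex.norm_real, Real.norm_eq_abs]
    exact entry_u hM hl0 hl1 hb C hC' u _ _
  have h4 : ‖((((Fintype.card L : ℝ) * (PW s (ww h b 0) ^ T) p.2 q.2 - 1 : ℝ)) : ℂ)‖ ≤
      1 / 8 := by
    rw [Complex.norm_real, Real.norm_eq_abs]
    exact entry_0 hM hl0 hl1 C hC' _ _
  calc _ ≤ _ := norm_add_le _ _
    _ ≤ 1 / 8 + 1 / 8 := add_le_add h3 h4
    _ = 1 / 4 := by norm_num

end Pool.Agent.P8H84.MX.PC

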