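import Mathlib

/-!
# Uniform mixing times and rough isometries: definitions (project MX, MP_50f558_pr)
-/

set_option autoImplicit false

namespace Pool.Agent.P8H84.MX

open Finset

/-! ## The definitions of the problem -/

open Classical in
/-- the transition matrix of the lazy simple random walk on `G` -/
noncomputable def walk {V : Type} [Fintype V] (G : SimpleGraph V) : Matrix V V ℝ :=
  Matrix.of fun x y =>
    if x = y then 1 / 2 else if G.Adj x y then 1 / (2 * (G.degree x : ℝ)) else 0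

open Classical in
/-- the stationary law `deg x / (2 |E|)` -/
noncomputable def statLaw {V : Type} [Fintype V] (G : SimpleGraph V) (x : V) : ℝ :=
  (G.degree x : ℝ) / (2 * (G.edgeFinset.card : ℝ))

/-- at time `t` the lazy walk is uniformly mixed, with threshold `1/4` -/
def Mixed {V : Type} [Fintype V] [DecidableEq V] (G : SimpleGraph V) (t : ℕ) : Prop :=
  ∀ x y : V, |(walk G ^ t) x y / statLaw G y - 1| ≤ 1 / 4

/-- the uniform mixing time -/
noncomputable def tInf {V : Type} [Fintype V] [DecidableEq V] (G : SimpleGraph V) : ℕ :=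
  sInf {t : ℕ | Mixed G t}

/-- `G'` is `(a, b)`-quasi-isometric to `G` -/
def QuasiIsometric (a b : ℝ) {V V' : Type} (G : SimpleGraph V) (G' : SimpleGraph V') : Prop :=
  ∃ f : V → V', (∀ x y : V, a⁻¹ * (G.dist x y : ℝ) - b ≤ (G'.dist (f x) (f y) : ℝ) ∧
    (G'.dist (f x) (f y) : ℝ) ≤ a * (G.dist x y : ℝ) + b) ∧
    ∀ z : V', ∃ x : V, (G'.dist (f x) z : ℝ) ≤ b

/-! ## Part A: the code -/

section code
variable {N : ℕ} [NeZero N]

/-- cyclic convolution -/
def conv (a b : ZMod N → ZMod 5) : ZMod N → ZMod 5 := fun i => ∑ j, a j * b (i - j)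

/-- Hamming weight -/
def wt {ι : Type} [Fintype ι] (a : ι → ZMod 5) : ℕ := (univ.filter fun i => a i ≠ 0).card

/-- the double circulant code of `b` has relative distance at least `1/200` -/
def GoodCode (N : ℕ) [NeZero N] (b : ZMod N → ZMod 5) : Prop :=
  ∀ a : ZMod N → ZMod 5, a ≠ 0 → N ≤ 100 * (wt a + wt (conv a b))

end code

/-! ## Part B: the group -/

/-- A finite group `L` with `12` generators and spectral gap, with an element `h` of order `N`,
where `log |L|` is of the order of magnitude of `N`. -/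
structure MarkerGroup (lam : ℝ) (N : ℕ) (L : Type) [Group L] [Fintype L] (s : Fin 12 → L) (h : L) :
    Prop where
  inj : Function.Injective s
  ne_one : ∀ i, s i ≠ 1
  inv : ∀ i, ∃ j, s j = (s i)⁻¹
  gen : Subgroup.closure (Set.range s) = ⊤
  gap : ∀ f : L → ℝ, ∑ x, f x = 0 →
    ∑ x, (3 * f x + ∑ i, f (s i * x)) ^ 2 ≤ 225 * lam * ∑ x, f x ^ 2
  ord : orderOf h = N
  card_le : Fintype.card L ≤ 5 ^ (9 * N)
  le_card : 5 ^ N ≤ (Fintype.card L) ^ 15

/-! ## The graph `G` -/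

section LG
variable {N : ℕ} [NeZero N] {L : Type} [Group L] [Fintype L] [DecidableEq L]

/-- the translate of `b` to the coset `⟨h⟩ l` -/
def bvec (h : L) (b : ZMod N → ZMod 5) (l : L) : L → ZMod 5 :=
  fun m => ∑ i : ZMod N, if m = h ^ i.val * l then b i else 0

/-- The toggles at the position `l`: `(false, z)` adds `z` to the lamp at `l`,
`(true, z)` adds `z b` to the coset of `l`. -/
def tog (h : L) (b : ZMod N → ZMod 5) (l : L) (e : Bool × ZMod 5) : L → ZMod 5 :=
  if e.1 then e.2 • bvec h b l else e.2 • (Pi.single l 1 : L → ZMod 5)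

/-- A Cayley graph of the lamplighter group `ZMod 5 ≀ L`. -/
def LG (s : Fin 12 → L) (h : L) (b : ZMod N → ZMod 5) : SimpleGraph ((L → ZMod 5) × L) where
  Adj p q := p ≠ q ∧ ((p.1 = q.1 ∧ ((∃ i, q.2 = s i * p.2) ∨ ∃ i, p.2 = s i * q.2)) ∨
    (p.2 = q.2 ∧ ∃ e : Bool × ZMod 5, q.1 = p.1 + tog h b p.2 e))
  symm := ⟨by
    rintro p q ⟨hne, h1⟩
    refine ⟨hne.symm, ?_⟩
    rcases h1 with ⟨h1, h2⟩ | ⟨h1, e, he⟩
    · exact Or.inl ⟨h1.symm, h2.symm⟩
    · refine Or.inr ⟨h1.symm, (e.1, -e.2), ?_⟩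
      rw [he, ← h1]
      unfold tog
      rcases e with ⟨_ | _, z⟩
      · simp
      · simp⟩
  loopless := ⟨fun p hp => hp.1 rfl⟩

end LG

/-! ## Clusters -/

section cluster
variable {V : Type} [Fintype V] [DecidableEq V]

/-- internal degree of the cluster of `a` -/
def intDeg (m : V → V → ℕ) (D : ℕ) (a : V) : ℕ := D - ∑ b, m a b

/-- Every vertex `a` is replaced by a cluster of `D + 1` vertices; the clusters of `a` and `c` are
joined by a bipartite graph of degree `m a c`, and every cluster carries a circulant graph such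
that all degrees are `D`. -/
def clu (m : V → V → ℕ) (hm : ∀ a c, m a c = m c a) (D : ℕ) : SimpleGraph (V × ZMod (D + 1)) where
  Adj p q := (p.1 ≠ q.1 ∧ (p.2 + q.2).val < m p.1 q.1) ∨
    (p.1 = q.1 ∧ p.2 ≠ q.2 ∧ (2 * (p.2 - q.2).val ≤ intDeg m D p.1 ∨
      2 * (q.2 - p.2).val ≤ intDeg m D p.1))
  symm := ⟨by
    rintro p q (⟨h1, h2⟩ | ⟨h1, h2, h3⟩)
    · exact Or.inl ⟨h1.symm, by rw [add_comm q.2 p.2, hm]; exact h2⟩
    · exact Or.inr ⟨h1.symm, h2.symm, by rw [← h1]; exact h3.symm⟩⟩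
  loopless := ⟨by
    rintro p (⟨h1, h2⟩ | ⟨h1, h2, h3⟩)
    · exact h1 rfl
    · exact h2 rfl⟩

/-- one step of the weighted chain with loops, as an operator on functions:
the transition probability from `a` to `c` is `m a c / (2 D)` -/
noncomputable def KK (m : V → V → ℕ) (D : ℕ) (f : V → ℝ) : V → ℝ :=
  fun a => f a + ∑ c, (m a c : ℝ) / (2 * D) * (f c - f a)

/-- `m` is a weighting of the edges of `G`: symmetric, even, positive exactly on the edges,
and of total weight at most `D - 2` at every vertex -/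
structure Weighting (G : SimpleGraph V) (m : V → V → ℕ) (D : ℕ) : Prop where
  symm : ∀ a c, m a c = m c a
  even : ∀ a c, Even (m a c)
  pos : ∀ a c, 0 < m a c ↔ G.Adj a c
  tot : ∀ a, ∑ c, m a c + 2 ≤ D
  evenD : Even D

end cluster

/-! ## The statements of the parts -/

/-- Part A: codes -/
def S_A : Prop := ∃ j0 : ℕ, ∀ j, j0 ≤ j → ∃ b : ZMod (5 ^ j) → ZMod 5, GoodCode (5 ^ j) b

/-- Part B: groups -/
def S_B : Prop := ∃ lam : ℝ, 0 < lam ∧ lam < 1 ∧ ∀ n : ℕ, 2 ≤ n → ∃ j : ℕ, n ≤ 5 ^ j ∧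
  ∃ (L : Type) (_ : Group L) (_ : Fintype L) (_ : DecidableEq L) (s : Fin 12 → L) (h : L),
    MarkerGroup lam (5 ^ j) L s h

/-- Part C: the unperturbed walk is mixed at time `C |L|` -/
def S_C : Prop := ∀ lam : ℝ, 0 < lam → lam < 1 → ∃ C N0 : ℕ, ∀ (N : ℕ) [NeZero N], N0 ≤ N →
  ∀ (L : Type) [Group L] [Fintype L] [DecidableEq L] (s : Fin 12 → L) (h : L)
    (b : ZMod N → ZMod 5), MarkerGroup lam N L s h → GoodCode N b →
      Mixed (LG s h b) (C * Fintype.card L)

/-- Part P: the perturbed walk is not mixed at time `c M |L|` -/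
def S_P : Prop := ∀ lam : ℝ, 0 < lam → lam < 1 → ∃ (D : ℕ) (c : ℝ), 0 < c ∧ ∀ M : ℕ, ∃ N0 : ℕ,
  ∀ (N : ℕ) [NeZero N], N0 ≤ N →
  ∀ (L : Type) [Group L] [Fintype L] [DecidableEq L] (s : Fin 12 → L) (h : L)
    (b : ZMod N → ZMod 5), MarkerGroup lam N L s h → GoodCode N b →
      ∃ m : (L → ZMod 5) × L → (L → ZMod 5) × L → ℕ, Weighting (LG s h b) m D ∧
      ∃ E : Finset ((L → ZMod 5) × L), 4 * E.card ≤ Fintype.card ((L → ZMod 5) × L) ∧
      ∀ t : ℕ, (t : ℝ) ≤ c * M * Fintype.card L →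
        ∃ o, 1 / 2 ≤ ((KK m D)^[t] (fun v => if v ∈ E then 1 else 0)) o

/-- Part H1: `G` is connected, vertex-transitive and of degree 20 -/
def S_G : Prop := ∀ (lam : ℝ) (N : ℕ) [NeZero N] (L : Type) [Group L] [Fintype L] [DecidableEq L]
  (s : Fin 12 → L) (h : L) (b : ZMod N → ZMod 5), 400 ≤ N → MarkerGroup lam N L s h →
    GoodCode N b → (LG s h b).Connected ∧ (∀ x y, ∃ φ : LG s h b ≃g LG s h b, φ x = y) ∧
      ∀ x, Nat.card ((LG s h b).neighborSet x) = 20

/-- Part H2: clusters -/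
def S_H : Prop := ∀ (V : Type) [Fintype V] [DecidableEq V] (G : SimpleGraph V) (m : V → V → ℕ)
  (D : ℕ) (hw : Weighting G m D), G.Connected →
    (clu m hw.symm D).Connected ∧ (∀ x, Nat.card ((clu m hw.symm D).neighborSet x) = D) ∧
    QuasiIsometric 1 (D + 1) G (clu m hw.symm D) ∧
    ∀ (t : ℕ) (E : Finset V) (o : V), Mixed (clu m hw.symm D) t →
      ((KK m D)^[t] (fun v => if v ∈ E then 1 else 0)) o ≤ 5 / 4 * (E.card : ℝ) / Fintype.card V

/-- Part H3: the mixing time exists -/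
def S_E : Prop := ∀ (V : Type) [Fintype V] [DecidableEq V] (G : SimpleGraph V), G.Connected →
  (∃ x y : V, x ≠ y) → ∃ t, Mixed G t

/-- The final theorem -/
def S_F : Prop := ∃ (a b : ℝ) (d D : ℕ), 1 ≤ a ∧ 0 ≤ b ∧ ∀ C : ℝ, 0 < C →
  ∃ (V V' : Type) (_ : Fintype V) (_ : Fintype V') (_ : DecidableEq V) (_ : DecidableEq V')
    (G : SimpleGraph V) (G' : SimpleGraph V'),
    G.Connected ∧ G'.Connected ∧ (∀ x y, ∃ φ : G ≃g G, φ x = y) ∧
    (∀ x, Nat.card (G.neighborSet x) = d) ∧ (∀ x, Nat.card (G'.neighborSet x) ≤ D) ∧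
    QuasiIsometric a b G G' ∧ C * tInf G < tInf G'

end Pool.Agent.P8H84.MX
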