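import Pool.Agent.P8H84.MX.Defs

/-!
# Project MX, part P: definitions and statements of the subparts
-/

set_option autoImplicit false

namespace Pool.Agent.P8H84.MX

open Finset

/-! ## P1: the marker -/

section marker
variable {L : Type} [Group L] [Fintype L] [DecidableEq L]

/-- one step of the marker -/
noncomputable def Pm (s : Fin 12 → L) (κ : ℝ) (f : L → ℝ) : L → ℝ :=
  fun l => f l + κ * ∑ i, (f (s i * l) - f l)

/-- the kernel of the `k`-th power -/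
noncomputable def pk (s : Fin 12 → L) (κ : ℝ) (k : ℕ) (l l' : L) : ℝ :=
  ((Pm s κ)^[k] (fun x => if x = l' then 1 else 0)) l

open Classical in
/-- the union of the cosets `⟨h⟩ r p` -/
noncomputable def FF (N : ℕ) {ι : Type} (h : L) (r : ι → L) : Finset L :=
  univ.filter fun l => ∃ (p : ι) (i : ZMod N), l = h ^ i.val * r p

/-- average over the marker -/
noncomputable def avg (u : L → ℝ) : ℝ := (∑ l, u l) / Fintype.card L

end marker

/-- P1a: choice of cosets far apart, and the bound for the kernel -/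
def S_P1a : Prop := ∀ lam : ℝ, 0 < lam → lam < 1 → ∃ CG : ℝ, 0 < CG ∧
  ∀ κ : ℝ, 1 / 48 ≤ κ → κ ≤ 1 / 24 → ∀ R : ℕ, ∃ N0 : ℕ, ∀ (N : ℕ) [NeZero N], N0 ≤ N →
  ∀ (L : Type) [Group L] [Fintype L] [DecidableEq L] (s : Fin 12 → L) (h : L),
    MarkerGroup lam N L s h → ∀ (ι : Type) [Fintype ι], Fintype.card ι ≤ R →
    ∃ r : ι → L, (∀ (p q : ι) (i j : ZMod N), h ^ i.val * r p = h ^ j.val * r q → p = q ∧ i = j) ∧
      ∃ Dk : ℕ → ℝ, (∀ k, 0 ≤ Dk k) ∧ (∀ k, ∀ l ∈ FF N h r,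
        ∑ l' ∈ FF N h r, |pk s κ k l l' - 1 / (Fintype.card L : ℝ)| ≤ Dk k) ∧
        ∀ K : ℕ, ∑ k ∈ range K, Dk k ≤ CG

/-- P1b: averaging -/
def S_P1b : Prop := ∀ (X L ι : Type) [Fintype X] [Group L] [Fintype L] [DecidableEq L] [Fintype ι]
  (s : Fin 12 → L) (κ : ℝ) (F : Finset L) (Dk : ℕ → ℝ) (CG α A ε Y : ℝ) (T : ℕ)
  (u g : ℕ → X → L → ℝ) (f : ι → X → ℝ),
  0 ≤ κ → 12 * κ ≤ 1 → (∀ k, 0 ≤ Dk k) →
  (∀ k, ∀ l ∈ F, ∑ l' ∈ F, |pk s κ k l l' - 1 / (Fintype.card L : ℝ)| ≤ Dk k) →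
  (∀ K : ℕ, ∑ k ∈ range K, Dk k ≤ CG) →
  (∀ x l l', u 0 x l = u 0 x l') →
  (∀ t < T, ∀ x l, u (t + 1) x l = Pm s κ (u t x) l + g t x l) →
  (∀ t < T, ∀ x, ∀ l ∉ F, g t x l = 0) →
  (∀ t ≤ T, ∀ x l, 0 ≤ u t x l) → (∀ i x, 0 ≤ f i x) → 0 ≤ α → 0 ≤ A → 0 ≤ ε →
  (∀ t < T, ∀ i, ∀ l ∈ F, ∑ x, f i x * |g t x l| ≤
    α * (A * ∑ x, f i x * u t x l + ε * ∑ j, ∑ x, f j x * u t x l)) →
  (∀ t ≤ T, ∑ i, ∑ x, f i x * avg (u t x) ≤ Y) →
  α * (A + Fintype.card ι * ε) * CG ≤ 1 / 2 →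
  ∀ t ≤ T, ∃ z : ι → ℝ, (∀ i, 0 ≤ z i) ∧
    (∀ i, ∀ l ∈ F, ∑ x, f i x * |u t x l - avg (u t x)| ≤ z i) ∧
    ∑ i, z i ≤ 2 * (α * (A + Fintype.card ι * ε) * CG) * Y

/-! ## P2: the level of a block -/

section level
variable {N : ℕ} [NeZero N]

/-- the vector of a toggle `(type, position, value)` of a block -/
def tv (b : ZMod N → ZMod 5) (e : Bool × ZMod N × ZMod 5) : ZMod N → ZMod 5 :=
  if e.1 then e.2.2 • (fun k => b (k - e.2.1)) else e.2.2 • (Pi.single e.2.1 1 : ZMod N → ZMod 5)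

/-- the level of a block state, capped at `Lc` -/
noncomputable def lev (b : ZMod N → ZMod 5) (Lc : ℕ) (a : ZMod N → ZMod 5) : ℕ :=
  sInf ({Lc} ∪ {k | ∃ s1 s2 : ZMod N → ZMod 5, s1 + conv s2 b = a ∧ wt s1 + wt s2 = k})

end level

/-- P2: levels -/
def S_P2 : Prop := ∀ (N : ℕ) [NeZero N] (b : ZMod N → ZMod 5) (Lc : ℕ), GoodCode N b →
  200 * Lc + 400 < N →
  lev b Lc 0 = 0 ∧ (∀ a, lev b Lc a ≤ Lc) ∧ (∀ a e, lev b Lc (a + tv b e) ≤ lev b Lc a + 1) ∧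
  (∀ a, lev b Lc a < Lc →
    (univ.filter fun e : Bool × ZMod N × ZMod 5 => e.2.2 ≠ 0 ∧
      lev b Lc (a + tv b e) = lev b Lc a + 1).card = 4 * (2 * N - lev b Lc a) ∧
    (univ.filter fun e : Bool × ZMod N × ZMod 5 => e.2.2 ≠ 0 ∧
      lev b Lc (a + tv b e) + 1 = lev b Lc a).card = lev b Lc a) ∧
  4 * (univ.filter fun a : ZMod N → ZMod 5 => lev b Lc a < Lc).card ≤ 5 ^ N

/-! ## P3: the dynamics of the levels -/

section tree
variable {Nd : Type} [Fintype Nd] [DecidableEq Nd]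

/-- The tree of nodes: `sc` is the scale, `ow` the owner; a node `p` owns four nodes of every scale
below its own scale. -/
structure Tree (M : ℕ) (sc : Nd → ℕ) (ow : Nd → Nd) : Prop where
  le : ∀ p, sc p ≤ M
  lt : ∀ q, sc q < M → sc q < sc (ow q)
  four : ∀ p i, i < sc p → (univ.filter fun q => ow q = p ∧ sc q = i).card = 4
  root : ∃ p, sc p = M

noncomputable def cl (z : ℝ) : ℝ := max 0 (min 1 z)

variable (sc : Nd → ℕ) (ow : Nd → Nd) (J : ℕ)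

def NN (n : Nd → ℕ) (i : ℕ) : ℕ := (univ.filter fun q => sc q = i).sup n

noncomputable def g1 (n : Nd → ℕ) (i : ℕ) : ℝ := cl (((NN sc n i : ℝ) - 16 * J) / (16 * J))
noncomputable def g2 (n : Nd → ℕ) (i : ℕ) : ℝ := cl (((NN sc n i : ℝ) - 32 * J) / (16 * J))
noncomputable def G1 (n : Nd → ℕ) (k : ℕ) : ℝ := ∏ i ∈ range k, g1 sc J n i
noncomputable def mu (n : Nd → ℕ) (i : ℕ) : ℝ := (∏ j ∈ range i, g2 sc J n j) * (1 - g2 sc J n i)

/-- the small weight -/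
noncomputable def del : ℝ := 1 / 20000000

open Classical in
/-- weight controlled by the nodes of scale `i` owned by `p` -/
noncomputable def cc (n : Nd → ℕ) (p : Nd) (i : ℕ) : ℝ :=
  if ∀ q, ow q = p → sc q = i → n q % 2 = n p % 2 then 1 else del

/-- weight in the preference mode -/
noncomputable def rr (n : Nd → ℕ) (p : Nd) : ℝ := if n p % 2 = n (ow p) % 2 then 1 else del

/-- the weight of the edges between the levels `n p` and `n p + 1` of the node `p` -/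
noncomputable def om (n : Nd → ℕ) (p : Nd) : ℝ :=
  ∑ i ∈ range (sc p), (1 - G1 sc J n (sc p)) * mu sc J n i * cc sc ow n p i
    + G1 sc J n (sc p) * rr ow n p

/-- the rounded weight, as an integer -/
noncomputable def wi (n : Nd → ℕ) (p : Nd) : ℕ := ⌈20000000 * om sc ow J n p⌉₊

/-- the number of nodes of scale `i` owned by `p` with the parity of `p` -/
def mt (n : Nd → ℕ) (p : Nd) (i : ℕ) : ℕ :=
  (univ.filter fun q => ow q = p ∧ sc q = i ∧ n q % 2 = n p % 2).card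

noncomputable def GG (m : ℕ) : ℝ := 1 + 7 / 100000 * (min m 3 : ℕ) + if 4 ≤ m then 3 / 5 else 0

/-- shares of the stages -/
noncomputable def sh (M : ℕ) (n : Nd → ℕ) (p : Nd) (i : ℕ) : ℝ :=
  if i < sc p then mu sc J n i else if i = M then ∏ j ∈ range (sc p), g2 sc J n j else 0

/-- the potential of the node `p` -/
noncomputable def Phi (n : Nd → ℕ) (p : Nd) : ℝ :=
  2 ^ n p * (∑ i ∈ range (sc p), (1 - G1 sc J n (sc p)) * mu sc J n i * GG (mt sc ow n p i)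
    + G1 sc J n (sc p))

/-- the generator on functions of the level vector; `U q`, `Dn q` are the numbers of toggles which
increase and decrease the level of `q` -/
noncomputable def gen (F : (Nd → ℕ) → ℝ) (n : Nd → ℕ) (U Dn : Nd → ℝ) : ℝ :=
  ∑ q, (U q * (wi sc ow J n q / 20000000) * (F (Function.update n q (n q + 1)) - F n)
    + Dn q * (wi sc ow J (Function.update n q (n q - 1)) q / 20000000) *
      (F (Function.update n q (n q - 1)) - F n))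

end tree

/-- P3a: the drift of the potential -/
def S_P3a : Prop := ∃ c C : ℝ, 0 < c ∧ 0 < C ∧ ∀ (M R : ℕ), ∃ J0 : ℕ, ∀ J : ℕ, J0 ≤ J →
  ∀ (N : ℕ), 20000 * J ≤ N → N ≤ 40000 * J → ∀ (Lc : ℕ), 50 * J ≤ Lc → Lc ≤ N →
  ∀ (Nd : Type) [Fintype Nd] [DecidableEq Nd] (sc : Nd → ℕ) (ow : Nd → Nd), Tree M sc ow →
  Fintype.card Nd ≤ R → ∀ (n : Nd → ℕ) (p : Nd) (U Dn : Nd → ℝ),
    (∀ q, n q < Lc → U q = 4 * (2 * N - n q) ∧ Dn q = n q) →
    (∀ q, Lc ≤ n q → U q = 0 ∧ 0 ≤ Dn q ∧ Dn q ≤ 8 * N) →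
    (∀ q, n q ≤ Lc) → n p < Lc → G1 sc J n (sc p) = 0 →
    gen sc ow J (fun n' => Phi sc ow J n' p) n U Dn ≤
      8 * N * (- c * Phi sc ow J n p + C * 2 ^ J)

/-- P3b: elementary properties -/
def S_P3b : Prop := ∀ (M J : ℕ), 0 < J → ∀ (Nd : Type) [Fintype Nd] [DecidableEq Nd]
  (sc : Nd → ℕ) (ow : Nd → Nd), Tree M sc ow → ∀ (n n' : Nd → ℕ) (p q : Nd),
    (∀ r, r ≠ q → n' r = n r) → n' q ≤ n q + 1 → n q ≤ n' q + 1 →
    (∑ i ∈ range (M + 1), sh sc J M n p i = 1) ∧ (∀ i, 0 ≤ sh sc J M n p i) ∧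
    (∀ i, sh sc J M n' p i ≤ sh sc J M n p i + 1 / (16 * J)) ∧
    (2 ^ n p ≤ Phi sc ow J n p) ∧ (Phi sc ow J n p ≤ 2 * 2 ^ n p) ∧
    (del ≤ om sc ow J n p ∧ om sc ow J n p ≤ 1) ∧
    |Phi sc ow J n' p - Phi sc ow J n p| ≤ 2 ^ n p * ((if q = p then 8 else 0)
      + (if ow q = p then ∑ i ∈ range M, (if sc q = i then sh sc J M n p i else 0) else 0)
      + 8 * (M + 1) / J)

end Pool.Agent.P8H84.MX
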