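import Pool.Agent.P8H84.MX.Defs2

/-!
# Project MX, part P4: the perturbed chain seen in finitely many blocks
-/

set_option autoImplicit false

namespace Pool.Agent.P8H84.MX

open Finset

section chain
variable {N : ℕ} [NeZero N] {L : Type} [Group L] [Fintype L] [DecidableEq L]
  {Nd : Type} [Fintype Nd] [DecidableEq Nd]

/-- the state of the block of `q` after the toggle `e` -/
def tgl (b : ZMod N → ZMod 5) (ξ : Nd → ZMod N → ZMod 5) (q : Nd) (e : Bool × ZMod N × ZMod 5) :
    Nd → ZMod N → ZMod 5 := Function.update ξ q (ξ q + tv b e)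

/-- the level vector -/
noncomputable def nv (b : ZMod N → ZMod 5) (Lc : ℕ) (ξ : Nd → ZMod N → ZMod 5) : Nd → ℕ :=
  fun p => lev b Lc (ξ p)

variable (sc : Nd → ℕ) (ow : Nd → Nd) (J : ℕ) (b : ZMod N → ZMod 5) (Lc : ℕ)

/-- the integer weight of a toggle, between `1` and `20000000` -/
noncomputable def wtg (ξ : Nd → ZMod N → ZMod 5) (q : Nd) (e : Bool × ZMod N × ZMod 5) : ℕ :=
  wi sc ow J (fun p => min (nv b Lc ξ p) (nv b Lc (tgl b ξ q e) p)) q

variable (s : Fin 12 → L) (h : L) (r : Nd → L)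

/-- the part of the toggles in the generator of the chain of the blocks and the marker -/
noncomputable def TF (D : ℕ) (F : (Nd → ZMod N → ZMod 5) → L → ℝ)
    (ξ : Nd → ZMod N → ZMod 5) (l : L) : ℝ :=
  ∑ q, ∑ k : ZMod N, if l = h ^ k.val * r q then
    ∑ e : Bool × ZMod 5, (wtg sc ow J b Lc ξ q (e.1, k, e.2) : ℝ) / D *
      (F (tgl b ξ q (e.1, k, e.2)) l - F ξ l) else 0

/-- one step of the chain of the blocks and the marker -/
noncomputable def KF (W D : ℕ) (F : (Nd → ZMod N → ZMod 5) → L → ℝ)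
    (ξ : Nd → ZMod N → ZMod 5) (l : L) : ℝ :=
  Pm s ((W : ℝ) / D) (F ξ) l + TF sc ow J b Lc h r D F ξ l

/-- the states of the blocks -/
def xi (N : ℕ) (x : L → ZMod 5) : Nd → ZMod N → ZMod 5 := fun q k => x (h ^ k.val * r q)

end chain

/-- the total weight -/
def DD (W : ℕ) : ℕ := 24 * W + 320000002

/-- P4b: there is a weighting of the edges of `LG` (marker edges `2 W`, toggles `2 wtg`, toggles
outside of the blocks `40000000`) whose walk projects to `KF`. -/
def S_P4b : Prop := ∀ (lam : ℝ) (N : ℕ) [NeZero N] (L : Type) [Group L] [Fintype L] [DecidableEq L]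
  (s : Fin 12 → L) (h : L) (b : ZMod N → ZMod 5), MarkerGroup lam N L s h →
  ∀ (M : ℕ) (Nd : Type) [Fintype Nd] [DecidableEq Nd] (sc : Nd → ℕ) (ow : Nd → Nd), Tree M sc ow →
  ∀ (J Lc W : ℕ) (r : Nd → L), 0 < J → 0 < W →
  (∀ (p q : Nd) (i j : ZMod N), h ^ i.val * r p = h ^ j.val * r q → p = q ∧ i = j) →
  ∃ m : (L → ZMod 5) × L → (L → ZMod 5) × L → ℕ, Weighting (LG s h b) m (DD W) ∧
    ∀ (F : (Nd → ZMod N → ZMod 5) → L → ℝ) (a : (L → ZMod 5) × L),
      KK m (DD W) (fun v => F (xi h r N v.1) v.2) a =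
        KF sc ow J b Lc s h r W (DD W) F (xi h r N a.1) a.2

end Pool.Agent.P8H84.MX
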