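import Pool.Agent.P8H84.MX.P4c

/-!
# Project MX, part P4: statements of the subparts Q1, Q2
-/

set_option autoImplicit false

namespace Pool.Agent.P8H84.MX

open Finset

/-- Q1: the size of the set of configurations whose root block lies in `A` -/
def S_Q1 : Prop := ∀ (N : ℕ) [NeZero N] (L : Type) [Group L] [Fintype L] [DecidableEq L]
  (Nd : Type) [Fintype Nd] [DecidableEq Nd] (h : L) (r : Nd → L), Inj h r N →
  ∀ (p : Nd) (A : Finset (ZMod N → ZMod 5)), 4 * A.card ≤ 5 ^ N →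
    4 * (univ.filter fun v : (L → ZMod 5) × L => xi h r N v.1 p ∈ A).card ≤
      Fintype.card ((L → ZMod 5) × L)

/-- Q2: duality. A subsolution `u` of the chain which starts from `1_{ξ = 0}` gives a lower bound
for the iterates of the chain on a function `F`. -/
def S_Q2 : Prop := ∀ (lam : ℝ) (N : ℕ) [NeZero N] (L : Type) [Group L] [Fintype L] [DecidableEq L]
  (Nd : Type) [Fintype Nd] [DecidableEq Nd] (sc : Nd → ℕ) (ow : Nd → Nd) (J Lc W : ℕ)
  (b : ZMod N → ZMod 5) (s : Fin 12 → L) (h : L) (r : Nd → L),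
  MarkerGroup lam N L s h → Inj h r N → WtOK sc ow J →
  ∀ (u : ℕ → (Nd → ZMod N → ZMod 5) → L → ℝ),
    (∀ ξ l, u 0 ξ l ≤ if ξ = 0 then 1 else 0) →
    (∀ t ξ l, u (t + 1) ξ l ≤ KF sc ow J b Lc s h r W (DD W) (u t) ξ l) →
  ∀ (F : (Nd → ZMod N → ZMod 5) → L → ℝ), (∀ ξ l, 0 ≤ F ξ l) → ∀ t : ℕ,
    ∃ l, (∑ ξ, ∑ l', u t ξ l' * F ξ l') / (Fintype.card L : ℝ) ≤
      ((KF sc ow J b Lc s h r W (DD W))^[t] F) 0 l

end Pool.Agent.P8H84.MX
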