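import Pool.Agent.P8H84.MX.Defs2

/-!
# Project MX, second problem (MP_78d095_pr): the product with an edge
-/

set_option autoImplicit false

namespace Pool.Agent.P8H84.MX

open Finset

/-- the product of `G` with an edge -/
def G2 {V : Type} (G : SimpleGraph V) : SimpleGraph (V × Bool) where
  Adj p q := (G.Adj p.1 q.1 ∧ p.2 = q.2) ∨ (p.1 = q.1 ∧ p.2 ≠ q.2)
  symm := ⟨by
    rintro p q (⟨h1, h2⟩ | ⟨h1, h2⟩)
    · exact Or.inl ⟨h1.symm, h2.symm⟩
    · exact Or.inr ⟨h1.symm, h2.symm⟩⟩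
  loopless := ⟨by
    rintro p (⟨h1, _⟩ | ⟨_, h2⟩)
    · exact G.loopless.irrefl _ h1
    · exact h2 rfl⟩

section
variable {V : Type} [Fintype V] [DecidableEq V]

/-- the weights on the product: `m` on the copies of `G`, and the missing weight on the edges
between the copies; the total weight at every vertex is `D` -/
noncomputable def w2 (m : V → V → ℕ) (D : ℕ) (p q : V × Bool) : ℝ :=
  if p.2 = q.2 then (m p.1 q.1 : ℝ) else if p.1 = q.1 then (D : ℝ) - ∑ c, (m p.1 c : ℝ) else 0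

/-- the transition matrix of the weighted lazy walk -/
noncomputable def PW (w : V → V → ℝ) : Matrix V V ℝ :=
  Matrix.of (fun a b : V => (if a = b then (1:ℝ) / 2 else 0) + w a b / (2 * ∑ z : V, w a z))

/-- mixing in `L²` with threshold `1/2` -/
def MixL2 (w : V → V → ℝ) (t : ℕ) : Prop :=
  ∀ x : V, ∑ y : V, (∑ z : V, w y z) / (∑ a : V, ∑ b : V, w a b) *
    ((PW w ^ t) x y / ((∑ z : V, w y z) / (∑ a : V, ∑ b : V, w a b)) - 1) ^ 2 ≤ 1 / 4

open Classical in
/-- unit weights -/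
noncomputable def w1 (G : SimpleGraph V) : V → V → ℝ := fun a b => if G.Adj a b then (1:ℝ) else 0

end

/-- R2: the unweighted product is mixed -/
def S_R2 : Prop := ∀ (V : Type) [Fintype V] [DecidableEq V] (G : SimpleGraph V) (T t : ℕ),
  (∀ x, Nat.card (G.neighborSet x) = 20) → Mixed G T → 2 * T ≤ t → 50 ≤ t →
  (Fintype.card V : ℝ) * (4 / 21) ^ t ≤ 1 / 100 → MixL2 (w1 (G2 G)) t

/-- R3: the weighted product is not mixed -/
def S_R3 : Prop := ∀ (V : Type) [Fintype V] [DecidableEq V] (G : SimpleGraph V) (m : V → V → ℕ)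
  (D : ℕ), Weighting G m D → ∀ (E : Finset V) (o : V) (t : ℕ), 4 * E.card ≤ Fintype.card V →
    MixL2 (w2 m D) t → ((KK m D)^[t] (fun v => if v ∈ E then 1 else 0)) o ≤ 1 / 2

/-- R4: elementary properties of the product -/
def S_R4 : Prop := ∀ (V : Type) [Fintype V] [DecidableEq V] (G : SimpleGraph V), G.Connected →
  (∀ x y : V, ∃ φ : G ≃g G, φ x = y) →
  (G2 G).Connected ∧ (∀ x y : V × Bool, ∃ φ : G2 G ≃g G2 G, φ x = y) ∧
  ∀ (m : V → V → ℕ) (D : ℕ), Weighting G m D →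
    (∀ a b, w2 m D a b = w2 m D b a) ∧
    (∀ a b, (G2 G).Adj a b → 1 ≤ w2 m D a b ∧ w2 m D a b ≤ D) ∧
    (∀ a b, ¬ (G2 G).Adj a b → w2 m D a b = 0)

end Pool.Agent.P8H84.MX
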