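import Pool.Agent.P8H84.MX.Defs

/-!
# Project MX, part E: the lazy walk on a connected finite graph mixes
-/

set_option autoImplicit false

namespace Pool.Agent.P8H84.MX

open Finset

section E
variable {V : Type} [Fintype V] [DecidableEq V] {G : SimpleGraph V}

omit [DecidableEq V] in
theorem E_walk_nonneg (x y : V) : 0 ≤ walk G x y := by
  unfold walk
  simp only [Matrix.of_apply]
  split_ifs <;> positivity

omit [DecidableEq V] in
open Classical in
theorem E_degree_pos (hG : G.Connected) (h2 : ∃ x y : V, x ≠ y) (x : V) : 0 < G.degree x := by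
  obtain ⟨a, c, hac⟩ := h2
  haveI : Nontrivial V := ⟨a, c, hac⟩
  exact hG.preconnected.degree_pos_of_nontrivial x

omit [DecidableEq V] in
theorem E_walk_self (x : V) : walk G x x = 1 / 2 := by
  unfold walk
  simp

omit [DecidableEq V] in
open Classical in
theorem E_walk_adj {x y : V} (hxy : G.Adj x y) : walk G x y = 1 / (2 * (G.degree x : ℝ)) := by
  unfold walk
  simp only [Matrix.of_apply]
  rw [if_neg hxy.ne, if_pos hxy]

omit [DecidableEq V] in
theorem E_row_sum (hG : G.Connected) (h2 : ∃ x y : V, x ≠ y) (x : V) : ∑ y, walk G x y = 1 := by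
  classical
  have h0 : ∀ y, walk G x y = (if x = y then 1 / 2 else 0) +
      (if G.Adj x y then 1 / (2 * (G.degree x : ℝ)) else 0) := by
    intro y
    unfold walk
    simp only [Matrix.of_apply]
    by_cases h1 : x = y
    · subst h1; simp
    · rw [if_neg h1, if_neg h1, zero_add]
  rw [Finset.sum_congr rfl (fun y _ => h0 y), Finset.sum_add_distrib, ← Finset.sum_filter,
    ← Finset.sum_filter, Finset.sum_const, Finset.sum_const]
  have h3 : (univ.filter fun y => x = y) = {x} := by ext y; simp [eq_comm]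
  have h4 : (univ.filter fun y => G.Adj x y).card = G.degree x := by
    rw [← SimpleGraph.card_neighborFinset_eq_degree, SimpleGraph.neighborFinset_eq_filter]
  rw [h3, h4]
  have h5 := E_degree_pos hG h2 x
  have h6 : (0 : ℝ) < (G.degree x : ℝ) := by exact_mod_cast h5
  simp only [Finset.card_singleton, nsmul_eq_mul]
  field_simp
  norm_num

omit [DecidableEq V] in
open Classical in
theorem E_edges_pos (hG : G.Connected) (h2 : ∃ x y : V, x ≠ y) : 0 < G.edgeFinset.card := by
  obtain ⟨a, c, hac⟩ := h2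
  have h3 := E_degree_pos hG ⟨a, c, hac⟩ a
  have h4 := G.sum_degrees_eq_twice_card_edges
  have h5 : G.degree a ≤ ∑ v, G.degree v :=
    Finset.single_le_sum (f := fun v => G.degree v) (fun _ _ => Nat.zero_le _) (Finset.mem_univ a)
  omega

omit [DecidableEq V] in
theorem E_stat_pos (hG : G.Connected) (h2 : ∃ x y : V, x ≠ y) (x : V) : 0 < statLaw G x := by
  classical
  unfold statLaw
  have h3 := E_degree_pos hG h2 x
  have h4 := E_edges_pos hG h2
  have h5 : (0 : ℝ) < (G.degree x : ℝ) := by exact_mod_cast h3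
  have h6 : (0 : ℝ) < (G.edgeFinset.card : ℝ) := by exact_mod_cast h4
  positivity

omit [DecidableEq V] in
theorem E_stat_sum (hG : G.Connected) (h2 : ∃ x y : V, x ≠ y) : ∑ x, statLaw G x = 1 := by
  classical
  unfold statLaw
  rw [← Finset.sum_div]
  have h3 := G.sum_degrees_eq_twice_card_edges
  have h4 := E_edges_pos hG h2
  have h6 : (0 : ℝ) < (G.edgeFinset.card : ℝ) := by exact_mod_cast h4
  have h7 : (∑ v, (G.degree v : ℝ)) = 2 * (G.edgeFinset.card : ℝ) := by
    exact_mod_cast h3
  rw [h7]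
  field_simp

omit [DecidableEq V] in
theorem E_rev (hG : G.Connected) (h2 : ∃ x y : V, x ≠ y) (x y : V) :
    statLaw G x * walk G x y = statLaw G y * walk G y x := by
  classical
  by_cases h1 : x = y
  · rw [h1]
  · by_cases h3 : G.Adj x y
    · rw [E_walk_adj h3, E_walk_adj h3.symm]
      unfold statLaw
      have h4 := E_edges_pos hG h2
      have h6 : (0 : ℝ) < (G.edgeFinset.card : ℝ) := by exact_mod_cast h4
      have h7 : (0 : ℝ) < (G.degree x : ℝ) := by exact_mod_cast E_degree_pos hG h2 x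
      have h8 : (0 : ℝ) < (G.degree y : ℝ) := by exact_mod_cast E_degree_pos hG h2 y
      field_simp
    · have h4 : walk G x y = 0 := by
        unfold walk; simp only [Matrix.of_apply]; rw [if_neg h1, if_neg h3]
      have h5 : walk G y x = 0 := by
        unfold walk; simp only [Matrix.of_apply]
        rw [if_neg (fun h => h1 h.symm), if_neg (fun h => h3 h.symm)]
      rw [h4, h5, mul_zero, mul_zero]

theorem E_stat (hG : G.Connected) (h2 : ∃ x y : V, x ≠ y) (y : V) :
    ∑ x, statLaw G x * walk G x y = statLaw G y := by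
  rw [Finset.sum_congr rfl (fun x _ => E_rev hG h2 x y), ← Finset.mul_sum, E_row_sum hG h2,
    mul_one]

theorem E_pow_nonneg (k : ℕ) (x y : V) : 0 ≤ (walk G ^ k) x y := by
  induction k generalizing x y with
  | zero =>
    rw [pow_zero, Matrix.one_apply]
    split_ifs <;> norm_num
  | succ k ih =>
    rw [pow_succ', Matrix.mul_apply]
    exact Finset.sum_nonneg fun z _ => mul_nonneg (E_walk_nonneg x z) (ih z y)

theorem E_pow_row (hG : G.Connected) (h2 : ∃ x y : V, x ≠ y) (k : ℕ) (x : V) :
    ∑ y, (walk G ^ k) x y = 1 := by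
  induction k generalizing x with
  | zero =>
    simp [Matrix.one_apply]
  | succ k ih =>
    simp only [pow_succ', Matrix.mul_apply]
    rw [Finset.sum_comm]
    simp only [← Finset.mul_sum, ih, mul_one]
    exact E_row_sum hG h2 x

theorem E_pow_stat (hG : G.Connected) (h2 : ∃ x y : V, x ≠ y) (k : ℕ) (y : V) :
    ∑ x, statLaw G x * (walk G ^ k) x y = statLaw G y := by
  induction k generalizing y with
  | zero =>
    simp [Matrix.one_apply]
  | succ k ih =>
    simp only [pow_succ, Matrix.mul_apply, Finset.mul_sum]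
    rw [Finset.sum_comm]
    simp only [← mul_assoc, ← Finset.sum_mul, ih]
    exact E_stat hG h2 y

theorem E_pow_pos (hG : G.Connected) (h2 : ∃ x y : V, x ≠ y) {x y : V} (p : G.Walk x y) :
    ∀ k, p.length ≤ k → 0 < (walk G ^ k) x y := by
  classical
  have step : ∀ (k : ℕ) (x z y : V), 0 < walk G x z → 0 < (walk G ^ k) z y →
      0 < (walk G ^ (k + 1)) x y := by
    intro k x z y h3 h4
    rw [pow_succ', Matrix.mul_apply]
    exact Finset.sum_pos' (fun w _ => mul_nonneg (E_walk_nonneg x w) (E_pow_nonneg k w y))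
      ⟨z, Finset.mem_univ z, mul_pos h3 h4⟩
  induction p with
  | nil =>
    intro k _
    induction k with
    | zero => simp
    | succ k ih =>
      refine step k _ _ _ ?_ (ih (Nat.zero_le _))
      rw [E_walk_self]; norm_num
  | @cons u v w huv p' ih =>
    intro k hk
    rw [SimpleGraph.Walk.length_cons] at hk
    obtain ⟨k', rfl⟩ : ∃ k', k = k' + 1 := ⟨k - 1, by omega⟩
    refine step k' u v w ?_ (ih k' (by omega))
    rw [E_walk_adj huv]
    have h7 : (0 : ℝ) < (G.degree u : ℝ) := by exact_mod_cast E_degree_pos hG h2 u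
    positivity

theorem E_osc {A : Matrix V V ℝ} {d : ℝ} (hd : 0 ≤ d) (hd1 : d ≤ 1) (hA : ∀ x y, d ≤ A x y)
    (hr : ∀ x, ∑ y, A x y = 1) (f : V → ℝ) (c : ℝ) (hc : 0 ≤ c) (hf : ∀ x y, f x - f y ≤ c)
    (x y : V) :
    (∑ z, A x z * f z) - ∑ z, A y z * f z ≤ (1 - d) * c := by
  haveI : Nonempty V := ⟨x⟩
  obtain ⟨z0, hz0⟩ := Finite.exists_min f
  have h1 : ∀ u, ∑ z, (A u z - d) = 1 - (Fintype.card V : ℝ) * d := by
    intro u
    rw [Finset.sum_sub_distrib, hr, Finset.sum_const, Finset.card_univ, nsmul_eq_mul]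
  have h2 : ∀ u, ∑ z, A u z * f z = d * ∑ z, f z + (1 - (Fintype.card V : ℝ) * d) * f z0 +
      ∑ z, (A u z - d) * (f z - f z0) := by
    intro u
    rw [← h1 u, Finset.mul_sum, Finset.sum_mul, ← Finset.sum_add_distrib,
      ← Finset.sum_add_distrib]
    apply Finset.sum_congr rfl
    intro z _
    ring
  rw [h2 x, h2 y]
  have h3 : 0 ≤ ∑ z, (A y z - d) * (f z - f z0) :=
    Finset.sum_nonneg fun z _ => mul_nonneg (by linarith [hA y z]) (by linarith [hz0 z])
  have h4 : ∑ z, (A x z - d) * (f z - f z0) ≤ ∑ z, (A x z - d) * c :=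
    Finset.sum_le_sum fun z _ => mul_le_mul_of_nonneg_left (hf z z0) (by linarith [hA x z])
  rw [← Finset.sum_mul, h1 x] at h4
  have h5 : (1 : ℝ) ≤ (Fintype.card V : ℝ) := by
    exact_mod_cast (Fintype.card_pos : 0 < Fintype.card V)
  have h6 : (1 - (Fintype.card V : ℝ) * d) * c ≤ (1 - d) * c :=
    mul_le_mul_of_nonneg_right (by nlinarith) hc
  linarith

end E

/-- **Part E.** -/
theorem part_E : S_E := by
  intro V _ _ G hG h2
  classical
  haveI : Nonempty V := ⟨h2.choose⟩
  -- a time at which all entries are positive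
  obtain ⟨m, hm⟩ : ∃ m : ℕ, ∀ x y, 0 < (walk G ^ m) x y := by
    have h3 : ∀ p : V × V, ∃ w : G.Walk p.1 p.2, True := fun p =>
      ⟨(hG.preconnected p.1 p.2).some, trivial⟩
    choose w _ using h3
    refine ⟨∑ p : V × V, (w p).length, fun x y => ?_⟩
    apply E_pow_pos hG h2 (w (x, y))
    exact Finset.single_le_sum (f := fun p : V × V => (w p).length) (fun _ _ => Nat.zero_le _)
      (Finset.mem_univ (x, y))
  obtain ⟨q0, hq0⟩ := Finite.exists_min (fun q : V × V => (walk G ^ m) q.1 q.2)
  set d : ℝ := (walk G ^ m) q0.1 q0.2 with hd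
  have hd0 : 0 < d := hm _ _
  have hd1 : d ≤ 1 := by
    rw [hd, ← E_pow_row hG h2 m q0.1]
    exact Finset.single_le_sum (f := fun y => (walk G ^ m) q0.1 y)
      (fun y _ => E_pow_nonneg m q0.1 y) (Finset.mem_univ q0.2)
  have hA : ∀ x y, d ≤ (walk G ^ m) x y := fun x y => hq0 (x, y)
  have osc : ∀ (k : ℕ) (y x x' : V),
      ((walk G ^ m) ^ k) x y - ((walk G ^ m) ^ k) x' y ≤ (1 - d) ^ k := by
    intro k
    induction k with
    | zero =>
      intro y x x'
      simp only [pow_zero, Matrix.one_apply]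
      split_ifs <;> norm_num
    | succ k ih =>
      intro y x x'
      rw [pow_succ' (walk G ^ m), Matrix.mul_apply, Matrix.mul_apply, pow_succ' (1 - d)]
      exact E_osc hd0.le hd1 hA (E_pow_row hG h2 m) (fun z => ((walk G ^ m) ^ k) z y)
        ((1 - d) ^ k) (pow_nonneg (by linarith) k) (fun a c => ih y a c) x x'
  obtain ⟨x0, hx0⟩ := Finite.exists_min (statLaw G)
  have hp : 0 < statLaw G x0 / 4 := by
    have := E_stat_pos hG h2 x0
    positivity
  obtain ⟨k, hk⟩ := exists_pow_lt_of_lt_one hp (show 1 - d < 1 by linarith)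
  refine ⟨m * k, fun x y => ?_⟩
  rw [pow_mul]
  have hpy := E_stat_pos hG h2 y
  have h5 : ∀ c : ℝ, (∀ x', ((walk G ^ m) ^ k) x y - ((walk G ^ m) ^ k) x' y ≤ c) →
      ((walk G ^ m) ^ k) x y - statLaw G y ≤ c := by
    intro c hc
    have h6 : statLaw G y = ∑ x', statLaw G x' * ((walk G ^ m) ^ k) x' y := by
      rw [← pow_mul]; exact (E_pow_stat hG h2 _ y).symm
    have h7 : ((walk G ^ m) ^ k) x y - statLaw G y =
        ∑ x', statLaw G x' * (((walk G ^ m) ^ k) x y - ((walk G ^ m) ^ k) x' y) := by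
      simp only [mul_sub, Finset.sum_sub_distrib]
      rw [← Finset.sum_mul, E_stat_sum hG h2, one_mul, ← h6]
    rw [h7]
    calc _ ≤ ∑ x', statLaw G x' * c := Finset.sum_le_sum fun x' _ =>
          mul_le_mul_of_nonneg_left (hc x') (E_stat_pos hG h2 x').le
      _ = c := by rw [← Finset.sum_mul, E_stat_sum hG h2, one_mul]
  have h5' : ∀ c : ℝ, (∀ x', ((walk G ^ m) ^ k) x' y - ((walk G ^ m) ^ k) x y ≤ c) →
      statLaw G y - ((walk G ^ m) ^ k) x y ≤ c := by
    intro c hc
    have h6 : statLaw G y = ∑ x', statLaw G x' * ((walk G ^ m) ^ k) x' y := by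
      rw [← pow_mul]; exact (E_pow_stat hG h2 _ y).symm
    have h7 : statLaw G y - ((walk G ^ m) ^ k) x y =
        ∑ x', statLaw G x' * (((walk G ^ m) ^ k) x' y - ((walk G ^ m) ^ k) x y) := by
      simp only [mul_sub, Finset.sum_sub_distrib]
      rw [← Finset.sum_mul, E_stat_sum hG h2, one_mul, ← h6]
    rw [h7]
    calc _ ≤ ∑ x', statLaw G x' * c := Finset.sum_le_sum fun x' _ =>
          mul_le_mul_of_nonneg_left (hc x') (E_stat_pos hG h2 x').le
      _ = c := by rw [← Finset.sum_mul, E_stat_sum hG h2, one_mul]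
  have h8 := h5 _ (fun x' => osc k y x x')
  have h9 := h5' _ (fun x' => osc k y x' x)
  have h10 : (1 - d) ^ k ≤ statLaw G y / 4 := by
    have := hx0 y
    linarith
  have h11 : ((walk G ^ m) ^ k) x y / statLaw G y - 1 =
      (((walk G ^ m) ^ k) x y - statLaw G y) / statLaw G y := by
    field_simp
  rw [h11, abs_div, abs_of_pos hpy, div_le_iff₀ hpy, abs_le]
  constructor <;> linarith

end Pool.Agent.P8H84.MX
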