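import Pool.Agent.P8H84.MX.G1

/-!
# Project MX, part G: the graph `LG` is connected, vertex-transitive and of degree 20
-/

set_option autoImplicit false

namespace Pool.Agent.P8H84.MX

open Finset

section G
variable {lam : ℝ} {N : ℕ} [NeZero N] {L : Type} [Group L] [Fintype L] [DecidableEq L]
  {s : Fin 12 → L} {h : L} {b : ZMod N → ZMod 5}

/-- right translation by `g` of the lamp configuration -/
def trans (g : L) (x : L → ZMod 5) : L → ZMod 5 := fun m => x (m * g⁻¹)

omit [Fintype L] in
theorem trans_tog (g l : L) (e : Bool × ZMod 5) : trans g (tog h b l e) = tog h b (l * g) e := by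
  funext m
  rcases e with ⟨_ | _, z⟩
  · simp only [trans, tog, Bool.false_eq_true, if_false, Pi.smul_apply]
    congr 1
    rw [Pi.single_apply, Pi.single_apply]
    congr 1
    rw [eq_iff_iff, mul_inv_eq_iff_eq_mul]
  · simp only [trans, tog, if_true, Pi.smul_apply]
    congr 1
    unfold bvec
    apply Finset.sum_congr rfl
    intro i _
    congr 1
    rw [eq_iff_iff, mul_inv_eq_iff_eq_mul, mul_assoc]

/-- the automorphism `(x, l) ↦ (x(· g⁻¹) + y, l g)` -/
def auto (g : L) (y : L → ZMod 5) : ((L → ZMod 5) × L) ≃ ((L → ZMod 5) × L) where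
  toFun p := (trans g p.1 + y, p.2 * g)
  invFun p := (trans g⁻¹ (p.1 - y), p.2 * g⁻¹)
  left_inv := by
    rintro ⟨x, l⟩
    refine Prod.ext ?_ ?_
    · funext m
      simp [trans]
    · simp
  right_inv := by
    rintro ⟨x, l⟩
    refine Prod.ext ?_ ?_
    · funext m
      simp [trans]
    · simp

omit [Fintype L] in
theorem auto_adj (g : L) (y : L → ZMod 5) {p q : (L → ZMod 5) × L} (hpq : (LG s h b).Adj p q) :
    (LG s h b).Adj (auto g y p) (auto g y q) := by
  obtain ⟨hne, h1⟩ := hpq
  refine ⟨fun h2 => hne ((auto g y).injective h2), ?_⟩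
  rcases h1 with ⟨h1, h2⟩ | ⟨h1, e, he⟩
  · refine Or.inl ⟨?_, ?_⟩
    · simp only [auto, Equiv.coe_fn_mk]
      rw [h1]
    · simp only [auto, Equiv.coe_fn_mk]
      rcases h2 with ⟨i, hi⟩ | ⟨i, hi⟩
      · exact Or.inl ⟨i, by rw [hi, mul_assoc]⟩
      · exact Or.inr ⟨i, by rw [hi, mul_assoc]⟩
  · refine Or.inr ⟨?_, e, ?_⟩
    · simp only [auto, Equiv.coe_fn_mk]
      rw [h1]
    · simp only [auto, Equiv.coe_fn_mk]
      rw [← trans_tog, he]
      funext m
      simp only [trans, Pi.add_apply]
      ring

omit [Fintype L] in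
theorem auto_symm (g : L) (y : L → ZMod 5) (p : (L → ZMod 5) × L) :
    (auto g y).symm p = auto g⁻¹ (- trans g⁻¹ y) p := by
  refine Prod.ext ?_ ?_
  · funext m
    simp [auto, trans]
    ring
  · simp [auto]

/-- `auto` as a graph isomorphism -/
def autoIso (s : Fin 12 → L) (h : L) (b : ZMod N → ZMod 5) (g : L) (y : L → ZMod 5) :
    LG s h b ≃g LG s h b where
  toEquiv := auto g y
  map_rel_iff' := by
    intro p q
    constructor
    · intro h1
      have h2 := auto_adj g⁻¹ (- trans g⁻¹ y) h1
      rw [← auto_symm, ← auto_symm, Equiv.symm_apply_apply, Equiv.symm_apply_apply] at h2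
      exact h2
    · exact auto_adj g y

omit [Fintype L] in
theorem LG_trans (p q : (L → ZMod 5) × L) : ∃ φ : LG s h b ≃g LG s h b, φ p = q := by
  refine ⟨autoIso s h b (p.2⁻¹ * q.2) (q.1 - trans (p.2⁻¹ * q.2) p.1), ?_⟩
  refine Prod.ext ?_ ?_
  · change trans (p.2⁻¹ * q.2) p.1 + (q.1 - trans (p.2⁻¹ * q.2) p.1) = q.1
    abel
  · change p.2 * (p.2⁻¹ * q.2) = q.2
    group

theorem reach_marker (hM : MarkerGroup lam N L s h) (x : L → ZMod 5) (g : L) :
    ∀ l, (LG s h b).Reachable (x, l) (x, g * l) := by
  have hg : g ∈ Subgroup.closure (Set.range s) := by rw [hM.gen]; trivial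
  induction hg using Subgroup.closure_induction with
  | mem g hg =>
    obtain ⟨i, rfl⟩ := hg
    intro l
    apply SimpleGraph.Adj.reachable
    refine ⟨?_, Or.inl ⟨rfl, Or.inl ⟨i, rfl⟩⟩⟩
    intro h1
    have h2 := congrArg Prod.snd h1
    exact hM.ne_one i (mul_eq_right.1 h2.symm)
  | one => intro l; rw [one_mul]
  | mul g g' _ _ h1 h2 =>
    intro l
    rw [mul_assoc]
    exact (h2 l).trans (h1 (g' * l))
  | inv g _ h1 =>
    intro l
    have h2 := (h1 (g⁻¹ * l)).symm
    rwa [mul_inv_cancel_left] at h2

theorem reach_lamp (hM : MarkerGroup lam N L s h) (x v : L → ZMod 5) (l : L) :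
    (LG s h b).Reachable (x, l) (x + v, l) := by
  have key : ∀ (m : L) (z : ZMod 5) (x : L → ZMod 5),
      (LG s h b).Reachable (x, l) (x + Pi.single m z, l) := by
    intro m z x
    have h1 : (LG s h b).Reachable (x, l) (x, m) := by
      have := reach_marker (b := b) hM x (m * l⁻¹) l
      rwa [inv_mul_cancel_right] at this
    have h2 : (LG s h b).Reachable (x, m) (x + Pi.single m z, m) := by
      by_cases hz : z = 0
      · subst hz
        rw [Pi.single_zero, add_zero]
      · apply SimpleGraph.Adj.reachable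
        refine ⟨?_, Or.inr ⟨rfl, (false, z), ?_⟩⟩
        · intro h1
          have h2 := congrArg Prod.fst h1
          simp only at h2
          have h3 := congrFun (left_eq_add.1 h2) m
          simp at h3
          exact hz h3
        · simp only [tog, Bool.false_eq_true, if_false]
          congr 1
          funext k
          simp [Pi.single_apply]
    have h3 : (LG s h b).Reachable (x + Pi.single m z, m) (x + Pi.single m z, l) := by
      have := reach_marker (b := b) hM (x + Pi.single m z) (l * m⁻¹) m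
      rwa [inv_mul_cancel_right] at this
    exact (h1.trans h2).trans h3
  have key2 : ∀ (S : Finset L) (x : L → ZMod 5),
      (LG s h b).Reachable (x, l) (x + ∑ m ∈ S, Pi.single m (v m), l) := by
    intro S
    induction S using Finset.induction_on with
    | empty => intro x; simp
    | insert m S hm ih =>
      intro x
      rw [Finset.sum_insert hm, ← add_assoc]
      exact (key m (v m) x).trans (ih _)
  have h4 := key2 univ x
  rwa [Finset.univ_sum_single] at h4

theorem LG_connected (hM : MarkerGroup lam N L s h) : (LG s h b).Connected := by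
  haveI : Nonempty ((L → ZMod 5) × L) := ⟨(0, 1)⟩
  refine ⟨?_⟩
  rintro ⟨x, l⟩ ⟨y, m⟩
  have h1 := reach_marker (b := b) hM x (m * l⁻¹) l
  rw [inv_mul_cancel_right] at h1
  have h2 := reach_lamp (b := b) hM x (y - x) m
  rw [add_sub_cancel] at h2
  exact h1.trans h2

end G

/-- **Part G.** -/
theorem part_G : S_G := by
  intro lam N _ L _ _ _ s h b hN hM hb
  exact ⟨LG_connected hM, LG_trans, nb_card hN hM hb⟩

end Pool.Agent.P8H84.MX
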