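import Pool.Agent.P8H84.MX.P1aK

/-!
# Project MX, part P1a: choice of the cosets
-/

set_option autoImplicit false

namespace Pool.Agent.P8H84.MX

open Finset

lemma p1a_greedy {α : Type} [Fintype α] [DecidableEq α] (Rel : α → α → Prop) (B : ℕ)
    (hrefl : ∀ x, Rel x x) (hsym : ∀ x y, Rel x y → Rel y x)
    (hB : ∀ x, ∃ T : Finset α, T.card ≤ B ∧ ∀ y, Rel x y → y ∈ T) (m : ℕ)
    (hm : m * B < Fintype.card α) :
    ∃ S : Finset α, S.card = m ∧ ∀ x ∈ S, ∀ y ∈ S, x ≠ y → ¬ Rel x y := by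
  choose T hT1 hT2 using hB
  induction m with
  | zero => exact ⟨∅, rfl, by simp⟩
  | succ m ih =>
    obtain ⟨S, hS1, hS2⟩ := ih (lt_of_le_of_lt (Nat.mul_le_mul_right B (Nat.le_succ m)) hm)
    have h1 : (S.biUnion T).card < Fintype.card α := by
      refine lt_of_le_of_lt card_biUnion_le (lt_of_le_of_lt ?_ hm)
      calc ∑ x ∈ S, (T x).card ≤ ∑ _x ∈ S, B := sum_le_sum fun x _ => hT1 x
        _ = m * B := by rw [sum_const, hS1, smul_eq_mul]
        _ ≤ (m + 1) * B := Nat.mul_le_mul_right B (Nat.le_succ m)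
    obtain ⟨y, hy⟩ : ∃ y, y ∉ S.biUnion T := by
      by_contra hcon
      push Not at hcon
      have : S.biUnion T = univ := eq_univ_iff_forall.mpr hcon
      rw [this, card_univ] at h1
      exact lt_irrefl _ h1
    have hy2 : ∀ x ∈ S, ¬ Rel x y := fun x hx hr =>
      hy (mem_biUnion.mpr ⟨x, hx, hT2 x y hr⟩)
    have hyS : y ∉ S := fun hyS => hy2 y hyS (hrefl y)
    refine ⟨insert y S, by rw [card_insert_of_notMem hyS, hS1], ?_⟩
    intro x hx z hz hxz
    rw [mem_insert] at hx hz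
    rcases hx with rfl | hx <;> rcases hz with rfl | hz
    · exact absurd rfl hxz
    · exact fun hr => hy2 z hz (hsym _ _ hr)
    · exact hy2 x hx
    · exact hS2 x hx z hz hxz

lemma p1a_tail {γ : ℝ} (h0 : 0 ≤ γ) (h1 : γ < 1) (m K : ℕ) :
    (1 - γ) * ∑ k ∈ range K, (if m < k then γ ^ k else 0) ≤ γ ^ m - γ ^ (max m K) := by
  induction K with
  | zero => simp
  | succ K ih =>
    rw [sum_range_succ, mul_add]
    by_cases hK : m < K
    · rw [if_pos hK]
      rw [max_eq_right hK.le] at ih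
      rw [max_eq_right (by omega : m ≤ K + 1)]
      have : (1 - γ) * γ ^ K = γ ^ K - γ ^ (K + 1) := by rw [pow_succ]; ring
      linarith
    · rw [if_neg hK]
      have h2 : ∑ k ∈ range K, (if m < k then γ ^ k else 0) = 0 := by
        apply sum_eq_zero
        intro k hk
        rw [mem_range] at hk
        rw [if_neg (by omega)]
      rw [h2]
      have h3 : γ ^ (max m (K + 1)) ≤ γ ^ m := pow_le_pow_of_le_one h0 h1.le (le_max_left _ _)
      simp only [mul_zero, add_zero]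
      linarith

lemma p1a_tail' {γ : ℝ} (h0 : 0 ≤ γ) (h1 : γ < 1) (m K : ℕ) :
    ∑ k ∈ range K, (if m < k then γ ^ k else 0) ≤ γ ^ m / (1 - γ) := by
  rw [le_div_iff₀ (by linarith), mul_comm]
  have h2 := p1a_tail h0 h1 m K
  have h3 : 0 ≤ γ ^ (max m K) := pow_nonneg h0 _
  linarith

section
variable {L : Type} [Group L] [Fintype L] [DecidableEq L]

lemma p1a_sum_FF {N : ℕ} [NeZero N] {ι : Type} [Fintype ι] (h : L) (r : ι → L)
    (inj : ∀ (p q : ι) (i j : ZMod N), h ^ i.val * r p = h ^ j.val * r q → p = q ∧ i = j)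
    (F : L → ℝ) :
    ∑ l' ∈ FF N h r, F l' = ∑ p, ∑ i : ZMod N, F (h ^ i.val * r p) := by
  have h1 : FF N h r = (univ : Finset (ι × ZMod N)).image (fun x => h ^ x.2.val * r x.1) := by
    ext l
    simp only [FF, mem_filter, mem_univ, true_and, mem_image, Prod.exists]
    constructor
    · rintro ⟨p, i, rfl⟩; exact ⟨p, i, rfl⟩
    · rintro ⟨p, i, rfl⟩; exact ⟨p, i, rfl⟩
  rw [h1, sum_image, Fintype.sum_prod_type]
  rintro ⟨p, i⟩ _ ⟨q, j⟩ _ hpq
  obtain ⟨h2, h3⟩ := inj p q i j hpq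
  rw [h2, h3]

/-- the relation of being close -/
def p1aRel (s : Fin 12 → L) (N : ℕ) (h : L) (kR : ℕ) (x y : L) : Prop :=
  ∃ i j : ZMod N, ∃ w ∈ WW s kR, h ^ i.val * y = w * (h ^ j.val * x) ∨
    h ^ i.val * x = w * (h ^ j.val * y)

omit [Fintype L] in
lemma p1aRel_card (s : Fin 12 → L) (N : ℕ) [NeZero N] (h : L) (kR : ℕ) (x : L) :
    ∃ T : Finset L, T.card ≤ 2 * N ^ 2 * 13 ^ kR ∧ ∀ y, p1aRel s N h kR x y → y ∈ T := by
  set X : Finset (ZMod N × ZMod N × L) := univ ×ˢ univ ×ˢ WW s kR with hX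
  have hXc : X.card ≤ N ^ 2 * 13 ^ kR := by
    rw [hX, card_product, card_product, card_univ, ZMod.card]
    calc N * (N * (WW s kR).card) ≤ N * (N * 13 ^ kR) := by
          gcongr; exact WW_card s kR
      _ = N ^ 2 * 13 ^ kR := by ring
  refine ⟨X.image (fun z => (h ^ z.1.val)⁻¹ * (z.2.2 * (h ^ z.2.1.val * x))) ∪
    X.image (fun z => (h ^ z.2.1.val)⁻¹ * (z.2.2⁻¹ * (h ^ z.1.val * x))), ?_, ?_⟩
  · calc _ ≤ X.card + X.card := (card_union_le _ _).trans (add_le_add card_image_le card_image_le)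
      _ ≤ 2 * N ^ 2 * 13 ^ kR := by rw [mul_assoc]; omega
  · rintro y ⟨i, j, w, hw, h1 | h1⟩
    · apply mem_union_left
      rw [mem_image]
      refine ⟨(i, j, w), by simp [hX, hw], ?_⟩
      simp only
      rw [← h1]; group
    · apply mem_union_right
      rw [mem_image]
      refine ⟨(i, j, w), by simp [hX, hw], ?_⟩
      simp only
      rw [h1]; group

/-- the bound for one coset -/
lemma p1a_coset {lam κ : ℝ} (hl0 : 0 < lam) (hl1 : lam < 1) (hκ1 : 1 / 48 ≤ κ)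
    (hκ2 : κ ≤ 1 / 24)
    {s : Fin 12 → L} (gap : ∀ f : L → ℝ, ∑ x, f x = 0 →
      ∑ x, (3 * f x + ∑ i, f (s i * x)) ^ 2 ≤ 225 * lam * ∑ x, f x ^ 2)
    {N : ℕ} [NeZero N] {h : L} (ho : orderOf h = N) (r : L)
    (k : ℕ) (l : L) :
    ∑ i : ZMod N, |pk s κ k l (h ^ i.val * r) - 1 / (Fintype.card L : ℝ)| ≤
      Real.sqrt (rho lam) ^ k + 2 * N / (Fintype.card L : ℝ) := by
  have h1 := pk_coset hl0 hl1 hκ1 hκ2 gap ho r k l
  have hc : (0 : ℝ) < Fintype.card L := by exact_mod_cast Fintype.card_pos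
  have h2 : ∀ i : ZMod N, |pk s κ k l (h ^ i.val * r) - 1 / (Fintype.card L : ℝ)| ≤
      pk s κ k l (h ^ i.val * r) + 1 / (Fintype.card L : ℝ) := by
    intro i
    have h3 := pk_nonneg (s := s) (κ := κ) (by linarith) (by linarith) k l (h ^ i.val * r)
    have h4 : 0 ≤ 1 / (Fintype.card L : ℝ) := by positivity
    rw [abs_le]
    constructor <;> linarith
  calc _ ≤ ∑ i : ZMod N, (pk s κ k l (h ^ i.val * r) + 1 / (Fintype.card L : ℝ)) :=
        sum_le_sum fun i _ => h2 i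
    _ = ∑ i : ZMod N, pk s κ k l (h ^ i.val * r) + N / (Fintype.card L : ℝ) := by
        rw [sum_add_distrib, sum_const, card_univ, ZMod.card, nsmul_eq_mul]
        ring
    _ ≤ _ := by
        have : 2 * (N : ℝ) / (Fintype.card L : ℝ) = N / (Fintype.card L : ℝ) +
          N / (Fintype.card L : ℝ) := by ring
        rw [this]; linarith

/-- the kernel does not reach the other cosets in a short time -/
lemma p1a_far (s : Fin 12 → L) (κ : ℝ) {N : ℕ} [NeZero N] (h : L) (kR : ℕ) (x y : L)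
    (hr : ¬ p1aRel s N h kR x y) (k : ℕ) (hk : k ≤ kR) (j : ZMod N) :
    ∑ i : ZMod N, |pk s κ k (h ^ j.val * x) (h ^ i.val * y) - 1 / (Fintype.card L : ℝ)| ≤
      2 * N / (Fintype.card L : ℝ) := by
  have hc : (0 : ℝ) < Fintype.card L := by exact_mod_cast Fintype.card_pos
  have h1 : ∀ i : ZMod N, pk s κ k (h ^ j.val * x) (h ^ i.val * y) = 0 := by
    intro i
    apply pk_support
    intro w hw he
    exact hr ⟨i, j, w, WW_mono s hk hw, Or.inl he⟩
  simp only [h1, zero_sub, abs_neg]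
  rw [abs_of_pos (by positivity), sum_const, card_univ, ZMod.card, nsmul_eq_mul]
  have : (N : ℝ) * (1 / (Fintype.card L : ℝ)) = N / (Fintype.card L : ℝ) := by ring
  rw [this]
  gcongr
  have : (0 : ℝ) ≤ N := Nat.cast_nonneg N
  linarith

end

/-- the majorant -/
noncomputable def p1aD (γ : ℝ) (kR N R c : ℕ) (k : ℕ) : ℝ :=
  γ ^ k + R * (if kR < k then γ ^ k else 0) + (if k ≤ N then 2 * R * N / (c : ℝ) else 0) +
    R * N * (if N < k then γ ^ k else 0)

lemma p1aD_nonneg {γ : ℝ} (h0 : 0 ≤ γ) (kR N R c k : ℕ) : 0 ≤ p1aD γ kR N R c k := by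
  unfold p1aD
  have h1 : 0 ≤ γ ^ k := pow_nonneg h0 k
  have h2 : (0 : ℝ) ≤ if kR < k then γ ^ k else 0 := by split_ifs <;> simp [h1]
  have h3 : (0 : ℝ) ≤ if N < k then γ ^ k else 0 := by split_ifs <;> simp [h1]
  have h4 : (0 : ℝ) ≤ if k ≤ N then 2 * R * N / (c : ℝ) else 0 := by
    split_ifs
    · positivity
    · simp
  positivity

lemma p1aD_sum {γ : ℝ} (h0 : 0 ≤ γ) (h1 : γ < 1) (kR N R c : ℕ) (hkR : R * γ ^ kR ≤ 1)
    (hN : R * N * γ ^ N ≤ 1) (hc : 2 * R * N * (N + 1) ≤ c) (K : ℕ) :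
    ∑ k ∈ range K, p1aD γ kR N R c k ≤ 4 / (1 - γ) := by
  unfold p1aD
  rw [sum_add_distrib, sum_add_distrib, sum_add_distrib, ← mul_sum, ← mul_sum]
  have hg : 0 < 1 - γ := by linarith
  have e1 : ∑ k ∈ range K, γ ^ k ≤ 1 / (1 - γ) := by
    rw [le_div_iff₀ hg, geom_sum_mul_neg]
    have : 0 ≤ γ ^ K := pow_nonneg h0 K
    linarith
  have e2 : (R : ℝ) * ∑ k ∈ range K, (if kR < k then γ ^ k else 0) ≤ 1 / (1 - γ) := by
    calc (R : ℝ) * ∑ k ∈ range K, (if kR < k then γ ^ k else 0) ≤ R * (γ ^ kR / (1 - γ)) := by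
          gcongr; exact p1a_tail' h0 h1 kR K
      _ = (R * γ ^ kR) / (1 - γ) := by ring
      _ ≤ 1 / (1 - γ) := by gcongr
  have e4 : (R : ℝ) * N * ∑ k ∈ range K, (if N < k then γ ^ k else 0) ≤ 1 / (1 - γ) := by
    calc (R : ℝ) * N * ∑ k ∈ range K, (if N < k then γ ^ k else 0)
        ≤ R * N * (γ ^ N / (1 - γ)) := by
          gcongr; exact p1a_tail' h0 h1 N K
      _ = (R * N * γ ^ N) / (1 - γ) := by ring
      _ ≤ 1 / (1 - γ) := by gcongr
  have e3 : ∑ k ∈ range K, (if k ≤ N then 2 * (R : ℝ) * N / (c : ℝ) else 0) ≤ 1 / (1 - γ) := by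
    have h2 : ∑ k ∈ range K, (if k ≤ N then 2 * (R : ℝ) * N / (c : ℝ) else 0) ≤
        (N + 1) * (2 * (R : ℝ) * N / (c : ℝ)) := by
      rw [← sum_filter, sum_const, nsmul_eq_mul]
      apply mul_le_mul_of_nonneg_right _ (by positivity)
      have h3 : ((range K).filter fun k => k ≤ N) ⊆ range (N + 1) := by
        intro k hk
        simp only [mem_filter, mem_range] at hk ⊢
        omega
      have h4 := card_le_card h3
      rw [card_range] at h4
      exact_mod_cast h4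
    refine h2.trans ?_
    have h5 : (N + 1 : ℝ) * (2 * (R : ℝ) * N / (c : ℝ)) ≤ 1 := by
      by_cases hc0 : c = 0
      · subst hc0; simp
      · have hcp : (0 : ℝ) < c := by exact_mod_cast Nat.pos_of_ne_zero hc0
        rw [mul_div_assoc', div_le_one hcp]
        have : ((2 * R * N * (N + 1) : ℕ) : ℝ) ≤ c := by exact_mod_cast hc
        push_cast at this
        linarith
    have h6 : 1 ≤ 1 / (1 - γ) := by
      rw [le_div_iff₀ hg]; linarith
    linarith
  have : 4 / (1 - γ) = 1 / (1 - γ) + 1 / (1 - γ) + 1 / (1 - γ) + 1 / (1 - γ) := by ring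
  rw [this]
  linarith

lemma p1a_N0 {γ : ℝ} (h0 : 0 ≤ γ) (h1 : γ < 1) (R A : ℕ) : ∃ N0 : ℕ, ∀ N : ℕ, N0 ≤ N →
    (R : ℝ) * N * γ ^ N ≤ 1 ∧ (A * (N + 1) ^ 2) ^ 15 < 5 ^ N := by
  have t1 : Filter.Tendsto (fun n : ℕ => (n : ℝ) ^ 1 * γ ^ n) Filter.atTop (nhds 0) :=
    tendsto_pow_const_mul_const_pow_of_abs_lt_one 1 (by rw [abs_of_nonneg h0]; exact h1)
  have t2 : Filter.Tendsto (fun n : ℕ => (n : ℝ) ^ 30 / 5 ^ n) Filter.atTop (nhds 0) :=
    tendsto_pow_const_div_const_pow_of_one_lt 30 (by norm_num)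
  have r1 : Filter.Tendsto (fun n : ℕ => (R : ℝ) * ((n : ℝ) ^ 1 * γ ^ n)) Filter.atTop
      (nhds 0) := by simpa using t1.const_mul (R : ℝ)
  have r2 : Filter.Tendsto (fun n : ℕ => ((A : ℝ) ^ 15 * 2 ^ 30) * ((n : ℝ) ^ 30 / 5 ^ n))
      Filter.atTop (nhds 0) := by simpa using t2.const_mul ((A : ℝ) ^ 15 * 2 ^ 30)
  have ev1 := r1.eventually (gt_mem_nhds (show (0 : ℝ) < 1 by norm_num))
  have ev2 := r2.eventually (gt_mem_nhds (show (0 : ℝ) < 1 by norm_num))
  obtain ⟨N0, hN0⟩ := Filter.eventually_atTop.mp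
    ((ev1.and ev2).and (Filter.eventually_ge_atTop 1))
  refine ⟨N0, fun N hN => ?_⟩
  obtain ⟨⟨h2, h3⟩, h4⟩ := hN0 N hN
  refine ⟨by rw [pow_one] at h2; linarith, ?_⟩
  have h5 : ((A * (N + 1) ^ 2 : ℕ) : ℝ) ^ 15 < 5 ^ N := by
    push_cast
    have hN1 : (1 : ℝ) ≤ N := by exact_mod_cast h4
    have h6 : ((A : ℝ) * (N + 1) ^ 2) ^ 15 ≤ ((A : ℝ) ^ 15 * 2 ^ 30) * (N : ℝ) ^ 30 := by
      calc ((A : ℝ) * (N + 1) ^ 2) ^ 15 ≤ ((A : ℝ) * (2 * N) ^ 2) ^ 15 := by
            gcongr; linarith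
        _ = ((A : ℝ) ^ 15 * 2 ^ 30) * (N : ℝ) ^ 30 := by ring
    have h7 : ((A : ℝ) ^ 15 * 2 ^ 30) * (N : ℝ) ^ 30 < 5 ^ N := by
      rw [mul_div_assoc', div_lt_one (by positivity)] at h3
      exact h3
    linarith
  exact_mod_cast h5

/-- **Part P1a** -/
theorem part_P1a : S_P1a := by
  intro lam hl0 hl1
  set γ := Real.sqrt (rho lam) with hγ
  have g0 : 0 ≤ γ := Real.sqrt_nonneg _
  have g1 : γ < 1 := by
    rw [hγ, Real.sqrt_lt' one_pos]
    simpa using rho_lt hl1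
  refine ⟨4 / (1 - γ), by apply div_pos (by norm_num); linarith, ?_⟩
  intro κ hκ1 hκ2 R
  obtain ⟨kR, hkR⟩ : ∃ kR : ℕ, (R : ℝ) * γ ^ kR ≤ 1 := by
    obtain ⟨N0, hN0⟩ := p1a_N0 g0 g1 R 0
    refine ⟨N0 + 1, ?_⟩
    have h1 := (hN0 (N0 + 1) (by omega)).1
    have h2 : (R : ℝ) * γ ^ (N0 + 1) ≤ R * (N0 + 1 : ℕ) * γ ^ (N0 + 1) := by
      apply mul_le_mul_of_nonneg_right _ (pow_nonneg g0 _)
      have h3 : (1 : ℝ) ≤ (N0 + 1 : ℕ) := by push_cast; linarith [(Nat.cast_nonneg N0 : (0:ℝ) ≤ N0)]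
      calc (R : ℝ) = R * 1 := (mul_one _).symm
        _ ≤ R * (N0 + 1 : ℕ) := by gcongr
    linarith
  obtain ⟨N0, hN0⟩ := p1a_N0 g0 g1 R (2 * (R + 1) * 13 ^ kR)
  refine ⟨N0, ?_⟩
  intro N _ hN L _ _ _ s h hMG ι _ hι
  obtain ⟨hb, ha⟩ := hN0 N hN
  have hcard : 2 * (R + 1) * 13 ^ kR * (N + 1) ^ 2 < Fintype.card L := by
    by_contra hcon
    push Not at hcon
    have h1 : (Fintype.card L) ^ 15 ≤ (2 * (R + 1) * 13 ^ kR * (N + 1) ^ 2) ^ 15 :=
      Nat.pow_le_pow_left hcon 15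
    have h2 := hMG.le_card
    omega
  have h13 : 1 ≤ 13 ^ kR := Nat.one_le_pow _ _ (by norm_num)
  have hc1 : Fintype.card ι * (2 * N ^ 2 * 13 ^ kR) < Fintype.card L := by
    refine lt_of_le_of_lt ?_ hcard
    calc Fintype.card ι * (2 * N ^ 2 * 13 ^ kR) ≤ (R + 1) * (2 * (N + 1) ^ 2 * 13 ^ kR) := by
          gcongr <;> omega
      _ = 2 * (R + 1) * 13 ^ kR * (N + 1) ^ 2 := by ring
  have hc2 : 2 * R * N * (N + 1) ≤ Fintype.card L := by
    refine le_trans ?_ hcard.le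
    calc 2 * R * N * (N + 1) ≤ 2 * (R + 1) * 1 * ((N + 1) * (N + 1)) := by
          rw [mul_assoc (2 * R)]
          exact Nat.mul_le_mul (by omega) (Nat.mul_le_mul_right _ (by omega))
      _ ≤ 2 * (R + 1) * 13 ^ kR * ((N + 1) * (N + 1)) := by gcongr
      _ = 2 * (R + 1) * 13 ^ kR * (N + 1) ^ 2 := by ring
  have hrefl : ∀ x, p1aRel s N h kR x x := fun x => ⟨0, 0, 1, one_mem_WW s kR, Or.inl (by simp)⟩
  have hsym : ∀ x y, p1aRel s N h kR x y → p1aRel s N h kR y x := by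
    rintro x y ⟨i, j, w, hw, h1⟩
    exact ⟨i, j, w, hw, h1.symm⟩
  obtain ⟨S, hS1, hS2⟩ := p1a_greedy (p1aRel s N h kR) (2 * N ^ 2 * 13 ^ kR) hrefl hsym
    (p1aRel_card s N h kR) (Fintype.card ι) hc1
  have hcS : Fintype.card ι = Fintype.card S := by rw [Fintype.card_coe, hS1]
  set e := Fintype.equivOfCardEq hcS with he
  set r : ι → L := fun p => (e p : L) with hr
  have hfar : ∀ p q, p ≠ q → ¬ p1aRel s N h kR (r p) (r q) := by
    intro p q hpq
    refine hS2 _ (e p).2 _ (e q).2 ?_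
    intro h1
    exact hpq (e.injective (Subtype.ext h1))
  have inj : ∀ (p q : ι) (i j : ZMod N), h ^ i.val * r p = h ^ j.val * r q → p = q ∧ i = j := by
    intro p q i j hpq
    by_cases hpq2 : p = q
    · refine ⟨hpq2, ?_⟩
      subst hpq2
      exact hpow_inj hMG.ord (mul_right_cancel hpq)
    · exfalso
      refine hfar p q hpq2 ⟨j, i, 1, one_mem_WW s kR, Or.inl ?_⟩
      rw [one_mul, hpq]
  refine ⟨r, inj, p1aD γ kR N R (Fintype.card L), p1aD_nonneg g0 kR N R _, ?_,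
    p1aD_sum g0 g1 kR N R _ hkR hb hc2⟩
  intro k l hl
  have hl' : ∃ (p : ι) (i : ZMod N), l = h ^ i.val * r p := by
    simpa [FF] using hl
  obtain ⟨q, j, rfl⟩ := hl'
  rw [p1a_sum_FF h r inj (fun l' => |pk s κ k (h ^ j.val * r q) l' - 1 / (Fintype.card L : ℝ)|)]
  have hιR : (Fintype.card ι : ℝ) ≤ R := by exact_mod_cast hι
  have hgk : 0 ≤ γ ^ k := pow_nonneg g0 k
  have hcpos : (0 : ℝ) < Fintype.card L := by exact_mod_cast Fintype.card_pos
  classical
  by_cases hkN : k ≤ N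
  · have hpt : ∀ p : ι, ∑ i : ZMod N, |pk s κ k (h ^ j.val * r q) (h ^ i.val * r p) -
        1 / (Fintype.card L : ℝ)| ≤ (if p = q then γ ^ k else 0) +
        ((if kR < k then γ ^ k else 0) + 2 * N / (Fintype.card L : ℝ)) := by
      intro p
      have hco := p1a_coset hl0 hl1 hκ1 hκ2 hMG.gap hMG.ord (r p) k (h ^ j.val * r q)
      by_cases hpq : p = q
      · rw [if_pos hpq]
        have : (0 : ℝ) ≤ if kR < k then γ ^ k else 0 := by split_ifs <;> simp [hgk]
        linarith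
      · rw [if_neg hpq]
        by_cases hk : kR < k
        · rw [if_pos hk]; linarith
        · rw [if_neg hk]
          have := p1a_far s κ h kR (r q) (r p) (hfar q p (Ne.symm hpq)) k (by omega) j
          linarith
    calc _ ≤ ∑ p : ι, ((if p = q then γ ^ k else 0) +
        ((if kR < k then γ ^ k else 0) + 2 * N / (Fintype.card L : ℝ))) :=
          sum_le_sum fun p _ => hpt p
      _ = γ ^ k + (Fintype.card ι : ℝ) *
        ((if kR < k then γ ^ k else 0) + 2 * N / (Fintype.card L : ℝ)) := by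
          rw [sum_add_distrib, sum_const, card_univ, nsmul_eq_mul]
          congr 1
          simp
      _ ≤ γ ^ k + R * ((if kR < k then γ ^ k else 0) + 2 * N / (Fintype.card L : ℝ)) := by
          have : (0 : ℝ) ≤ (if kR < k then γ ^ k else 0) + 2 * N / (Fintype.card L : ℝ) := by
            split_ifs <;> positivity
          gcongr
      _ ≤ p1aD γ kR N R (Fintype.card L) k := by
          unfold p1aD
          rw [if_pos hkN, if_neg (show ¬ N < k by omega)]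
          have : (R : ℝ) * (2 * N / (Fintype.card L : ℝ)) = 2 * R * N / (Fintype.card L : ℝ) := by
            ring
          rw [mul_add, this]
          linarith
  · calc _ ≤ ∑ _p : ι, ∑ _i : ZMod N, γ ^ k :=
          sum_le_sum fun p _ => sum_le_sum fun i _ =>
            pk_sub_le hl0 hl1 hκ1 hκ2 hMG.gap k _ _
      _ = (Fintype.card ι : ℝ) * N * γ ^ k := by
          simp only [sum_const, card_univ, nsmul_eq_mul, ZMod.card]
          ring
      _ ≤ R * N * γ ^ k := by gcongr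
      _ ≤ p1aD γ kR N R (Fintype.card L) k := by
          unfold p1aD
          rw [if_neg hkN, if_pos (show N < k by omega)]
          have : (0 : ℝ) ≤ R * if kR < k then γ ^ k else 0 := by
            split_ifs <;> positivity
          linarith

end Pool.Agent.P8H84.MX
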