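import Pool.Agent.P8H84.MX.Defs2

/-!
# Project MX, part P1a: the kernel of the marker
-/

set_option autoImplicit false

namespace Pool.Agent.P8H84.MX

open Finset

section
variable {L : Type} [Group L] [Fintype L] [DecidableEq L]

/-- `Pm` as a linear map -/
noncomputable def PmL (s : Fin 12 → L) (κ : ℝ) : (L → ℝ) →ₗ[ℝ] (L → ℝ) where
  toFun := Pm s κ
  map_add' f g := by
    funext l
    simp only [Pm, Pi.add_apply]
    have : ∑ i, (f (s i * l) + g (s i * l) - (f l + g l)) =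
        ∑ i, (f (s i * l) - f l) + ∑ i, (g (s i * l) - g l) := by
      rw [← sum_add_distrib]
      exact sum_congr rfl fun i _ => by ring
    rw [this]; ring
  map_smul' c f := by
    funext l
    simp only [Pm, Pi.smul_apply, smul_eq_mul, RingHom.id_apply]
    have : ∑ i, (c * f (s i * l) - c * f l) = c * ∑ i, (f (s i * l) - f l) := by
      rw [mul_sum]
      exact sum_congr rfl fun i _ => by ring
    rw [this]; ring

omit [Fintype L] [DecidableEq L] in
lemma PmL_apply (s : Fin 12 → L) (κ : ℝ) (f : L → ℝ) : PmL s κ f = Pm s κ f := rfl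

omit [Fintype L] [DecidableEq L] in
lemma PmL_pow (s : Fin 12 → L) (κ : ℝ) (k : ℕ) (f : L → ℝ) :
    ((PmL s κ) ^ k) f = (Pm s κ)^[k] f := by
  rw [Module.End.coe_pow]
  rfl

omit [Fintype L] [DecidableEq L] in
lemma Pm_eq (s : Fin 12 → L) (κ : ℝ) (f : L → ℝ) (l : L) :
    Pm s κ f l = (1 - 12 * κ) * f l + κ * ∑ i, f (s i * l) := by
  simp only [Pm, sum_sub_distrib, sum_const, card_univ, Fintype.card_fin, nsmul_eq_mul]
  push_cast
  ring

omit [Fintype L] [DecidableEq L] in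
lemma Pm_const (s : Fin 12 → L) (κ : ℝ) (c : ℝ) : Pm s κ (fun _ => c) = fun _ => c := by
  funext l; simp [Pm]

omit [Fintype L] [DecidableEq L] in
lemma Pm_iter_const (s : Fin 12 → L) (κ : ℝ) (c : ℝ) (k : ℕ) :
    (Pm s κ)^[k] (fun _ => c) = fun _ => c := by
  induction k with
  | zero => rfl
  | succ k ih => rw [Function.iterate_succ_apply', ih, Pm_const]

omit [Fintype L] [DecidableEq L] in
lemma Pm_nonneg {s : Fin 12 → L} {κ : ℝ} (h0 : 0 ≤ κ) (h1 : 12 * κ ≤ 1) {f : L → ℝ}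
    (hf : ∀ l, 0 ≤ f l) (l : L) : 0 ≤ Pm s κ f l := by
  rw [Pm_eq]
  have := sum_nonneg fun i (_ : i ∈ (univ : Finset (Fin 12))) => hf (s i * l)
  have h3 : 0 ≤ (1 - 12 * κ) * f l := mul_nonneg (by linarith) (hf l)
  have h4 : 0 ≤ κ * ∑ i, f (s i * l) := mul_nonneg h0 this
  linarith

omit [Fintype L] [DecidableEq L] in
lemma Pm_iter_nonneg {s : Fin 12 → L} {κ : ℝ} (h0 : 0 ≤ κ) (h1 : 12 * κ ≤ 1) {f : L → ℝ}
    (hf : ∀ l, 0 ≤ f l) (k : ℕ) (l : L) : 0 ≤ ((Pm s κ)^[k] f) l := by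
  induction k generalizing l with
  | zero => exact hf l
  | succ k ih => rw [Function.iterate_succ_apply']; exact Pm_nonneg h0 h1 ih l

omit [DecidableEq L] in
lemma Pm_sum (s : Fin 12 → L) (κ : ℝ) (f : L → ℝ) : ∑ l, Pm s κ f l = ∑ l, f l := by
  simp only [Pm_eq, sum_add_distrib, ← mul_sum]
  rw [sum_comm]
  have : ∀ i, ∑ l, f (s i * l) = ∑ l, f l := fun i =>
    Equiv.sum_comp (Equiv.mulLeft (s i)) f
  simp only [this, sum_const, card_univ, Fintype.card_fin, nsmul_eq_mul]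
  push_cast
  ring

omit [Fintype L] [DecidableEq L] in
/-- `Pm` commutes with right translations -/
lemma Pm_right (s : Fin 12 → L) (κ : ℝ) (f : L → ℝ) (g : L) :
    Pm s κ (fun l => f (l * g)) = fun l => Pm s κ f (l * g) := by
  funext l; simp only [Pm, mul_assoc]

omit [Fintype L] [DecidableEq L] in
lemma Pm_iter_right (s : Fin 12 → L) (κ : ℝ) (f : L → ℝ) (g : L) (k : ℕ) :
    (Pm s κ)^[k] (fun l => f (l * g)) = fun l => ((Pm s κ)^[k] f) (l * g) := by
  induction k with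
  | zero => rfl
  | succ k ih => rw [Function.iterate_succ_apply', ih, Pm_right, Function.iterate_succ_apply']

/-- the contraction factor for squares -/
noncomputable def rho (lam : ℝ) : ℝ := 1 - 15 / 48 * (1 - lam)

lemma rho_nonneg {lam : ℝ} (h0 : 0 < lam) : 0 ≤ rho lam := by unfold rho; linarith
lemma rho_lt {lam : ℝ} (h1 : lam < 1) : rho lam < 1 := by unfold rho; linarith

omit [DecidableEq L] in
lemma Pm_sq {lam κ : ℝ} (hl1 : lam < 1) (hκ1 : 1 / 48 ≤ κ) (hκ2 : κ ≤ 1 / 24)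
    {s : Fin 12 → L} (gap : ∀ f : L → ℝ, ∑ x, f x = 0 →
      ∑ x, (3 * f x + ∑ i, f (s i * x)) ^ 2 ≤ 225 * lam * ∑ x, f x ^ 2)
    (f : L → ℝ) (hf : ∑ x, f x = 0) :
    ∑ x, (Pm s κ f x) ^ 2 ≤ rho lam * ∑ x, f x ^ 2 := by
  have h1 : ∀ x, (Pm s κ f x) ^ 2 ≤ (1 - 15 * κ) * f x ^ 2 +
      15 * κ * ((3 * f x + ∑ i, f (s i * x)) ^ 2 / 225) := by
    intro x
    rw [Pm_eq]
    set S := ∑ i, f (s i * x)
    have : ((1 - 12 * κ) * f x + κ * S) = (1 - 15 * κ) * f x + 15 * κ * ((3 * f x + S) / 15) := by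
      ring
    rw [this]
    set y := (3 * f x + S) / 15 with hy
    have h2 : (3 * f x + S) ^ 2 / 225 = y ^ 2 := by rw [hy]; ring
    rw [h2]
    have h3 : 0 ≤ (1 - 15 * κ) * (15 * κ) * (f x - y) ^ 2 :=
      mul_nonneg (mul_nonneg (by linarith) (by linarith)) (sq_nonneg _)
    nlinarith [h3]
  have h2 := gap f hf
  have h4 : 0 ≤ ∑ x, f x ^ 2 := sum_nonneg fun x _ => sq_nonneg _
  calc ∑ x, (Pm s κ f x) ^ 2
      ≤ ∑ x, ((1 - 15 * κ) * f x ^ 2 +
      15 * κ * ((3 * f x + ∑ i, f (s i * x)) ^ 2 / 225)) := sum_le_sum fun x _ => h1 x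
    _ = (1 - 15 * κ) * ∑ x, f x ^ 2 + 15 * κ *
        ((∑ x, (3 * f x + ∑ i, f (s i * x)) ^ 2) / 225) := by
        rw [sum_add_distrib, ← mul_sum, ← mul_sum, sum_div]
    _ ≤ (1 - 15 * κ) * ∑ x, f x ^ 2 + 15 * κ * ((225 * lam * ∑ x, f x ^ 2) / 225) := by
        have : 0 ≤ 15 * κ := by linarith
        gcongr
    _ = (1 - 15 * κ * (1 - lam)) * ∑ x, f x ^ 2 := by ring
    _ ≤ rho lam * ∑ x, f x ^ 2 := by
        apply mul_le_mul_of_nonneg_right _ h4
        unfold rho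
        have : 0 ≤ (15 * κ - 15 / 48) * (1 - lam) := mul_nonneg (by linarith) (by linarith)
        nlinarith

omit [DecidableEq L] in
lemma Pm_iter_sq {lam κ : ℝ} (hl0 : 0 < lam) (hl1 : lam < 1) (hκ1 : 1 / 48 ≤ κ)
    (hκ2 : κ ≤ 1 / 24)
    {s : Fin 12 → L} (gap : ∀ f : L → ℝ, ∑ x, f x = 0 →
      ∑ x, (3 * f x + ∑ i, f (s i * x)) ^ 2 ≤ 225 * lam * ∑ x, f x ^ 2)
    (f : L → ℝ) (hf : ∑ x, f x = 0) (k : ℕ) :
    ∑ x, ((Pm s κ)^[k] f) x = 0 ∧
    ∑ x, (((Pm s κ)^[k] f) x) ^ 2 ≤ rho lam ^ k * ∑ x, f x ^ 2 := by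
  induction k with
  | zero => simp [hf]
  | succ k ih =>
    simp only [Function.iterate_succ_apply']
    refine ⟨by rw [Pm_sum]; exact ih.1, ?_⟩
    refine (Pm_sq hl1 hκ1 hκ2 gap _ ih.1).trans ?_
    rw [pow_succ', mul_assoc]
    exact mul_le_mul_of_nonneg_left ih.2 (rho_nonneg hl0)

/-- linearity of the iterates: subtraction of a constant -/
lemma Pm_iter_sub_const (s : Fin 12 → L) (κ : ℝ) (f : L → ℝ) (c : ℝ) (k : ℕ) (l : L) :
    ((Pm s κ)^[k] (fun x => f x - c)) l = ((Pm s κ)^[k] f) l - c := by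
  have : (fun x => f x - c) = f - (fun _ => c) := rfl
  rw [this, ← PmL_pow, map_sub, PmL_pow, PmL_pow, Pm_iter_const]
  rfl

/-- K1 -/
lemma pk_sub_le {lam κ : ℝ} (hl0 : 0 < lam) (hl1 : lam < 1) (hκ1 : 1 / 48 ≤ κ)
    (hκ2 : κ ≤ 1 / 24)
    {s : Fin 12 → L} (gap : ∀ f : L → ℝ, ∑ x, f x = 0 →
      ∑ x, (3 * f x + ∑ i, f (s i * x)) ^ 2 ≤ 225 * lam * ∑ x, f x ^ 2)
    (k : ℕ) (l l' : L) :
    |pk s κ k l l' - 1 / (Fintype.card L : ℝ)| ≤ Real.sqrt (rho lam) ^ k := by
  have hc : (0 : ℝ) < Fintype.card L := by exact_mod_cast Fintype.card_pos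
  set f : L → ℝ := fun x => (if x = l' then 1 else 0) - 1 / (Fintype.card L : ℝ) with hfdef
  have hf : ∑ x, f x = 0 := by
    simp only [hfdef, sum_sub_distrib, sum_ite_eq', mem_univ, if_true, sum_const, card_univ,
      nsmul_eq_mul]
    field_simp
    ring
  have hf2 : ∑ x, f x ^ 2 ≤ 1 := by
    have : ∀ x, f x ^ 2 = (if x = l' then 1 - 2 / (Fintype.card L : ℝ) else 0) +
        1 / (Fintype.card L : ℝ) ^ 2 := by
      intro x
      simp only [hfdef]
      split_ifs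
      · ring
      · ring
    simp only [this, sum_add_distrib, sum_ite_eq', mem_univ, if_true, sum_const, card_univ,
      nsmul_eq_mul]
    have h3 : (Fintype.card L : ℝ) * (1 / (Fintype.card L : ℝ) ^ 2) = 1 / (Fintype.card L : ℝ) := by
      field_simp
    rw [h3]
    have : 0 ≤ 1 / (Fintype.card L : ℝ) := by positivity
    have h4 : 2 / (Fintype.card L : ℝ) = 2 * (1 / (Fintype.card L : ℝ)) := by ring
    rw [h4]; linarith
  have h1 := (Pm_iter_sq hl0 hl1 hκ1 hκ2 gap f hf k).2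
  have h2 : ((Pm s κ)^[k] f) l = pk s κ k l l' - 1 / (Fintype.card L : ℝ) := by
    rw [hfdef, Pm_iter_sub_const]; rfl
  apply abs_le_of_sq_le_sq _ (by positivity)
  rw [← pow_mul, mul_comm k 2, pow_mul, Real.sq_sqrt (rho_nonneg hl0), ← h2]
  calc ((Pm s κ)^[k] f l) ^ 2 ≤ ∑ x, ((Pm s κ)^[k] f x) ^ 2 :=
        single_le_sum (f := fun x => ((Pm s κ)^[k] f x) ^ 2) (fun x _ => sq_nonneg _) (mem_univ l)
    _ ≤ rho lam ^ k * ∑ x, f x ^ 2 := h1
    _ ≤ rho lam ^ k * 1 := mul_le_mul_of_nonneg_left hf2 (pow_nonneg (rho_nonneg hl0) k)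
    _ = rho lam ^ k := mul_one _

lemma pk_nonneg {s : Fin 12 → L} {κ : ℝ} (h0 : 0 ≤ κ) (h1 : 12 * κ ≤ 1) (k : ℕ) (l l' : L) :
    0 ≤ pk s κ k l l' := by
  unfold pk
  exact Pm_iter_nonneg h0 h1 (fun x => by split_ifs <;> norm_num) k l

/-- powers of `h` with exponents in `ZMod N` -/
lemma hpow_inj {N : ℕ} [NeZero N] {h : L} (ho : orderOf h = N) {i j : ZMod N}
    (hij : h ^ i.val = h ^ j.val) : i = j := by
  have h1 := pow_inj_mod.mp hij
  rw [ho, Nat.mod_eq_of_lt (ZMod.val_lt i), Nat.mod_eq_of_lt (ZMod.val_lt j)] at h1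
  exact ZMod.val_injective N h1

omit [Fintype L] [DecidableEq L] in
lemma hpow_val {N : ℕ} [NeZero N] {h : L} (ho : orderOf h = N) (m : ℕ) :
    h ^ (m : ZMod N).val = h ^ m := by
  rw [ZMod.val_natCast, ← ho, pow_mod_orderOf]

omit [Fintype L] [DecidableEq L] in
lemma hpow_add {N : ℕ} [NeZero N] {h : L} (ho : orderOf h = N) (i j : ZMod N) :
    h ^ (i + j).val = h ^ i.val * h ^ j.val := by
  have : i + j = ((i.val + j.val : ℕ) : ZMod N) := by push_cast; simp
  rw [this, hpow_val ho, pow_add]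

/-- the indicator function of the coset `⟨h⟩ r` -/
noncomputable def cosInd (N : ℕ) [NeZero N] (h r : L) : L → ℝ :=
  fun x => ∑ i : ZMod N, if x = h ^ i.val * r then 1 else 0

omit [Fintype L] in
lemma cosInd_zero_or {N : ℕ} [NeZero N] {h : L} (ho : orderOf h = N) (r x : L) :
    cosInd N h r x = 0 ∨ cosInd N h r x = 1 := by
  unfold cosInd
  by_cases hx : ∃ i : ZMod N, x = h ^ i.val * r
  · right
    obtain ⟨i0, rfl⟩ := hx
    rw [Finset.sum_eq_single i0]
    · simp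
    · intro i _ hi
      rw [if_neg]
      intro h2
      apply hi
      have h3 := mul_right_cancel h2
      have h1 := pow_inj_mod.mp h3
      rw [ho, Nat.mod_eq_of_lt (ZMod.val_lt i0), Nat.mod_eq_of_lt (ZMod.val_lt i)] at h1
      exact (ZMod.val_injective N h1).symm
    · intro h2; exact absurd (mem_univ _) h2
  · left
    push Not at hx
    apply sum_eq_zero
    intro i _
    rw [if_neg (hx i)]

lemma cosInd_sum (N : ℕ) [NeZero N] (h r : L) : ∑ x, cosInd N h r x = N := by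
  unfold cosInd
  rw [sum_comm]
  simp [ZMod.card]

omit [Fintype L] in
lemma cosInd_right {N : ℕ} [NeZero N] {h : L} (ho : orderOf h = N) (r x : L) (j : ZMod N) :
    cosInd N h r (x * (r⁻¹ * h ^ j.val * r)) = cosInd N h r x := by
  unfold cosInd
  rw [← Equiv.sum_comp (Equiv.addRight j)]
  apply sum_congr rfl
  intro i _
  simp only [Equiv.coe_addRight, hpow_add ho]
  congr 1
  apply propext
  constructor
  · intro h1
    have h2 : x * r⁻¹ * h ^ j.val * r = h ^ i.val * h ^ j.val * r := by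
      simpa [mul_assoc] using h1
    have h3 := mul_right_cancel (mul_right_cancel h2)
    rw [← h3]; simp
  · rintro rfl
    simp [mul_assoc]

/-- K4 -/
lemma pk_coset {lam κ : ℝ} (hl0 : 0 < lam) (hl1 : lam < 1) (hκ1 : 1 / 48 ≤ κ)
    (hκ2 : κ ≤ 1 / 24)
    {s : Fin 12 → L} (gap : ∀ f : L → ℝ, ∑ x, f x = 0 →
      ∑ x, (3 * f x + ∑ i, f (s i * x)) ^ 2 ≤ 225 * lam * ∑ x, f x ^ 2)
    {N : ℕ} [NeZero N] {h : L} (ho : orderOf h = N) (r : L)
    (k : ℕ) (l : L) :
    ∑ i : ZMod N, pk s κ k l (h ^ i.val * r) ≤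
      Real.sqrt (rho lam) ^ k + N / (Fintype.card L : ℝ) := by
  have hc : (0 : ℝ) < Fintype.card L := by exact_mod_cast Fintype.card_pos
  have hN : (0 : ℝ) < N := by exact_mod_cast Nat.pos_of_ne_zero (NeZero.ne N)
  have e1 : ∑ i : ZMod N, pk s κ k l (h ^ i.val * r) = ((Pm s κ)^[k] (cosInd N h r)) l := by
    have : cosInd N h r = ∑ i : ZMod N, (fun x => if x = h ^ i.val * r then (1 : ℝ) else 0) := by
      funext x; simp [cosInd]
    rw [this, ← PmL_pow, map_sum, Finset.sum_apply]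
    apply sum_congr rfl
    intro i _
    rw [PmL_pow]; rfl
  set c : ℝ := N / (Fintype.card L : ℝ) with hcdef
  set f : L → ℝ := fun x => cosInd N h r x - c with hfdef
  have hf : ∑ x, f x = 0 := by
    simp only [hfdef, sum_sub_distrib, cosInd_sum, sum_const, card_univ, nsmul_eq_mul, hcdef]
    field_simp
    ring
  have hf2 : ∑ x, f x ^ 2 ≤ N := by
    have : ∀ x, f x ^ 2 = (1 - 2 * c) * cosInd N h r x + c ^ 2 := by
      intro x
      simp only [hfdef]
      rcases cosInd_zero_or ho r x with h1 | h1 <;> rw [h1] <;> ring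
    simp only [this, sum_add_distrib, ← mul_sum, cosInd_sum, sum_const, card_univ, nsmul_eq_mul]
    have h3 : (Fintype.card L : ℝ) * c ^ 2 = N * c := by rw [hcdef]; field_simp
    rw [h3]
    have : 0 ≤ (N : ℝ) * c := by positivity
    linarith
  have h1 := (Pm_iter_sq hl0 hl1 hκ1 hκ2 gap f hf k).2
  set g := (Pm s κ)^[k] f with hgdef
  have h2 : g l = ((Pm s κ)^[k] (cosInd N h r)) l - c := by
    rw [hgdef, hfdef, Pm_iter_sub_const]
  have hinv : ∀ (x : L) (j : ZMod N), g (x * (r⁻¹ * h ^ j.val * r)) = g x := by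
    intro x j
    have h3 := Pm_iter_right s κ f (r⁻¹ * h ^ j.val * r) k
    have h4 : (fun l => f (l * (r⁻¹ * h ^ j.val * r))) = f := by
      funext y; simp only [hfdef, cosInd_right ho]
    rw [h4] at h3
    exact (congrFun h3 x).symm
  have h5 : (N : ℝ) * g l ^ 2 ≤ ∑ x, g x ^ 2 := by
    have h6 : (N : ℝ) * g l ^ 2 = ∑ j : ZMod N, g (l * (r⁻¹ * h ^ j.val * r)) ^ 2 := by
      simp only [hinv, sum_const, card_univ, ZMod.card, nsmul_eq_mul]
    rw [h6]
    have hinj : Function.Injective (fun j : ZMod N => l * (r⁻¹ * h ^ j.val * r)) := by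
      intro i j hij
      simp only at hij
      exact hpow_inj ho (mul_left_cancel (mul_right_cancel (mul_left_cancel hij)))
    calc ∑ j : ZMod N, g (l * (r⁻¹ * h ^ j.val * r)) ^ 2
        = ∑ x ∈ univ.image (fun j : ZMod N => l * (r⁻¹ * h ^ j.val * r)), g x ^ 2 := by
          rw [sum_image (fun a _ b _ hab => hinj hab)]
      _ ≤ ∑ x, g x ^ 2 := sum_le_sum_of_subset_of_nonneg (subset_univ _)
          (fun x _ _ => sq_nonneg _)
  have h7 : g l ^ 2 ≤ rho lam ^ k := by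
    have h8 : (N : ℝ) * g l ^ 2 ≤ N * rho lam ^ k := by
      calc (N : ℝ) * g l ^ 2 ≤ rho lam ^ k * ∑ x, f x ^ 2 := h5.trans h1
        _ ≤ rho lam ^ k * N := mul_le_mul_of_nonneg_left hf2 (pow_nonneg (rho_nonneg hl0) k)
        _ = N * rho lam ^ k := mul_comm _ _
    exact le_of_mul_le_mul_left h8 hN
  have h9 : |g l| ≤ Real.sqrt (rho lam) ^ k := by
    apply abs_le_of_sq_le_sq _ (by positivity)
    rw [← pow_mul, mul_comm k 2, pow_mul, Real.sq_sqrt (rho_nonneg hl0)]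
    exact h7
  rw [e1]
  have := le_abs_self (g l)
  rw [h2] at this h9
  linarith

/-- words of length at most `k` -/
def WW (s : Fin 12 → L) : ℕ → Finset L
  | 0 => {1}
  | k + 1 => WW s k ∪ (univ : Finset (Fin 12)).biUnion fun i => (WW s k).image fun w => w * s i

omit [Fintype L] in
lemma WW_card (s : Fin 12 → L) (k : ℕ) : (WW s k).card ≤ 13 ^ k := by
  induction k with
  | zero => simp [WW]
  | succ k ih =>
    unfold WW
    refine (card_union_le _ _).trans ?_
    have h1 : ((univ : Finset (Fin 12)).biUnion fun i => (WW s k).image fun w => w * s i).card ≤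
        12 * (WW s k).card := by
      refine (card_biUnion_le).trans ?_
      calc ∑ i : Fin 12, ((WW s k).image fun w => w * s i).card
          ≤ ∑ _i : Fin 12, (WW s k).card := sum_le_sum fun i _ => card_image_le
        _ = 12 * (WW s k).card := by simp
    calc _ ≤ (WW s k).card + 12 * (WW s k).card := by omega
      _ ≤ 13 ^ (k + 1) := by rw [pow_succ]; omega

omit [Fintype L] in
lemma WW_mono (s : Fin 12 → L) {k m : ℕ} (hkm : k ≤ m) : WW s k ⊆ WW s m := by
  induction hkm with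
  | refl => exact Subset.refl _
  | step _ ih => exact ih.trans (by rw [WW]; exact subset_union_left)

omit [Fintype L] in
lemma one_mem_WW (s : Fin 12 → L) (k : ℕ) : 1 ∈ WW s k :=
  WW_mono s (Nat.zero_le k) (by simp [WW])

omit [Fintype L] in
/-- the support of the kernel -/
lemma pk_support (s : Fin 12 → L) (κ : ℝ) (k : ℕ) (l l' : L)
    (hn : ∀ w ∈ WW s k, l' ≠ w * l) : pk s κ k l l' = 0 := by
  induction k generalizing l with
  | zero =>
    unfold pk
    simp only [Function.iterate_zero, id]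
    rw [if_neg]
    intro h1
    exact hn 1 (by simp [WW]) (by simp [h1])
  | succ k ih =>
    have h1 : pk s κ (k + 1) l l' = Pm s κ (fun x => pk s κ k x l') l := by
      unfold pk
      rw [Function.iterate_succ_apply']
    rw [h1, Pm_eq]
    have h2 : pk s κ k l l' = 0 := ih l fun w hw => hn w (by rw [WW]; exact mem_union_left _ hw)
    have h3 : ∀ i, pk s κ k (s i * l) l' = 0 := fun i => ih _ fun w hw he => by
      refine hn (w * s i) ?_ (by rw [he, mul_assoc])
      rw [WW]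
      exact mem_union_right _ (mem_biUnion.mpr ⟨i, mem_univ _, mem_image.mpr ⟨w, hw, rfl⟩⟩)
    simp [h2, h3]

end

end Pool.Agent.P8H84.MX
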