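import Pool.Agent.P8H84.MX.Defs2

/-!
# Project MX, part P2: the level of a block (by helper3)
-/

set_option autoImplicit false

namespace Pool.Agent.P8H84.MX

open Finset

section P2
variable {N : ℕ} [NeZero N] (b : ZMod N → ZMod 5)

/-- the vector represented by a pair of blocks -/
def enc (σ : Bool × ZMod N → ZMod 5) : ZMod N → ZMod 5 :=
  (fun i => σ (false, i)) + conv (fun i => σ (true, i)) b

omit [NeZero N] in
theorem wt_zero' {ι : Type} [Fintype ι] : wt (0 : ι → ZMod 5) = 0 := by
  simp [wt]

theorem wt_neg' {ι : Type} [Fintype ι] (a : ι → ZMod 5) : wt (-a) = wt a := by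
  simp [wt]

theorem wt_sub_le {ι : Type} [Fintype ι] (a c : ι → ZMod 5) : wt (a - c) ≤ wt a + wt c := by
  classical
  unfold wt
  refine (card_le_card ?_).trans (card_union_le _ _)
  intro i hi
  rw [mem_union, mem_filter, mem_filter]
  rw [mem_filter] at hi
  by_contra h
  push Not at h
  apply hi.2
  have h1 := h.1 (mem_univ _)
  have h2 := h.2 (mem_univ _)
  rw [Pi.sub_apply, h1, h2, sub_zero]

theorem wt_split (σ : Bool × ZMod N → ZMod 5) :
    wt σ = wt (fun i => σ (false, i)) + wt (fun i => σ (true, i)) := by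
  classical
  unfold wt
  rw [card_filter, card_filter, card_filter, Fintype.sum_prod_type, Fintype.sum_bool, add_comm]

theorem conv_sub (s s' : ZMod N → ZMod 5) : conv (s - s') b = conv s b - conv s' b := by
  funext i
  simp only [conv, Pi.sub_apply, sub_mul, sum_sub_distrib]

theorem conv_add (s s' : ZMod N → ZMod 5) : conv (s + s') b = conv s b + conv s' b := by
  funext i
  simp only [conv, Pi.add_apply, add_mul, sum_add_distrib]

theorem conv_zero' : conv (0 : ZMod N → ZMod 5) b = 0 := by
  funext i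
  simp [conv]

theorem conv_single (i : ZMod N) (z : ZMod 5) :
    conv (Pi.single i z) b = z • (fun k => b (k - i)) := by
  classical
  funext k
  simp only [conv, Pi.smul_apply, smul_eq_mul]
  rw [sum_eq_single i]
  · simp
  · intro j _ hj
    rw [Pi.single_eq_of_ne hj, zero_mul]
  · intro h
    exact absurd (mem_univ _) h

theorem enc_add (σ τ : Bool × ZMod N → ZMod 5) : enc b (σ + τ) = enc b σ + enc b τ := by
  unfold enc
  have : (fun i => (σ + τ) (true, i)) = (fun i => σ (true, i)) + fun i => τ (true, i) := rfl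
  rw [this, conv_add]
  have h2 : (fun i => (σ + τ) (false, i)) = (fun i => σ (false, i)) + fun i => τ (false, i) := rfl
  rw [h2]
  abel

theorem enc_sub (σ τ : Bool × ZMod N → ZMod 5) : enc b (σ - τ) = enc b σ - enc b τ := by
  unfold enc
  have : (fun i => (σ - τ) (true, i)) = (fun i => σ (true, i)) - fun i => τ (true, i) := rfl
  rw [this, conv_sub]
  have h2 : (fun i => (σ - τ) (false, i)) = (fun i => σ (false, i)) - fun i => τ (false, i) := rfl
  rw [h2]
  abel

theorem enc_zero : enc b 0 = 0 := by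
  have := enc_sub b 0 0
  simpa using this

theorem tv_eq (e : Bool × ZMod N × ZMod 5) : tv b e = enc b (Pi.single (e.1, e.2.1) e.2.2) := by
  classical
  obtain ⟨t, i, z⟩ := e
  cases t
  · have h1 : (fun j => (Pi.single (false, i) z : Bool × ZMod N → ZMod 5) (true, j)) = 0 := by
      funext j
      rw [Pi.single_eq_of_ne]
      · rfl
      · simp
    have h2 : (fun j => (Pi.single (false, i) z : Bool × ZMod N → ZMod 5) (false, j))
        = Pi.single i z := by
      funext j
      by_cases hj : j = i
      · subst hj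
        simp
      · rw [Pi.single_eq_of_ne hj, Pi.single_eq_of_ne]
        simpa using hj
    unfold tv enc
    rw [h1, h2, conv_zero', add_zero]
    simp only [Bool.false_eq_true, if_false]
    funext k
    by_cases hk : k = i
    · subst hk
      simp
    · simp [Pi.single_eq_of_ne hk]
  · have h1 : (fun j => (Pi.single (true, i) z : Bool × ZMod N → ZMod 5) (false, j)) = 0 := by
      funext j
      rw [Pi.single_eq_of_ne]
      · rfl
      · simp
    have h2 : (fun j => (Pi.single (true, i) z : Bool × ZMod N → ZMod 5) (true, j))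
        = Pi.single i z := by
      funext j
      by_cases hj : j = i
      · subst hj
        simp
      · rw [Pi.single_eq_of_ne hj, Pi.single_eq_of_ne]
        simpa using hj
    unfold tv enc
    rw [h1, h2, conv_single, zero_add]
    simp

theorem rep_unique (hb : GoodCode N b) (σ τ : Bool × ZMod N → ZMod 5)
    (h : enc b σ = enc b τ) (hw : 100 * (wt σ + wt τ) < N) : σ = τ := by
  set ρ := σ - τ with hρ
  have h1 : enc b ρ = 0 := by rw [hρ, enc_sub, h, sub_self]
  have h2 : wt ρ ≤ wt σ + wt τ := wt_sub_le σ τ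
  have h3 : (fun i => ρ (false, i)) = - conv (fun i => ρ (true, i)) b := by
    unfold enc at h1
    exact eq_neg_of_add_eq_zero_left h1
  have h4 : (fun i => ρ (true, i)) = 0 := by
    by_contra hne
    have h5 := hb _ hne
    rw [← wt_neg' (conv _ b), ← h3, add_comm, ← wt_split] at h5
    omega
  have h5 : (fun i => ρ (false, i)) = 0 := by
    rw [h3, h4, conv_zero', neg_zero]
  have h6 : ρ = 0 := by
    funext x
    obtain ⟨t, i⟩ := x
    cases t
    · exact congrFun h5 i
    · exact congrFun h4 i
  exact sub_eq_zero.1 h6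

theorem lev_le' (Lc : ℕ) (a : ZMod N → ZMod 5) : lev b Lc a ≤ Lc := Nat.sInf_le (Or.inl rfl)

theorem lev_le_wt (Lc : ℕ) (σ : Bool × ZMod N → ZMod 5) : lev b Lc (enc b σ) ≤ wt σ :=
  Nat.sInf_le (Or.inr ⟨_, _, rfl, (wt_split σ).symm⟩)

theorem lev_rep (Lc : ℕ) (a : ZMod N → ZMod 5) (h : lev b Lc a < Lc) :
    ∃ σ : Bool × ZMod N → ZMod 5, wt σ = lev b Lc a ∧ enc b σ = a := by
  have h1 : lev b Lc a ∈ ({Lc} ∪ {k | ∃ s1 s2 : ZMod N → ZMod 5, s1 + conv s2 b = a ∧
      wt s1 + wt s2 = k} : Set ℕ) := Nat.sInf_mem ⟨Lc, Or.inl rfl⟩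
  rcases h1 with h1 | ⟨s1, s2, h1, h2⟩
  · rw [Set.mem_singleton_iff] at h1
    omega
  · refine ⟨fun x => if x.1 then s2 x.2 else s1 x.2, ?_, ?_⟩
    · rw [wt_split, ← h2]
      simp
    · rw [← h1]
      unfold enc
      simp

theorem lev_enc (hb : GoodCode N b) (Lc : ℕ) (hL : 200 * Lc < N) (σ : Bool × ZMod N → ZMod 5)
    (hσ : wt σ ≤ Lc) : lev b Lc (enc b σ) = wt σ := by
  refine le_antisymm (lev_le_wt b Lc σ) ?_
  by_contra hlt
  push Not at hlt
  obtain ⟨τ, h1, h2⟩ := lev_rep b Lc (enc b σ) (by omega)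
  have := rep_unique b hb τ σ h2 (by omega)
  rw [this] at h1
  omega

theorem wt_add_single {ι : Type} [Fintype ι] [DecidableEq ι] (σ : ι → ZMod 5) (x : ι) (z : ZMod 5) :
    wt (σ + Pi.single x z) + (if σ x = 0 then 0 else 1) = wt σ + (if σ x + z = 0 then 0 else 1) := by
  unfold wt
  rw [card_filter, card_filter, ← add_sum_erase univ _ (mem_univ x),
    ← add_sum_erase univ (fun i => if σ i ≠ 0 then 1 else 0) (mem_univ x)]
  have h1 : ∑ i ∈ univ.erase x, (if (σ + (Pi.single x z : ι → ZMod 5)) i ≠ 0 then 1 else 0) =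
      ∑ i ∈ univ.erase x, (if σ i ≠ 0 then 1 else 0) := by
    apply sum_congr rfl
    intro i hi
    rw [Pi.add_apply, Pi.single_eq_of_ne (ne_of_mem_erase hi), add_zero]
  rw [h1, Pi.add_apply, Pi.single_eq_same]
  by_cases h2 : σ x = 0 <;> by_cases h3 : σ x + z = 0 <;> simp [h2, h3] <;> omega

theorem vol (Lc : ℕ) (hL : 3 * Lc ≤ N) (hN : 14 ≤ N) :
    4 * (univ.filter fun σ : Bool × ZMod N → ZMod 5 => wt σ < Lc).card ≤ 5 ^ N := by
  classical
  have h1 : 8 ^ (2 * N) * (univ.filter fun σ : Bool × ZMod N → ZMod 5 => wt σ < Lc).card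
      ≤ 8 ^ Lc * 12 ^ (2 * N) := by
    have h2 : ∑ σ : Bool × ZMod N → ZMod 5, ∏ x, (if σ x = 0 then 8 else 1) = 12 ^ (2 * N) := by
      have h3 := (Finset.prod_univ_sum (fun _ : Bool × ZMod N => (univ : Finset (ZMod 5)))
        (fun _ z => if z = 0 then 8 else 1)).symm
      rw [Fintype.piFinset_univ] at h3
      rw [h3]
      have h4 : ∑ z : ZMod 5, (if z = 0 then 8 else 1) = 12 := by decide
      rw [prod_congr rfl (fun _ _ => h4), prod_const, card_univ, Fintype.card_prod,
        Fintype.card_bool, ZMod.card]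
    rw [← h2, mul_sum, card_filter, mul_sum]
    apply sum_le_sum
    intro σ _
    by_cases h : wt σ < Lc
    · rw [if_pos h, mul_one]
      have h5 : ∏ x, (if σ x = 0 then 8 else 1) = 8 ^ (2 * N - wt σ) := by
        rw [prod_ite, prod_const, prod_const_one, mul_one]
        congr 1
        have h6 := card_filter_add_card_filter_not (s := (univ : Finset (Bool × ZMod N)))
          (fun x => σ x = 0)
        rw [card_univ, Fintype.card_prod, Fintype.card_bool, ZMod.card] at h6
        have h7 : wt σ = (univ.filter fun x : Bool × ZMod N => ¬ σ x = 0).card := rfl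
        omega
      rw [h5, ← pow_add]
      exact Nat.pow_le_pow_right (by norm_num) (by omega)
    · rw [if_neg h, mul_zero]
      exact Nat.zero_le _
  have h2 : 8 ^ Lc ≤ 2 ^ N := by
    have : (8 : ℕ) = 2 ^ 3 := by norm_num
    rw [this, ← pow_mul]
    exact Nat.pow_le_pow_right (by norm_num) hL
  have h3 : 4 * 9 ^ N ≤ 10 ^ N := by
    obtain ⟨k, rfl⟩ := Nat.exists_eq_add_of_le hN
    rw [pow_add, pow_add, ← mul_assoc]
    exact Nat.mul_le_mul (by norm_num) (Nat.pow_le_pow_left (by norm_num) k)
  have h4 : 8 ^ (2 * N) * (4 * (univ.filter fun σ : Bool × ZMod N → ZMod 5 => wt σ < Lc).card)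
      ≤ 8 ^ (2 * N) * 5 ^ N := by
    calc 8 ^ (2 * N) * (4 * (univ.filter fun σ : Bool × ZMod N → ZMod 5 => wt σ < Lc).card)
        = 4 * (8 ^ (2 * N) * (univ.filter fun σ : Bool × ZMod N → ZMod 5 => wt σ < Lc).card) := by
          ring
      _ ≤ 4 * (8 ^ Lc * 12 ^ (2 * N)) := Nat.mul_le_mul_left _ h1
      _ ≤ 4 * (2 ^ N * 12 ^ (2 * N)) := Nat.mul_le_mul_left _ (Nat.mul_le_mul_right _ h2)
      _ = 4 * 9 ^ N * 32 ^ N := by
          rw [pow_mul, ← mul_pow, mul_assoc, ← mul_pow]
          norm_num
      _ ≤ 10 ^ N * 32 ^ N := Nat.mul_le_mul_right _ h3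
      _ = 8 ^ (2 * N) * 5 ^ N := by
          rw [pow_mul, ← mul_pow, ← mul_pow]
          norm_num
  exact Nat.le_of_mul_le_mul_left h4 (by positivity)

end P2

/-- Part P2 -/
theorem part_P2 : S_P2 := by
  classical
  intro N _ b Lc hb hL
  have hL' : 200 * Lc < N := by omega
  have key : ∀ a, lev b Lc a < Lc → ∃ σ : Bool × ZMod N → ZMod 5, wt σ = lev b Lc a ∧
      ∀ e : Bool × ZMod N × ZMod 5, lev b Lc (a + tv b e) = wt (σ + Pi.single (e.1, e.2.1) e.2.2) := by
    intro a ha
    obtain ⟨σ, h1, h2⟩ := lev_rep b Lc a ha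
    refine ⟨σ, h1, fun e => ?_⟩
    rw [tv_eq, ← h2, ← enc_add]
    apply lev_enc b hb Lc hL'
    have := wt_add_single σ (e.1, e.2.1) e.2.2
    split_ifs at this <;> omega
  refine ⟨?_, lev_le' b Lc, ?_, ?_, ?_⟩
  · have := lev_le_wt b Lc (0 : Bool × ZMod N → ZMod 5)
    rw [enc_zero, wt_zero'] at this
    omega
  · intro a e
    by_cases ha : lev b Lc a < Lc
    · obtain ⟨σ, h1, h2⟩ := key a ha
      rw [h2 e, ← h1]
      have := wt_add_single σ (e.1, e.2.1) e.2.2
      split_ifs at this <;> omega
    · exact (lev_le' b Lc _).trans (by omega)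
  · intro a ha
    obtain ⟨σ, h1, h2⟩ := key a ha
    constructor
    · have h3 : (univ.filter fun e : Bool × ZMod N × ZMod 5 => e.2.2 ≠ 0 ∧
          lev b Lc (a + tv b e) = lev b Lc a + 1) =
          univ.filter fun e : Bool × ZMod N × ZMod 5 => e.2.2 ≠ 0 ∧ σ (e.1, e.2.1) = 0 := by
        apply filter_congr
        intro e _
        rw [h2 e, ← h1]
        apply and_congr_right
        intro hz
        have := wt_add_single σ (e.1, e.2.1) e.2.2
        constructor
        · intro h
          by_contra h0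
          rw [if_neg h0] at this
          split_ifs at this <;> omega
        · intro h
          rw [if_pos h, h, zero_add, if_neg hz] at this
          omega
      rw [h3, card_filter, Fintype.sum_prod_type]
      simp_rw [Fintype.sum_prod_type]
      have h4 : ∀ (t : Bool) (i : ZMod N), ∑ z : ZMod 5, (if z ≠ 0 ∧ σ (t, i) = 0 then 1 else 0) =
          4 * (if σ (t, i) = 0 then 1 else 0) := by
        intro t i
        by_cases h : σ (t, i) = 0
        · simp only [h, and_true, if_true]
          decide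
        · simp [h]
      simp_rw [h4]
      simp_rw [← mul_sum]
      rw [← Fintype.sum_prod_type' (fun (t : Bool) (i : ZMod N) => if σ (t, i) = 0 then 1 else 0),
        ← card_filter]
      have h6 := card_filter_add_card_filter_not (s := (univ : Finset (Bool × ZMod N)))
        (fun x => σ x = 0)
      rw [card_univ, Fintype.card_prod, Fintype.card_bool, ZMod.card] at h6
      have h7 : lev b Lc a = (univ.filter fun x : Bool × ZMod N => ¬ σ x = 0).card := by
        rw [← h1]; rfl
      rw [h7]
      congr 1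
      have h8 : (univ.filter fun x : Bool × ZMod N => σ (x.1, x.2) = 0) =
        univ.filter fun x : Bool × ZMod N => σ x = 0 := rfl
      rw [h8]
      omega
    · have h3 : (univ.filter fun e : Bool × ZMod N × ZMod 5 => e.2.2 ≠ 0 ∧
          lev b Lc (a + tv b e) + 1 = lev b Lc a) =
          univ.filter fun e : Bool × ZMod N × ZMod 5 => σ (e.1, e.2.1) ≠ 0 ∧
            e.2.2 = - σ (e.1, e.2.1) := by
        apply filter_congr
        intro e _
        rw [h2 e, ← h1]
        have := wt_add_single σ (e.1, e.2.1) e.2.2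
        constructor
        · rintro ⟨hz, h⟩
          have h0 : σ (e.1, e.2.1) ≠ 0 := by
            intro h0
            rw [if_pos h0] at this
            split_ifs at this <;> omega
          refine ⟨h0, ?_⟩
          rw [if_neg h0] at this
          by_contra h5
          rw [if_neg (fun h6 => h5 (eq_neg_of_add_eq_zero_right h6))] at this
          omega
        · rintro ⟨h0, h5⟩
          refine ⟨by rw [h5]; exact neg_ne_zero.2 h0, ?_⟩
          rw [if_neg h0, if_pos (by rw [h5]; ring)] at this
          omega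
      rw [h3, card_filter, Fintype.sum_prod_type]
      simp_rw [Fintype.sum_prod_type]
      have h4 : ∀ (t : Bool) (i : ZMod N), ∑ z : ZMod 5,
          (if σ (t, i) ≠ 0 ∧ z = - σ (t, i) then 1 else 0) = (if σ (t, i) ≠ 0 then 1 else 0) := by
        intro t i
        by_cases h : σ (t, i) = 0
        · simp [h]
        · simp [h]
      simp_rw [h4]
      rw [← Fintype.sum_prod_type' (fun (t : Bool) (i : ZMod N) => if σ (t, i) ≠ 0 then 1 else 0),
        ← card_filter, ← h1]
      rfl
  · refine le_trans (Nat.mul_le_mul_left 4 ?_) (vol Lc (by omega) (by omega))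
    have h3 : (univ.filter fun a : ZMod N → ZMod 5 => lev b Lc a < Lc) ⊆
        (univ.filter fun σ : Bool × ZMod N → ZMod 5 => wt σ < Lc).image (enc b) := by
      intro a ha
      rw [mem_filter] at ha
      obtain ⟨σ, h1, h2⟩ := lev_rep b Lc a ha.2
      rw [mem_image]
      exact ⟨σ, mem_filter.2 ⟨mem_univ _, by omega⟩, h2⟩
    exact (card_le_card h3).trans card_image_le

end Pool.Agent.P8H84.MX
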