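import Pool.Agent.P8H84.MX.P3b

/-!
# Project MX, part P3a: the drift of the potential
-/

set_option autoImplicit false

namespace Pool.Agent.P8H84.MX

open Finset

set_option linter.unusedSectionVars false

namespace LP

theorem GG0 : GG 0 = 1 := by norm_num [GG]
theorem GG1' : GG 1 = 1.00007 := by norm_num [GG]
theorem GG2' : GG 2 = 1.00014 := by norm_num [GG]
theorem GG3' : GG 3 = 1.00021 := by norm_num [GG]
theorem GG4' : GG 4 = 1.60021 := by norm_num [GG]
theorem GG5' : GG 5 = 1.60021 := by norm_num [GG]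

theorem GG_mono {a b : ℕ} (h : a ≤ b) : GG a ≤ GG b := by
  unfold GG
  have h1 : ((min a 3 : ℕ) : ℝ) ≤ ((min b 3 : ℕ) : ℝ) := by
    exact_mod_cast min_le_min_right 3 h
  by_cases ha : 4 ≤ a
  · rw [if_pos ha, if_pos (ha.trans h)]; linarith
  · rw [if_neg ha]
    by_cases hb : 4 ≤ b
    · rw [if_pos hb]; linarith
    · rw [if_neg hb]; linarith

theorem GG_ub (m : ℕ) : GG m ≤ 1.60021 := by
  unfold GG
  have h2 : ((min m 3 : ℕ) : ℝ) ≤ 3 := by exact_mod_cast min_le_right m 3
  split_ifs <;> linarith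

section
variable {Nd : Type} [Fintype Nd] [DecidableEq Nd] {sc : Nd → ℕ} {ow : Nd → Nd} {J : ℕ}

theorem nbr_up (n : Nd → ℕ) (q : Nd) : Nbr q n (Function.update n q (n q + 1)) :=
  ⟨fun r hr => by rw [Function.update_of_ne hr], by simp, by simp; omega⟩
theorem nbr_dn (n : Nd → ℕ) (q : Nd) : Nbr q n (Function.update n q (n q - 1)) :=
  ⟨fun r hr => by rw [Function.update_of_ne hr], by simp; omega, by simp; omega⟩

theorem own_mu (hJ : 0 < J) {p : Nd} {n n' : Nd → ℕ} (h : Nbr p n n') {i : ℕ} (hi : i < sc p) :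
    mu sc J n' i = mu sc J n i := by
  unfold mu
  rw [((g_nbr hJ h i).1 (by omega)).2]
  congr 1
  refine prod_congr rfl fun j hj => ?_
  exact ((g_nbr hJ h j).1 (by rw [mem_range] at hj; omega)).2

theorem own_G1 (hJ : 0 < J) {p : Nd} {n n' : Nd → ℕ} (h : Nbr p n n') :
    G1 sc J n' (sc p) = G1 sc J n (sc p) := by
  unfold G1
  refine prod_congr rfl fun j hj => ?_
  exact ((g_nbr hJ h j).1 (by rw [mem_range] at hj; omega)).1

theorem mt_eq (n : Nd → ℕ) (p : Nd) (i : ℕ) :
    mt sc ow n p i = ((univ.filter fun q => ow q = p ∧ sc q = i).filter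
      fun q => n q % 2 = n p % 2).card := by
  unfold mt
  rw [filter_filter]
  congr 1
  refine filter_congr fun q _ => ?_
  rw [and_assoc]

theorem mt_le {M : ℕ} (hT : Tree M sc ow) (n : Nd → ℕ) (p : Nd) {i : ℕ} (hi : i < sc p) :
    mt sc ow n p i ≤ 4 := by
  rw [mt_eq, ← hT.four p i hi]
  exact card_filter_le _ _

theorem mt_compl {M : ℕ} (hT : Tree M sc ow) (n : Nd → ℕ) (p : Nd) {i : ℕ} (hi : i < sc p) :
    mt sc ow n p i + ((univ.filter fun q => ow q = p ∧ sc q = i).filter
      fun q => ¬ (n q % 2 = n p % 2)).card = 4 := by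
  rw [mt_eq, ← hT.four p i hi]
  exact card_filter_add_card_filter_not _

theorem mt_flip {M : ℕ} (hT : Tree M sc ow) {n n' : Nd → ℕ} {p : Nd}
    (h : ∀ r, r ≠ p → n' r = n r) (hpar : n' p % 2 ≠ n p % 2) {i : ℕ} (hi : i < sc p) :
    mt sc ow n' p i = 4 - mt sc ow n p i := by
  have h1 := mt_compl hT n p hi
  have h2 : mt sc ow n' p i = ((univ.filter fun q => ow q = p ∧ sc q = i).filter
      fun q => ¬ (n q % 2 = n p % 2)).card := by
    rw [mt_eq]
    congr 1
    refine filter_congr fun q hq => ?_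
    have hq' : sc q = i := (mem_filter.mp hq).2.2
    have hqp : q ≠ p := by rintro rfl; omega
    rw [h q hqp]
    omega
  omega

theorem cc_mt {M : ℕ} (hT : Tree M sc ow) (n : Nd → ℕ) (p : Nd) {i : ℕ} (hi : i < sc p) :
    cc sc ow n p i = if mt sc ow n p i = 4 then 1 else del := by
  have h1 : (∀ q, ow q = p → sc q = i → n q % 2 = n p % 2) ↔ mt sc ow n p i = 4 := by
    rw [mt_eq, ← hT.four p i hi, card_filter_eq_iff]
    constructor
    · intro h q hq
      obtain ⟨_, h1, h2⟩ := mem_filter.mp hq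
      exact h q h1 h2
    · intro h q h1 h2
      exact h q (mem_filter.mpr ⟨mem_univ _, h1, h2⟩)
  unfold cc
  by_cases h2 : mt sc ow n p i = 4
  · rw [if_pos h2, if_pos (h1.mpr h2)]
  · rw [if_neg h2, if_neg (fun h3 => h2 (h1.mp h3))]

theorem mt_other {n n' : Nd → ℕ} {p q : Nd} (h : ∀ r, r ≠ q → n' r = n r) (hqp : q ≠ p)
    (ho : ow q = p) (hpar : n' q % 2 ≠ n q % 2) :
    (n q % 2 = n p % 2 → mt sc ow n' p (sc q) + 1 = mt sc ow n p (sc q)) ∧
    (n q % 2 ≠ n p % 2 → mt sc ow n' p (sc q) = mt sc ow n p (sc q) + 1) := by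
  have hp : n' p = n p := h p (Ne.symm hqp)
  refine ⟨fun hm => ?_, fun hm => ?_⟩
  · have h1 : (univ.filter fun r => ow r = p ∧ sc r = sc q ∧ n' r % 2 = n' p % 2) =
        (univ.filter fun r => ow r = p ∧ sc r = sc q ∧ n r % 2 = n p % 2).erase q := by
      ext r
      simp only [mem_filter, mem_univ, true_and, mem_erase]
      by_cases hr : r = q
      · subst hr
        constructor
        · rintro ⟨_, _, h3⟩; exfalso; apply hpar; rw [h3, hp, hm]
        · rintro ⟨h3, _⟩; exact absurd rfl h3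
      · rw [h r hr, hp]; simp [hr]
    unfold mt
    rw [h1, card_erase_add_one]
    exact mem_filter.mpr ⟨mem_univ _, ho, rfl, hm⟩
  · have h1 : (univ.filter fun r => ow r = p ∧ sc r = sc q ∧ n' r % 2 = n' p % 2) =
        insert q (univ.filter fun r => ow r = p ∧ sc r = sc q ∧ n r % 2 = n p % 2) := by
      ext r
      simp only [mem_filter, mem_univ, true_and, mem_insert]
      by_cases hr : r = q
      · subst hr
        constructor
        · intro _; left; rfl
        · intro _; refine ⟨ho, rfl, ?_⟩; rw [hp]; omega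
      · rw [h r hr, hp]; simp [hr]
    unfold mt
    rw [h1, card_insert_of_notMem]
    intro h2
    exact hm (mem_filter.mp h2).2.2.2

/-- the potential when `G1 = 0` -/
theorem Phi_eq {n : Nd → ℕ} {p : Nd} (h : G1 sc J n (sc p) = 0) :
    Phi sc ow J n p = 2 ^ n p * ∑ i ∈ range (sc p), mu sc J n i * GG (mt sc ow n p i) := by
  unfold Phi
  rw [h]
  congr 1
  simp

theorem sum_mu_one (hJ : 0 < J) {n : Nd → ℕ} {k : ℕ} (h : G1 sc J n k = 0) :
    ∑ i ∈ range k, mu sc J n i = 1 := by
  have := sum_nu (sc := sc) hJ n k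
  rw [h] at this
  simpa using this

theorem om_eq {n : Nd → ℕ} {p : Nd} (h : G1 sc J n (sc p) = 0) :
    om sc ow J n p = ∑ i ∈ range (sc p), mu sc J n i * cc sc ow n p i := by
  unfold om
  rw [h]
  simp

theorem wi_ge (n : Nd → ℕ) (q : Nd) :
    om sc ow J n q ≤ (wi sc ow J n q : ℝ) / 20000000 := by
  unfold wi
  rw [le_div_iff₀ (by norm_num)]
  have := Nat.le_ceil (20000000 * om sc ow J n q)
  linarith

theorem wi_le (hJ : 0 < J) (n : Nd → ℕ) (q : Nd) :
    (wi sc ow J n q : ℝ) / 20000000 ≤ om sc ow J n q + 1 / 20000000 := by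
  unfold wi
  rw [div_le_iff₀ (by norm_num)]
  have h0 : 0 ≤ om sc ow J n q :=
    le_trans (by unfold del; norm_num) (om_bd (sc := sc) (ow := ow) hJ n q).1
  have := Nat.ceil_lt_add_one (show 0 ≤ 20000000 * om sc ow J n q by positivity)
  linarith

theorem wi_le_one (hJ : 0 < J) (n : Nd → ℕ) (q : Nd) :
    (wi sc ow J n q : ℝ) / 20000000 ≤ 1 := by
  rw [div_le_one (by norm_num)]
  have h1 : wi sc ow J n q ≤ 20000000 := by
    unfold wi
    rw [Nat.ceil_le]
    have := (om_bd (sc := sc) (ow := ow) hJ n q).2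
    push_cast
    linarith
  exact_mod_cast h1

theorem wi_nonneg (n : Nd → ℕ) (q : Nd) : 0 ≤ (wi sc ow J n q : ℝ) / 20000000 := by positivity

/-- own moves -/
theorem own_part {M : ℕ} (hT : Tree M sc ow) (hJ : 0 < J) (n : Nd → ℕ) (p : Nd) {N : ℕ}
    (hN : n p < N) (hG : G1 sc J n (sc p) = 0) :
    4 * (2 * (N:ℝ) - n p) * ((wi sc ow J n p : ℝ) / 20000000) *
      (Phi sc ow J (Function.update n p (n p + 1)) p - Phi sc ow J n p) +
    (n p : ℝ) * ((wi sc ow J (Function.update n p (n p - 1)) p : ℝ) / 20000000) *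
      (Phi sc ow J (Function.update n p (n p - 1)) p - Phi sc ow J n p) ≤
    8 * N * 2 ^ n p * ∑ i ∈ range (sc p), mu sc J n i *
      (2.20042 * (1 / 10000000 + if mt sc ow n p i = 4 then 1 else 0)
        - 0.199895 * (n p / (8 * N)) * if mt sc ow n p i = 0 then 1 else 0) := by
  have hNp : (0:ℝ) < N := by exact_mod_cast (by omega : 0 < N)
  have hnN : (n p : ℝ) < N := by exact_mod_cast hN
  have hz : (0:ℝ) < 2 ^ n p := by positivity
  have hmu1 := sum_mu_one hJ hG
  have hmu0 : ∀ i, 0 ≤ mu sc J n i := fun i => mu_nonneg n i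
  set A4 : ℝ := ∑ i ∈ range (sc p), mu sc J n i * (if mt sc ow n p i = 4 then 1 else 0) with hA4
  set A0 : ℝ := ∑ i ∈ range (sc p), mu sc J n i * (if mt sc ow n p i = 0 then 1 else 0) with hA0
  have hA4n : 0 ≤ A4 := sum_nonneg fun i _ => mul_nonneg (hmu0 i) (by split_ifs <;> norm_num)
  have hA0n : 0 ≤ A0 := sum_nonneg fun i _ => mul_nonneg (hmu0 i) (by split_ifs <;> norm_num)
  have hrhs : ∑ i ∈ range (sc p), mu sc J n i *
      (2.20042 * (1 / 10000000 + if mt sc ow n p i = 4 then 1 else 0)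
        - 0.199895 * (n p / (8 * N)) * if mt sc ow n p i = 0 then 1 else 0) =
      2.20042 * (1 / 10000000) + 2.20042 * A4 - 0.199895 * (n p / (8 * N)) * A0 := by
    rw [hA4, hA0, mul_sum, mul_sum]
    have e : (2.20042 * (1 / 10000000) : ℝ) =
        ∑ i ∈ range (sc p), mu sc J n i * (2.20042 * (1 / 10000000)) := by
      rw [← sum_mul, hmu1]; ring
    rw [e, ← sum_add_distrib, ← sum_sub_distrib]
    refine sum_congr rfl fun i _ => ?_
    ring
  rw [hrhs]
  -- the potential after the move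
  have hup := nbr_up n p
  have hdn := nbr_dn n p
  -- up-move
  have e1 : Phi sc ow J (Function.update n p (n p + 1)) p = 2 ^ (n p + 1) *
      ∑ i ∈ range (sc p), mu sc J n i * GG (4 - mt sc ow n p i) := by
    rw [Phi_eq (by rw [own_G1 hJ hup, hG]), Function.update_self]
    congr 1
    refine sum_congr rfl fun i hi => ?_
    rw [own_mu hJ hup (mem_range.mp hi), mt_flip hT hup.1 (by simp; omega) (mem_range.mp hi)]
  have e0 : Phi sc ow J n p = 2 ^ n p *
      ∑ i ∈ range (sc p), mu sc J n i * GG (mt sc ow n p i) := Phi_eq hG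
  have b1 : ∀ (m : ℕ → ℕ), 1 ≤ ∑ i ∈ range (sc p), mu sc J n i * GG (m i) ∧
      ∑ i ∈ range (sc p), mu sc J n i * GG (m i) ≤ 1.60021 := by
    intro m
    constructor
    · calc (1:ℝ) = ∑ i ∈ range (sc p), mu sc J n i * 1 := by rw [← sum_mul, hmu1]; ring
        _ ≤ _ := sum_le_sum fun i _ => mul_le_mul_of_nonneg_left (GG_bd (m i)).1 (hmu0 i)
    · calc _ ≤ ∑ i ∈ range (sc p), mu sc J n i * 1.60021 :=
            sum_le_sum fun i _ => mul_le_mul_of_nonneg_left (GG_ub (m i)) (hmu0 i)
        _ = _ := by rw [← sum_mul, hmu1]; ring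
  have b2 := b1 (fun i => 4 - mt sc ow n p i)
  have b3 := b1 (mt sc ow n p)
  set S1 := ∑ i ∈ range (sc p), mu sc J n i * GG (4 - mt sc ow n p i) with hS1
  set S0 := ∑ i ∈ range (sc p), mu sc J n i * GG (mt sc ow n p i) with hS0
  have c1 : Phi sc ow J (Function.update n p (n p + 1)) p - Phi sc ow J n p =
      2 ^ n p * (2 * S1 - S0) := by
    rw [e1, e0, pow_succ]; ring
  have w1 : (wi sc ow J n p : ℝ) / 20000000 ≤ A4 + 1 / 10000000 := by
    refine (wi_le hJ n p).trans ?_
    rw [om_eq hG]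
    have : ∑ i ∈ range (sc p), mu sc J n i * cc sc ow n p i ≤ A4 + 1 / 20000000 := by
      have e : (1 / 20000000 : ℝ) = ∑ i ∈ range (sc p), mu sc J n i * (1 / 20000000) := by
        rw [← sum_mul, hmu1]; ring
      rw [e, hA4, ← sum_add_distrib]
      refine sum_le_sum fun i hi => ?_
      rw [← mul_add]
      refine mul_le_mul_of_nonneg_left ?_ (hmu0 i)
      rw [cc_mt hT n p (mem_range.mp hi)]
      unfold del
      split_ifs <;> norm_num
    linarith
  have w1' := wi_nonneg (sc := sc) (ow := ow) (J := J) n p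
  have hUp : 4 * (2 * (N:ℝ) - n p) * ((wi sc ow J n p : ℝ) / 20000000) *
      (Phi sc ow J (Function.update n p (n p + 1)) p - Phi sc ow J n p) ≤
      8 * N * 2 ^ n p * (2.20042 * (1 / 10000000) + 2.20042 * A4) := by
    rw [c1]
    have h1 : 4 * (2 * (N:ℝ) - n p) * ((wi sc ow J n p : ℝ) / 20000000) ≤
        8 * N * (A4 + 1 / 10000000) := by
      refine mul_le_mul ?_ w1 w1' (by positivity)
      have : (0:ℝ) ≤ n p := by positivity
      linarith
    have h2 : 0 ≤ 2 * S1 - S0 := by linarith [b2.1, b3.2]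
    have h3 : 2 * S1 - S0 ≤ 2.20042 := by linarith [b2.2, b3.1]
    calc 4 * (2 * (N:ℝ) - n p) * ((wi sc ow J n p : ℝ) / 20000000) * (2 ^ n p * (2 * S1 - S0))
        ≤ 8 * N * (A4 + 1 / 10000000) * (2 ^ n p * 2.20042) := by
          refine mul_le_mul h1 (mul_le_mul_of_nonneg_left h3 hz.le)
            (mul_nonneg hz.le h2) (by positivity)
      _ = _ := by ring
  -- down-move
  have hDn : (n p : ℝ) * ((wi sc ow J (Function.update n p (n p - 1)) p : ℝ) / 20000000) *
      (Phi sc ow J (Function.update n p (n p - 1)) p - Phi sc ow J n p) ≤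
      8 * N * 2 ^ n p * (- (0.199895 * (n p / (8 * N)) * A0)) := by
    rcases Nat.eq_zero_or_pos (n p) with h0 | h0
    · rw [h0]; simp
    have e2 : Phi sc ow J (Function.update n p (n p - 1)) p = 2 ^ (n p - 1) * S1 := by
      rw [Phi_eq (by rw [own_G1 hJ hdn, hG]), Function.update_self]
      congr 1
      refine sum_congr rfl fun i hi => ?_
      rw [own_mu hJ hdn (mem_range.mp hi), mt_flip hT hdn.1 (by simp; omega) (mem_range.mp hi)]
    have e3 : (2:ℝ) ^ n p = 2 * 2 ^ (n p - 1) := by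
      rw [← pow_succ']; congr 1; omega
    have c2 : Phi sc ow J (Function.update n p (n p - 1)) p - Phi sc ow J n p =
        2 ^ n p * (S1 / 2 - S0) := by
      rw [e2, e0, e3]; ring
    have w2 : A0 ≤ (wi sc ow J (Function.update n p (n p - 1)) p : ℝ) / 20000000 := by
      refine le_trans ?_ (wi_ge _ _)
      rw [om_eq (by rw [own_G1 hJ hdn, hG]), hA0]
      refine sum_le_sum fun i hi => ?_
      rw [own_mu hJ hdn (mem_range.mp hi)]
      refine mul_le_mul_of_nonneg_left ?_ (hmu0 i)
      rw [cc_mt hT _ p (mem_range.mp hi), mt_flip hT hdn.1 (by simp; omega) (mem_range.mp hi)]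
      by_cases hm : mt sc ow n p i = 0
      · rw [hm]; simp
      · rw [if_neg hm]; unfold del; split_ifs <;> norm_num
    rw [c2]
    have h4 : S1 / 2 - S0 ≤ -0.199895 := by linarith [b2.2, b3.1]
    have h5 : (0:ℝ) ≤ n p := by positivity
    have h6 : (n p : ℝ) * A0 ≤
        (n p : ℝ) * ((wi sc ow J (Function.update n p (n p - 1)) p : ℝ) / 20000000) :=
      mul_le_mul_of_nonneg_left w2 h5
    have h7 : 2 ^ n p * (S1 / 2 - S0) ≤ 2 ^ n p * (-0.199895) :=
      mul_le_mul_of_nonneg_left h4 hz.le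
    have h8 : (0:ℝ) ≤ (n p : ℝ) * A0 := mul_nonneg h5 hA0n
    have e5 : 8 * (N:ℝ) * 2 ^ n p * (- (0.199895 * (n p / (8 * N)) * A0)) =
        - (n p * A0 * (2 ^ n p * 0.199895)) := by
      field_simp
    rw [e5]
    have h9 : (n p : ℝ) * A0 * (2 ^ n p * 0.199895) ≤
        (n p : ℝ) * ((wi sc ow J (Function.update n p (n p - 1)) p : ℝ) / 20000000) *
          (2 ^ n p * (S0 - S1 / 2)) := by
      refine mul_le_mul h6 ?_ (by positivity) (h8.trans h6)
      refine mul_le_mul_of_nonneg_left ?_ hz.le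
      linarith
    have e6 : (n p : ℝ) * ((wi sc ow J (Function.update n p (n p - 1)) p : ℝ) / 20000000) *
          (2 ^ n p * (S1 / 2 - S0)) = - ((n p : ℝ) *
          ((wi sc ow J (Function.update n p (n p - 1)) p : ℝ) / 20000000) *
          (2 ^ n p * (S0 - S1 / 2))) := by ring
    rw [e6]
    linarith
  have e7 : 8 * (N:ℝ) * 2 ^ n p * (2.20042 * (1 / 10000000) + 2.20042 * A4 -
      0.199895 * (n p / (8 * N)) * A0) =
      8 * N * 2 ^ n p * (2.20042 * (1 / 10000000) + 2.20042 * A4) +
      8 * N * 2 ^ n p * (- (0.199895 * (n p / (8 * N)) * A0)) := by ring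
  rw [e7]
  linarith

/-- the change of the potential at the move of another node -/
theorem other_Phi {M : ℕ} (hT : Tree M sc ow) (hJ : 0 < J) {n n' : Nd → ℕ} {p q : Nd}
    (hn : Nbr q n n') (hqp : q ≠ p) (hG : G1 sc J n (sc p) = 0) :
    Phi sc ow J n' p - Phi sc ow J n p ≤ 2 ^ n p *
      (∑ i ∈ range (sc p), mu sc J n i * (GG (mt sc ow n' p i) - GG (mt sc ow n p i))
        + 8 * (M + 1) / J) := by
  have hJp : (0:ℝ) < J := by exact_mod_cast hJ
  have h8 : (0:ℝ) ≤ 8 * (M + 1) / J := by positivity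
  have hpow : (0:ℝ) < 2 ^ n p := by positivity
  have hnp : n' p = n p := hn.1 p (Ne.symm hqp)
  have e0 := sum_nu (sc := sc) hJ n (sc p)
  have e0' := sum_nu (sc := sc) hJ n' (sc p)
  have hmu : ∀ i, mu sc J n i = (1 - G1 sc J n (sc p)) * mu sc J n i := fun i => by
    rw [hG]; ring
  rw [sum_congr rfl fun i _ => by rw [hmu i]]
  set ν : ℕ → ℝ := fun i => (1 - G1 sc J n (sc p)) * mu sc J n i with hν
  set ν' : ℕ → ℝ := fun i => (1 - G1 sc J n' (sc p)) * mu sc J n' i with hν'
  have e1 : Phi sc ow J n' p - Phi sc ow J n p = 2 ^ n p *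
      (∑ i ∈ range (sc p), (ν' i - ν i) * (GG (mt sc ow n' p i) - 1)
        + ∑ i ∈ range (sc p), ν i * (GG (mt sc ow n' p i) - GG (mt sc ow n p i))) := by
    have k1 : Phi sc ow J n' p = 2 ^ n p *
        (∑ i ∈ range (sc p), ν' i * GG (mt sc ow n' p i) + G1 sc J n' (sc p)) := by
      unfold Phi; rw [hnp]
    have k2 : Phi sc ow J n p = 2 ^ n p *
        (∑ i ∈ range (sc p), ν i * GG (mt sc ow n p i) + G1 sc J n (sc p)) := by
      unfold Phi; rfl
    have k3 : G1 sc J n' (sc p) = 1 - ∑ i ∈ range (sc p), ν' i := by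
      rw [hν', e0']; ring
    have k4 : G1 sc J n (sc p) = 1 - ∑ i ∈ range (sc p), ν i := by
      rw [hν, e0]; ring
    rw [k1, k2, k3, k4, ← mul_sub]
    congr 1
    rw [← sum_add_distrib]
    have k5 : ∀ i, (ν' i - ν i) * (GG (mt sc ow n' p i) - 1)
        + ν i * (GG (mt sc ow n' p i) - GG (mt sc ow n p i)) =
        ν' i * GG (mt sc ow n' p i) - ν' i - (ν i * GG (mt sc ow n p i) - ν i) := by
      intro i; ring
    rw [sum_congr rfl fun i _ => k5 i]
    simp only [sum_sub_distrib]
    ring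
  rw [e1]
  refine mul_le_mul_of_nonneg_left ?_ hpow.le
  have e2 : |∑ i ∈ range (sc p), (ν' i - ν i) * (GG (mt sc ow n' p i) - 1)| ≤
      8 * (M + 1) / J := by
    refine (abs_sum_le_sum_abs _ _).trans ?_
    have k1 : ∀ i ∈ range (sc p), |(ν' i - ν i) * (GG (mt sc ow n' p i) - 1)| ≤
        1 / (8 * J) := by
      intro i _
      rw [abs_mul]
      have g := GG_bd (mt sc ow n' p i)
      have g1 : |GG (mt sc ow n' p i) - 1| ≤ 1 := by
        rw [abs_le]; constructor <;> linarith [g.1, g.2]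
      have g2 : |ν' i - ν i| ≤ 1 / (8 * J) := nu_nbr hJ hn (sc p) i
      calc _ ≤ 1 / (8 * (J:ℝ)) * 1 := mul_le_mul g2 g1 (abs_nonneg _) (by positivity)
        _ = _ := mul_one _
    refine (sum_le_sum k1).trans ?_
    rw [sum_const, card_range, nsmul_eq_mul]
    have k2 : (sc p : ℝ) ≤ M := by exact_mod_cast hT.le p
    have k3 : (sc p : ℝ) * (1 / (8 * J)) ≤ M * (1 / (8 * J)) :=
      mul_le_mul_of_nonneg_right k2 (by positivity)
    refine k3.trans ?_
    rw [mul_one_div, div_le_div_iff₀ (by positivity) hJp]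
    have : (0:ℝ) ≤ M := by positivity
    nlinarith
  have e3 := le_abs_self (∑ i ∈ range (sc p), (ν' i - ν i) * (GG (mt sc ow n' p i) - 1))
  linarith

/-- if the share of the scale of `q` is not zero then `G1 = 1` there and the level of `q` is
small -/
theorem of_mu_ne (hJ : 0 < J) {n : Nd → ℕ} {q : Nd} (h : mu sc J n (sc q) ≠ 0) :
    G1 sc J n (sc q) = 1 ∧ n q < 48 * J := by
  have hJp : (0:ℝ) < J := by exact_mod_cast hJ
  unfold mu at h
  have h1 : ∏ j ∈ range (sc q), g2 sc J n j ≠ 0 := fun hc => h (by rw [hc, zero_mul])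
  have h2 : 1 - g2 sc J n (sc q) ≠ 0 := fun hc => h (by rw [hc, mul_zero])
  constructor
  · unfold G1
    exact prod_eq_one fun i hi => g1_eq_one hJ (prod_ne_zero_iff.mp h1 i hi)
  · by_contra hc
    push Not at hc
    apply h2
    have h3 : n q ≤ NN sc n (sc q) := by
      unfold NN
      exact Finset.le_sup (f := n) (mem_filter.mpr ⟨mem_univ _, rfl⟩)
    have h4 : ((48 * J : ℕ) : ℝ) ≤ NN sc n (sc q) := by exact_mod_cast hc.trans h3
    push_cast at h4
    have h5 : 1 ≤ ((NN sc n (sc q) : ℝ) - 32 * J) / (16 * J) := by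
      rw [le_div_iff₀ (by positivity)]; linarith
    unfold g2 cl
    rw [min_eq_left h5, max_eq_right zero_le_one, sub_self]

theorem wi_rr {n : Nd → ℕ} {q : Nd} (h : G1 sc J n (sc q) = 1) :
    om sc ow J n q = rr ow n q := by
  unfold om
  rw [h]
  simp

set_option maxHeartbeats 2000000 in
/-- the moves of another node -/
theorem other_part {M : ℕ} (hT : Tree M sc ow) (hJ : 0 < J) {N Lc : ℕ} (hN : 20000 * J ≤ N)
    (hLc : 50 * J ≤ Lc) (hLN : Lc ≤ N) (n : Nd → ℕ) {p q : Nd} (hqp : q ≠ p)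
    (hG : G1 sc J n (sc p) = 0) (u d : ℝ)
    (h1 : n q < Lc → u = 4 * (2 * N - n q) ∧ d = n q)
    (h2 : Lc ≤ n q → u = 0 ∧ 0 ≤ d ∧ d ≤ 8 * N) :
    u * ((wi sc ow J n q : ℝ) / 20000000) *
      (Phi sc ow J (Function.update n q (n q + 1)) p - Phi sc ow J n p) +
    d * ((wi sc ow J (Function.update n q (n q - 1)) q : ℝ) / 20000000) *
      (Phi sc ow J (Function.update n q (n q - 1)) p - Phi sc ow J n p) ≤
    8 * N * 2 ^ n p * (∑ i ∈ range (sc p), (if ow q = p ∧ sc q = i then mu sc J n i *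
      (if n q % 2 = n p % 2 then
        -(0.9988 * (GG (mt sc ow n p i) - GG (mt sc ow n p i - 1))) else
        0.00031 * (GG (mt sc ow n p i + 1) - GG (mt sc ow n p i))) else 0)
      + 8 * (M + 1) / J) := by
  have hJp : (0:ℝ) < J := by exact_mod_cast hJ
  have hNp : (0:ℝ) < N := by exact_mod_cast (by omega : 0 < N)
  have hNJ : (20000:ℝ) * J ≤ N := by exact_mod_cast hN
  have hz : (0:ℝ) < 2 ^ n p := by positivity
  have h8 : (0:ℝ) ≤ 8 * (M + 1) / J := by positivity
  have hmu0 : ∀ i, 0 ≤ mu sc J n i := fun i => mu_nonneg n i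
  have hup := nbr_up n q
  have hdn := nbr_dn n q
  have a1 := other_Phi hT hJ hup hqp hG
  have a2 := other_Phi hT hJ hdn hqp hG
  have w1 := wi_le_one (sc := sc) (ow := ow) hJ n q
  have w1' := wi_nonneg (sc := sc) (ow := ow) (J := J) n q
  have w2 := wi_le_one (sc := sc) (ow := ow) hJ (Function.update n q (n q - 1)) q
  have w2' := wi_nonneg (sc := sc) (ow := ow) (J := J) (Function.update n q (n q - 1)) q
  have hud : 0 ≤ u ∧ 0 ≤ d ∧ u + d ≤ 8 * N := by
    rcases lt_or_ge (n q) Lc with h | h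
    · obtain ⟨e1, e2⟩ := h1 h
      have h3 : (n q : ℝ) < N := by exact_mod_cast lt_of_lt_of_le h hLN
      have h4 : (0:ℝ) ≤ n q := by positivity
      refine ⟨by rw [e1]; linarith, by rw [e2]; exact h4, by rw [e1, e2]; linarith⟩
    · obtain ⟨e1, e2, e3⟩ := h2 h
      exact ⟨e1.ge, e2, by rw [e1]; linarith⟩
  obtain ⟨hu, hd, hud⟩ := hud
  set x1 := (wi sc ow J n q : ℝ) / 20000000 with hx1
  set x2 := (wi sc ow J (Function.update n q (n q - 1)) q : ℝ) / 20000000 with hx2
  set Dp := ∑ i ∈ range (sc p), mu sc J n i *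
    (GG (mt sc ow (Function.update n q (n q + 1)) p i) - GG (mt sc ow n p i)) with hDp
  set Dm := ∑ i ∈ range (sc p), mu sc J n i *
    (GG (mt sc ow (Function.update n q (n q - 1)) p i) - GG (mt sc ow n p i)) with hDm
  set err : ℝ := 8 * (M + 1) / J with herr
  have hux : 0 ≤ u * x1 := mul_nonneg hu w1'
  have hdx : 0 ≤ d * x2 := mul_nonneg hd w2'
  have s1 := mul_le_mul_of_nonneg_left a1 hux
  have s2 := mul_le_mul_of_nonneg_left a2 hdx
  have s3 : u * x1 + d * x2 ≤ 8 * N := by nlinarith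
  have s4 : (u * x1 + d * x2) * err ≤ 8 * N * err := mul_le_mul_of_nonneg_right s3 h8
  -- main terms
  have main : u * x1 * Dp + d * x2 * Dm ≤ 8 * N *
      (∑ i ∈ range (sc p), (if ow q = p ∧ sc q = i then mu sc J n i *
      (if n q % 2 = n p % 2 then
        -(0.9988 * (GG (mt sc ow n p i) - GG (mt sc ow n p i - 1))) else
        0.00031 * (GG (mt sc ow n p i + 1) - GG (mt sc ow n p i))) else 0)) := by
    by_cases hq : ow q = p ∧ sc q < sc p
    · obtain ⟨ho, hs⟩ := hq
      have hsm : sc q ∈ range (sc p) := mem_range.mpr hs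
      have k1 : Dp = mu sc J n (sc q) * (GG (mt sc ow (Function.update n q (n q + 1)) p (sc q))
          - GG (mt sc ow n p (sc q))) := by
        rw [hDp]
        refine sum_eq_single_of_mem _ hsm fun i _ hi => ?_
        rw [mt_nbr hup p hqp i (fun h => hi h.2.symm)]; ring
      have k2 : Dm = mu sc J n (sc q) * (GG (mt sc ow (Function.update n q (n q - 1)) p (sc q))
          - GG (mt sc ow n p (sc q))) := by
        rw [hDm]
        refine sum_eq_single_of_mem _ hsm fun i _ hi => ?_
        rw [mt_nbr hdn p hqp i (fun h => hi h.2.symm)]; ring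
      rw [sum_eq_single_of_mem (sc q) hsm fun i _ hi => if_neg (fun h => hi h.2.symm),
        if_pos ⟨ho, rfl⟩, k1, k2]
      by_cases hm0 : mu sc J n (sc q) = 0
      · rw [hm0]; simp
      obtain ⟨g1, g2⟩ := of_mu_ne hJ hm0
      have hom : om sc ow J n q = rr ow n q := wi_rr g1
      have hlt : n q < Lc := by omega
      obtain ⟨eu, ed⟩ := h1 hlt
      have hnq : (n q : ℝ) ≤ 48 * J := by exact_mod_cast g2.le
      have hnq0 : (0:ℝ) ≤ n q := by positivity
      have hparu : (Function.update n q (n q + 1)) q % 2 ≠ n q % 2 := by simp; omega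
      obtain ⟨m1, m2⟩ := mt_other (sc := sc) hup.1 hqp ho hparu
      have hmu := hmu0 (sc q)
      by_cases hpar : n q % 2 = n p % 2
      · rw [if_pos hpar]
        have m3 := m1 hpar
        have m4 : mt sc ow (Function.update n q (n q + 1)) p (sc q) =
          mt sc ow n p (sc q) - 1 := by omega
        rw [m4]
        have hw1 : 1 ≤ x1 := by
          have := wi_ge (sc := sc) (ow := ow) (J := J) n q
          rw [hom] at this
          unfold rr at this
          rw [ho, if_pos hpar] at this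
          exact this
        have hb : 0 ≤ GG (mt sc ow n p (sc q)) - GG (mt sc ow n p (sc q) - 1) := by
          linarith [GG_mono (Nat.sub_le (mt sc ow n p (sc q)) 1)]
        set b := GG (mt sc ow n p (sc q)) - GG (mt sc ow n p (sc q) - 1) with hbdef
        have t1 : u * x1 * (mu sc J n (sc q) * (GG (mt sc ow n p (sc q) - 1) -
            GG (mt sc ow n p (sc q)))) ≤ - (8 * N * (mu sc J n (sc q) * (0.9988 * b))) := by
          have e : u * x1 * (mu sc J n (sc q) * (GG (mt sc ow n p (sc q) - 1) -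
            GG (mt sc ow n p (sc q)))) = - (u * x1 * (mu sc J n (sc q) * b)) := by
            rw [hbdef]; ring
          rw [e]
          have hux2 : 8 * N * 0.9988 ≤ u * x1 := by
            have : 8 * N * 0.9988 ≤ u := by rw [eu]; linarith
            nlinarith
          have hmb : 0 ≤ mu sc J n (sc q) * b := mul_nonneg hmu hb
          have := mul_le_mul_of_nonneg_right hux2 hmb
          linarith
        have t2 : d * x2 * (mu sc J n (sc q) *
            (GG (mt sc ow (Function.update n q (n q - 1)) p (sc q)) -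
            GG (mt sc ow n p (sc q)))) ≤ 0 := by
          rcases Nat.eq_zero_or_pos (n q) with h0 | h0
          · rw [ed, h0]; simp
          · have hpard : (Function.update n q (n q - 1)) q % 2 ≠ n q % 2 := by simp; omega
            obtain ⟨m5, _⟩ := mt_other (sc := sc) hdn.1 hqp ho hpard
            have m6 := m5 hpar
            have m7 : mt sc ow (Function.update n q (n q - 1)) p (sc q) =
              mt sc ow n p (sc q) - 1 := by omega
            rw [m7]
            have e : d * x2 * (mu sc J n (sc q) * (GG (mt sc ow n p (sc q) - 1) -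
              GG (mt sc ow n p (sc q)))) = - (d * x2 * (mu sc J n (sc q) * b)) := by
              rw [hbdef]; ring
            rw [e]
            have : 0 ≤ d * x2 * (mu sc J n (sc q) * b) :=
              mul_nonneg hdx (mul_nonneg hmu hb)
            linarith
        linarith
      · rw [if_neg hpar]
        have m3 := m2 hpar
        rw [m3]
        have hw1 : x1 ≤ 1 / 20000000 := by
          have h3 : wi sc ow J n q ≤ 1 := by
            unfold wi
            rw [Nat.ceil_le, hom]
            unfold rr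
            rw [ho, if_neg hpar]
            unfold del
            norm_num
          have h4 : (wi sc ow J n q : ℝ) ≤ 1 := by exact_mod_cast h3
          rw [hx1]
          linarith
        have hb : 0 ≤ GG (mt sc ow n p (sc q) + 1) - GG (mt sc ow n p (sc q)) := by
          linarith [GG_mono (Nat.le_succ (mt sc ow n p (sc q)))]
        set b := GG (mt sc ow n p (sc q) + 1) - GG (mt sc ow n p (sc q)) with hbdef
        have hmb : 0 ≤ mu sc J n (sc q) * b := mul_nonneg hmu hb
        have t1 : u * x1 * (mu sc J n (sc q) * b) ≤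
            8 * N * (1 / 20000000) * (mu sc J n (sc q) * b) := by
          refine mul_le_mul_of_nonneg_right ?_ hmb
          exact mul_le_mul (by linarith) hw1 w1' (by positivity)
        have t2 : d * x2 * (mu sc J n (sc q) *
            (GG (mt sc ow (Function.update n q (n q - 1)) p (sc q)) -
            GG (mt sc ow n p (sc q)))) ≤ 8 * N * 0.0003 * (mu sc J n (sc q) * b) := by
          rcases Nat.eq_zero_or_pos (n q) with h0 | h0
          · rw [ed, h0]
            have : 0 ≤ 8 * (N:ℝ) * 0.0003 * (mu sc J n (sc q) * b) := by positivity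
            simpa using this
          · have hpard : (Function.update n q (n q - 1)) q % 2 ≠ n q % 2 := by simp; omega
            obtain ⟨_, m5⟩ := mt_other (sc := sc) hdn.1 hqp ho hpard
            rw [m5 hpar]
            refine mul_le_mul_of_nonneg_right ?_ hmb
            have : d * x2 ≤ d * 1 := mul_le_mul_of_nonneg_left w2 hd
            rw [ed] at this
            rw [ed]
            linarith
        have t3 : 8 * (N:ℝ) * (1 / 20000000) * (mu sc J n (sc q) * b) +
            8 * N * 0.0003 * (mu sc J n (sc q) * b) ≤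
            8 * N * (mu sc J n (sc q) * (0.00031 * b)) := by
          have hNm : 0 ≤ (N:ℝ) * (mu sc J n (sc q) * b) := mul_nonneg hNp.le hmb
          nlinarith
        linarith
    · have k1 : Dp = 0 := by
        rw [hDp]
        refine sum_eq_zero fun i hi => ?_
        rw [mt_nbr (sc := sc) hup p hqp i (fun h => hq ⟨h.1, by rw [h.2]; exact mem_range.mp hi⟩)]
        ring
      have k2 : Dm = 0 := by
        rw [hDm]
        refine sum_eq_zero fun i hi => ?_
        rw [mt_nbr (sc := sc) hdn p hqp i (fun h => hq ⟨h.1, by rw [h.2]; exact mem_range.mp hi⟩)]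
        ring
      rw [k1, k2, sum_eq_zero]
      · simp
      · intro i hi
        exact if_neg fun h => hq ⟨h.1, by rw [h.2]; exact mem_range.mp hi⟩
  set SS := ∑ i ∈ range (sc p), (if ow q = p ∧ sc q = i then mu sc J n i *
      (if n q % 2 = n p % 2 then
        -(0.9988 * (GG (mt sc ow n p i) - GG (mt sc ow n p i - 1))) else
        0.00031 * (GG (mt sc ow n p i + 1) - GG (mt sc ow n p i))) else 0) with hSS
  have fin1 : u * x1 * (2 ^ n p * (Dp + err)) + d * x2 * (2 ^ n p * (Dm + err)) =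
      2 ^ n p * (u * x1 * Dp + d * x2 * Dm + (u * x1 + d * x2) * err) := by ring
  have fin2 : 2 ^ n p * (u * x1 * Dp + d * x2 * Dm + (u * x1 + d * x2) * err) ≤
      2 ^ n p * (8 * N * SS + 8 * N * err) := mul_le_mul_of_nonneg_left (by linarith) hz.le
  calc _ ≤ u * x1 * (2 ^ n p * (Dp + err)) + d * x2 * (2 ^ n p * (Dm + err)) := by linarith
    _ ≤ 2 ^ n p * (8 * N * SS + 8 * N * err) := by rw [fin1]; exact fin2
    _ = _ := by ring

theorem sum_scale {M : ℕ} (hT : Tree M sc ow) (n : Nd → ℕ) (p : Nd) {i : ℕ} (hi : i < sc p)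
    (c a b : ℝ) :
    ∑ q, (if ow q = p ∧ sc q = i then c * (if n q % 2 = n p % 2 then a else b) else 0) =
      c * ((mt sc ow n p i : ℝ) * a + (4 - (mt sc ow n p i : ℝ)) * b) := by
  rw [← sum_filter, ← mul_sum, sum_ite, sum_const, sum_const, nsmul_eq_mul, nsmul_eq_mul,
    ← mt_eq]
  have h := mt_compl hT n p hi
  have h' : (((univ.filter fun q => ow q = p ∧ sc q = i).filter
      fun q => ¬ (n q % 2 = n p % 2)).card : ℝ) = 4 - (mt sc ow n p i : ℝ) := by
    have : ((mt sc ow n p i + ((univ.filter fun q => ow q = p ∧ sc q = i).filter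
      fun q => ¬ (n q % 2 = n p % 2)).card : ℕ) : ℝ) = 4 := by rw [h]; norm_num
    push_cast at this
    linarith
  rw [h']

/-- the values of the drift of a scale -/
theorem B_le {m : ℕ} (hm : m ≤ 4) {x : ℝ} (hx : 0 ≤ x) :
    2.20042 * (1 / 10000000 + if m = 4 then 1 else 0)
        - 0.199895 * x * (if m = 0 then 1 else 0)
      + ((m : ℝ) * (-(0.9988 * (GG m - GG (m - 1))))
        + (4 - (m : ℝ)) * (0.00031 * (GG (m + 1) - GG m))) ≤ 4 / 10000000 ∧
    (3 / 1000000 ≤ x → 2.20042 * (1 / 10000000 + if m = 4 then 1 else 0)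
        - 0.199895 * x * (if m = 0 then 1 else 0)
      + ((m : ℝ) * (-(0.9988 * (GG m - GG (m - 1))))
        + (4 - (m : ℝ)) * (0.00031 * (GG (m + 1) - GG m))) ≤ - (2.9 / 10000000)) := by
  interval_cases m
  · norm_num [GG0, GG1']
    constructor
    · linarith
    · intro h; linarith
  · norm_num [GG0, GG1', GG2']
  · norm_num [GG1', GG2', GG3']
  · norm_num [GG2', GG3', GG4']
  · norm_num [GG3', GG4', GG5']

end

end LP

open LP in
theorem part_P3a : S_P3a := by
  refine ⟨1 / 100000000, 1, by norm_num, by norm_num,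
    fun M R => ⟨40000000 * (M + 1) * (R + 1), ?_⟩⟩
  intro J hJ0 N hN1 hN2 Lc hLc1 hLc2 Nd _ _ sc ow hT hR n p U Dn hU hD hcap hp hG
  have hJ : 0 < J := lt_of_lt_of_le (by positivity) hJ0
  have hJp : (0:ℝ) < J := by exact_mod_cast hJ
  have hNp : (0:ℝ) < N := by exact_mod_cast (by omega : 0 < N)
  have hz : (0:ℝ) < 2 ^ n p := by positivity
  have hmu0 : ∀ i, 0 ≤ mu sc J n i := fun i => mu_nonneg n i
  have hmu1 := sum_mu_one hJ hG
  set err : ℝ := 8 * (M + 1) / J with herr
  have herr0 : 0 ≤ err := by positivity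
  have hRerr : (R:ℝ) * err ≤ 2 / 10000000 := by
    rw [herr, ← mul_div_assoc, div_le_iff₀ hJp]
    have h1 : ((40000000 * (M + 1) * (R + 1) : ℕ) : ℝ) ≤ J := by exact_mod_cast hJ0
    push_cast at h1
    have h2 : (0:ℝ) ≤ M := by positivity
    have h3 : (0:ℝ) ≤ R := by positivity
    nlinarith [mul_nonneg h2 h3]
  -- the terms
  set T : Nd → ℝ := fun q => U q * (wi sc ow J n q / 20000000) *
      (Phi sc ow J (Function.update n q (n q + 1)) p - Phi sc ow J n p)
    + Dn q * (wi sc ow J (Function.update n q (n q - 1)) q / 20000000) *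
      (Phi sc ow J (Function.update n q (n q - 1)) p - Phi sc ow J n p) with hTdef
  have hgen : gen sc ow J (fun n' => Phi sc ow J n' p) n U Dn = ∑ q, T q := rfl
  rw [hgen]
  set x : ℝ := n p / (8 * N) with hx
  set SS : Nd → ℝ := fun q => ∑ i ∈ range (sc p), (if ow q = p ∧ sc q = i then mu sc J n i *
      (if n q % 2 = n p % 2 then
        -(0.9988 * (GG (mt sc ow n p i) - GG (mt sc ow n p i - 1))) else
        0.00031 * (GG (mt sc ow n p i + 1) - GG (mt sc ow n p i))) else 0) with hSS
  set OW : ℝ := ∑ i ∈ range (sc p), mu sc J n i *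
      (2.20042 * (1 / 10000000 + if mt sc ow n p i = 4 then 1 else 0)
        - 0.199895 * x * if mt sc ow n p i = 0 then 1 else 0) with hOW
  have hTp : T p ≤ 8 * N * 2 ^ n p * OW := by
    have h := own_part hT hJ n p (lt_of_lt_of_le hp hLc2) hG
    obtain ⟨e1, e2⟩ := hU p hp
    have e3 : T p = 4 * (2 * (N:ℝ) - n p) * ((wi sc ow J n p : ℝ) / 20000000) *
      (Phi sc ow J (Function.update n p (n p + 1)) p - Phi sc ow J n p) +
    (n p : ℝ) * ((wi sc ow J (Function.update n p (n p - 1)) p : ℝ) / 20000000) *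
      (Phi sc ow J (Function.update n p (n p - 1)) p - Phi sc ow J n p) := by
      rw [hTdef]
      simp only
      rw [e1, e2]
    rw [e3]
    exact h
  have hTq : ∀ q ∈ univ.erase p, T q ≤ 8 * N * 2 ^ n p * (SS q + err) := by
    intro q hq
    exact other_part hT hJ hN1 hLc1 hLc2 n (ne_of_mem_erase hq) hG (U q) (Dn q)
      (hU q) (hD q)
  have hsum : ∑ q, T q ≤ 8 * N * 2 ^ n p * (OW + ∑ q, SS q + R * err) := by
    rw [← add_sum_erase univ T (mem_univ p)]
    have h1 : ∑ q ∈ univ.erase p, T q ≤ 8 * N * 2 ^ n p * (∑ q, SS q + R * err) := by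
      refine (sum_le_sum hTq).trans ?_
      rw [← mul_sum, sum_add_distrib, sum_const, nsmul_eq_mul]
      refine mul_le_mul_of_nonneg_left ?_ (by positivity)
      have h2 : ∑ q ∈ univ.erase p, SS q = ∑ q, SS q := by
        rw [← add_sum_erase univ SS (mem_univ p)]
        have : SS p = 0 := by
          rw [hSS]
          refine sum_eq_zero fun i hi => if_neg fun h => ?_
          have := mem_range.mp hi
          omega
        rw [this, zero_add]
      have h3 : ((univ.erase p : Finset Nd).card : ℝ) ≤ R := by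
        have h4 : (univ.erase p : Finset Nd).card ≤ R :=
          (card_le_card (erase_subset _ _)).trans (by rw [card_univ]; exact hR)
        exact_mod_cast h4
      rw [h2]
      have := mul_le_mul_of_nonneg_right h3 herr0
      linarith
    calc T p + ∑ q ∈ univ.erase p, T q ≤ 8 * N * 2 ^ n p * OW +
        8 * N * 2 ^ n p * (∑ q, SS q + R * err) := add_le_add hTp h1
      _ = _ := by ring
  have hSSsum : ∑ q, SS q = ∑ i ∈ range (sc p), mu sc J n i *
      ((mt sc ow n p i : ℝ) * (-(0.9988 * (GG (mt sc ow n p i) - GG (mt sc ow n p i - 1)))) +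
        (4 - (mt sc ow n p i : ℝ)) *
          (0.00031 * (GG (mt sc ow n p i + 1) - GG (mt sc ow n p i)))) := by
    rw [hSS]
    simp only
    rw [sum_comm]
    exact sum_congr rfl fun i hi => sum_scale hT n p (mem_range.mp hi) _ _ _
  set Bf : ℕ → ℝ := fun m => 2.20042 * (1 / 10000000 + if m = 4 then 1 else 0)
        - 0.199895 * x * (if m = 0 then 1 else 0)
      + ((m : ℝ) * (-(0.9988 * (GG m - GG (m - 1))))
        + (4 - (m : ℝ)) * (0.00031 * (GG (m + 1) - GG m))) with hBf
  have htot : OW + ∑ q, SS q = ∑ i ∈ range (sc p), mu sc J n i * Bf (mt sc ow n p i) := by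
    rw [hOW, hSSsum, ← sum_add_distrib]
    refine sum_congr rfl fun i _ => ?_
    rw [hBf]
    ring
  have hx0 : 0 ≤ x := by positivity
  have hPhi := Phi_bd (sc := sc) (ow := ow) hJ n p
  have key : ∀ b : ℝ, (∀ i ∈ range (sc p), Bf (mt sc ow n p i) ≤ b) →
      ∑ q, T q ≤ 8 * N * 2 ^ n p * (b + 2 / 10000000) := by
    intro b hb
    refine hsum.trans (mul_le_mul_of_nonneg_left ?_ (by positivity))
    rw [htot]
    have : ∑ i ∈ range (sc p), mu sc J n i * Bf (mt sc ow n p i) ≤ b := by
      calc _ ≤ ∑ i ∈ range (sc p), mu sc J n i * b :=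
            sum_le_sum fun i hi => mul_le_mul_of_nonneg_left (hb i hi) (hmu0 i)
        _ = b := by rw [← sum_mul, hmu1, one_mul]
    linarith
  have hN0 : (0:ℝ) ≤ 8 * N := by positivity
  rcases lt_or_ge (n p) J with hnJ | hnJ
  · have h1 := key (4 / 10000000) fun i hi =>
      (B_le (mt_le hT n p (mem_range.mp hi)) hx0).1
    refine h1.trans ?_
    have h2 : (2:ℝ) ^ n p ≤ 2 ^ J := pow_le_pow_right₀ (by norm_num) hnJ.le
    rw [mul_assoc]
    refine mul_le_mul_of_nonneg_left ?_ hN0
    linarith [hPhi.2]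
  · have hxJ : 3 / 1000000 ≤ x := by
      rw [hx, le_div_iff₀ (by positivity)]
      have h3 : (J:ℝ) ≤ n p := by exact_mod_cast hnJ
      have h4 : (N:ℝ) ≤ 40000 * J := by exact_mod_cast hN2
      linarith
    have h1 := key (- (2.9 / 10000000)) fun i hi =>
      (B_le (mt_le hT n p (mem_range.mp hi)) hx0).2 hxJ
    refine h1.trans ?_
    have h2 : (0:ℝ) < 2 ^ J := by positivity
    rw [mul_assoc]
    refine mul_le_mul_of_nonneg_left ?_ hN0
    linarith [hPhi.2]

end Pool.Agent.P8H84.MX
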