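import Pool.Agent.P8H84.MX.Defs2

/-!
# Project MX, part P3b: elementary properties of the level functions
-/

set_option autoImplicit false

namespace Pool.Agent.P8H84.MX

open Finset

namespace LP

theorem cl_nonneg (z : ℝ) : 0 ≤ cl z := le_max_left _ _
theorem cl_le_one (z : ℝ) : cl z ≤ 1 := max_le zero_le_one (min_le_left _ _)
theorem cl_lip (y z : ℝ) : |cl y - cl z| ≤ |y - z| := by
  unfold cl
  have h1 : |max 0 (min 1 y) - max 0 (min 1 z)| ≤ |min 1 y - min 1 z| := by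
    rw [max_comm 0, max_comm 0]; exact abs_max_sub_max_le_abs _ _ _
  have h2 : |min 1 y - min 1 z| ≤ |y - z| := by
    rw [min_comm 1, min_comm 1]
    have := abs_min_sub_min_le_max y 1 z 1
    simpa using this
  exact h1.trans h2

section
variable {Nd : Type} [Fintype Nd] [DecidableEq Nd] {sc : Nd → ℕ} {ow : Nd → Nd} {J : ℕ}

theorem g1_nonneg (n : Nd → ℕ) (i : ℕ) : 0 ≤ g1 sc J n i := cl_nonneg _
theorem g1_le (n : Nd → ℕ) (i : ℕ) : g1 sc J n i ≤ 1 := cl_le_one _
theorem g2_nonneg (n : Nd → ℕ) (i : ℕ) : 0 ≤ g2 sc J n i := cl_nonneg _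
theorem g2_le (n : Nd → ℕ) (i : ℕ) : g2 sc J n i ≤ 1 := cl_le_one _

theorem P2_nonneg (n : Nd → ℕ) (k : ℕ) : 0 ≤ ∏ j ∈ range k, g2 sc J n j :=
  prod_nonneg fun i _ => g2_nonneg n i
theorem P2_le (n : Nd → ℕ) (k : ℕ) : ∏ j ∈ range k, g2 sc J n j ≤ 1 :=
  prod_le_one (fun i _ => g2_nonneg n i) fun i _ => g2_le n i
theorem G1_nonneg (n : Nd → ℕ) (k : ℕ) : 0 ≤ G1 sc J n k :=
  prod_nonneg fun i _ => g1_nonneg n i
theorem G1_le (n : Nd → ℕ) (k : ℕ) : G1 sc J n k ≤ 1 :=
  prod_le_one (fun i _ => g1_nonneg n i) fun i _ => g1_le n i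
theorem mu_nonneg (n : Nd → ℕ) (i : ℕ) : 0 ≤ mu sc J n i :=
  mul_nonneg (P2_nonneg n i) (by linarith [g2_le (sc := sc) (J := J) n i])
theorem mu_le (n : Nd → ℕ) (i : ℕ) : mu sc J n i ≤ 1 := by
  have h1 := P2_le (sc := sc) (J := J) n i
  have h2 := g2_nonneg (sc := sc) (J := J) n i
  have h3 := g2_le (sc := sc) (J := J) n i
  have h4 := P2_nonneg (sc := sc) (J := J) n i
  unfold mu
  nlinarith

/-- the shares telescope -/
theorem sum_mu (n : Nd → ℕ) (k : ℕ) :
    ∑ i ∈ range k, mu sc J n i = 1 - ∏ j ∈ range k, g2 sc J n j := by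
  induction k with
  | zero => simp
  | succ k ih =>
    rw [sum_range_succ, ih, prod_range_succ]
    unfold mu
    ring

/-- if `g2 > 0` then `g1 = 1` -/
theorem g1_eq_one (hJ : 0 < J) {n : Nd → ℕ} {i : ℕ} (h : g2 sc J n i ≠ 0) :
    g1 sc J n i = 1 := by
  have hJi : (0:ℝ) < J := by exact_mod_cast hJ
  have h1 : 0 < ((NN sc n i : ℝ) - 32 * J) / (16 * J) := by
    by_contra hc
    apply h
    unfold g2 cl
    rw [max_eq_left]
    exact (min_le_right _ _).trans (not_lt.mp hc)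
  have h2 : 0 < (NN sc n i : ℝ) - 32 * J := by
    rcases div_pos_iff.mp h1 with h | h
    · exact h.1
    · linarith [h.2]
  unfold g1 cl
  have h3 : 1 ≤ ((NN sc n i : ℝ) - 16 * J) / (16 * J) := by
    rw [le_div_iff₀ (by positivity)]; linarith
  rw [min_eq_left h3, max_eq_right zero_le_one]

/-- `∑_{i<k} (1 - G1 k) μ_i = 1 - G1 k` -/
theorem sum_nu (hJ : 0 < J) (n : Nd → ℕ) (k : ℕ) :
    ∑ i ∈ range k, (1 - G1 sc J n k) * mu sc J n i = 1 - G1 sc J n k := by
  rw [← mul_sum, sum_mu]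
  by_cases h3 : ∏ i ∈ range k, g2 sc J n i = 0
  · rw [h3]; ring
  · have h4 : G1 sc J n k = 1 := by
      unfold G1
      apply prod_eq_one
      intro i hi
      exact g1_eq_one hJ (prod_ne_zero_iff.mp h3 i hi)
    rw [h4]; ring

theorem abs_prod_sub_le (S : Finset ℕ) (f f' : ℕ → ℝ) (a : ℕ) (c : ℝ)
    (hf : ∀ i, 0 ≤ f i ∧ f i ≤ 1) (heq : ∀ i, i ≠ a → f' i = f i)
    (hc : |f' a - f a| ≤ c) : |∏ i ∈ S, f' i - ∏ i ∈ S, f i| ≤ c := by
  have hc0 : 0 ≤ c := (abs_nonneg _).trans hc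
  by_cases ha : a ∈ S
  · rw [← mul_prod_erase S f ha, ← mul_prod_erase S f' ha]
    have h1 : ∏ x ∈ S.erase a, f' x = ∏ x ∈ S.erase a, f x :=
      prod_congr rfl fun i hi => heq i (ne_of_mem_erase hi)
    rw [h1, ← sub_mul, abs_mul]
    have h2 : |∏ x ∈ S.erase a, f x| ≤ 1 := by
      rw [abs_of_nonneg (prod_nonneg fun i _ => (hf i).1)]
      exact prod_le_one (fun i _ => (hf i).1) fun i _ => (hf i).2
    calc |f' a - f a| * |∏ x ∈ S.erase a, f x| ≤ c * 1 :=
          mul_le_mul hc h2 (abs_nonneg _) hc0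
      _ = c := mul_one c
  · have h1 : ∏ x ∈ S, f' x = ∏ x ∈ S, f x :=
      prod_congr rfl fun i hi => heq i (fun h => ha (h ▸ hi))
    rw [h1, sub_self, abs_zero]; exact hc0

/-- neighbouring level vectors -/
def Nbr (q : Nd) (n n' : Nd → ℕ) : Prop :=
  (∀ r, r ≠ q → n' r = n r) ∧ n' q ≤ n q + 1 ∧ n q ≤ n' q + 1

theorem NN_le_of (n n' : Nd → ℕ) (i : ℕ) (h : ∀ r, n' r ≤ n r + 1) :
    NN sc n' i ≤ NN sc n i + 1 := by
  unfold NN
  refine Finset.sup_le fun r hr => (h r).trans ?_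
  have : n r ≤ (univ.filter fun q => sc q = i).sup n := Finset.le_sup (f := n) hr
  omega

theorem NN_nbr {q : Nd} {n n' : Nd → ℕ} (h : Nbr q n n') (i : ℕ) :
    (i ≠ sc q → NN sc n' i = NN sc n i) ∧ |(NN sc n' i : ℝ) - NN sc n i| ≤ 1 := by
  obtain ⟨h1, h2, h3⟩ := h
  refine ⟨fun hi => ?_, ?_⟩
  · unfold NN
    refine Finset.sup_congr rfl fun r hr => h1 r ?_
    rintro rfl
    exact hi (by simpa using (mem_filter.mp hr).2.symm)
  · have e1 : NN sc n' i ≤ NN sc n i + 1 := NN_le_of n n' i fun r => by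
      by_cases hr : r = q
      · rw [hr]; exact h2
      · rw [h1 r hr]; omega
    have e2 : NN sc n i ≤ NN sc n' i + 1 := NN_le_of n' n i fun r => by
      by_cases hr : r = q
      · rw [hr]; exact h3
      · rw [h1 r hr]; omega
    have e1' : (NN sc n' i : ℝ) ≤ NN sc n i + 1 := by exact_mod_cast e1
    have e2' : (NN sc n i : ℝ) ≤ NN sc n' i + 1 := by exact_mod_cast e2
    rw [abs_le]
    constructor <;> linarith

theorem g_nbr (hJ : 0 < J) {q : Nd} {n n' : Nd → ℕ} (h : Nbr q n n') (i : ℕ) :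
    (i ≠ sc q → g1 sc J n' i = g1 sc J n i ∧ g2 sc J n' i = g2 sc J n i) ∧
    |g1 sc J n' i - g1 sc J n i| ≤ 1 / (16 * J) ∧
    |g2 sc J n' i - g2 sc J n i| ≤ 1 / (16 * J) := by
  have hJi : (0:ℝ) < J := by exact_mod_cast hJ
  obtain ⟨h1, h2⟩ := NN_nbr (sc := sc) h i
  refine ⟨fun hi => ?_, ?_, ?_⟩
  · unfold g1 g2; rw [h1 hi]; exact ⟨rfl, rfl⟩
  · unfold g1
    refine (cl_lip _ _).trans ?_
    rw [← sub_div, abs_div, abs_of_pos (show (0:ℝ) < 16 * J by positivity)]
    gcongr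
    rw [show (NN sc n' i : ℝ) - 16 * J - (NN sc n i - 16 * J) = NN sc n' i - NN sc n i by ring]
    exact h2
  · unfold g2
    refine (cl_lip _ _).trans ?_
    rw [← sub_div, abs_div, abs_of_pos (show (0:ℝ) < 16 * J by positivity)]
    gcongr
    rw [show (NN sc n' i : ℝ) - 32 * J - (NN sc n i - 32 * J) = NN sc n' i - NN sc n i by ring]
    exact h2

theorem G1_nbr (hJ : 0 < J) {q : Nd} {n n' : Nd → ℕ} (h : Nbr q n n') (k : ℕ) :
    |G1 sc J n' k - G1 sc J n k| ≤ 1 / (16 * J) :=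
  abs_prod_sub_le _ _ _ (sc q) _ (fun i => ⟨g1_nonneg n i, g1_le n i⟩)
    (fun i hi => ((g_nbr hJ h i).1 hi).1) (g_nbr hJ h (sc q)).2.1

theorem P2_nbr (hJ : 0 < J) {q : Nd} {n n' : Nd → ℕ} (h : Nbr q n n') (k : ℕ) :
    |∏ j ∈ range k, g2 sc J n' j - ∏ j ∈ range k, g2 sc J n j| ≤ 1 / (16 * J) :=
  abs_prod_sub_le _ _ _ (sc q) _ (fun i => ⟨g2_nonneg n i, g2_le n i⟩)
    (fun i hi => ((g_nbr hJ h i).1 hi).2) (g_nbr hJ h (sc q)).2.2

theorem mu_nbr (hJ : 0 < J) {q : Nd} {n n' : Nd → ℕ} (h : Nbr q n n') (i : ℕ) :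
    |mu sc J n' i - mu sc J n i| ≤ 1 / (16 * J) := by
  have hJi : (0:ℝ) < J := by exact_mod_cast hJ
  have h0 : (0:ℝ) ≤ 1 / (16 * J) := by positivity
  have hP := P2_nonneg (sc := sc) (J := J) n i
  have hP1 := P2_le (sc := sc) (J := J) n i
  by_cases hi : i = sc q
  · have e1 : ∏ j ∈ range i, g2 sc J n' j = ∏ j ∈ range i, g2 sc J n j := by
      refine prod_congr rfl fun j hj => ?_
      exact ((g_nbr hJ h j).1 (by rw [mem_range] at hj; omega)).2
    unfold mu
    rw [e1, ← mul_sub, abs_mul, abs_of_nonneg hP]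
    have e2 : |1 - g2 sc J n' i - (1 - g2 sc J n i)| ≤ 1 / (16 * J) := by
      rw [show 1 - g2 sc J n' i - (1 - g2 sc J n i) = -(g2 sc J n' i - g2 sc J n i) by ring,
        abs_neg]
      exact (g_nbr hJ h i).2.2
    calc _ ≤ 1 * (1 / (16 * (J : ℝ))) := mul_le_mul hP1 e2 (abs_nonneg _) zero_le_one
      _ = _ := one_mul _
  · unfold mu
    rw [((g_nbr hJ h i).1 hi).2, ← sub_mul, abs_mul]
    have e2 : |1 - g2 sc J n i| ≤ 1 := by
      rw [abs_le]; constructor <;>
        linarith [g2_nonneg (sc := sc) (J := J) n i, g2_le (sc := sc) (J := J) n i]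
    calc _ ≤ 1 / (16 * (J : ℝ)) * 1 := mul_le_mul (P2_nbr hJ h i) e2 (abs_nonneg _) h0
      _ = _ := mul_one _

theorem nu_nbr (hJ : 0 < J) {q : Nd} {n n' : Nd → ℕ} (h : Nbr q n n') (k i : ℕ) :
    |(1 - G1 sc J n' k) * mu sc J n' i - (1 - G1 sc J n k) * mu sc J n i| ≤ 1 / (8 * J) := by
  have hJp : (0:ℝ) < J := by exact_mod_cast hJ
  have e1 := G1_nbr (sc := sc) hJ h k
  have e2 := mu_nbr (sc := sc) hJ h i
  rw [show (1 - G1 sc J n' k) * mu sc J n' i - (1 - G1 sc J n k) * mu sc J n i =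
      -(G1 sc J n' k - G1 sc J n k) * mu sc J n' i
        + (1 - G1 sc J n k) * (mu sc J n' i - mu sc J n i) by ring]
  refine (abs_add_le _ _).trans ?_
  rw [abs_mul, abs_mul, abs_neg]
  have h1 : |mu sc J n' i| ≤ 1 := by
    rw [abs_of_nonneg (mu_nonneg n' i)]; exact mu_le n' i
  have h2 : |1 - G1 sc J n k| ≤ 1 := by
    rw [abs_le]; constructor <;>
      linarith [G1_nonneg (sc := sc) (J := J) n k, G1_le (sc := sc) (J := J) n k]
  have h3 : (0:ℝ) ≤ 1 / (16 * J) := by positivity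
  have k1 := mul_le_mul e1 h1 (abs_nonneg _) h3
  have k2 := mul_le_mul h2 e2 (abs_nonneg _) zero_le_one
  have k3 : (1:ℝ) / (8 * J) = 1 / (16 * J) * 1 + 1 * (1 / (16 * J)) := by
    field_simp; norm_num
  rw [k3]; linarith

theorem GG_bd (m : ℕ) : 1 ≤ GG m ∧ GG m ≤ 2 := by
  unfold GG
  have h1 : (0:ℝ) ≤ ((min m 3 : ℕ) : ℝ) := by positivity
  have h2 : ((min m 3 : ℕ) : ℝ) ≤ 3 := by exact_mod_cast min_le_right m 3
  split_ifs <;> constructor <;> linarith

theorem cc_bd (n : Nd → ℕ) (p : Nd) (i : ℕ) : del ≤ cc sc ow n p i ∧ cc sc ow n p i ≤ 1 := by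
  unfold cc del; split_ifs <;> norm_num
theorem rr_bd (n : Nd → ℕ) (p : Nd) : del ≤ rr ow n p ∧ rr ow n p ≤ 1 := by
  unfold rr del; split_ifs <;> norm_num

theorem om_bd (hJ : 0 < J) (n : Nd → ℕ) (p : Nd) :
    del ≤ om sc ow J n p ∧ om sc ow J n p ≤ 1 := by
  have h := sum_nu (sc := sc) hJ n (sc p)
  have hG := G1_nonneg (sc := sc) (J := J) n (sc p)
  have hG1 := G1_le (sc := sc) (J := J) n (sc p)
  have hr := rr_bd (ow := ow) n p
  have hnu : ∀ i, 0 ≤ (1 - G1 sc J n (sc p)) * mu sc J n i := fun i =>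
    mul_nonneg (by linarith) (mu_nonneg n i)
  have h1 : ∑ i ∈ range (sc p), (1 - G1 sc J n (sc p)) * mu sc J n i * cc sc ow n p i ≤
      ∑ i ∈ range (sc p), (1 - G1 sc J n (sc p)) * mu sc J n i * 1 :=
    sum_le_sum fun i _ => mul_le_mul_of_nonneg_left (cc_bd n p i).2 (hnu i)
  have h2 : ∑ i ∈ range (sc p), (1 - G1 sc J n (sc p)) * mu sc J n i * del ≤
      ∑ i ∈ range (sc p), (1 - G1 sc J n (sc p)) * mu sc J n i * cc sc ow n p i :=
    sum_le_sum fun i _ => mul_le_mul_of_nonneg_left (cc_bd n p i).1 (hnu i)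
  rw [← sum_mul, h] at h1 h2
  unfold om
  constructor <;> nlinarith [hr.1, hr.2]

/-- bracket of the potential -/
theorem br_bd (hJ : 0 < J) (n : Nd → ℕ) (p : Nd) (m : ℕ → ℕ) :
    1 ≤ ∑ i ∈ range (sc p), (1 - G1 sc J n (sc p)) * mu sc J n i * GG (m i)
      + G1 sc J n (sc p) ∧
    ∑ i ∈ range (sc p), (1 - G1 sc J n (sc p)) * mu sc J n i * GG (m i)
      + G1 sc J n (sc p) ≤ 2 := by
  have h := sum_nu (sc := sc) hJ n (sc p)
  have hG := G1_nonneg (sc := sc) (J := J) n (sc p)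
  have hG1 := G1_le (sc := sc) (J := J) n (sc p)
  have hnu : ∀ i, 0 ≤ (1 - G1 sc J n (sc p)) * mu sc J n i := fun i =>
    mul_nonneg (by linarith) (mu_nonneg n i)
  have h1 : ∑ i ∈ range (sc p), (1 - G1 sc J n (sc p)) * mu sc J n i * GG (m i) ≤
      ∑ i ∈ range (sc p), (1 - G1 sc J n (sc p)) * mu sc J n i * 2 :=
    sum_le_sum fun i _ => mul_le_mul_of_nonneg_left (GG_bd (m i)).2 (hnu i)
  have h2 : ∑ i ∈ range (sc p), (1 - G1 sc J n (sc p)) * mu sc J n i * 1 ≤
      ∑ i ∈ range (sc p), (1 - G1 sc J n (sc p)) * mu sc J n i * GG (m i) :=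
    sum_le_sum fun i _ => mul_le_mul_of_nonneg_left (GG_bd (m i)).1 (hnu i)
  rw [← sum_mul, h] at h1 h2
  constructor <;> nlinarith

theorem Phi_bd (hJ : 0 < J) (n : Nd → ℕ) (p : Nd) :
    2 ^ n p ≤ Phi sc ow J n p ∧ Phi sc ow J n p ≤ 2 * 2 ^ n p := by
  obtain ⟨h1, h2⟩ := br_bd (sc := sc) hJ n p (mt sc ow n p)
  have h3 : (0:ℝ) < 2 ^ n p := by positivity
  unfold Phi
  constructor <;> nlinarith

theorem sh_nonneg (M : ℕ) (n : Nd → ℕ) (p : Nd) (i : ℕ) : 0 ≤ sh sc J M n p i := by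
  unfold sh
  split_ifs
  · exact mu_nonneg n i
  · exact P2_nonneg n _
  · exact le_rfl

theorem sum_sh (M : ℕ) (n : Nd → ℕ) (p : Nd) (hp : sc p ≤ M) :
    ∑ i ∈ range (M + 1), sh sc J M n p i = 1 := by
  rw [sum_range_succ]
  have h1 : sh sc J M n p M = ∏ j ∈ range (sc p), g2 sc J n j := by
    unfold sh
    rw [if_neg (by omega), if_pos rfl]
  have h2 : ∑ i ∈ range M, sh sc J M n p i = ∑ i ∈ range (sc p), mu sc J n i := by
    have hsub : range (sc p) ⊆ range M := range_subset_range.mpr hp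
    rw [← sum_subset hsub]
    · refine sum_congr rfl fun i hi => ?_
      unfold sh
      rw [if_pos (mem_range.mp hi)]
    · intro i hi hni
      unfold sh
      rw [mem_range] at hi hni
      rw [if_neg hni, if_neg (by omega)]
  rw [h1, h2, sum_mu]; ring

theorem sh_nbr (hJ : 0 < J) (M : ℕ) {q : Nd} {n n' : Nd → ℕ} (h : Nbr q n n') (p : Nd) (i : ℕ) :
    sh sc J M n' p i ≤ sh sc J M n p i + 1 / (16 * J) := by
  have hJp : (0:ℝ) < J := by exact_mod_cast hJ
  have h3 : (0:ℝ) ≤ 1 / (16 * J) := by positivity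
  unfold sh
  split_ifs
  · linarith [(abs_le.mp (mu_nbr (sc := sc) hJ h i)).2]
  · linarith [(abs_le.mp (P2_nbr (sc := sc) hJ h (sc p))).2]
  · linarith

theorem mt_nbr {q : Nd} {n n' : Nd → ℕ} (h : Nbr q n n') (p : Nd) (hqp : q ≠ p) (i : ℕ)
    (hq : ¬ (ow q = p ∧ sc q = i)) : mt sc ow n' p i = mt sc ow n p i := by
  unfold mt
  congr 1
  refine filter_congr fun r _ => ?_
  rw [h.1 p (Ne.symm hqp)]
  by_cases hr : r = q
  · subst hr
    constructor
    · rintro ⟨h1, h2, _⟩; exact absurd ⟨h1, h2⟩ hq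
    · rintro ⟨h1, h2, _⟩; exact absurd ⟨h1, h2⟩ hq
  · rw [h.1 r hr]

end

end LP

open LP in
theorem part_P3b : S_P3b := by
  intro M J hJ Nd _ _ sc ow hT n n' p q hr h2 h3
  have hn : Nbr q n n' := ⟨hr, h2, h3⟩
  have hJp : (0:ℝ) < J := by exact_mod_cast hJ
  refine ⟨sum_sh M n p (hT.le p), sh_nonneg M n p, sh_nbr hJ M hn p, (Phi_bd hJ n p).1,
    (Phi_bd hJ n p).2, om_bd hJ n p, ?_⟩
  have hS0 : 0 ≤ ∑ i ∈ range M, (if sc q = i then sh sc J M n p i else 0) :=
    sum_nonneg fun i _ => by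
      split_ifs
      · exact sh_nonneg M n p i
      · exact le_rfl
  have hS1 : 0 ≤ (if ow q = p then
      ∑ i ∈ range M, (if sc q = i then sh sc J M n p i else 0) else 0) := by
    split_ifs
    · exact hS0
    · exact le_rfl
  have h8 : (0:ℝ) ≤ 8 * (M + 1) / J := by positivity
  have hpow : (0:ℝ) < 2 ^ n p := by positivity
  by_cases hqp : q = p
  · subst hqp
    rw [if_pos rfl]
    have a1 := Phi_bd (sc := sc) (ow := ow) hJ n q
    have a2 := Phi_bd (sc := sc) (ow := ow) hJ n' q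
    have a3 : (2:ℝ) ^ n' q ≤ 2 * 2 ^ n q := by
      calc (2:ℝ) ^ n' q ≤ 2 ^ (n q + 1) := pow_le_pow_right₀ (by norm_num) h2
        _ = _ := by ring
    have a4 : (0:ℝ) < 2 ^ n' q := by positivity
    have a5 : |Phi sc ow J n' q - Phi sc ow J n q| ≤ 4 * 2 ^ n q := by
      rw [abs_le]; constructor <;> linarith [a1.1, a1.2, a2.1, a2.2]
    nlinarith
  · rw [if_neg hqp]
    have hnp : n' p = n p := hr p (Ne.symm hqp)
    have e0 := sum_nu (sc := sc) hJ n (sc p)
    have e0' := sum_nu (sc := sc) hJ n' (sc p)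
    set ν : ℕ → ℝ := fun i => (1 - G1 sc J n (sc p)) * mu sc J n i with hν
    set ν' : ℕ → ℝ := fun i => (1 - G1 sc J n' (sc p)) * mu sc J n' i with hν'
    have e1 : Phi sc ow J n' p - Phi sc ow J n p = 2 ^ n p *
        (∑ i ∈ range (sc p), (ν' i - ν i) * (GG (mt sc ow n' p i) - 1)
          + ∑ i ∈ range (sc p), ν i * (GG (mt sc ow n' p i) - GG (mt sc ow n p i))) := by
      have k1 : Phi sc ow J n' p = 2 ^ n p *
          (∑ i ∈ range (sc p), ν' i * GG (mt sc ow n' p i) + G1 sc J n' (sc p)) := by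
        unfold Phi; rw [hnp]
      have k2 : Phi sc ow J n p = 2 ^ n p *
          (∑ i ∈ range (sc p), ν i * GG (mt sc ow n p i) + G1 sc J n (sc p)) := by
        unfold Phi; rfl
      have k3 : G1 sc J n' (sc p) = 1 - ∑ i ∈ range (sc p), ν' i := by
        rw [hν', e0']; ring
      have k4 : G1 sc J n (sc p) = 1 - ∑ i ∈ range (sc p), ν i := by
        rw [hν, e0]; ring
      rw [k1, k2, k3, k4, ← mul_sub]
      congr 1
      rw [← sum_add_distrib]
      have k5 : ∀ i, (ν' i - ν i) * (GG (mt sc ow n' p i) - 1)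
          + ν i * (GG (mt sc ow n' p i) - GG (mt sc ow n p i)) =
          ν' i * GG (mt sc ow n' p i) - ν' i - (ν i * GG (mt sc ow n p i) - ν i) := by
        intro i; ring
      rw [sum_congr rfl fun i _ => k5 i]
      simp only [sum_sub_distrib]
      ring
    rw [e1, abs_mul, abs_of_pos hpow]
    refine mul_le_mul_of_nonneg_left ?_ hpow.le
    refine (abs_add_le _ _).trans ?_
    have e2 : |∑ i ∈ range (sc p), (ν' i - ν i) * (GG (mt sc ow n' p i) - 1)| ≤
        8 * (M + 1) / J := by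
      refine (abs_sum_le_sum_abs _ _).trans ?_
      have k1 : ∀ i ∈ range (sc p), |(ν' i - ν i) * (GG (mt sc ow n' p i) - 1)| ≤
          1 / (8 * J) := by
        intro i _
        rw [abs_mul]
        have g := GG_bd (mt sc ow n' p i)
        have g1 : |GG (mt sc ow n' p i) - 1| ≤ 1 := by
          rw [abs_le]; constructor <;> linarith [g.1, g.2]
        have g2 : |ν' i - ν i| ≤ 1 / (8 * J) := nu_nbr hJ hn (sc p) i
        calc _ ≤ 1 / (8 * (J:ℝ)) * 1 := mul_le_mul g2 g1 (abs_nonneg _) (by positivity)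
          _ = _ := mul_one _
      refine (sum_le_sum k1).trans ?_
      rw [sum_const, card_range, nsmul_eq_mul]
      have k2 : (sc p : ℝ) ≤ M := by exact_mod_cast hT.le p
      have k3 : (sc p : ℝ) * (1 / (8 * J)) ≤ M * (1 / (8 * J)) :=
        mul_le_mul_of_nonneg_right k2 (by positivity)
      refine k3.trans ?_
      rw [mul_one_div, div_le_div_iff₀ (by positivity) hJp]
      have : (0:ℝ) ≤ M := by positivity
      nlinarith
    have e3 : |∑ i ∈ range (sc p), ν i * (GG (mt sc ow n' p i) - GG (mt sc ow n p i))| ≤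
        (if ow q = p then
          ∑ i ∈ range M, (if sc q = i then sh sc J M n p i else 0) else 0) := by
      refine (abs_sum_le_sum_abs _ _).trans ?_
      by_cases ho : ow q = p
      · rw [if_pos ho]
        have hsub : range (sc p) ⊆ range M := range_subset_range.mpr (hT.le p)
        refine le_trans ?_ (sum_le_sum_of_subset_of_nonneg hsub fun i _ _ => ?_)
        · refine sum_le_sum fun i hi => ?_
          have hi' : i < sc p := mem_range.mp hi
          by_cases hsq : sc q = i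
          · rw [if_pos hsq]
            have g := GG_bd (mt sc ow n' p i)
            have g' := GG_bd (mt sc ow n p i)
            have g1 : |GG (mt sc ow n' p i) - GG (mt sc ow n p i)| ≤ 1 := by
              rw [abs_le]; constructor <;> linarith [g.1, g.2, g'.1, g'.2]
            have m0 := mu_nonneg (sc := sc) (J := J) n i
            have hG := G1_nonneg (sc := sc) (J := J) n (sc p)
            have hG1 := G1_le (sc := sc) (J := J) n (sc p)
            have n0 : 0 ≤ ν i := mul_nonneg (by linarith) m0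
            have n1 : ν i ≤ mu sc J n i := by
              show (1 - G1 sc J n (sc p)) * mu sc J n i ≤ mu sc J n i
              nlinarith
            have s1 : sh sc J M n p i = mu sc J n i := by
              unfold sh; rw [if_pos hi']
            rw [abs_mul, abs_of_nonneg n0, s1]
            calc _ ≤ mu sc J n i * 1 := mul_le_mul n1 g1 (abs_nonneg _) m0
              _ = _ := mul_one _
          · rw [if_neg hsq, mt_nbr hn p hqp i (fun h => hsq h.2)]
            simp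
        · split_ifs
          · exact sh_nonneg M n p i
          · exact le_rfl
      · rw [if_neg ho]
        refine le_of_eq (sum_eq_zero fun i _ => ?_)
        rw [mt_nbr hn p hqp i (fun h => ho h.1)]
        simp
    linarith

end Pool.Agent.P8H84.MX
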