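import Pool.Agent.P8H84.MX.Defs3

/-!
# Project MX, part P4a: the toggle operator
-/

set_option autoImplicit false

namespace Pool.Agent.P8H84.MX

open Finset

section
variable {N : ℕ} [NeZero N] {L : Type} [Group L] [Fintype L] [DecidableEq L]
  {Nd : Type} [Fintype Nd] [DecidableEq Nd]
  {sc : Nd → ℕ} {ow : Nd → Nd} {J : ℕ} {b : ZMod N → ZMod 5} {Lc : ℕ}
  {s : Fin 12 → L} {h : L} {r : Nd → L}

/-- the inverse toggle -/
def ng (e : Bool × ZMod 5) : Bool × ZMod 5 := (e.1, -e.2)

lemma tv_neg (k : ZMod N) (e : Bool × ZMod 5) :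
    tv b ((ng e).1, k, (ng e).2) = - tv b (e.1, k, e.2) := by
  rcases e with ⟨_ | _, z⟩
  · simp [tv, ng]
  · simp [tv, ng]

lemma tv_zero (t : Bool) (k : ZMod N) : tv b (t, k, 0) = 0 := by
  cases t <;> simp [tv]

lemma tgl_zero (ξ : Nd → ZMod N → ZMod 5) (q : Nd) (t : Bool) (k : ZMod N) :
    tgl b ξ q (t, k, 0) = ξ := by
  unfold tgl
  rw [tv_zero, add_zero, Function.update_eq_self]

lemma tgl_tgl (ξ : Nd → ZMod N → ZMod 5) (q : Nd) (k : ZMod N) (e : Bool × ZMod 5) :
    tgl b (tgl b ξ q (e.1, k, e.2)) q ((ng e).1, k, (ng e).2) = ξ := by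
  unfold tgl
  rw [tv_neg]
  simp

lemma ng_ng (e : Bool × ZMod 5) : ng (ng e) = e := by simp [ng]

lemma tgl_tgl' (ξ : Nd → ZMod N → ZMod 5) (q : Nd) (k : ZMod N) (e : Bool × ZMod 5) :
    tgl b (tgl b ξ q ((ng e).1, k, (ng e).2)) q (e.1, k, e.2) = ξ := by
  have := tgl_tgl (b := b) ξ q k (ng e)
  rwa [ng_ng] at this

lemma wtg_symm (ξ : Nd → ZMod N → ZMod 5) (q : Nd) (k : ZMod N) (e : Bool × ZMod 5) :
    wtg sc ow J b Lc (tgl b ξ q (e.1, k, e.2)) q ((ng e).1, k, (ng e).2) =
      wtg sc ow J b Lc ξ q (e.1, k, e.2) := by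
  unfold wtg
  rw [tgl_tgl]
  congr 1
  funext p
  exact min_comm _ _

/-- the toggle as an equivalence -/
def tglE (b : ZMod N → ZMod 5) (q : Nd) (k : ZMod N) (e : Bool × ZMod 5) :
    (Nd → ZMod N → ZMod 5) ≃ (Nd → ZMod N → ZMod 5) where
  toFun ξ := tgl b ξ q (e.1, k, e.2)
  invFun ξ := tgl b ξ q ((ng e).1, k, (ng e).2)
  left_inv ξ := tgl_tgl ξ q k e
  right_inv ξ := tgl_tgl' ξ q k e

/-- symmetry of the toggle operator -/
theorem TF_adj (D : ℕ) (u F : (Nd → ZMod N → ZMod 5) → L → ℝ) (l : L) :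
    ∑ ξ, u ξ l * TF sc ow J b Lc h r D F ξ l = ∑ ξ, F ξ l * TF sc ow J b Lc h r D u ξ l := by
  unfold TF
  simp only [Finset.mul_sum]
  rw [Finset.sum_comm]
  conv_rhs => rw [Finset.sum_comm]
  refine Finset.sum_congr rfl fun q _ => ?_
  rw [Finset.sum_comm]
  conv_rhs => rw [Finset.sum_comm]
  refine Finset.sum_congr rfl fun k _ => ?_
  by_cases hl : l = h ^ k.val * r q
  · simp only [if_pos hl]
    simp only [Finset.mul_sum]
    rw [Finset.sum_comm]
    conv_rhs => rw [Finset.sum_comm]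
    have h1 : ∀ G H : (Nd → ZMod N → ZMod 5) → L → ℝ, ∀ e : Bool × ZMod 5,
        ∑ ξ, G ξ l * ((wtg sc ow J b Lc ξ q (e.1, k, e.2) : ℝ) / D *
          (H (tgl b ξ q (e.1, k, e.2)) l - H ξ l)) =
        ∑ ξ, G ξ l * ((wtg sc ow J b Lc ξ q (e.1, k, e.2) : ℝ) / D) *
          H (tgl b ξ q (e.1, k, e.2)) l -
        ∑ ξ, G ξ l * H ξ l * ((wtg sc ow J b Lc ξ q (e.1, k, e.2) : ℝ) / D) := by
      intro G H e
      rw [← Finset.sum_sub_distrib]
      refine Finset.sum_congr rfl fun ξ _ => ?_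
      ring
    simp only [h1]
    rw [Finset.sum_sub_distrib, Finset.sum_sub_distrib]
    congr 1
    · have h2 : ∀ e : Bool × ZMod 5,
          ∑ ξ, u ξ l * ((wtg sc ow J b Lc ξ q (e.1, k, e.2) : ℝ) / D) *
            F (tgl b ξ q (e.1, k, e.2)) l =
          ∑ ξ, F ξ l * ((wtg sc ow J b Lc ξ q ((ng e).1, k, (ng e).2) : ℝ) / D) *
            u (tgl b ξ q ((ng e).1, k, (ng e).2)) l := by
        intro e
        rw [← Equiv.sum_comp (tglE b q k (ng e))]
        refine Finset.sum_congr rfl fun ξ _ => ?_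
        show u (tgl b ξ q ((ng e).1, k, (ng e).2)) l *
          ((wtg sc ow J b Lc (tgl b ξ q ((ng e).1, k, (ng e).2)) q (e.1, k, e.2) : ℝ) / D) *
            F (tgl b (tgl b ξ q ((ng e).1, k, (ng e).2)) q (e.1, k, e.2)) l = _
        rw [tgl_tgl']
        have h3 := wtg_symm (sc := sc) (ow := ow) (J := J) (b := b) (Lc := Lc) ξ q k (ng e)
        rw [ng_ng] at h3
        rw [h3]
        ring
      simp only [h2]
      let E : (Bool × ZMod 5) ≃ (Bool × ZMod 5) := ⟨ng, ng, ng_ng, ng_ng⟩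
      exact Equiv.sum_comp E (fun e => ∑ ξ, F ξ l *
        ((wtg sc ow J b Lc ξ q (e.1, k, e.2) : ℝ) / D) * u (tgl b ξ q (e.1, k, e.2)) l)
    · refine Finset.sum_congr rfl fun e _ => Finset.sum_congr rfl fun ξ _ => ?_
      ring
  · simp only [if_neg hl, mul_zero, Finset.sum_const_zero]

/-- the positions of the blocks are distinct -/
def Inj (h : L) (r : Nd → L) (N : ℕ) : Prop :=
  ∀ (p q : Nd) (i j : ZMod N), h ^ i.val * r p = h ^ j.val * r q → p = q ∧ i = j

lemma mem_FF (l : L) : l ∈ FF N h r ↔ ∃ (q : Nd) (k : ZMod N), l = h ^ k.val * r q := by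
  unfold FF
  simp

lemma TF_off (D : ℕ) (F : (Nd → ZMod N → ZMod 5) → L → ℝ) (ξ : Nd → ZMod N → ZMod 5) (l : L)
    (hl : l ∉ FF N h r) : TF sc ow J b Lc h r D F ξ l = 0 := by
  unfold TF
  refine Finset.sum_eq_zero fun q _ => Finset.sum_eq_zero fun k _ => ?_
  rw [if_neg]
  intro h1
  exact hl ((mem_FF l).2 ⟨q, k, h1⟩)

lemma TF_on (hI : Inj h r N) (D : ℕ) (F : (Nd → ZMod N → ZMod 5) → L → ℝ)
    (ξ : Nd → ZMod N → ZMod 5) (q : Nd) (k : ZMod N) :
    TF sc ow J b Lc h r D F ξ (h ^ k.val * r q) =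
      ∑ e : Bool × ZMod 5, (wtg sc ow J b Lc ξ q (e.1, k, e.2) : ℝ) / D *
        (F (tgl b ξ q (e.1, k, e.2)) (h ^ k.val * r q) - F ξ (h ^ k.val * r q)) := by
  unfold TF
  rw [Finset.sum_eq_single q, Finset.sum_eq_single k]
  · rw [if_pos rfl]
  · intro k' _ hk
    rw [if_neg]
    intro h1
    exact hk (hI _ _ _ _ h1).2.symm
  · intro h1; exact absurd (Finset.mem_univ _) h1
  · intro q' _ hq
    refine Finset.sum_eq_zero fun k' _ => ?_
    rw [if_neg]
    intro h1
    exact hq (hI _ _ _ _ h1).1.symm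
  · intro h1; exact absurd (Finset.mem_univ _) h1

lemma sum_FF (hI : Inj h r N) (G : L → ℝ) :
    ∑ l ∈ FF N h r, G l = ∑ q, ∑ k : ZMod N, G (h ^ k.val * r q) := by
  classical
  have h1 : FF N h r = (Finset.univ : Finset (Nd × ZMod N)).image
      (fun x => h ^ x.2.val * r x.1) := by
    ext l
    rw [mem_FF, Finset.mem_image]
    constructor
    · rintro ⟨q, k, rfl⟩; exact ⟨(q, k), Finset.mem_univ _, rfl⟩
    · rintro ⟨⟨q, k⟩, _, rfl⟩; exact ⟨q, k, rfl⟩
  rw [h1, Finset.sum_image, ← Finset.univ_product_univ, Finset.sum_product]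
  rintro ⟨q, k⟩ _ ⟨q', k'⟩ _ h2
  obtain ⟨h3, h4⟩ := hI _ _ _ _ h2
  simp only at h3 h4
  rw [h3, h4]

/-- the sum over all toggles of a block of a function of the levels -/
theorem block_sum (hP2 : S_P2) (hb : GoodCode N b) (hLc : 200 * Lc + 400 < N) (D : ℕ)
    (φ : (Nd → ℕ) → ℝ) (ξ : Nd → ZMod N → ZMod 5) (q : Nd) :
    ∃ Uq Dq : ℝ, (nv b Lc ξ q < Lc → Uq = 4 * (2 * N - nv b Lc ξ q) ∧ Dq = nv b Lc ξ q) ∧
      (Lc ≤ nv b Lc ξ q → Uq = 0 ∧ 0 ≤ Dq ∧ Dq ≤ 8 * N) ∧
      ∑ k : ZMod N, ∑ e : Bool × ZMod 5, (wtg sc ow J b Lc ξ q (e.1, k, e.2) : ℝ) / D *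
        (φ (nv b Lc (tgl b ξ q (e.1, k, e.2))) - φ (nv b Lc ξ)) =
      20000000 / D * (Uq * (wi sc ow J (nv b Lc ξ) q / 20000000) *
          (φ (Function.update (nv b Lc ξ) q (nv b Lc ξ q + 1)) - φ (nv b Lc ξ))
        + Dq * (wi sc ow J (Function.update (nv b Lc ξ) q (nv b Lc ξ q - 1)) q / 20000000) *
          (φ (Function.update (nv b Lc ξ) q (nv b Lc ξ q - 1)) - φ (nv b Lc ξ))) := by
  classical
  obtain ⟨p0, p1, p2, p3, _⟩ := hP2 N b Lc hb hLc
  set n := nv b Lc ξ with hn
  have hnq : n q = lev b Lc (ξ q) := rfl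
  set up := (univ.filter fun e : Bool × ZMod N × ZMod 5 => e.2.2 ≠ 0 ∧
      lev b Lc (ξ q + tv b e) = lev b Lc (ξ q) + 1) with hup
  set dn := (univ.filter fun e : Bool × ZMod N × ZMod 5 => e.2.2 ≠ 0 ∧
      lev b Lc (ξ q + tv b e) + 1 = lev b Lc (ξ q)) with hdn
  have hnv : ∀ e : Bool × ZMod N × ZMod 5, nv b Lc (tgl b ξ q e) =
      Function.update n q (lev b Lc (ξ q + tv b e)) := by
    intro e
    funext p
    unfold nv tgl
    by_cases hp : p = q
    · subst hp; simp
    · rw [Function.update_of_ne hp, Function.update_of_ne hp]; rfl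
  refine ⟨up.card, dn.card, ?_, ?_, ?_⟩
  · intro h1
    obtain ⟨h2, h3⟩ := p3 (ξ q) h1
    rw [h2, h3]
    refine ⟨?_, rfl⟩
    have h4 : lev b Lc (ξ q) ≤ 2 * N := by
      have := p1 (ξ q); omega
    rw [hnq]
    push_cast [Nat.cast_sub h4]
    ring
  · intro h1
    have h2 : up = ∅ := by
      rw [hup, Finset.filter_eq_empty_iff]
      rintro e _ ⟨_, h3⟩
      have h4 := p1 (ξ q + tv b e)
      rw [hnq] at h1
      omega
    rw [h2]
    refine ⟨by simp, Nat.cast_nonneg _, ?_⟩
    have h3 : dn.card ≤ (univ.filter fun e : Bool × ZMod N × ZMod 5 => e.2.2 ≠ 0).card := by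
      apply Finset.card_le_card
      intro e he
      rw [hdn, Finset.mem_filter] at he
      exact Finset.mem_filter.2 ⟨he.1, he.2.1⟩
    have h4 : (univ.filter fun e : Bool × ZMod N × ZMod 5 => e.2.2 ≠ 0).card = 8 * N := by
      have h5 : (univ.filter fun e : Bool × ZMod N × ZMod 5 => e.2.2 ≠ 0) =
          (univ : Finset Bool) ×ˢ ((univ : Finset (ZMod N)) ×ˢ
            (univ.filter fun z : ZMod 5 => z ≠ 0)) := by
        ext e; simp
      rw [h5, Finset.card_product, Finset.card_product, Finset.card_univ, Finset.card_univ,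
        ZMod.card, Fintype.card_bool]
      have h6 : (univ.filter fun z : ZMod 5 => z ≠ 0).card = 4 := by decide
      rw [h6]; ring
    rw [h4] at h3
    exact_mod_cast h3
  · have h1 : ∑ k : ZMod N, ∑ e : Bool × ZMod 5, (wtg sc ow J b Lc ξ q (e.1, k, e.2) : ℝ) / D *
        (φ (nv b Lc (tgl b ξ q (e.1, k, e.2))) - φ n) =
        ∑ e : Bool × ZMod N × ZMod 5, (wtg sc ow J b Lc ξ q e : ℝ) / D *
        (φ (nv b Lc (tgl b ξ q e)) - φ n) := by
      simp only [Fintype.sum_prod_type]
      rw [Finset.sum_comm]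
    rw [h1]
    have h2 : ∀ e : Bool × ZMod N × ZMod 5, (wtg sc ow J b Lc ξ q e : ℝ) / D *
        (φ (nv b Lc (tgl b ξ q e)) - φ n) =
        (if e ∈ up then (wi sc ow J n q : ℝ) / D *
          (φ (Function.update n q (n q + 1)) - φ n) else 0) +
        (if e ∈ dn then (wi sc ow J (Function.update n q (n q - 1)) q : ℝ) / D *
          (φ (Function.update n q (n q - 1)) - φ n) else 0) := by
      intro e
      have hw : wtg sc ow J b Lc ξ q e =
          wi sc ow J (fun p => min (n p) (Function.update n q (lev b Lc (ξ q + tv b e)) p)) q := by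
        unfold wtg
        rw [hnv]
      have hneg : ∀ e : Bool × ZMod N × ZMod 5, lev b Lc (ξ q) ≤ lev b Lc (ξ q + tv b e) + 1 := by
        intro e
        have h3 := p2 (ξ q + tv b e) (e.1, e.2.1, -e.2.2)
        have h4 := tv_neg (b := b) e.2.1 (e.1, e.2.2)
        unfold ng at h4
        simp only at h4
        rw [h4, add_neg_cancel_right] at h3
        exact h3
      rcases lt_trichotomy (lev b Lc (ξ q + tv b e)) (lev b Lc (ξ q)) with h3 | h3 | h3
      · have h4 : lev b Lc (ξ q + tv b e) + 1 = lev b Lc (ξ q) := by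
          have := hneg e; omega
        have hz : e.2.2 ≠ 0 := by
          intro h0
          have : tv b e = 0 := by
            have := tv_zero (b := b) e.1 e.2.1
            rw [← h0] at this
            exact this
          rw [this, add_zero] at h3
          exact lt_irrefl _ h3
        have hin : e ∈ dn := by
          rw [hdn, Finset.mem_filter]; exact ⟨Finset.mem_univ _, hz, h4⟩
        have hnot : e ∉ up := by
          rw [hup, Finset.mem_filter]; rintro ⟨_, _, h5⟩; omega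
        rw [if_neg hnot, if_pos hin, zero_add, hw, hnv]
        have h5 : lev b Lc (ξ q + tv b e) = n q - 1 := by rw [hnq]; omega
        rw [h5]
        have h6 : (fun p => min (n p) (Function.update n q (n q - 1) p)) =
            Function.update n q (n q - 1) := by
          funext p
          by_cases hp : p = q
          · subst hp; simp
          · rw [Function.update_of_ne hp]; exact min_self _
        rw [h6]
      · have hin : e ∉ dn := by
          rw [hdn, Finset.mem_filter]; rintro ⟨_, _, h5⟩; omega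
        have hnot : e ∉ up := by
          rw [hup, Finset.mem_filter]; rintro ⟨_, _, h5⟩; omega
        rw [if_neg hnot, if_neg hin, hnv, h3, ← hnq, Function.update_eq_self]
        simp
      · have h4 : lev b Lc (ξ q + tv b e) = lev b Lc (ξ q) + 1 := by
          have := p2 (ξ q) e; omega
        have hz : e.2.2 ≠ 0 := by
          intro h0
          have : tv b e = 0 := by
            have := tv_zero (b := b) e.1 e.2.1
            rw [← h0] at this
            exact this
          rw [this, add_zero] at h3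
          exact lt_irrefl _ h3
        have hin : e ∈ up := by
          rw [hup, Finset.mem_filter]; exact ⟨Finset.mem_univ _, hz, h4⟩
        have hnot : e ∉ dn := by
          rw [hdn, Finset.mem_filter]; rintro ⟨_, _, h5⟩; omega
        rw [if_pos hin, if_neg hnot, add_zero, hw, hnv, h4, ← hnq]
        have h6 : (fun p => min (n p) (Function.update n q (n q + 1) p)) = n := by
          funext p
          by_cases hp : p = q
          · subst hp; simp
          · rw [Function.update_of_ne hp]; exact min_self _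
        rw [h6]
    simp only [h2]
    rw [Finset.sum_add_distrib, ← Finset.sum_filter, ← Finset.sum_filter, Finset.sum_const,
      Finset.sum_const, nsmul_eq_mul, nsmul_eq_mul]
    have h3 : (univ.filter fun e => e ∈ up) = up := by ext; simp
    have h4 : (univ.filter fun e => e ∈ dn) = dn := by ext; simp
    rw [h3, h4]
    ring

end

end Pool.Agent.P8H84.MX
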