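import Pool.Agent.P8H84.MX.P4a

/-!
# Project MX, part P4c: the killed evolution of the densities
-/

set_option autoImplicit false
set_option linter.unusedSectionVars false

namespace Pool.Agent.P8H84.MX

open Finset

section
variable {N : ℕ} [NeZero N] {L : Type} [Group L] [Fintype L] [DecidableEq L]
  {Nd : Type} [Fintype Nd] [DecidableEq Nd]
variable (sc : Nd → ℕ) (ow : Nd → Nd) (J : ℕ) (b : ZMod N → ZMod 5) (Lc : ℕ)
variable (s : Fin 12 → L) (h : L) (r : Nd → L) (W T1 : ℕ)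

/-- the thresholds -/
def thr (p : Nd) (t : ℕ) : ℕ :=
  if t ≤ sc p * T1 then 8 * J else if t ≤ (sc p + 1) * T1 then 16 * J else Lc + 1

/-- the good states at time `t` -/
def good (t : ℕ) (ξ : Nd → ZMod N → ZMod 5) : Prop := ∀ p, nv b Lc ξ p < thr sc J Lc T1 p t

open Classical in
/-- the density at time `t` with respect to the uniform position of the marker, killed outside of the
good states -/
noncomputable def uu : ℕ → (Nd → ZMod N → ZMod 5) → L → ℝ
  | 0 => fun ξ _ => if ξ = 0 then 1 else 0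
  | t + 1 => fun ξ l => if good sc J b Lc T1 (t + 1) ξ then
      KF sc ow J b Lc s h r W (DD W) (uu t) ξ l else 0

open Classical in
/-- the increment -/
noncomputable def gg (t : ℕ) (ξ : Nd → ZMod N → ZMod 5) (l : L) : ℝ :=
  if good sc J b Lc T1 (t + 1) ξ then
    TF sc ow J b Lc h r (DD W) (uu sc ow J b Lc s h r W T1 t) ξ l else 0

variable {sc ow J b Lc s h r W T1}

lemma thr_mono (hJ : 16 * J ≤ Lc) (p : Nd) {t t' : ℕ} (ht : t ≤ t') :
    thr sc J Lc T1 p t ≤ thr sc J Lc T1 p t' := by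
  unfold thr
  have h1 : sc p * T1 ≤ (sc p + 1) * T1 := Nat.mul_le_mul_right _ (by omega)
  split_ifs <;> omega

lemma good_mono (hJ : 16 * J ≤ Lc) {t t' : ℕ} (ht : t ≤ t') (ξ : Nd → ZMod N → ZMod 5)
    (hg : good sc J b Lc T1 t ξ) : good sc J b Lc T1 t' ξ :=
  fun p => lt_of_lt_of_le (hg p) (thr_mono hJ p ht)

lemma thr_pos (hJ : 0 < J) (p : Nd) (t : ℕ) : 0 < thr sc J Lc T1 p t := by
  unfold thr
  split_ifs <;> omega

lemma uu_supp (h0 : lev b Lc 0 = 0) (hJ0 : 0 < J) (t : ℕ)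
    (ξ : Nd → ZMod N → ZMod 5) (l : L) (hg : ¬ good sc J b Lc T1 t ξ) :
    uu sc ow J b Lc s h r W T1 t ξ l = 0 := by
  cases t with
  | zero =>
    show (if ξ = 0 then (1:ℝ) else 0) = 0
    rw [if_neg]
    rintro rfl
    apply hg
    intro p
    have : nv b Lc (0 : Nd → ZMod N → ZMod 5) p = 0 := h0
    rw [this]
    exact thr_pos hJ0 p 0
  | succ t =>
    unfold uu
    exact if_neg hg

lemma Pm_zero (κ : ℝ) (l : L) (f : L → ℝ) (hf : ∀ l, f l = 0) : Pm s κ f l = 0 := by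
  unfold Pm
  simp [hf]

lemma uu_succ (h0 : lev b Lc 0 = 0) (hJ0 : 0 < J) (hJ : 16 * J ≤ Lc) (t : ℕ)
    (ξ : Nd → ZMod N → ZMod 5) (l : L) :
    uu sc ow J b Lc s h r W T1 (t + 1) ξ l =
      Pm s ((W : ℝ) / DD W) (uu sc ow J b Lc s h r W T1 t ξ) l +
        gg sc ow J b Lc s h r W T1 t ξ l := by
  by_cases hg : good sc J b Lc T1 (t + 1) ξ
  · have e1 : uu sc ow J b Lc s h r W T1 (t + 1) ξ l =
        KF sc ow J b Lc s h r W (DD W) (uu sc ow J b Lc s h r W T1 t) ξ l := by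
      conv_lhs => unfold uu
      exact if_pos hg
    rw [e1]
    unfold gg
    rw [if_pos hg]
    rfl
  · rw [uu_supp h0 hJ0 (t + 1) ξ l hg]
    unfold gg
    rw [if_neg hg, add_zero, Pm_zero]
    intro l'
    exact uu_supp h0 hJ0 t ξ l' fun h1 => hg (good_mono hJ (Nat.le_succ t) ξ h1)

/-- bound for the weights -/
def WtOK (sc : Nd → ℕ) (ow : Nd → Nd) (J : ℕ) : Prop :=
  ∀ (n : Nd → ℕ) (p : Nd), wi sc ow J n p ≤ 20000000

lemma wtg_le (hw : WtOK sc ow J) (ξ : Nd → ZMod N → ZMod 5) (q : Nd)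
    (e : Bool × ZMod N × ZMod 5) : (wtg sc ow J b Lc ξ q e : ℝ) ≤ 20000000 := by
  unfold wtg
  exact_mod_cast hw _ q

lemma DD_pos : (0:ℝ) < DD W := by unfold DD; positivity

lemma TF_ge (hI : Inj h r N) (hw : WtOK sc ow J) (u : (Nd → ZMod N → ZMod 5) → L → ℝ)
    (hu : ∀ ξ l, 0 ≤ u ξ l) (ξ : Nd → ZMod N → ZMod 5) (l : L) :
    - (10 * (20000000 / (DD W : ℝ))) * u ξ l ≤ TF sc ow J b Lc h r (DD W) u ξ l := by
  have hD := DD_pos (W := W)
  by_cases hl : l ∈ FF N h r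
  · obtain ⟨q, k, rfl⟩ := (mem_FF l).1 hl
    rw [TF_on hI]
    have h2 : ∀ e : Bool × ZMod 5, - (20000000 / (DD W : ℝ)) * u ξ (h ^ k.val * r q) ≤
        (wtg sc ow J b Lc ξ q (e.1, k, e.2) : ℝ) / (DD W : ℕ) *
          (u (tgl b ξ q (e.1, k, e.2)) (h ^ k.val * r q) - u ξ (h ^ k.val * r q)) := by
      intro e
      have h3 := wtg_le (b := b) (Lc := Lc) hw ξ q (e.1, k, e.2)
      have h4 : (0:ℝ) ≤ (wtg sc ow J b Lc ξ q (e.1, k, e.2) : ℝ) / (DD W : ℕ) := by positivity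
      have h5 : (wtg sc ow J b Lc ξ q (e.1, k, e.2) : ℝ) / (DD W : ℕ) ≤ 20000000 / (DD W : ℝ) :=
        div_le_div_of_nonneg_right h3 hD.le
      have h6 := hu (tgl b ξ q (e.1, k, e.2)) (h ^ k.val * r q)
      have h7 := hu ξ (h ^ k.val * r q)
      nlinarith
    have h3 := Finset.sum_le_sum (s := (Finset.univ : Finset (Bool × ZMod 5)))
      (fun e _ => h2 e)
    rw [Finset.sum_const, Finset.card_univ] at h3
    have h4 : Fintype.card (Bool × ZMod 5) = 10 := by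
      rw [Fintype.card_prod, Fintype.card_bool, ZMod.card]
    rw [h4, nsmul_eq_mul] at h3
    refine le_trans (le_of_eq ?_) h3
    push_cast; ring
  · rw [TF_off _ _ _ _ hl]
    have h7 := hu ξ l
    have : 0 ≤ 10 * (20000000 / (DD W : ℝ)) * u ξ l := by positivity
    linarith

/-- positivity -/
lemma KF_pos (hI : Inj h r N) (hw : WtOK sc ow J) (u : (Nd → ZMod N → ZMod 5) → L → ℝ)
    (hu : ∀ ξ l, 0 ≤ u ξ l) (ξ : Nd → ZMod N → ZMod 5) (l : L) :
    0 ≤ KF sc ow J b Lc s h r W (DD W) u ξ l := by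
  have hD := DD_pos (W := W)
  have h1 := TF_ge (b := b) (Lc := Lc) (W := W) hI hw u hu ξ l
  have h2 : (1 - 12 * ((W:ℝ) / DD W)) * u ξ l ≤ Pm s ((W : ℝ) / DD W) (u ξ) l := by
    unfold Pm
    rw [Finset.sum_sub_distrib, Finset.sum_const, Finset.card_univ, Fintype.card_fin,
      nsmul_eq_mul]
    have h3 : 0 ≤ ∑ i, u ξ (s i * l) := Finset.sum_nonneg fun i _ => hu _ _
    have h4 : 0 ≤ (W:ℝ) / DD W := by positivity
    push_cast
    nlinarith
  have h3 : KF sc ow J b Lc s h r W (DD W) u ξ l =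
    Pm s ((W : ℝ) / DD W) (u ξ) l + TF sc ow J b Lc h r (DD W) u ξ l := rfl
  rw [h3]
  have h4 : 0 ≤ (1 - 12 * ((W:ℝ) / DD W) - 10 * (20000000 / (DD W : ℝ))) := by
    have h5 : 12 * ((W:ℝ) / DD W) + 10 * (20000000 / (DD W : ℝ)) =
      (12 * W + 200000000) / DD W := by ring
    have h6 : (12 * (W:ℝ) + 200000000) / DD W ≤ 1 := by
      rw [div_le_one hD]
      unfold DD
      push_cast
      have : (0:ℝ) ≤ W := Nat.cast_nonneg _
      linarith
    linarith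
  have h5 := mul_nonneg h4 (hu ξ l)
  linarith

lemma uu_good (t : ℕ) (ξ : Nd → ZMod N → ZMod 5) (l : L) (hg : good sc J b Lc T1 (t + 1) ξ) :
    uu sc ow J b Lc s h r W T1 (t + 1) ξ l =
      KF sc ow J b Lc s h r W (DD W) (uu sc ow J b Lc s h r W T1 t) ξ l := by
  conv_lhs => unfold uu
  exact if_pos hg

lemma uu_bad (t : ℕ) (ξ : Nd → ZMod N → ZMod 5) (l : L) (hg : ¬ good sc J b Lc T1 (t + 1) ξ) :
    uu sc ow J b Lc s h r W T1 (t + 1) ξ l = 0 := by
  unfold uu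
  exact if_neg hg

lemma uu_nonneg (hI : Inj h r N) (hw : WtOK sc ow J) (t : ℕ)
    (ξ : Nd → ZMod N → ZMod 5) (l : L) : 0 ≤ uu sc ow J b Lc s h r W T1 t ξ l := by
  induction t generalizing ξ l with
  | zero =>
    show (0:ℝ) ≤ (if ξ = 0 then (1:ℝ) else 0)
    split_ifs <;> norm_num
  | succ t ih =>
    by_cases hg : good sc J b Lc T1 (t + 1) ξ
    · rw [uu_good t ξ l hg]
      exact KF_pos hI hw _ ih ξ l
    · rw [uu_bad t ξ l hg]

lemma uu_le_KF (hI : Inj h r N) (hw : WtOK sc ow J) (t : ℕ)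
    (ξ : Nd → ZMod N → ZMod 5) (l : L) : uu sc ow J b Lc s h r W T1 (t + 1) ξ l ≤
      KF sc ow J b Lc s h r W (DD W) (uu sc ow J b Lc s h r W T1 t) ξ l := by
  by_cases hg : good sc J b Lc T1 (t + 1) ξ
  · exact (uu_good t ξ l hg).le
  · rw [uu_bad t ξ l hg]
    exact KF_pos hI hw _ (uu_nonneg hI hw t) ξ l

lemma avg_Pm (κ : ℝ) (f : L → ℝ) : avg (Pm s κ f) = avg f := by
  unfold avg Pm
  congr 1
  rw [Finset.sum_add_distrib, ← Finset.mul_sum, Finset.sum_comm]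
  have h1 : ∀ i, ∑ l, (f (s i * l) - f l) = 0 := by
    intro i
    rw [Finset.sum_sub_distrib, sub_eq_zero]
    exact Equiv.sum_comp (Equiv.mulLeft (s i)) f
  simp [h1]

end

end Pool.Agent.P8H84.MX
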