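import Pool.Agent.P8H84.MX.P4c

/-!
# Project MX, part P4d: evolution of integrals
-/

set_option autoImplicit false
set_option linter.unusedSectionVars false

namespace Pool.Agent.P8H84.MX

open Finset

section
variable {N : ℕ} [NeZero N] {L : Type} [Group L] [Fintype L] [DecidableEq L]
  {Nd : Type} [Fintype Nd] [DecidableEq Nd]

/-- the properties of the killed evolution -/
structure Ev (sc : Nd → ℕ) (ow : Nd → Nd) (J : ℕ) (b : ZMod N → ZMod 5) (Lc : ℕ)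
    (s : Fin 12 → L) (h : L) (r : Nd → L) (W T1 : ℕ)
    (u g : ℕ → (Nd → ZMod N → ZMod 5) → L → ℝ) : Prop where
  zero : ∀ ξ l, u 0 ξ l = if ξ = 0 then 1 else 0
  step : ∀ t ξ l, u (t + 1) ξ l = Pm s ((W : ℝ) / DD W) (u t ξ) l + g t ξ l
  ggood : ∀ t ξ l, good sc J b Lc T1 (t + 1) ξ →
    g t ξ l = TF sc ow J b Lc h r (DD W) (u t) ξ l
  gbad : ∀ t ξ l, ¬ good sc J b Lc T1 (t + 1) ξ → g t ξ l = 0
  supp : ∀ t ξ l, ¬ good sc J b Lc T1 t ξ → u t ξ l = 0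
  nonneg : ∀ t ξ l, 0 ≤ u t ξ l
  inj : Inj h r N
  wt : WtOK sc ow J
  hJ : 16 * J ≤ Lc
  lev1 : ∀ a e, lev b Lc (a + tv b e) ≤ lev b Lc a + 1

variable {sc : Nd → ℕ} {ow : Nd → Nd} {J : ℕ} {b : ZMod N → ZMod 5} {Lc : ℕ}
variable {s : Fin 12 → L} {h : L} {r : Nd → L} {W T1 : ℕ}
variable {u g : ℕ → (Nd → ZMod N → ZMod 5) → L → ℝ}

lemma Ev_uu (hI : Inj h r N) (hw : WtOK sc ow J) (h0 : lev b Lc 0 = 0) (hJ0 : 0 < J)
    (hJ : 16 * J ≤ Lc) (hl : ∀ a e, lev b Lc (a + tv b e) ≤ lev b Lc a + 1) :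
    Ev sc ow J b Lc s h r W T1 (uu sc ow J b Lc s h r W T1) (gg sc ow J b Lc s h r W T1) where
  zero := fun ξ l => by
    show (if ξ = 0 then (1:ℝ) else 0) = _
    rfl
  step := fun t ξ l => uu_succ h0 hJ0 hJ t ξ l
  ggood := fun t ξ l hg => by unfold gg; exact if_pos hg
  gbad := fun t ξ l hg => by unfold gg; exact if_neg hg
  supp := fun t ξ l hg => uu_supp h0 hJ0 t ξ l hg
  nonneg := fun t ξ l => uu_nonneg hI hw t ξ l
  inj := hI
  wt := hw
  hJ := hJ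
  lev1 := hl

lemma nv_tgl_ne (ξ : Nd → ZMod N → ZMod 5) (q p : Nd) (e : Bool × ZMod N × ZMod 5) (hp : p ≠ q) :
    nv b Lc (tgl b ξ q e) p = nv b Lc ξ p := by
  unfold nv tgl
  rw [Function.update_of_ne hp]

lemma nv_tgl_le (hl : ∀ a e, lev b Lc (a + tv b e) ≤ lev b Lc a + 1)
    (ξ : Nd → ZMod N → ZMod 5) (q : Nd) (e : Bool × ZMod N × ZMod 5) :
    nv b Lc (tgl b ξ q e) q ≤ nv b Lc ξ q + 1 := by
  unfold nv tgl
  rw [Function.update_self]
  exact hl _ _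

lemma nv_tgl_ge (hl : ∀ a e, lev b Lc (a + tv b e) ≤ lev b Lc a + 1)
    (ξ : Nd → ZMod N → ZMod 5) (q : Nd) (e : Bool × ZMod N × ZMod 5) :
    nv b Lc ξ q ≤ nv b Lc (tgl b ξ q e) q + 1 := by
  have h1 := nv_tgl_le (Lc := Lc) hl (tgl b ξ q e) q (e.1, e.2.1, -e.2.2)
  have h2 := tgl_tgl (b := b) ξ q e.2.1 (e.1, e.2.2)
  unfold ng at h2
  simp only at h2
  rw [h2] at h1
  exact h1

lemma avg_nonneg (f : L → ℝ) (hf : ∀ l, 0 ≤ f l) : 0 ≤ avg f := by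
  unfold avg
  exact div_nonneg (Finset.sum_nonneg fun l _ => hf l) (Nat.cast_nonneg _)

lemma avg_add (f g : L → ℝ) : avg (fun l => f l + g l) = avg f + avg g := by
  unfold avg
  rw [Finset.sum_add_distrib, add_div]

lemma avg_step (hE : Ev sc ow J b Lc s h r W T1 u g) (t : ℕ) (ξ : Nd → ZMod N → ZMod 5) :
    avg (u (t + 1) ξ) = avg (u t ξ) + avg (g t ξ) := by
  have h1 : u (t + 1) ξ = fun l => Pm s ((W : ℝ) / DD W) (u t ξ) l + g t ξ l := by
    funext l; exact hE.step t ξ l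
  rw [h1, avg_add, avg_Pm]

lemma g_off (hE : Ev sc ow J b Lc s h r W T1 u g) (t : ℕ) (ξ : Nd → ZMod N → ZMod 5) (l : L)
    (hl : l ∉ FF N h r) : g t ξ l = 0 := by
  by_cases hg : good sc J b Lc T1 (t + 1) ξ
  · rw [hE.ggood t ξ l hg, TF_off _ _ _ _ hl]
  · exact hE.gbad t ξ l hg

lemma card_L_pos : (0:ℝ) < Fintype.card L := by
  exact_mod_cast Fintype.card_pos

lemma int_step (hE : Ev sc ow J b Lc s h r W T1 u g) (f : (Nd → ZMod N → ZMod 5) → ℝ) (t : ℕ) :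
    ∑ ξ, f ξ * avg (u (t + 1) ξ) = ∑ ξ, f ξ * avg (u t ξ) +
      (∑ l ∈ FF N h r, ∑ ξ, f ξ * g t ξ l) / Fintype.card L := by
  have h1 : ∀ ξ, f ξ * avg (u (t + 1) ξ) = f ξ * avg (u t ξ) +
      (∑ l, f ξ * g t ξ l) / Fintype.card L := by
    intro ξ
    rw [avg_step hE, mul_add, ← Finset.mul_sum, mul_div_assoc]
    rfl
  simp only [h1]
  rw [Finset.sum_add_distrib, ← Finset.sum_div, Finset.sum_comm]
  congr 2
  symm
  apply Finset.sum_subset (Finset.subset_univ _)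
  intro l _ hl
  refine Finset.sum_eq_zero fun ξ _ => ?_
  rw [g_off hE t ξ l hl, mul_zero]

lemma TF_bad (hE : Ev sc ow J b Lc s h r W T1 u g) (t : ℕ) (ξ : Nd → ZMod N → ZMod 5) (l : L)
    (hg : ¬ good sc J b Lc T1 (t + 1) ξ) : 0 ≤ TF sc ow J b Lc h r (DD W) (u t) ξ l := by
  have h1 := TF_ge (b := b) (Lc := Lc) (W := W) hE.inj hE.wt (u t) (hE.nonneg t) ξ l
  have h2 : u t ξ l = 0 := hE.supp t ξ l fun h3 => hg (good_mono hE.hJ (Nat.le_succ t) ξ h3)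
  rw [h2, mul_zero] at h1
  exact h1

/-- evolution of the integral of a nonnegative function -/
theorem evol (hE : Ev sc ow J b Lc s h r W T1 u g) (f : (Nd → ZMod N → ZMod 5) → ℝ)
    (hf : ∀ ξ, 0 ≤ f ξ) (t : ℕ) :
    ∑ ξ, f ξ * avg (u (t + 1) ξ) ≤ ∑ ξ, f ξ * avg (u t ξ) +
      (∑ l ∈ FF N h r, ∑ ξ, u t ξ l * TF sc ow J b Lc h r (DD W) (fun ξ _ => f ξ) ξ l) /
        Fintype.card L := by
  rw [int_step hE]
  refine add_le_add le_rfl (div_le_div_of_nonneg_right (Finset.sum_le_sum fun l hl => ?_)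
    card_L_pos.le)
  rw [TF_adj]
  refine Finset.sum_le_sum fun ξ _ => ?_
  refine mul_le_mul_of_nonneg_left ?_ (hf ξ)
  by_cases hg : good sc J b Lc T1 (t + 1) ξ
  · exact (hE.ggood t ξ l hg).le
  · rw [hE.gbad t ξ l hg]
    exact TF_bad hE t ξ l hg

lemma TF_abs (hI : Inj h r N) (hw : WtOK sc ow J) (F : (Nd → ZMod N → ZMod 5) → L → ℝ)
    (ξ : Nd → ZMod N → ZMod 5) (q : Nd) (k : ZMod N) (B : ℝ)
    (hB : ∀ e : Bool × ZMod 5,
      |F (tgl b ξ q (e.1, k, e.2)) (h ^ k.val * r q) - F ξ (h ^ k.val * r q)| ≤ B) :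
    |TF sc ow J b Lc h r (DD W) F ξ (h ^ k.val * r q)| ≤ 10 * (20000000 / (DD W : ℝ)) * B := by
  have hD := DD_pos (W := W)
  rw [TF_on hI]
  refine le_trans (Finset.abs_sum_le_sum_abs _ _) ?_
  have h2 : ∀ e : Bool × ZMod 5, |(wtg sc ow J b Lc ξ q (e.1, k, e.2) : ℝ) / (DD W : ℕ) *
        (F (tgl b ξ q (e.1, k, e.2)) (h ^ k.val * r q) - F ξ (h ^ k.val * r q))| ≤
        20000000 / (DD W : ℝ) * B := by
    intro e
    have h3 := wtg_le (b := b) (Lc := Lc) hw ξ q (e.1, k, e.2)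
    have h4 : (0:ℝ) ≤ (wtg sc ow J b Lc ξ q (e.1, k, e.2) : ℝ) / (DD W : ℕ) := by positivity
    have h5 : (wtg sc ow J b Lc ξ q (e.1, k, e.2) : ℝ) / (DD W : ℕ) ≤ 20000000 / (DD W : ℝ) :=
      div_le_div_of_nonneg_right h3 hD.le
    rw [abs_mul, abs_of_nonneg h4]
    exact mul_le_mul h5 (hB e) (abs_nonneg _) (by positivity)
  refine le_trans (Finset.sum_le_sum fun e _ => h2 e) ?_
  rw [Finset.sum_const, Finset.card_univ]
  have h4 : Fintype.card (Bool × ZMod 5) = 10 := by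
    rw [Fintype.card_prod, Fintype.card_bool, ZMod.card]
  rw [h4, nsmul_eq_mul]
  exact le_of_eq (by push_cast; ring)

/-- loss of mass -/
theorem mass (hE : Ev sc ow J b Lc s h r W T1 u g) (t : ℕ) (φ : (Nd → ZMod N → ZMod 5) → ℝ)
    (hφ : ∀ ξ, 0 ≤ φ ξ) (hb : ∀ ξ, ¬ good sc J b Lc T1 (t + 1) ξ → 1 ≤ φ ξ)
    (hφ2 : ∀ ξ q e, |φ (tgl b ξ q e) - φ ξ| ≤ φ ξ) :
    ∑ ξ, avg (u t ξ) - 20 * (20000000 / (DD W : ℝ)) *
      ((∑ l ∈ FF N h r, ∑ ξ, φ ξ * u t ξ l) / Fintype.card L) ≤ ∑ ξ, avg (u (t + 1) ξ) := by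
  have hD := DD_pos (W := W)
  have h1 := int_step hE (fun _ => 1) t
  simp only [one_mul] at h1
  rw [h1]
  have h2 : - (20 * (20000000 / (DD W : ℝ))) * (∑ l ∈ FF N h r, ∑ ξ, φ ξ * u t ξ l) ≤
      ∑ l ∈ FF N h r, ∑ ξ, g t ξ l := by
    rw [Finset.mul_sum]
    refine Finset.sum_le_sum fun l hl => ?_
    have h3 : ∑ ξ, TF sc ow J b Lc h r (DD W) (u t) ξ l = 0 := by
      have h4 := TF_adj (sc := sc) (ow := ow) (J := J) (b := b) (Lc := Lc) (h := h) (r := r)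
        (DD W) (fun _ _ => (1:ℝ)) (u t) l
      simp only [one_mul] at h4
      rw [h4]
      refine Finset.sum_eq_zero fun ξ _ => ?_
      have : TF sc ow J b Lc h r (DD W) (fun _ _ => (1:ℝ)) ξ l = 0 := by
        unfold TF; simp
      rw [this, mul_zero]
    have h4 : ∀ ξ, TF sc ow J b Lc h r (DD W) (u t) ξ l - φ ξ *
        (TF sc ow J b Lc h r (DD W) (u t) ξ l + 10 * (20000000 / (DD W : ℝ)) * u t ξ l) ≤
        g t ξ l := by
      intro ξ
      have h5 := TF_ge (b := b) (Lc := Lc) (W := W) hE.inj hE.wt (u t) (hE.nonneg t) ξ l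
      have h6 := hE.nonneg t ξ l
      by_cases hg : good sc J b Lc T1 (t + 1) ξ
      · rw [hE.ggood t ξ l hg]
        have := hφ ξ
        have h7 : 0 ≤ TF sc ow J b Lc h r (DD W) (u t) ξ l +
          10 * (20000000 / (DD W : ℝ)) * u t ξ l := by linarith
        have := mul_nonneg this h7
        linarith
      · rw [hE.gbad t ξ l hg]
        have h7 := TF_bad hE t ξ l hg
        have h8 := hb ξ hg
        have h9 : 0 ≤ 10 * (20000000 / (DD W : ℝ)) * u t ξ l := by positivity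
        nlinarith
    have h5 : ∑ ξ, (TF sc ow J b Lc h r (DD W) (u t) ξ l - φ ξ *
        (TF sc ow J b Lc h r (DD W) (u t) ξ l + 10 * (20000000 / (DD W : ℝ)) * u t ξ l)) ≤
        ∑ ξ, g t ξ l := Finset.sum_le_sum fun ξ _ => h4 ξ
    refine le_trans ?_ h5
    rw [Finset.sum_sub_distrib, h3, zero_sub, neg_mul, neg_le_neg_iff]
    simp only [mul_add]
    rw [Finset.sum_add_distrib]
    have h6 := TF_adj (sc := sc) (ow := ow) (J := J) (b := b) (Lc := Lc) (h := h) (r := r)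
        (DD W) (fun ξ _ => φ ξ) (u t) l
    rw [h6]
    have h7 : ∀ ξ, u t ξ l * TF sc ow J b Lc h r (DD W) (fun ξ _ => φ ξ) ξ l ≤
        u t ξ l * (10 * (20000000 / (DD W : ℝ)) * φ ξ) := by
      intro ξ
      refine mul_le_mul_of_nonneg_left ?_ (hE.nonneg t ξ l)
      obtain ⟨q, k, rfl⟩ := (mem_FF l).1 hl
      exact le_trans (le_abs_self _) (TF_abs hE.inj hE.wt _ ξ q k (φ ξ) fun e => hφ2 ξ q _)
    have h8 := Finset.sum_le_sum (s := (Finset.univ : Finset (Nd → ZMod N → ZMod 5)))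
      fun ξ _ => h7 ξ
    refine le_trans (add_le_add_left h8 _) (le_of_eq ?_)
    rw [← Finset.sum_add_distrib, Finset.mul_sum]
    refine Finset.sum_congr rfl fun ξ _ => ?_
    ring
  have h3 : - (20 * (20000000 / (DD W : ℝ))) * (∑ l ∈ FF N h r, ∑ ξ, φ ξ * u t ξ l) /
    Fintype.card L ≤ (∑ l ∈ FF N h r, ∑ ξ, g t ξ l) / Fintype.card L :=
    div_le_div_of_nonneg_right h2 card_L_pos.le
  have h4 : - (20 * (20000000 / (DD W : ℝ))) * (∑ l ∈ FF N h r, ∑ ξ, φ ξ * u t ξ l) /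
    Fintype.card L = - (20 * (20000000 / (DD W : ℝ)) *
      ((∑ l ∈ FF N h r, ∑ ξ, φ ξ * u t ξ l) / Fintype.card L)) := by ring
  linarith

/-- the mass is at most one -/
lemma mass_le (hE : Ev sc ow J b Lc s h r W T1 u g) (t : ℕ) : ∑ ξ, avg (u t ξ) ≤ 1 := by
  induction t with
  | zero =>
    have h1 : ∀ ξ, avg (u 0 ξ) = if ξ = 0 then 1 else 0 := by
      intro ξ
      have : u 0 ξ = fun _ => if ξ = 0 then 1 else 0 := by funext l; exact hE.zero ξ l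
      rw [this]
      unfold avg
      rw [Finset.sum_const, Finset.card_univ, nsmul_eq_mul]
      have := card_L_pos (L := L)
      field_simp
    simp only [h1]
    simp
  | succ t ih =>
    have h1 := evol hE (fun _ => 1) (fun _ => zero_le_one) t
    simp only [one_mul] at h1
    have h2 : ∀ ξ l, TF sc ow J b Lc h r (DD W) (fun _ _ => (1:ℝ)) ξ l = 0 := by
      intro ξ l; unfold TF; simp
    simp only [h2, mul_zero, Finset.sum_const_zero, zero_div, add_zero] at h1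
    linarith

end

end Pool.Agent.P8H84.MX
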