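import Pool.Agent.P8H84.MX.P4d

/-!
# Project MX, part P4e: oscillation bounds and the drift
-/

set_option autoImplicit false
set_option linter.unusedSectionVars false

namespace Pool.Agent.P8H84.MX

open Finset

section
variable {N : ℕ} [NeZero N] {L : Type} [Group L] [Fintype L] [DecidableEq L]
  {Nd : Type} [Fintype Nd] [DecidableEq Nd]
variable {sc : Nd → ℕ} {ow : Nd → Nd} {J : ℕ} {b : ZMod N → ZMod 5} {Lc : ℕ}
variable {s : Fin 12 → L} {h : L} {r : Nd → L} {W T1 : ℕ}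
variable {u g : ℕ → (Nd → ZMod N → ZMod 5) → L → ℝ}

/-- the family of test functions -/
noncomputable def ff (sc : Nd → ℕ) (J : ℕ) (b : ZMod N → ZMod 5) (Lc M : ℕ) (p : Nd)
    (i : Fin (M + 1)) (ξ : Nd → ZMod N → ZMod 5) : ℝ :=
  2 ^ nv b Lc ξ p * sh sc J M (nv b Lc ξ) p i

lemma nv_nbr (hE : Ev sc ow J b Lc s h r W T1 u g) (ξ : Nd → ZMod N → ZMod 5) (q : Nd)
    (e : Bool × ZMod N × ZMod 5) :
    (∀ p, p ≠ q → nv b Lc (tgl b ξ q e) p = nv b Lc ξ p) ∧
      nv b Lc (tgl b ξ q e) q ≤ nv b Lc ξ q + 1 ∧ nv b Lc ξ q ≤ nv b Lc (tgl b ξ q e) q + 1 :=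
  ⟨fun p hp => nv_tgl_ne ξ q p e hp, nv_tgl_le hE.lev1 ξ q e, nv_tgl_ge hE.lev1 ξ q e⟩

lemma pow_nbr (hE : Ev sc ow J b Lc s h r W T1 u g) (ξ : Nd → ZMod N → ZMod 5) (q p : Nd)
    (e : Bool × ZMod N × ZMod 5) :
    (2:ℝ) ^ nv b Lc (tgl b ξ q e) p ≤ 2 * 2 ^ nv b Lc ξ p := by
  obtain ⟨h1, h2, h3⟩ := nv_nbr hE ξ q e
  rw [← pow_succ']
  apply pow_le_pow_right₀ (by norm_num)
  by_cases hp : p = q
  · subst hp; exact h2
  · rw [h1 p hp]; omega

lemma ff_nonneg (hP3b : S_P3b) (M : ℕ) (hT : Tree M sc ow) (hJ0 : 0 < J) (p : Nd)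
    (i : Fin (M + 1)) (ξ : Nd → ZMod N → ZMod 5) : 0 ≤ ff sc J b Lc M p i ξ := by
  have h1 := (hP3b M J hJ0 Nd sc ow hT (nv b Lc ξ) (nv b Lc ξ) p p (fun _ _ => rfl)
    (Nat.le_succ _) (Nat.le_succ _)).2.1 i
  unfold ff
  positivity

lemma ff_sum (hP3b : S_P3b) (M : ℕ) (hT : Tree M sc ow) (hJ0 : 0 < J) (p : Nd)
    (ξ : Nd → ZMod N → ZMod 5) : ∑ i, ff sc J b Lc M p i ξ = 2 ^ nv b Lc ξ p := by
  have h1 := (hP3b M J hJ0 Nd sc ow hT (nv b Lc ξ) (nv b Lc ξ) p p (fun _ _ => rfl)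
    (Nat.le_succ _) (Nat.le_succ _)).1
  unfold ff
  rw [← Finset.mul_sum, ← Finset.sum_range (fun i => sh sc J M (nv b Lc ξ) p i), h1, mul_one]

lemma ff_nbr (hP3b : S_P3b) (hE : Ev sc ow J b Lc s h r W T1 u g) (M : ℕ) (hT : Tree M sc ow)
    (hJ0 : 0 < J) (p : Nd) (i : Fin (M + 1)) (ξ : Nd → ZMod N → ZMod 5) (q : Nd)
    (e : Bool × ZMod N × ZMod 5) :
    ff sc J b Lc M p i (tgl b ξ q e) ≤
      2 * ff sc J b Lc M p i ξ + 1 / (8 * J) * 2 ^ nv b Lc ξ p := by
  obtain ⟨n1, n2, n3⟩ := nv_nbr hE ξ q e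
  have h1 := (hP3b M J hJ0 Nd sc ow hT (nv b Lc ξ) (nv b Lc (tgl b ξ q e)) p q n1 n2 n3).2.2.1 i
  have h2 := pow_nbr hE ξ q p e
  have h3 := (hP3b M J hJ0 Nd sc ow hT (nv b Lc (tgl b ξ q e)) (nv b Lc (tgl b ξ q e)) p p
    (fun _ _ => rfl) (Nat.le_succ _) (Nat.le_succ _)).2.1 i
  unfold ff
  have h4 : (2:ℝ) ^ nv b Lc (tgl b ξ q e) p * sh sc J M (nv b Lc (tgl b ξ q e)) p i ≤
      (2 * 2 ^ nv b Lc ξ p) * (sh sc J M (nv b Lc ξ) p i + 1 / (16 * J)) :=
    mul_le_mul h2 h1 h3 (by positivity)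
  refine le_trans h4 (le_of_eq ?_)
  have : (J:ℝ) ≠ 0 := by positivity
  field_simp
  ring

/-- oscillation bounds -/
theorem osc (hP1b : S_P1b) (hP3b : S_P3b) (hE : Ev sc ow J b Lc s h r W T1 u g) (M : ℕ)
    (hT : Tree M sc ow) (hJ0 : 0 < J) (Dk : ℕ → ℝ) (CG : ℝ) (hD0 : ∀ k, 0 ≤ Dk k)
    (hDk : ∀ k, ∀ l ∈ FF N h r, ∑ l' ∈ FF N h r,
      |pk s ((W : ℝ) / DD W) k l l' - 1 / (Fintype.card L : ℝ)| ≤ Dk k)
    (hCG : ∀ K : ℕ, ∑ k ∈ range K, Dk k ≤ CG) (p : Nd) (T : ℕ) (Y : ℝ)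
    (hY : ∀ t ≤ T, ∑ ξ, 2 ^ nv b Lc ξ p * avg (u t ξ) ≤ Y)
    (hq : 20000000 / (DD W : ℝ) * (30 + (M + 1) * (2 / J)) * CG ≤ 1 / 2) :
    ∀ t ≤ T, ∃ z : Fin (M + 1) → ℝ, (∀ i, 0 ≤ z i) ∧
      (∀ i, ∀ l ∈ FF N h r, ∑ ξ, ff sc J b Lc M p i ξ * |u t ξ l - avg (u t ξ)| ≤ z i) ∧
      ∑ i, z i ≤ 2 * (20000000 / (DD W : ℝ) * (30 + (M + 1) * (2 / J)) * CG) * Y := by
  have hD := DD_pos (W := W)
  have h0 := hP1b (Nd → ZMod N → ZMod 5) L (Fin (M + 1)) s ((W : ℝ) / DD W) (FF N h r) Dk CG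
    (20000000 / (DD W : ℝ)) 30 (2 / J) Y T u g (ff sc J b Lc M p)
    (by positivity) (by
      rw [← mul_div_assoc, div_le_one hD]
      unfold DD
      push_cast
      have : (0:ℝ) ≤ W := Nat.cast_nonneg _
      linarith) hD0 hDk hCG
    (fun x l l' => by rw [hE.zero, hE.zero]) (fun t _ x l => hE.step t x l)
    (fun t _ x l hl => g_off hE t x l hl) (fun t _ x l => hE.nonneg t x l)
    (fun i x => ff_nonneg hP3b M hT hJ0 p i x) (by positivity) (by norm_num) (by positivity)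
    (by
      intro t _ i l hl
      obtain ⟨q, k, rfl⟩ := (mem_FF l).1 hl
      set l := h ^ k.val * r q with hldef
      have hjs : ∑ j, ∑ x, ff sc J b Lc M p j x * u t x l =
          ∑ x, 2 ^ nv b Lc x p * u t x l := by
        rw [Finset.sum_comm]
        refine Finset.sum_congr rfl fun x _ => ?_
        rw [← Finset.sum_mul, ff_sum hP3b M hT hJ0]
      rw [hjs]
      have h1 : ∀ x, |g t x l| ≤ ∑ e : Bool × ZMod 5, 20000000 / (DD W : ℝ) *
          (u t (tgl b x q (e.1, k, e.2)) l + u t x l) := by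
        intro x
        by_cases hg : good sc J b Lc T1 (t + 1) x
        · rw [hE.ggood t x l hg, hldef, TF_on hE.inj]
          refine le_trans (Finset.abs_sum_le_sum_abs _ _) (Finset.sum_le_sum fun e _ => ?_)
          have h3 := wtg_le (b := b) (Lc := Lc) hE.wt x q (e.1, k, e.2)
          have h4 : (0:ℝ) ≤ (wtg sc ow J b Lc x q (e.1, k, e.2) : ℝ) / (DD W : ℕ) := by positivity
          have h5 : (wtg sc ow J b Lc x q (e.1, k, e.2) : ℝ) / (DD W : ℕ) ≤
            20000000 / (DD W : ℝ) := div_le_div_of_nonneg_right h3 hD.le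
          rw [abs_mul, abs_of_nonneg h4]
          refine mul_le_mul h5 ?_ (abs_nonneg _) (by positivity)
          have h6 := hE.nonneg t (tgl b x q (e.1, k, e.2)) (h ^ k.val * r q)
          have h7 := hE.nonneg t x (h ^ k.val * r q)
          rw [abs_le]
          constructor <;> linarith
        · rw [hE.gbad t x l hg, abs_zero]
          refine Finset.sum_nonneg fun e _ => ?_
          have h6 := hE.nonneg t (tgl b x q (e.1, k, e.2)) l
          have h7 := hE.nonneg t x l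
          positivity
      have h2 : ∑ x, ff sc J b Lc M p i x * |g t x l| ≤
          ∑ x, ff sc J b Lc M p i x * ∑ e : Bool × ZMod 5, 20000000 / (DD W : ℝ) *
          (u t (tgl b x q (e.1, k, e.2)) l + u t x l) :=
        Finset.sum_le_sum fun x _ => mul_le_mul_of_nonneg_left (h1 x)
          (ff_nonneg hP3b M hT hJ0 p i x)
      refine le_trans h2 ?_
      simp only [Finset.mul_sum]
      rw [Finset.sum_comm]
      have h3 : ∀ e : Bool × ZMod 5, ∑ x, ff sc J b Lc M p i x * (20000000 / (DD W : ℝ) *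
          (u t (tgl b x q (e.1, k, e.2)) l + u t x l)) ≤
          20000000 / (DD W : ℝ) * (3 * ∑ x, ff sc J b Lc M p i x * u t x l +
            1 / (8 * J) * ∑ x, 2 ^ nv b Lc x p * u t x l) := by
        intro e
        have h4 : ∑ x, ff sc J b Lc M p i x * u t (tgl b x q (e.1, k, e.2)) l =
            ∑ x, ff sc J b Lc M p i (tgl b x q ((ng e).1, k, (ng e).2)) * u t x l := by
          rw [← Equiv.sum_comp (tglE b q k (ng e))]
          refine Finset.sum_congr rfl fun x _ => ?_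
          show ff sc J b Lc M p i (tgl b x q ((ng e).1, k, (ng e).2)) *
            u t (tgl b (tgl b x q ((ng e).1, k, (ng e).2)) q (e.1, k, e.2)) l = _
          rw [tgl_tgl']
        have h5 : ∑ x, ff sc J b Lc M p i (tgl b x q ((ng e).1, k, (ng e).2)) * u t x l ≤
            ∑ x, (2 * ff sc J b Lc M p i x + 1 / (8 * J) * 2 ^ nv b Lc x p) * u t x l :=
          Finset.sum_le_sum fun x _ => mul_le_mul_of_nonneg_right
            (ff_nbr hP3b hE M hT hJ0 p i x q _) (hE.nonneg t x l)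
        have h6 : ∑ x, ff sc J b Lc M p i x * (20000000 / (DD W : ℝ) *
          (u t (tgl b x q (e.1, k, e.2)) l + u t x l)) = 20000000 / (DD W : ℝ) *
          (∑ x, ff sc J b Lc M p i x * u t (tgl b x q (e.1, k, e.2)) l +
            ∑ x, ff sc J b Lc M p i x * u t x l) := by
          rw [← Finset.sum_add_distrib, Finset.mul_sum]
          refine Finset.sum_congr rfl fun x _ => ?_
          ring
        rw [h6, h4]
        refine mul_le_mul_of_nonneg_left ?_ (by positivity)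
        have h7 : ∑ x, (2 * ff sc J b Lc M p i x + 1 / (8 * J) * 2 ^ nv b Lc x p) * u t x l =
            2 * ∑ x, ff sc J b Lc M p i x * u t x l +
              1 / (8 * J) * ∑ x, 2 ^ nv b Lc x p * u t x l := by
          rw [Finset.mul_sum, Finset.mul_sum, ← Finset.sum_add_distrib]
          refine Finset.sum_congr rfl fun x _ => ?_
          ring
        rw [h7] at h5
        linarith
      refine le_trans (Finset.sum_le_sum fun e _ => h3 e) ?_
      rw [Finset.sum_const, Finset.card_univ]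
      have h4 : Fintype.card (Bool × ZMod 5) = 10 := by
        rw [Fintype.card_prod, Fintype.card_bool, ZMod.card]
      rw [h4, nsmul_eq_mul]
      have h5 : 0 ≤ ∑ x, 2 ^ nv b Lc x p * u t x l := Finset.sum_nonneg fun x _ => by
        have := hE.nonneg t x l
        positivity
      have h6 : (10:ℕ) * (20000000 / (DD W : ℝ) * (3 * ∑ x, ff sc J b Lc M p i x * u t x l +
            1 / (8 * J) * ∑ x, 2 ^ nv b Lc x p * u t x l)) =
          20000000 / (DD W : ℝ) * (30 * ∑ x, ff sc J b Lc M p i x * u t x l +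
            (10 / 8) / J * ∑ x, 2 ^ nv b Lc x p * u t x l) := by
        push_cast
        have : (J:ℝ) ≠ 0 := by positivity
        field_simp
        ring
      rw [h6]
      have h7 : (10 / 8 : ℝ) / J ≤ 2 / J := by gcongr; norm_num
      have h8 := mul_le_mul_of_nonneg_right h7 h5
      refine mul_le_mul_of_nonneg_left ?_ (by positivity)
      simp only [← Finset.mul_sum]
      linarith)
    (by
      intro t ht
      refine le_trans (le_of_eq ?_) (hY t ht)
      rw [Finset.sum_comm]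
      refine Finset.sum_congr rfl fun x _ => ?_
      rw [← Finset.sum_mul, ff_sum hP3b M hT hJ0])
    (by
      rw [Fintype.card_fin]
      push_cast
      exact hq)
  intro t ht
  obtain ⟨z, z1, z2, z3⟩ := h0 t ht
  refine ⟨z, z1, z2, ?_⟩
  rw [Fintype.card_fin] at z3
  push_cast at z3
  exact z3

end

end Pool.Agent.P8H84.MX
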