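import Pool.Agent.P8H84.MX.P4e

/-!
# Project MX, part P4f: the confined phase
-/

set_option autoImplicit false
set_option linter.unusedSectionVars false

namespace Pool.Agent.P8H84.MX

open Finset

section
variable {N : ℕ} [NeZero N] {L : Type} [Group L] [Fintype L] [DecidableEq L]
  {Nd : Type} [Fintype Nd] [DecidableEq Nd]
variable {sc : Nd → ℕ} {ow : Nd → Nd} {J : ℕ} {b : ZMod N → ZMod 5} {Lc : ℕ}
variable {s : Fin 12 → L} {h : L} {r : Nd → L} {W T1 : ℕ}
variable {u g : ℕ → (Nd → ZMod N → ZMod 5) → L → ℝ}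

/-- on the good states of the confined phase of `p` the tokens of the scale of `p` are off -/
lemma G1_zero (hJ0 : 0 < J) (p : Nd) (t : ℕ) (ht : t ≤ sc p * T1) (hp : 0 < sc p)
    (ξ : Nd → ZMod N → ZMod 5) (hg : good sc J b Lc T1 t ξ) :
    G1 sc J (nv b Lc ξ) (sc p) = 0 := by
  unfold G1
  refine Finset.prod_eq_zero (i := sc p - 1) (Finset.mem_range.2 (by omega)) ?_
  have h1 : NN sc (nv b Lc ξ) (sc p - 1) ≤ 16 * J := by
    unfold NN
    refine Finset.sup_le fun q hq => ?_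
    have hq2 : sc q = sc p - 1 := (Finset.mem_filter.1 hq).2
    have h2 := hg q
    unfold thr at h2
    have h3 : t ≤ (sc q + 1) * T1 := by
      have : sc q + 1 = sc p := by omega
      rw [this]; exact ht
    split_ifs at h2 with h4
    · omega
    · omega
  unfold g1 cl
  have h2 : ((NN sc (nv b Lc ξ) (sc p - 1) : ℝ) - 16 * J) / (16 * J) ≤ 0 := by
    apply div_nonpos_of_nonpos_of_nonneg
    · have : (NN sc (nv b Lc ξ) (sc p - 1) : ℝ) ≤ 16 * J := by exact_mod_cast h1
      linarith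
    · positivity
  exact max_eq_left (le_trans (min_le_right _ _) h2)

/-- the drift at a given state -/
lemma drift_state (hP2 : S_P2) (hb : GoodCode N b) (hLN : 200 * Lc + 400 < N) (c C : ℝ)
    (hP3a : ∀ (n : Nd → ℕ) (p : Nd) (U Dn : Nd → ℝ),
      (∀ q, n q < Lc → U q = 4 * (2 * N - n q) ∧ Dn q = n q) →
      (∀ q, Lc ≤ n q → U q = 0 ∧ 0 ≤ Dn q ∧ Dn q ≤ 8 * N) →
      (∀ q, n q ≤ Lc) → n p < Lc → G1 sc J n (sc p) = 0 →
      gen sc ow J (fun n' => Phi sc ow J n' p) n U Dn ≤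
        8 * N * (- c * Phi sc ow J n p + C * 2 ^ J))
    (hE : Ev sc ow J b Lc s h r W T1 u g) (hJ0 : 0 < J) (p : Nd) (t : ℕ) (ht : t < sc p * T1)
    (ξ : Nd → ZMod N → ZMod 5) (hg : good sc J b Lc T1 t ξ) :
    ∑ l ∈ FF N h r, TF sc ow J b Lc h r (DD W) (fun ξ _ => Phi sc ow J (nv b Lc ξ) p) ξ l ≤
      20000000 / (DD W : ℝ) * (8 * N * (- c * Phi sc ow J (nv b Lc ξ) p + C * 2 ^ J)) := by
  have hD := DD_pos (W := W)
  have hsp : 0 < sc p := by
    rcases Nat.eq_zero_or_pos (sc p) with h0 | h0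
    · rw [h0, zero_mul] at ht; exact absurd ht (Nat.not_lt_zero _)
    · exact h0
  rw [sum_FF hE.inj]
  have h1 : ∀ q, ∃ Uq Dq : ℝ, (nv b Lc ξ q < Lc → Uq = 4 * (2 * N - nv b Lc ξ q) ∧
      Dq = nv b Lc ξ q) ∧ (Lc ≤ nv b Lc ξ q → Uq = 0 ∧ 0 ≤ Dq ∧ Dq ≤ 8 * N) ∧ _ :=
    fun q => block_sum (sc := sc) (ow := ow) (J := J) hP2 hb hLN (DD W)
      (fun n => Phi sc ow J n p) ξ q
  choose U Dn h2 h3 h4 using h1
  have h5 : ∑ q, ∑ k : ZMod N, TF sc ow J b Lc h r (DD W)
      (fun ξ _ => Phi sc ow J (nv b Lc ξ) p) ξ (h ^ k.val * r q) =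
      20000000 / (DD W : ℝ) * gen sc ow J (fun n' => Phi sc ow J n' p) (nv b Lc ξ) U Dn := by
    unfold gen
    rw [Finset.mul_sum]
    refine Finset.sum_congr rfl fun q _ => ?_
    rw [← h4 q]
    refine Finset.sum_congr rfl fun k _ => ?_
    rw [TF_on hE.inj]
  rw [h5]
  refine mul_le_mul_of_nonneg_left ?_ (by positivity)
  refine hP3a (nv b Lc ξ) p U Dn h2 h3 (fun q => (hP2 N b Lc hb hLN).2.1 _) ?_
    (G1_zero hJ0 p t ht.le hsp ξ hg)
  have h6 := hg p
  unfold thr at h6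
  rw [if_pos ht.le] at h6
  have := hE.hJ
  omega

/-- the confined phase: one step -/
theorem drift (hP1b : S_P1b) (hP2 : S_P2) (hP3b : S_P3b) (hb : GoodCode N b)
    (hLN : 200 * Lc + 400 < N) (c C : ℝ)
    (hP3a : ∀ (n : Nd → ℕ) (p : Nd) (U Dn : Nd → ℝ),
      (∀ q, n q < Lc → U q = 4 * (2 * N - n q) ∧ Dn q = n q) →
      (∀ q, Lc ≤ n q → U q = 0 ∧ 0 ≤ Dn q ∧ Dn q ≤ 8 * N) →
      (∀ q, n q ≤ Lc) → n p < Lc → G1 sc J n (sc p) = 0 →
      gen sc ow J (fun n' => Phi sc ow J n' p) n U Dn ≤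
        8 * N * (- c * Phi sc ow J n p + C * 2 ^ J))
    (hC : 0 ≤ C)
    (hE : Ev sc ow J b Lc s h r W T1 u g) (M : ℕ) (hT : Tree M sc ow) (hJ0 : 0 < J)
    (hR : 8 * (M + 1) * Fintype.card Nd ≤ J)
    (Dk : ℕ → ℝ) (CG : ℝ) (hD0 : ∀ k, 0 ≤ Dk k)
    (hDk : ∀ k, ∀ l ∈ FF N h r, ∑ l' ∈ FF N h r,
      |pk s ((W : ℝ) / DD W) k l l' - 1 / (Fintype.card L : ℝ)| ≤ Dk k)
    (hCG : ∀ K : ℕ, ∑ k ∈ range K, Dk k ≤ CG) (p : Nd) (t : ℕ) (ht : t < sc p * T1) (Y : ℝ)
    (hY : ∀ t' ≤ t, ∑ ξ, 2 ^ nv b Lc ξ p * avg (u t' ξ) ≤ Y)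
    (hq : 20000000 / (DD W : ℝ) * (30 + (M + 1) * (2 / J)) * CG ≤ 1 / 2)
    (hqc : 20000000 / (DD W : ℝ) * (30 + (M + 1) * (2 / J)) * CG ≤ c / 130) :
    ∑ ξ, Phi sc ow J (nv b Lc ξ) p * avg (u (t + 1) ξ) ≤
      ∑ ξ, Phi sc ow J (nv b Lc ξ) p * avg (u t ξ) +
      8 * (20000000 / (DD W : ℝ)) * N / Fintype.card L *
        (- c * ∑ ξ, Phi sc ow J (nv b Lc ξ) p * avg (u t ξ) + C * 2 ^ J + c / 4 * Y) := by
  have hD := DD_pos (W := W)
  have hL := card_L_pos (L := L)
  have hY0 : 0 ≤ Y := le_trans (Finset.sum_nonneg fun ξ _ => mul_nonneg (by positivity)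
    (avg_nonneg _ (hE.nonneg t ξ))) (hY t le_rfl)
  set q0 := 20000000 / (DD W : ℝ) * (30 + (M + 1) * (2 / J)) * CG with hq0
  obtain ⟨z, z1, z2, z3⟩ := osc hP1b hP3b hE M hT hJ0 Dk CG hD0 hDk hCG p t Y hY hq t le_rfl
  set Z := ∑ i, z i with hZ
  have hZ0 : 0 ≤ Z := Finset.sum_nonneg fun i _ => z1 i
  -- the bound for the potential
  have hP := fun (n n' : Nd → ℕ) (q : Nd) => hP3b M J hJ0 Nd sc ow hT n n' p q
  have hPhi0 : ∀ ξ, 0 ≤ Phi sc ow J (nv b Lc ξ) p := fun ξ =>
    le_trans (by positivity) (hP (nv b Lc ξ) (nv b Lc ξ) p (fun _ _ => rfl)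
      (Nat.le_succ _) (Nat.le_succ _)).2.2.2.1
  have h1 := evol hE (fun ξ => Phi sc ow J (nv b Lc ξ) p) hPhi0 t
  refine le_trans h1 (add_le_add le_rfl ?_)
  rw [div_le_iff₀ hL]
  have hr : 8 * (20000000 / (DD W : ℝ)) * N / Fintype.card L *
        (- c * ∑ ξ, Phi sc ow J (nv b Lc ξ) p * avg (u t ξ) + C * 2 ^ J + c / 4 * Y) *
        Fintype.card L = 8 * (20000000 / (DD W : ℝ)) * N *
        (- c * ∑ ξ, Phi sc ow J (nv b Lc ξ) p * avg (u t ξ) + C * 2 ^ J + c / 4 * Y) := by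
    field_simp
  rw [hr]
  have hsplit : ∑ l ∈ FF N h r, ∑ ξ, u t ξ l *
      TF sc ow J b Lc h r (DD W) (fun ξ _ => Phi sc ow J (nv b Lc ξ) p) ξ l =
      ∑ ξ, avg (u t ξ) * ∑ l ∈ FF N h r,
        TF sc ow J b Lc h r (DD W) (fun ξ _ => Phi sc ow J (nv b Lc ξ) p) ξ l +
      ∑ l ∈ FF N h r, ∑ ξ, (u t ξ l - avg (u t ξ)) *
        TF sc ow J b Lc h r (DD W) (fun ξ _ => Phi sc ow J (nv b Lc ξ) p) ξ l := by
    simp only [Finset.mul_sum]
    rw [Finset.sum_comm (s := univ) (t := FF N h r), ← Finset.sum_add_distrib]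
    refine Finset.sum_congr rfl fun l _ => ?_
    rw [← Finset.sum_add_distrib]
    refine Finset.sum_congr rfl fun ξ _ => ?_
    ring
  rw [hsplit]
  have hfirst : ∑ ξ, avg (u t ξ) * ∑ l ∈ FF N h r,
        TF sc ow J b Lc h r (DD W) (fun ξ _ => Phi sc ow J (nv b Lc ξ) p) ξ l ≤
      8 * (20000000 / (DD W : ℝ)) * N *
        (- c * ∑ ξ, Phi sc ow J (nv b Lc ξ) p * avg (u t ξ) + C * 2 ^ J) := by
    have h2 : ∀ ξ, avg (u t ξ) * ∑ l ∈ FF N h r,
        TF sc ow J b Lc h r (DD W) (fun ξ _ => Phi sc ow J (nv b Lc ξ) p) ξ l ≤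
        avg (u t ξ) * (20000000 / (DD W : ℝ) *
          (8 * N * (- c * Phi sc ow J (nv b Lc ξ) p + C * 2 ^ J))) := by
      intro ξ
      by_cases hg : good sc J b Lc T1 t ξ
      · exact mul_le_mul_of_nonneg_left
          (drift_state hP2 hb hLN c C hP3a hE hJ0 p t ht ξ hg) (avg_nonneg _ (hE.nonneg t ξ))
      · have : avg (u t ξ) = 0 := by
          unfold avg
          rw [Finset.sum_eq_zero fun l _ => hE.supp t ξ l hg, zero_div]
        rw [this, zero_mul, zero_mul]
    refine le_trans (Finset.sum_le_sum fun ξ _ => h2 ξ) ?_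
    have h3 : ∑ ξ, avg (u t ξ) * (20000000 / (DD W : ℝ) *
          (8 * N * (- c * Phi sc ow J (nv b Lc ξ) p + C * 2 ^ J))) =
        8 * (20000000 / (DD W : ℝ)) * N * (- c * ∑ ξ, Phi sc ow J (nv b Lc ξ) p * avg (u t ξ) +
          C * 2 ^ J * ∑ ξ, avg (u t ξ)) := by
      rw [Finset.mul_sum, Finset.mul_sum, ← Finset.sum_add_distrib, Finset.mul_sum]
      refine Finset.sum_congr rfl fun ξ _ => ?_
      ring
    rw [h3]
    refine mul_le_mul_of_nonneg_left ?_ (by positivity)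
    have h4 := mass_le hE t
    have h5 : C * 2 ^ J * ∑ ξ, avg (u t ξ) ≤ C * 2 ^ J * 1 :=
      mul_le_mul_of_nonneg_left h4 (by positivity)
    linarith
  have hsecond : ∑ l ∈ FF N h r, ∑ ξ, (u t ξ l - avg (u t ξ)) *
        TF sc ow J b Lc h r (DD W) (fun ξ _ => Phi sc ow J (nv b Lc ξ) p) ξ l ≤
      130 * (20000000 / (DD W : ℝ)) * N * Z := by
    rw [sum_FF hE.inj]
    -- the bound at one position
    have hpos : ∀ (q : Nd) (k : ZMod N), ∑ ξ, (u t ξ (h ^ k.val * r q) - avg (u t ξ)) *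
        TF sc ow J b Lc h r (DD W) (fun ξ _ => Phi sc ow J (nv b Lc ξ) p) ξ (h ^ k.val * r q) ≤
        10 * (20000000 / (DD W : ℝ)) * ((if q = p then 8 else 0) * Z + (if ow q = p then
          ∑ i : Fin (M + 1), (if sc q = i ∧ (i : ℕ) < M then z i else 0) else 0) +
          8 * (M + 1) / J * Z) := by
      intro q k
      set l := h ^ k.val * r q with hl
      have hlF : l ∈ FF N h r := (mem_FF l).2 ⟨q, k, rfl⟩
      have h2 : ∀ ξ, |TF sc ow J b Lc h r (DD W) (fun ξ _ => Phi sc ow J (nv b Lc ξ) p) ξ l| ≤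
          10 * (20000000 / (DD W : ℝ)) * (2 ^ nv b Lc ξ p * ((if q = p then 8 else 0)
          + (if ow q = p then ∑ i ∈ range M, (if sc q = i then
            sh sc J M (nv b Lc ξ) p i else 0) else 0) + 8 * (M + 1) / J)) := by
        intro ξ
        refine TF_abs hE.inj hE.wt _ ξ q k _ fun e => ?_
        obtain ⟨n1, n2, n3⟩ := nv_nbr hE ξ q (e.1, k, e.2)
        exact (hP (nv b Lc ξ) (nv b Lc (tgl b ξ q (e.1, k, e.2))) q n1 n2 n3).2.2.2.2.2.2
      have h3 : ∑ ξ, (u t ξ l - avg (u t ξ)) *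
        TF sc ow J b Lc h r (DD W) (fun ξ _ => Phi sc ow J (nv b Lc ξ) p) ξ l ≤
        ∑ ξ, |u t ξ l - avg (u t ξ)| * (10 * (20000000 / (DD W : ℝ)) *
          (2 ^ nv b Lc ξ p * ((if q = p then 8 else 0)
          + (if ow q = p then ∑ i ∈ range M, (if sc q = i then
            sh sc J M (nv b Lc ξ) p i else 0) else 0) + 8 * (M + 1) / J))) := by
        refine Finset.sum_le_sum fun ξ _ => ?_
        refine le_trans (le_abs_self _) ?_
        rw [abs_mul]
        exact mul_le_mul_of_nonneg_left (h2 ξ) (abs_nonneg _)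
      refine le_trans h3 ?_
      have hZ2 : ∑ ξ, |u t ξ l - avg (u t ξ)| * 2 ^ nv b Lc ξ p ≤ Z := by
        have h4 : ∑ ξ, |u t ξ l - avg (u t ξ)| * 2 ^ nv b Lc ξ p =
            ∑ i, ∑ ξ, ff sc J b Lc M p i ξ * |u t ξ l - avg (u t ξ)| := by
          rw [Finset.sum_comm]
          refine Finset.sum_congr rfl fun ξ _ => ?_
          rw [← Finset.sum_mul, ff_sum hP3b M hT hJ0]
          ring
        rw [h4]
        exact Finset.sum_le_sum fun i _ => z2 i l hlF
      have hZ3 : ∑ ξ, |u t ξ l - avg (u t ξ)| * (2 ^ nv b Lc ξ p *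
          (if ow q = p then ∑ i ∈ range M, (if sc q = i then
            sh sc J M (nv b Lc ξ) p i else 0) else 0)) ≤
          (if ow q = p then
          ∑ i : Fin (M + 1), (if sc q = i ∧ (i : ℕ) < M then z i else 0) else 0) := by
        by_cases how : ow q = p
        · simp only [if_pos how]
          have h4 : ∀ ξ : Nd → ZMod N → ZMod 5, ∑ i ∈ range M, (if sc q = i then
              sh sc J M (nv b Lc ξ) p i else 0) =
              ∑ i : Fin (M + 1), (if sc q = i ∧ (i : ℕ) < M then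
                sh sc J M (nv b Lc ξ) p i else 0) := by
            intro ξ
            rw [← Finset.sum_range (fun i => if sc q = i ∧ i < M then
              sh sc J M (nv b Lc ξ) p i else 0), Finset.sum_range_succ]
            rw [if_neg (fun h5 : sc q = M ∧ M < M => lt_irrefl _ h5.2), add_zero]
            refine Finset.sum_congr rfl fun i hi => ?_
            have := Finset.mem_range.1 hi
            by_cases h5 : sc q = i
            · rw [if_pos h5, if_pos ⟨h5, this⟩]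
            · rw [if_neg h5, if_neg fun h6 => h5 h6.1]
          simp only [h4]
          have h5 : ∑ ξ, |u t ξ l - avg (u t ξ)| * (2 ^ nv b Lc ξ p *
              ∑ i : Fin (M + 1), (if sc q = i ∧ (i : ℕ) < M then
                sh sc J M (nv b Lc ξ) p i else 0)) =
              ∑ i : Fin (M + 1), (if sc q = i ∧ (i : ℕ) < M then
                ∑ ξ, ff sc J b Lc M p i ξ * |u t ξ l - avg (u t ξ)| else 0) := by
            simp only [Finset.mul_sum]
            rw [Finset.sum_comm]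
            refine Finset.sum_congr rfl fun i _ => ?_
            by_cases h6 : sc q = i ∧ (i : ℕ) < M
            · simp only [if_pos h6]
              refine Finset.sum_congr rfl fun ξ _ => ?_
              unfold ff; ring
            · simp only [if_neg h6, mul_zero, Finset.sum_const_zero]
          rw [h5]
          refine Finset.sum_le_sum fun i _ => ?_
          split_ifs
          · exact z2 i l hlF
          · exact le_rfl
        · simp only [if_neg how, mul_zero, Finset.sum_const_zero]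
          exact le_rfl
      have h4 : ∑ ξ, |u t ξ l - avg (u t ξ)| * (10 * (20000000 / (DD W : ℝ)) *
          (2 ^ nv b Lc ξ p * ((if q = p then 8 else 0)
          + (if ow q = p then ∑ i ∈ range M, (if sc q = i then
            sh sc J M (nv b Lc ξ) p i else 0) else 0) + 8 * (M + 1) / J))) =
          10 * (20000000 / (DD W : ℝ)) * ((if q = p then 8 else 0) *
            ∑ ξ, |u t ξ l - avg (u t ξ)| * 2 ^ nv b Lc ξ p +
          ∑ ξ, |u t ξ l - avg (u t ξ)| * (2 ^ nv b Lc ξ p *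
          (if ow q = p then ∑ i ∈ range M, (if sc q = i then
            sh sc J M (nv b Lc ξ) p i else 0) else 0)) +
          8 * (M + 1) / J * ∑ ξ, |u t ξ l - avg (u t ξ)| * 2 ^ nv b Lc ξ p) := by
        rw [Finset.mul_sum, Finset.mul_sum, ← Finset.sum_add_distrib, ← Finset.sum_add_distrib,
          Finset.mul_sum]
        refine Finset.sum_congr rfl fun ξ _ => ?_
        ring
      rw [h4]
      refine mul_le_mul_of_nonneg_left ?_ (by positivity)
      refine add_le_add (add_le_add ?_ hZ3) ?_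
      · refine mul_le_mul_of_nonneg_left hZ2 ?_
        split_ifs <;> norm_num
      · exact mul_le_mul_of_nonneg_left hZ2 (by positivity)
    refine le_trans (Finset.sum_le_sum fun q _ => Finset.sum_le_sum fun k _ => hpos q k) ?_
    simp only [Finset.sum_const, Finset.card_univ, ZMod.card, nsmul_eq_mul]
    rw [← Finset.mul_sum]
    rw [← Finset.mul_sum, Finset.sum_add_distrib, Finset.sum_add_distrib]
    have h5 : ∑ q, (if q = p then (8:ℝ) else 0) * Z = 8 * Z := by
      rw [← Finset.sum_mul]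
      congr 1
      simp
    have h6 : ∑ q, (if ow q = p then
          ∑ i : Fin (M + 1), (if sc q = i ∧ (i : ℕ) < M then z i else 0) else 0) ≤ 4 * Z := by
      have h7 : ∑ q, (if ow q = p then
          ∑ i : Fin (M + 1), (if sc q = i ∧ (i : ℕ) < M then z i else 0) else 0) =
          ∑ i : Fin (M + 1), ∑ q, (if ow q = p ∧ sc q = i ∧ (i : ℕ) < M then z i else 0) := by
        rw [Finset.sum_comm]
        refine Finset.sum_congr rfl fun q _ => ?_
        by_cases how : ow q = p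
        · rw [if_pos how]
          refine Finset.sum_congr rfl fun i _ => ?_
          by_cases h8 : sc q = i ∧ (i : ℕ) < M
          · rw [if_pos h8, if_pos ⟨how, h8⟩]
          · rw [if_neg h8, if_neg fun h9 => h8 h9.2]
        · rw [if_neg how]
          symm
          refine Finset.sum_eq_zero fun i _ => ?_
          rw [if_neg fun h9 => how h9.1]
      rw [h7, hZ, Finset.mul_sum]
      refine Finset.sum_le_sum fun i _ => ?_
      rw [← Finset.sum_filter, Finset.sum_const, nsmul_eq_mul]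
      refine mul_le_mul_of_nonneg_right ?_ (z1 i)
      have h8 : (univ.filter fun q => ow q = p ∧ sc q = i ∧ (i : ℕ) < M).card ≤ 4 := by
        by_cases h9 : (i : ℕ) < sc p
        · rw [← hT.four p i h9]
          refine Finset.card_le_card fun q hq => ?_
          rw [Finset.mem_filter] at hq ⊢
          exact ⟨hq.1, hq.2.1, hq.2.2.1⟩
        · have : (univ.filter fun q => ow q = p ∧ sc q = i ∧ (i : ℕ) < M) = ∅ := by
            rw [Finset.filter_eq_empty_iff]
            rintro q _ ⟨h10, h11, h12⟩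
            have := hT.lt q (by rw [h11]; exact h12)
            rw [h10, h11] at this
            exact h9 this
          rw [this]
          simp
      exact_mod_cast h8
    have h7 : ∑ q : Nd, 8 * ((M:ℝ) + 1) / J * Z ≤ 1 * Z := by
      rw [Finset.sum_const, Finset.card_univ, nsmul_eq_mul, ← mul_assoc]
      refine mul_le_mul_of_nonneg_right ?_ hZ0
      rw [← mul_div_assoc, div_le_one (by positivity)]
      have : (8 * ((M:ℝ) + 1) * Fintype.card Nd) ≤ J := by exact_mod_cast hR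
      linarith
    have h8 : (N : ℝ) * (10 * (20000000 / (DD W : ℝ)) * (∑ q, (if q = p then (8:ℝ) else 0) * Z +
        ∑ q, (if ow q = p then
          ∑ i : Fin (M + 1), (if sc q = i ∧ (i : ℕ) < M then z i else 0) else 0) +
        ∑ q : Nd, 8 * ((M:ℝ) + 1) / J * Z)) ≤
        N * (10 * (20000000 / (DD W : ℝ)) * (8 * Z + 4 * Z + 1 * Z)) := by
      refine mul_le_mul_of_nonneg_left (mul_le_mul_of_nonneg_left ?_ (by positivity))
        (by positivity)
      rw [h5]
      linarith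
    refine le_trans h8 (le_of_eq ?_)
    ring
  have hZc : 130 * Z ≤ 2 * c * Y := by
    have h2 : 2 * q0 * Y ≤ 2 * (c / 130) * Y := by
      refine mul_le_mul_of_nonneg_right ?_ hY0
      linarith
    linarith
  have h3 : 130 * (20000000 / (DD W : ℝ)) * N * Z ≤
      8 * (20000000 / (DD W : ℝ)) * N * (c / 4 * Y) := by
    have h4 : 130 * (20000000 / (DD W : ℝ)) * N * Z = (20000000 / (DD W : ℝ)) * N * (130 * Z) := by
      ring
    have h5 : 8 * (20000000 / (DD W : ℝ)) * N * (c / 4 * Y) =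
      (20000000 / (DD W : ℝ)) * N * (2 * c * Y) := by ring
    rw [h4, h5]
    exact mul_le_mul_of_nonneg_left hZc (by positivity)
  have h4 : 8 * (20000000 / (DD W : ℝ)) * N *
        (- c * ∑ ξ, Phi sc ow J (nv b Lc ξ) p * avg (u t ξ) + C * 2 ^ J + c / 4 * Y) =
        8 * (20000000 / (DD W : ℝ)) * N *
        (- c * ∑ ξ, Phi sc ow J (nv b Lc ξ) p * avg (u t ξ) + C * 2 ^ J) +
        8 * (20000000 / (DD W : ℝ)) * N * (c / 4 * Y) := by ring
  rw [h4]
  linarith

end

end Pool.Agent.P8H84.MX
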