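import Pool.Agent.P8H84.MX.P4f

/-!
# Project MX, part P4g: the induction over the time
-/

set_option autoImplicit false
set_option linter.unusedSectionVars false

namespace Pool.Agent.P8H84.MX

open Finset

section
variable {N : ℕ} [NeZero N] {L : Type} [Group L] [Fintype L] [DecidableEq L]
  {Nd : Type} [Fintype Nd] [DecidableEq Nd]

/-- the hypotheses of the induction -/
structure Hy (sc : Nd → ℕ) (ow : Nd → Nd) (J : ℕ) (b : ZMod N → ZMod 5) (Lc : ℕ)
    (s : Fin 12 → L) (h : L) (r : Nd → L) (W T1 M : ℕ)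
    (u g : ℕ → (Nd → ZMod N → ZMod 5) → L → ℝ) (Dk : ℕ → ℝ) (CG c C : ℝ) : Prop where
  p1b : S_P1b
  p2 : S_P2
  p3b : S_P3b
  hb : GoodCode N b
  hLN : 200 * Lc + 400 < N
  p3a : ∀ (n : Nd → ℕ) (p : Nd) (U Dn : Nd → ℝ),
      (∀ q, n q < Lc → U q = 4 * (2 * N - n q) ∧ Dn q = n q) →
      (∀ q, Lc ≤ n q → U q = 0 ∧ 0 ≤ Dn q ∧ Dn q ≤ 8 * N) →
      (∀ q, n q ≤ Lc) → n p < Lc → G1 sc J n (sc p) = 0 →
      gen sc ow J (fun n' => Phi sc ow J n' p) n U Dn ≤
        8 * N * (- c * Phi sc ow J n p + C * 2 ^ J)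
  c0 : 0 < c
  c1 : c ≤ 1
  C0 : 0 < C
  hE : Ev sc ow J b Lc s h r W T1 u g
  hT : Tree M sc ow
  hJ0 : 0 < J
  hR : 8 * (M + 1) * Fintype.card Nd ≤ J
  D0 : ∀ k, 0 ≤ Dk k
  D1 : ∀ k, ∀ l ∈ FF N h r, ∑ l' ∈ FF N h r,
      |pk s ((W : ℝ) / DD W) k l l' - 1 / (Fintype.card L : ℝ)| ≤ Dk k
  D2 : ∀ K : ℕ, ∑ k ∈ range K, Dk k ≤ CG
  hq : 20000000 / (DD W : ℝ) * (30 + (M + 1) * (2 / J)) * CG ≤ 1 / 2
  hqc : 20000000 / (DD W : ℝ) * (30 + (M + 1) * (2 / J)) * CG ≤ c / 130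
  hNL : N ≤ Fintype.card L
  hT1 : 5 * (20000000 / (DD W : ℝ)) * N * T1 ≤ J * Fintype.card L

variable {sc : Nd → ℕ} {ow : Nd → Nd} {J : ℕ} {b : ZMod N → ZMod 5} {Lc : ℕ}
variable {s : Fin 12 → L} {h : L} {r : Nd → L} {W T1 M : ℕ}
variable {u g : ℕ → (Nd → ZMod N → ZMod 5) → L → ℝ} {Dk : ℕ → ℝ} {CG c C : ℝ}

/-- the integral of `2 ^ (level)` -/
noncomputable def ps (b : ZMod N → ZMod 5) (Lc : ℕ) (u : ℕ → (Nd → ZMod N → ZMod 5) → L → ℝ)
    (p : Nd) (t : ℕ) : ℝ := ∑ ξ, 2 ^ nv b Lc ξ p * avg (u t ξ)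

lemma Phi_ps (hH : Hy sc ow J b Lc s h r W T1 M u g Dk CG c C) (p : Nd) (t : ℕ) :
    ps b Lc u p t ≤ ∑ ξ, Phi sc ow J (nv b Lc ξ) p * avg (u t ξ) := by
  unfold ps
  refine Finset.sum_le_sum fun ξ _ => mul_le_mul_of_nonneg_right ?_
    (avg_nonneg _ (hH.hE.nonneg t ξ))
  exact (hH.p3b M J hH.hJ0 Nd sc ow hH.hT (nv b Lc ξ) (nv b Lc ξ) p p (fun _ _ => rfl)
      (Nat.le_succ _) (Nat.le_succ _)).2.2.2.1

lemma avg_zero (hE : Ev sc ow J b Lc s h r W T1 u g) (ξ : Nd → ZMod N → ZMod 5) :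
    avg (u 0 ξ) = if ξ = 0 then 1 else 0 := by
  have : u 0 ξ = fun _ => if ξ = 0 then 1 else 0 := by funext l; exact hE.zero ξ l
  rw [this]
  unfold avg
  rw [Finset.sum_const, Finset.card_univ, nsmul_eq_mul]
  have := card_L_pos (L := L)
  field_simp

lemma Phi_init (hH : Hy sc ow J b Lc s h r W T1 M u g Dk CG c C) (p : Nd) :
    ∑ ξ, Phi sc ow J (nv b Lc ξ) p * avg (u 0 ξ) ≤ 2 := by
  simp only [avg_zero hH.hE]
  simp only [mul_ite, mul_one, mul_zero, Finset.sum_ite_eq', Finset.mem_univ, if_true]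
  have h1 := (hH.p3b M J hH.hJ0 Nd sc ow hH.hT (nv b Lc (0 : Nd → ZMod N → ZMod 5))
    (nv b Lc (0 : Nd → ZMod N → ZMod 5)) p p (fun _ _ => rfl)
      (Nat.le_succ _) (Nat.le_succ _)).2.2.2.2.1
  have h2 : nv b Lc (0 : Nd → ZMod N → ZMod 5) p = 0 := (hH.p2 N b Lc hH.hb hH.hLN).1
  rw [h2] at h1
  simpa using h1

/-- the confined phase -/
theorem confined (hH : Hy sc ow J b Lc s h r W T1 M u g Dk CG c C) (p : Nd) (t : ℕ) :
    t ≤ sc p * T1 →
    ∑ ξ, Phi sc ow J (nv b Lc ξ) p * avg (u t ξ) ≤ (2 * C / c + 2) * 2 ^ J := by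
  have hc := hH.c0
  have hC := hH.C0
  have hD := DD_pos (W := W)
  have hL := card_L_pos (L := L)
  have h2J : (1:ℝ) ≤ 2 ^ J := one_le_pow₀ (by norm_num)
  induction t using Nat.strong_induction_on with
  | _ t ih =>
    intro ht
    cases t with
    | zero =>
      refine le_trans (Phi_init hH p) ?_
      have h1 : 0 ≤ 2 * C / c := by positivity
      nlinarith
    | succ t =>
      have h1 := drift hH.p1b hH.p2 hH.p3b hH.hb hH.hLN c C hH.p3a hC.le hH.hE M hH.hT hH.hJ0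
        hH.hR Dk CG hH.D0 hH.D1 hH.D2 p t (by omega) ((2 * C / c + 2) * 2 ^ J)
        (fun t' ht' => le_trans (Phi_ps hH p t') (ih t' (by omega) (by omega))) hH.hq hH.hqc
      have h2 := ih t (by omega) (by omega)
      set y := ∑ ξ, Phi sc ow J (nv b Lc ξ) p * avg (u t ξ) with hy
      set a := 8 * (20000000 / (DD W : ℝ)) * N / Fintype.card L with ha
      have ha0 : 0 ≤ a := by positivity
      have ha1 : a ≤ 1 := by
        have h3 : (20000000 / (DD W : ℝ)) ≤ 1 / 8 := by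
          rw [div_le_div_iff₀ hD (by norm_num)]
          unfold DD
          push_cast
          have : (0:ℝ) ≤ W := Nat.cast_nonneg _
          linarith
        have h4 : (N:ℝ) / Fintype.card L ≤ 1 := by
          rw [div_le_one hL]
          exact_mod_cast hH.hNL
        have h5 : a = (8 * (20000000 / (DD W : ℝ))) * (N / Fintype.card L) := by
          rw [ha]; ring
        rw [h5]
        have h6 : (8 * (20000000 / (DD W : ℝ))) ≤ 1 := by linarith
        have h7 : 0 ≤ (N:ℝ) / Fintype.card L := by positivity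
        exact mul_le_one₀ h6 h7 h4
      refine le_trans h1 ?_
      set Y := (2 * C / c + 2) * 2 ^ J with hY
      have hcY : c * Y = (2 * C + 2 * c) * 2 ^ J := by
        rw [hY]; field_simp
      have hac : a * c ≤ 1 := mul_le_one₀ ha1 hc.le hH.c1
      have h3 : (1 - a * c) * y ≤ (1 - a * c) * Y := mul_le_mul_of_nonneg_left h2 (by linarith)
      have h4 : C * 2 ^ J + c / 4 * Y ≤ c * Y := by
        have h5 : c / 4 * Y = c * Y / 4 := by ring
        rw [h5]
        have h6 : 0 ≤ C * 2 ^ J := by positivity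
        have h7 : 0 ≤ c * 2 ^ J := by positivity
        linarith
      have h5 := mul_le_mul_of_nonneg_left h4 ha0
      have h6 : y + a * (- c * y + C * 2 ^ J + c / 4 * Y) =
        (1 - a * c) * y + a * (C * 2 ^ J + c / 4 * Y) := by ring
      rw [h6]
      have h7 : (1 - a * c) * Y + a * (c * Y) = Y := by ring
      linarith

/-- the density at a position of the blocks -/
lemma sum_at (hH : Hy sc ow J b Lc s h r W T1 M u g Dk CG c C) (p : Nd) (t : ℕ) (Y : ℝ)
    (hY : ∀ t' ≤ t, ps b Lc u p t' ≤ Y) (l : L) (hl : l ∈ FF N h r) :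
    ∑ ξ, 2 ^ nv b Lc ξ p * u t ξ l ≤ 2 * Y := by
  have hY0 : 0 ≤ Y := le_trans (Finset.sum_nonneg fun ξ _ => mul_nonneg (by positivity)
    (avg_nonneg _ (hH.hE.nonneg t ξ))) (hY t le_rfl)
  obtain ⟨z, z1, z2, z3⟩ := osc hH.p1b hH.p3b hH.hE M hH.hT hH.hJ0 Dk CG hH.D0 hH.D1 hH.D2 p t Y
    hY hH.hq t le_rfl
  have h1 : ∑ ξ, 2 ^ nv b Lc ξ p * |u t ξ l - avg (u t ξ)| ≤ ∑ i, z i := by
    have h4 : ∑ ξ, 2 ^ nv b Lc ξ p * |u t ξ l - avg (u t ξ)| =
        ∑ i, ∑ ξ, ff sc J b Lc M p i ξ * |u t ξ l - avg (u t ξ)| := by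
      rw [Finset.sum_comm]
      refine Finset.sum_congr rfl fun ξ _ => ?_
      rw [← Finset.sum_mul, ff_sum hH.p3b M hH.hT hH.hJ0]
    rw [h4]
    exact Finset.sum_le_sum fun i _ => z2 i l hl
  have h2 : ∑ ξ, 2 ^ nv b Lc ξ p * u t ξ l ≤ ps b Lc u p t +
      ∑ ξ, 2 ^ nv b Lc ξ p * |u t ξ l - avg (u t ξ)| := by
    unfold ps
    rw [← Finset.sum_add_distrib]
    refine Finset.sum_le_sum fun ξ _ => ?_
    rw [← mul_add]
    refine mul_le_mul_of_nonneg_left ?_ (by positivity)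
    have := le_abs_self (u t ξ l - avg (u t ξ))
    linarith
  have h3 := hY t le_rfl
  have h4 : 2 * (20000000 / (DD W : ℝ) * (30 + (M + 1) * (2 / J)) * CG) * Y ≤ 1 * Y := by
    refine mul_le_mul_of_nonneg_right ?_ hY0
    have := hH.hq
    linarith
  linarith

/-- a step of the crude phase -/
lemma crude_step (hH : Hy sc ow J b Lc s h r W T1 M u g Dk CG c C) (p : Nd) (t : ℕ) (Y : ℝ)
    (hY : ∀ t' ≤ t, ps b Lc u p t' ≤ Y) :
    ps b Lc u p (t + 1) ≤ Y * (1 + 20 * (20000000 / (DD W : ℝ)) * N / Fintype.card L) := by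
  have hD := DD_pos (W := W)
  have hL := card_L_pos (L := L)
  have h1 := evol hH.hE (fun ξ => 2 ^ nv b Lc ξ p) (fun ξ => by positivity) t
  have h2 : ∑ l ∈ FF N h r, ∑ ξ, u t ξ l *
      TF sc ow J b Lc h r (DD W) (fun ξ _ => 2 ^ nv b Lc ξ p) ξ l ≤
      10 * (20000000 / (DD W : ℝ)) * N * (2 * Y) := by
    rw [sum_FF hH.hE.inj]
    have h3 : ∀ (q : Nd) (k : ZMod N), ∑ ξ, u t ξ (h ^ k.val * r q) *
      TF sc ow J b Lc h r (DD W) (fun ξ _ => 2 ^ nv b Lc ξ p) ξ (h ^ k.val * r q) ≤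
        if q = p then 10 * (20000000 / (DD W : ℝ)) * (2 * Y) else 0 := by
      intro q k
      by_cases hq : q = p
      · subst hq
        rw [if_pos rfl]
        have h4 : ∀ ξ, u t ξ (h ^ k.val * r q) *
            TF sc ow J b Lc h r (DD W) (fun ξ _ => 2 ^ nv b Lc ξ q) ξ (h ^ k.val * r q) ≤
            10 * (20000000 / (DD W : ℝ)) * (2 ^ nv b Lc ξ q * u t ξ (h ^ k.val * r q)) := by
          intro ξ
          have h5 := TF_abs (W := W) (b := b) (Lc := Lc) hH.hE.inj hH.hE.wt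
            (fun ξ _ => (2:ℝ) ^ nv b Lc ξ q) ξ q k
            (2 ^ nv b Lc ξ q) (fun e => by
              have h6 := pow_nbr hH.hE ξ q q (e.1, k, e.2)
              have h7 : (0:ℝ) < 2 ^ nv b Lc (tgl b ξ q (e.1, k, e.2)) q := by positivity
              rw [abs_le]
              constructor <;> linarith)
          have h6 := le_trans (le_abs_self _) h5
          have h7 := mul_le_mul_of_nonneg_left h6 (hH.hE.nonneg t ξ (h ^ k.val * r q))
          linarith
        refine le_trans (Finset.sum_le_sum fun ξ _ => h4 ξ) ?_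
        rw [← Finset.mul_sum]
        refine mul_le_mul_of_nonneg_left ?_ (by positivity)
        exact sum_at hH q t Y hY _ ((mem_FF _).2 ⟨q, k, rfl⟩)
      · rw [if_neg hq]
        refine le_of_eq (Finset.sum_eq_zero fun ξ _ => ?_)
        rw [TF_on hH.hE.inj, Finset.sum_eq_zero, mul_zero]
        intro e _
        rw [nv_tgl_ne ξ q p _ (Ne.symm hq), sub_self, mul_zero]
    refine le_trans (Finset.sum_le_sum fun q _ => Finset.sum_le_sum fun k _ => h3 q k) ?_
    simp only [Finset.sum_const, Finset.card_univ, ZMod.card, nsmul_eq_mul]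
    rw [← Finset.mul_sum]
    simp only [Finset.sum_ite_eq', Finset.mem_univ, if_true]
    exact le_of_eq (by ring)
  have h3 := hY t le_rfl
  unfold ps at h3 ⊢
  refine le_trans h1 ?_
  have h4 : (∑ l ∈ FF N h r, ∑ ξ, u t ξ l *
      TF sc ow J b Lc h r (DD W) (fun ξ _ => 2 ^ nv b Lc ξ p) ξ l) / Fintype.card L ≤
      10 * (20000000 / (DD W : ℝ)) * N * (2 * Y) / Fintype.card L :=
    div_le_div_of_nonneg_right h2 hL.le
  have h5 : Y * (1 + 20 * (20000000 / (DD W : ℝ)) * N / Fintype.card L) =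
    Y + 10 * (20000000 / (DD W : ℝ)) * N * (2 * Y) / Fintype.card L := by ring
  rw [h5]
  linarith

/-- the crude phase -/
theorem crude (hH : Hy sc ow J b Lc s h r W T1 M u g Dk CG c C) (p : Nd) (t : ℕ) :
    t ≤ (sc p + 1) * T1 → ps b Lc u p t ≤ (2 * C / c + 2) * 2 ^ J *
      (1 + 20 * (20000000 / (DD W : ℝ)) * N / Fintype.card L) ^ (t - sc p * T1) := by
  have hD := DD_pos (W := W)
  have hL := card_L_pos (L := L)
  have hc := hH.c0
  have hC := hH.C0
  have hb1 : 1 ≤ 1 + 20 * (20000000 / (DD W : ℝ)) * N / Fintype.card L := by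
    have : 0 ≤ 20 * (20000000 / (DD W : ℝ)) * N / Fintype.card L := by positivity
    linarith
  induction t using Nat.strong_induction_on with
  | _ t ih =>
    intro ht
    by_cases h1 : t ≤ sc p * T1
    · have h2 : t - sc p * T1 = 0 := by omega
      rw [h2, pow_zero, mul_one]
      exact le_trans (Phi_ps hH p t) (confined hH p t h1)
    · obtain ⟨t, rfl⟩ : ∃ t', t = t' + 1 := ⟨t - 1, by omega⟩
      have h2 : t + 1 - sc p * T1 = (t - sc p * T1) + 1 := by omega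
      rw [h2, pow_succ, ← mul_assoc]
      refine crude_step hH p t _ fun t' ht' => ?_
      refine le_trans (ih t' (by omega) (by omega)) ?_
      refine mul_le_mul_of_nonneg_left ?_ (by positivity)
      exact pow_le_pow_right₀ hb1 (by omega)

lemma exp4 : Real.exp 4 ≤ 64 := by
  have h1 := Real.exp_one_lt_d9
  have h2 : Real.exp 4 = Real.exp 1 ^ 4 := by
    rw [← Real.exp_nat_mul]; norm_num
  rw [h2]
  have h3 : Real.exp 1 ^ 4 ≤ (2.8:ℝ) ^ 4 :=
    pow_le_pow_left₀ (Real.exp_pos 1).le (by linarith) 4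
  refine le_trans h3 ?_
  norm_num

lemma grow (hH : Hy sc ow J b Lc s h r W T1 M u g Dk CG c C) (k : ℕ) (hk : k ≤ T1) :
    (1 + 20 * (20000000 / (DD W : ℝ)) * N / Fintype.card L) ^ k ≤ (2:ℝ) ^ (6 * J) := by
  have hD := DD_pos (W := W)
  have hL := card_L_pos (L := L)
  set a := 20 * (20000000 / (DD W : ℝ)) * N / Fintype.card L with ha
  have ha0 : 0 ≤ a := by positivity
  have h1 : (1 + a) ^ k ≤ (1 + a) ^ T1 := pow_le_pow_right₀ (by linarith) hk
  have h2 : (1 + a) ^ T1 ≤ Real.exp a ^ T1 := by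
    apply pow_le_pow_left₀ (by linarith)
    rw [add_comm]
    exact Real.add_one_le_exp a
  have h3 : Real.exp a ^ T1 = Real.exp (T1 * a) := (Real.exp_nat_mul a T1).symm
  have h4 : (T1 : ℝ) * a ≤ J * 4 := by
    have h5 := hH.hT1
    have h6 : (T1 : ℝ) * a = 4 * (5 * (20000000 / (DD W : ℝ)) * N * T1) / Fintype.card L := by
      rw [ha]; ring
    rw [h6, div_le_iff₀ hL]
    linarith
  have h5 : Real.exp (T1 * a) ≤ Real.exp (J * 4) := Real.exp_le_exp.2 h4
  have h6 : Real.exp (J * 4) = Real.exp 4 ^ J := Real.exp_nat_mul 4 J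
  have h7 : Real.exp 4 ^ J ≤ (64:ℝ) ^ J := pow_le_pow_left₀ (Real.exp_pos 4).le exp4 J
  have h8 : (64:ℝ) ^ J = 2 ^ (6 * J) := by
    rw [pow_mul]; norm_num
  rw [h3] at h2
  rw [h6] at h5
  rw [h8] at h7
  exact le_trans h1 (le_trans h2 (le_trans h5 h7))

/-- one step of the loss of mass -/
theorem exit_step (hH : Hy sc ow J b Lc s h r W T1 M u g Dk CG c C) (t : ℕ) :
    ∑ ξ, avg (u t ξ) - 40 * (20000000 / (DD W : ℝ)) * (Fintype.card Nd) ^ 2 * N /
      Fintype.card L * ((2 * C / c + 2) / 2 ^ (7 * J)) ≤ ∑ ξ, avg (u (t + 1) ξ) := by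
  classical
  have hD := DD_pos (W := W)
  have hL := card_L_pos (L := L)
  have hc := hH.c0
  have hC := hH.C0
  set φ : (Nd → ZMod N → ZMod 5) → ℝ := fun ξ =>
    ∑ q ∈ univ.filter (fun q => t + 1 ≤ (sc q + 1) * T1),
      2 ^ nv b Lc ξ q / 2 ^ thr sc J Lc T1 q (t + 1) with hφ
  have hφ0 : ∀ ξ, 0 ≤ φ ξ := fun ξ => Finset.sum_nonneg fun q _ => by positivity
  have hφ1 : ∀ ξ, ¬ good sc J b Lc T1 (t + 1) ξ → 1 ≤ φ ξ := by
    intro ξ hg
    unfold good at hg
    push Not at hg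
    obtain ⟨q, hq⟩ := hg
    have h1 : t + 1 ≤ (sc q + 1) * T1 := by
      by_contra h2
      unfold thr at hq
      have h3 : ¬ (t + 1 ≤ sc q * T1) := by
        have : sc q * T1 ≤ (sc q + 1) * T1 := Nat.mul_le_mul_right _ (by omega)
        omega
      rw [if_neg h3, if_neg h2] at hq
      have h4 := (hH.p2 N b Lc hH.hb hH.hLN).2.1 (ξ q)
      have h5 : nv b Lc ξ q = lev b Lc (ξ q) := rfl
      omega
    have h2 : (1:ℝ) ≤ 2 ^ nv b Lc ξ q / 2 ^ thr sc J Lc T1 q (t + 1) := by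
      rw [one_le_div (by positivity)]
      exact pow_le_pow_right₀ (by norm_num) hq
    refine le_trans h2 ?_
    exact Finset.single_le_sum (f := fun q => (2:ℝ) ^ nv b Lc ξ q / 2 ^ thr sc J Lc T1 q (t + 1))
      (fun q _ => by positivity) (Finset.mem_filter.2 ⟨Finset.mem_univ q, h1⟩)
  have hφ2 : ∀ ξ q e, |φ (tgl b ξ q e) - φ ξ| ≤ φ ξ := by
    intro ξ q e
    rw [hφ]
    simp only
    rw [← Finset.sum_sub_distrib]
    refine le_trans (Finset.abs_sum_le_sum_abs _ _) (Finset.sum_le_sum fun p _ => ?_)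
    have h6 := pow_nbr hH.hE ξ q p e
    have h7 : (0:ℝ) < 2 ^ nv b Lc (tgl b ξ q e) p := by positivity
    rw [← sub_div, abs_div, abs_of_pos (a := (2:ℝ) ^ thr sc J Lc T1 p (t + 1)) (by positivity)]
    refine div_le_div_of_nonneg_right ?_ (by positivity)
    rw [abs_le]
    constructor <;> linarith
  have h1 := mass hH.hE t φ hφ0 hφ1 hφ2
  refine le_trans ?_ h1
  refine sub_le_sub_left ?_ _
  have h2 : ∑ l ∈ FF N h r, ∑ ξ, φ ξ * u t ξ l ≤
      2 * (Fintype.card Nd) ^ 2 * N * ((2 * C / c + 2) / 2 ^ (7 * J)) := by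
    rw [sum_FF hH.hE.inj]
    have h3 : ∀ (q : Nd) (k : ZMod N), ∑ ξ, φ ξ * u t ξ (h ^ k.val * r q) ≤
        2 * Fintype.card Nd * ((2 * C / c + 2) / 2 ^ (7 * J)) := by
      intro q k
      have hl : h ^ k.val * r q ∈ FF N h r := (mem_FF _).2 ⟨q, k, rfl⟩
      have h4 : ∑ ξ, φ ξ * u t ξ (h ^ k.val * r q) =
          ∑ p ∈ univ.filter (fun q => t + 1 ≤ (sc q + 1) * T1),
            (∑ ξ, 2 ^ nv b Lc ξ p * u t ξ (h ^ k.val * r q)) /
              2 ^ thr sc J Lc T1 p (t + 1) := by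
        simp only [hφ, Finset.sum_mul, Finset.sum_div]
        rw [Finset.sum_comm]
        refine Finset.sum_congr rfl fun p _ => Finset.sum_congr rfl fun ξ _ => ?_
        ring
      rw [h4]
      have h5 : ∀ p ∈ univ.filter (fun q => t + 1 ≤ (sc q + 1) * T1),
            (∑ ξ, 2 ^ nv b Lc ξ p * u t ξ (h ^ k.val * r q)) /
              2 ^ thr sc J Lc T1 p (t + 1) ≤ 2 * ((2 * C / c + 2) / 2 ^ (7 * J)) := by
        intro p hp
        have hp1 : t + 1 ≤ (sc p + 1) * T1 := (Finset.mem_filter.1 hp).2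
        rw [div_le_iff₀ (by positivity)]
        by_cases h6 : t + 1 ≤ sc p * T1
        · have h7 := sum_at hH p t ((2 * C / c + 2) * 2 ^ J) (fun t' ht' =>
            le_trans (Phi_ps hH p t') (confined hH p t' (by omega))) _ hl
          refine le_trans h7 (le_of_eq ?_)
          unfold thr
          rw [if_pos h6]
          have h8 : (2:ℝ) ^ (8 * J) = 2 ^ (7 * J) * 2 ^ J := by rw [← pow_add]; congr 1; ring
          rw [h8]
          field_simp
        · have h7 := sum_at hH p t ((2 * C / c + 2) * 2 ^ J * 2 ^ (6 * J)) (fun t' ht' => by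
            refine le_trans (crude hH p t' (by omega)) ?_
            refine mul_le_mul_of_nonneg_left ?_ (by positivity)
            have h10 : (sc p + 1) * T1 = sc p * T1 + T1 := by ring
            exact grow hH _ (by omega)) _ hl
          refine le_trans h7 ?_
          unfold thr
          rw [if_neg h6, if_pos hp1]
          have h8 : (2:ℝ) ^ (16 * J) = 2 ^ (7 * J) * (2 ^ J * 2 ^ (6 * J) * 2 ^ (2 * J)) := by
            rw [← pow_add, ← pow_add, ← pow_add]; congr 1; ring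
          rw [h8]
          have h9 : (1:ℝ) ≤ 2 ^ (2 * J) := one_le_pow₀ (by norm_num)
          have h10 : 2 * ((2 * C / c + 2) / 2 ^ (7 * J)) *
            (2 ^ (7 * J) * (2 ^ J * 2 ^ (6 * J) * 2 ^ (2 * J))) =
            2 * ((2 * C / c + 2) * 2 ^ J * 2 ^ (6 * J)) * 2 ^ (2 * J) := by
            field_simp
          rw [h10]
          have h11 : 0 ≤ 2 * ((2 * C / c + 2) * 2 ^ J * 2 ^ (6 * J)) := by positivity
          nlinarith
      refine le_trans (Finset.sum_le_sum h5) ?_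
      rw [Finset.sum_const, nsmul_eq_mul]
      have h6 : ((univ.filter (fun q => t + 1 ≤ (sc q + 1) * T1)).card : ℝ) ≤
        Fintype.card Nd := by
        exact_mod_cast Finset.card_le_univ _
      have h7 : 0 ≤ 2 * ((2 * C / c + 2) / 2 ^ (7 * J)) := by positivity
      have h8 := mul_le_mul_of_nonneg_right h6 h7
      refine le_trans h8 (le_of_eq ?_)
      ring
    refine le_trans (Finset.sum_le_sum fun q _ => Finset.sum_le_sum fun k _ => h3 q k) ?_
    simp only [Finset.sum_const, Finset.card_univ, ZMod.card, nsmul_eq_mul]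
    exact le_of_eq (by ring)
  have h3 : (∑ l ∈ FF N h r, ∑ ξ, φ ξ * u t ξ l) / Fintype.card L ≤
      2 * (Fintype.card Nd) ^ 2 * N * ((2 * C / c + 2) / 2 ^ (7 * J)) / Fintype.card L :=
    div_le_div_of_nonneg_right h2 hL.le
  have h4 := mul_le_mul_of_nonneg_left h3
    (show 0 ≤ 20 * (20000000 / (DD W : ℝ)) by positivity)
  refine le_trans h4 (le_of_eq ?_)
  ring

/-- the mass after `M T1` steps -/
theorem mass_eps (hH : Hy sc ow J b Lc s h r W T1 M u g Dk CG c C) (ε : ℝ)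
    (hbig : 8 * (M : ℝ) * (Fintype.card Nd) ^ 2 * J * (2 * C / c + 2) / 2 ^ (7 * J) ≤ ε)
    (t : ℕ) (ht : t ≤ M * T1) : 1 - ε ≤ ∑ ξ, avg (u t ξ) := by
  have hD := DD_pos (W := W)
  have hL := card_L_pos (L := L)
  have hc := hH.c0
  have hC := hH.C0
  set δ := 40 * (20000000 / (DD W : ℝ)) * (Fintype.card Nd) ^ 2 * N /
      Fintype.card L * ((2 * C / c + 2) / 2 ^ (7 * J)) with hδ
  have hδ0 : 0 ≤ δ := by positivity
  have h1 : ∀ t : ℕ, 1 - t * δ ≤ ∑ ξ, avg (u t ξ) := by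
    intro t
    induction t with
    | zero =>
      simp only [avg_zero hH.hE]
      simp
    | succ t ih =>
      have h2 := exit_step hH t
      push_cast
      linarith
  have h2 : (t : ℝ) * δ ≤ ε := by
    refine le_trans ?_ hbig
    have h3 : (t : ℝ) * δ ≤ (M * T1 : ℕ) * δ :=
      mul_le_mul_of_nonneg_right (by exact_mod_cast ht) hδ0
    refine le_trans h3 ?_
    have h4 : ((M * T1 : ℕ) : ℝ) * δ = 8 * (M : ℝ) * (Fintype.card Nd) ^ 2 *
      (5 * (20000000 / (DD W : ℝ)) * N * T1 / Fintype.card L) *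
        (2 * C / c + 2) / 2 ^ (7 * J) := by
      rw [hδ]; push_cast; ring
    rw [h4]
    have h5 : 5 * (20000000 / (DD W : ℝ)) * N * T1 / Fintype.card L ≤ J := by
      rw [div_le_iff₀ hL]; exact hH.hT1
    gcongr
  have := h1 t
  linarith

end

end Pool.Agent.P8H84.MX
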