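import Pool.Agent.P8H84.MX.Defs2

/-!
# Project MX, part P4t: the tree of nodes exists
-/

set_option autoImplicit false
set_option linter.unusedSectionVars false

namespace Pool.Agent.P8H84.MX

open Finset

/-- the scale -/
noncomputable def scT (M : ℕ) (f : Fin M → Option (Fin 4)) : ℕ :=
  sInf ({M} ∪ {k | ∃ h : k < M, f ⟨k, h⟩ ≠ none})

/-- the owner -/
noncomputable def owT (M : ℕ) (f : Fin M → Option (Fin 4)) : Fin M → Option (Fin 4) :=
  fun i => if i.val = scT M f then none else f i

lemma scT_le (M : ℕ) (f : Fin M → Option (Fin 4)) : scT M f ≤ M :=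
  Nat.sInf_le (Or.inl rfl)

lemma scT_none (M : ℕ) (f : Fin M → Option (Fin 4)) (i : Fin M) (hi : i.val < scT M f) :
    f i = none := by
  by_contra h
  have : scT M f ≤ i.val := Nat.sInf_le (Or.inr ⟨i.2, h⟩)
  omega

lemma scT_some (M : ℕ) (f : Fin M → Option (Fin 4)) (h : scT M f < M) :
    f ⟨scT M f, h⟩ ≠ none := by
  have h1 : scT M f ∈ ({M} ∪ {k | ∃ h : k < M, f ⟨k, h⟩ ≠ none} : Set ℕ) :=
    Nat.sInf_mem ⟨M, Or.inl rfl⟩
  rcases h1 with h1 | ⟨_, h2⟩
  · have : scT M f = M := h1
    omega
  · exact h2

lemma scT_eq (M : ℕ) (f : Fin M → Option (Fin 4)) (k : ℕ) (hk : k < M)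
    (h1 : ∀ i : Fin M, i.val < k → f i = none) (h2 : f ⟨k, hk⟩ ≠ none) : scT M f = k := by
  apply le_antisymm
  · exact Nat.sInf_le (Or.inr ⟨hk, h2⟩)
  · by_contra h3
    push Not at h3
    exact scT_some M f (by omega) (h1 ⟨scT M f, by omega⟩ h3)

theorem treeT (M : ℕ) : Tree M (scT M) (owT M) where
  le := scT_le M
  lt := by
    intro q hq
    by_contra h
    push Not at h
    have h1 : scT M (owT M q) < M := by omega
    have h2 := scT_some M (owT M q) h1
    generalize scT M (owT M q) = k at h h1 h2
    apply h2
    unfold owT
    split_ifs with h3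
    · rfl
    · apply scT_none
      simp only at h3 ⊢
      omega
  four := by
    intro p i hi
    have hiM : i < M := lt_of_lt_of_le hi (scT_le M p)
    have h1 : (univ.filter fun q => owT M q = p ∧ scT M q = i) =
        (univ : Finset (Fin 4)).image (fun a => Function.update p ⟨i, hiM⟩ (some a)) := by
      ext q
      rw [Finset.mem_filter, Finset.mem_image]
      constructor
      · rintro ⟨_, h2, h3⟩
        have h4 := scT_some M q (by rw [h3]; exact hiM)
        obtain ⟨a, ha⟩ := Option.ne_none_iff_exists'.1 h4
        refine ⟨a, Finset.mem_univ _, ?_⟩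
        funext j
        by_cases hj : j = ⟨i, hiM⟩
        · subst hj
          rw [Function.update_self, ← ha]
          congr 1
          exact Fin.ext h3
        · rw [Function.update_of_ne hj, ← h2]
          unfold owT
          rw [if_neg]
          intro h5
          apply hj
          apply Fin.ext
          rw [h5, h3]
      · rintro ⟨a, _, rfl⟩
        have hs : scT M (Function.update p ⟨i, hiM⟩ (some a)) = i := by
          apply scT_eq M _ i hiM
          · intro j hj
            rw [Function.update_of_ne (fun h => by rw [h] at hj; exact lt_irrefl _ hj)]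
            exact scT_none M p j (by omega)
          · rw [Function.update_self]; simp
        refine ⟨Finset.mem_univ _, ?_, hs⟩
        funext j
        unfold owT
        rw [hs]
        split_ifs with h5
        · symm
          exact scT_none M p j (by omega)
        · rw [Function.update_of_ne (fun h => h5 (by rw [h]))]
    rw [h1, Finset.card_image_of_injective, Finset.card_univ, Fintype.card_fin]
    intro a a' h2
    have h3 := congrFun h2 ⟨i, hiM⟩
    simp only [Function.update_self] at h3
    exact Option.some_injective _ h3
  root := by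
    refine ⟨fun _ => none, ?_⟩
    apply le_antisymm (scT_le _ _)
    by_contra h
    push Not at h
    exact scT_some M (fun _ => none) h rfl

end Pool.Agent.P8H84.MX
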