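import Pool.Agent.P8H84.MX.P4g
import Pool.Agent.P8H84.MX.P4t
import Pool.Agent.P8H84.MX.Defs4

/-!
# Project MX, part P4h: the perturbed walk is not mixed
-/

set_option autoImplicit false
set_option linter.unusedSectionVars false

namespace Pool.Agent.P8H84.MX

open Finset

/-- iteration of the projected chain -/
lemma lump {N : ℕ} [NeZero N] {L : Type} [Group L] [Fintype L] [DecidableEq L]
    {Nd : Type} [Fintype Nd] [DecidableEq Nd] {sc : Nd → ℕ} {ow : Nd → Nd} {J : ℕ}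
    {b : ZMod N → ZMod 5} {Lc : ℕ} {s : Fin 12 → L} {h : L} {r : Nd → L} {W : ℕ}
    (m : (L → ZMod 5) × L → (L → ZMod 5) × L → ℕ)
    (hm : ∀ (F : (Nd → ZMod N → ZMod 5) → L → ℝ) (a : (L → ZMod 5) × L),
      KK m (DD W) (fun v => F (xi h r N v.1) v.2) a =
        KF sc ow J b Lc s h r W (DD W) F (xi h r N a.1) a.2)
    (F : (Nd → ZMod N → ZMod 5) → L → ℝ) (t : ℕ) (a : (L → ZMod 5) × L) :
    ((KK m (DD W))^[t] (fun v => F (xi h r N v.1) v.2)) a =
      ((KF sc ow J b Lc s h r W (DD W))^[t] F) (xi h r N a.1) a.2 := by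
  induction t generalizing F with
  | zero => rfl
  | succ t ih =>
    rw [Function.iterate_succ_apply, Function.iterate_succ_apply]
    have h1 : KK m (DD W) (fun v => F (xi h r N v.1) v.2) = fun v =>
        KF sc ow J b Lc s h r W (DD W) F (xi h r N v.1) v.2 := by
      funext a
      exact hm F a
    rw [h1]
    exact ih _

lemma card_ge {lam : ℝ} {N : ℕ} {L : Type} [Group L] [Fintype L] {s : Fin 12 → L} {h : L}
    (hG : MarkerGroup lam N L s h) : N ≤ Fintype.card L := by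
  rw [← hG.ord]
  exact orderOf_le_card_univ

lemma div_aux (n : ℕ) (hn : 25000 ≤ n) : n ≤ 25000 * (n / 12500) := by omega

lemma ge_aux (n a b c : ℕ) (h : a + 25000 + b ≤ n) (h2 : n ≤ c) : 25000 ≤ c := by omega

/-- the perturbed walk is not mixed at the time `c M |L|`, with the constant `3/4` -/
def S_P34 : Prop := ∀ lam : ℝ, 0 < lam → lam < 1 → ∃ (D : ℕ) (c : ℝ), 0 < c ∧ ∀ M : ℕ, ∃ N0 : ℕ,
  ∀ (N : ℕ) [NeZero N], N0 ≤ N →
  ∀ (L : Type) [Group L] [Fintype L] [DecidableEq L] (s : Fin 12 → L) (h : L)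
    (b : ZMod N → ZMod 5), MarkerGroup lam N L s h → GoodCode N b →
      ∃ m : (L → ZMod 5) × L → (L → ZMod 5) × L → ℕ, Weighting (LG s h b) m D ∧
      ∃ E : Finset ((L → ZMod 5) × L), 4 * E.card ≤ Fintype.card ((L → ZMod 5) × L) ∧
      ∀ t : ℕ, (t : ℝ) ≤ c * M * Fintype.card L →
        ∃ o, 3 / 4 ≤ ((KK m D)^[t] (fun v => if v ∈ E then 1 else 0)) o

theorem part_P34 (h1a : S_P1a) (h1b : S_P1b) (h2 : S_P2) (h3a : S_P3a) (h3b : S_P3b)
    (h4b : S_P4b) (hQ1 : S_Q1) (hQ2 : S_Q2) : S_P34 := by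
  intro lam hlam0 hlam1
  obtain ⟨CG, hCG0, h1a⟩ := h1a lam hlam0 hlam1
  obtain ⟨c', C, hc', hC, h3a⟩ := h3a
  set c := min c' 1 with hc
  have hc0 : 0 < c := lt_min hc' one_pos
  have hc1 : c ≤ 1 := min_le_right _ _
  obtain ⟨W, hW⟩ := exists_nat_ge (20000000 * 31 * CG * (130 / c) + 20000000)
  have hWR : (20000000:ℝ) ≤ W := by
    have : 0 ≤ 20000000 * 31 * CG * (130 / c) := by positivity
    linarith
  have hW0 : 0 < W := by
    have : (0:ℝ) < W := by linarith
    exact_mod_cast this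
  have hD := DD_pos (W := W)
  have hDDW : (DD W : ℝ) = 24 * W + 320000002 := by unfold DD; push_cast; ring
  have hκ1 : 1 / 48 ≤ (W : ℝ) / DD W := by
    rw [div_le_div_iff₀ (by norm_num) hD, hDDW]
    linarith
  have hκ2 : (W : ℝ) / DD W ≤ 1 / 24 := by
    rw [div_le_div_iff₀ hD (by norm_num), hDDW]
    linarith
  have hα0 : 20000000 / (DD W : ℝ) * 31 * CG ≤ c / 130 := by
    have h5 : 20000000 * 31 * CG * (130 / c) ≤ DD W := by
      rw [hDDW]; linarith
    have h6 : 20000000 / (DD W : ℝ) * 31 * CG = (20000000 * 31 * CG) / DD W := by ring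
    rw [h6, div_le_div_iff₀ hD (by norm_num)]
    have h7 : 20000000 * 31 * CG * (130 / c) * c ≤ DD W * c :=
      mul_le_mul_of_nonneg_right h5 hc0.le
    have h8 : 20000000 * 31 * CG * (130 / c) * c = 20000000 * 31 * CG * 130 := by
      field_simp
    rw [h8] at h7
    linarith
  have hα1 : 20000000 / (DD W : ℝ) ≤ 1 / 16 := by
    rw [div_le_div_iff₀ hD (by norm_num), hDDW]
    linarith
  refine ⟨DD W, 1 / 25000, by norm_num, ?_⟩
  intro M
  have hTr := treeT M
  set Nd := Fin M → Option (Fin 4) with hNd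
  set R := Fintype.card Nd with hR
  obtain ⟨N1, h1a⟩ := h1a ((W : ℝ) / DD W) hκ1 hκ2 R
  obtain ⟨J0, h3a⟩ := h3a M R
  set K := 8 * (M : ℝ) * (R : ℝ) ^ 2 * (2 * C / c + 2) with hK
  have hK0 : 0 ≤ K := by positivity
  obtain ⟨J1, hJ1⟩ := exists_nat_ge (4 * K)
  refine ⟨N1 + 25000 + 20000 * (J0 + J1 + 8 * (M + 1) * R + 2 * (M + 1) + 1), ?_⟩
  intro N hNz hN L hLg hLf hLd s h b hG hb
  set J := N / 20000 with hJ
  have hJN1 : 20000 * J ≤ N := by omega
  have hJge : J0 + J1 + 8 * (M + 1) * R + 2 * (M + 1) + 1 ≤ J := by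
    rw [hJ, Nat.le_div_iff_mul_le (by norm_num)]
    omega
  have hJ0 : 0 < J := by omega
  have hJN2 : N ≤ 40000 * J := by omega
  set Lc := 60 * J with hLc
  have hLN : 200 * Lc + 400 < N := by omega
  have hNL := card_ge hG
  have hwt : WtOK (scT M) (owT M) J := by
    intro n p
    have h5 := (h3b M J hJ0 Nd (scT M) (owT M) hTr n n p p (fun _ _ => rfl)
      (Nat.le_succ _) (Nat.le_succ _)).2.2.2.2.2.1.2
    unfold wi
    rw [Nat.ceil_le]
    push_cast
    linarith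
  obtain ⟨r, hI, Dk, hDk0, hDk1, hDk2⟩ := h1a N (by omega) L s h hG Nd le_rfl
  obtain ⟨m, hm1, hm2⟩ := h4b lam N L s h b hG M Nd (scT M) (owT M) hTr J Lc W r hJ0 hW0 hI
  obtain ⟨p0, hp0⟩ := hTr.root
  obtain ⟨q1, q2, q3, q4, q5⟩ := h2 N b Lc hb hLN
  set A : Finset (ZMod N → ZMod 5) := univ.filter fun a => lev b Lc a < Lc with hA
  refine ⟨m, hm1, univ.filter (fun v : (L → ZMod 5) × L => xi h r N v.1 p0 ∈ A),
    hQ1 N L Nd h r hI p0 A q5, ?_⟩
  intro t ht
  set T1 := Fintype.card L / 12500 with hT1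
  have hE : Ev (scT M) (owT M) J b Lc s h r W T1 (uu (scT M) (owT M) J b Lc s h r W T1)
      (gg (scT M) (owT M) J b Lc s h r W T1) := Ev_uu hI hwt q1 hJ0 (by omega) q3
  have hL := card_L_pos (L := L)
  have hJr : (2 * ((M:ℝ) + 1)) ≤ J := by
    have : 2 * (M + 1) ≤ J := by omega
    exact_mod_cast this
  have hJpos : (0:ℝ) < J := by exact_mod_cast hJ0
  have hq31 : (30 + ((M:ℝ) + 1) * (2 / J)) ≤ 31 := by
    have h5 : ((M:ℝ) + 1) * (2 / J) = (2 * ((M:ℝ) + 1)) / J := by ring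
    rw [h5]
    have : (2 * ((M:ℝ) + 1)) / J ≤ 1 := (div_le_one hJpos).2 hJr
    linarith
  have hqc : 20000000 / (DD W : ℝ) * (30 + (M + 1) * (2 / J)) * CG ≤ c / 130 := by
    refine le_trans ?_ hα0
    refine mul_le_mul_of_nonneg_right (mul_le_mul_of_nonneg_left hq31 (by positivity)) hCG0.le
  have hH : Hy (scT M) (owT M) J b Lc s h r W T1 M (uu (scT M) (owT M) J b Lc s h r W T1)
      (gg (scT M) (owT M) J b Lc s h r W T1) Dk CG c C := {
    p1b := h1b
    p2 := h2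
    p3b := h3b
    hb := hb
    hLN := hLN
    p3a := by
      intro n p U Dn a1 a2 a3 a4 a5
      have h5 := h3a J (by omega) N hJN1 hJN2 Lc (by omega) (by omega) Nd (scT M) (owT M) hTr
        le_rfl n p U Dn a1 a2 a3 a4 a5
      refine le_trans h5 ?_
      refine mul_le_mul_of_nonneg_left ?_ (by positivity)
      have h6 : 0 ≤ Phi (scT M) (owT M) J n p :=
        le_trans (by positivity) (h3b M J hJ0 Nd (scT M) (owT M) hTr n n p p (fun _ _ => rfl)
          (Nat.le_succ _) (Nat.le_succ _)).2.2.2.1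
      have h7 : c * Phi (scT M) (owT M) J n p ≤ c' * Phi (scT M) (owT M) J n p :=
        mul_le_mul_of_nonneg_right (min_le_left _ _) h6
      linarith
    c0 := hc0
    c1 := hc1
    C0 := hC
    hE := hE
    hT := hTr
    hJ0 := hJ0
    hR := by
      have h5 : 8 * (M + 1) * R ≤ J := by omega
      exact h5
    D0 := hDk0
    D1 := hDk1
    D2 := hDk2
    hq := by
      refine le_trans hqc ?_
      rw [div_le_div_iff₀ (by norm_num) (by norm_num)]
      linarith
    hqc := hqc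
    hNL := hNL
    hT1 := by
      have h5 : (N : ℝ) ≤ 40000 * J := by exact_mod_cast hJN2
      have h6 : (T1 : ℝ) * 12500 ≤ Fintype.card L := by
        have : T1 * 12500 ≤ Fintype.card L := Nat.div_mul_le_self _ _
        exact_mod_cast this
      have h7 : 5 * (20000000 / (DD W : ℝ)) * N * T1 ≤ 5 * (1 / 16) * (40000 * J) * T1 := by
        gcongr
      refine le_trans h7 ?_
      have h8 : 5 * (1 / 16) * (40000 * (J:ℝ)) * T1 = J * (T1 * 12500) := by ring
      rw [h8]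
      exact mul_le_mul_of_nonneg_left h6 hJpos.le }
  have hbig : 8 * (M : ℝ) * (Fintype.card Nd) ^ 2 * J * (2 * C / c + 2) / 2 ^ (7 * J) ≤ 1 / 4 := by
    have h5 : 8 * (M : ℝ) * (Fintype.card Nd) ^ 2 * J * (2 * C / c + 2) = K * J := by
      rw [hK]; ring
    rw [h5, div_le_iff₀ (by positivity)]
    have h6 : (J:ℝ) ≤ 2 ^ J := by exact_mod_cast (Nat.lt_two_pow_self (n := J)).le
    have h7 : (2:ℝ) ^ J * 2 ^ J ≤ 2 ^ (7 * J) := by
      rw [← pow_add]
      exact pow_le_pow_right₀ (by norm_num) (by omega)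
    have h8 : 4 * K ≤ J := by
      refine le_trans hJ1 ?_
      have : J1 ≤ J := by omega
      exact_mod_cast this
    have h9 : (J:ℝ) * J ≤ 2 ^ J * 2 ^ J := mul_le_mul h6 h6 hJpos.le (by positivity)
    have h10 : 4 * K * J ≤ J * J := mul_le_mul_of_nonneg_right h8 hJpos.le
    linarith
  have htT : t ≤ M * T1 := by
    have h5 : Fintype.card L ≤ 25000 * T1 := div_aux _ (ge_aux _ _ _ _ hN hNL)
    have h6 : (Fintype.card L : ℝ) ≤ 25000 * T1 := by exact_mod_cast h5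
    have h7 : (t : ℝ) ≤ M * T1 := by
      refine le_trans ht ?_
      have h8 : 1 / 25000 * (M:ℝ) * Fintype.card L ≤ 1 / 25000 * M * (25000 * T1) :=
        mul_le_mul_of_nonneg_left h6 (by positivity)
      refine le_trans h8 (le_of_eq ?_)
      ring
    exact_mod_cast h7
  have hmass := mass_eps hH (1 / 4) hbig t htT
  set F : (Nd → ZMod N → ZMod 5) → L → ℝ := fun ξ _ => if ξ p0 ∈ A then 1 else 0 with hF
  have hF0 : ∀ ξ l, 0 ≤ F ξ l := by
    intro ξ l
    simp only [hF]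
    split_ifs
    · exact zero_le_one
    · exact le_rfl
  obtain ⟨l, hl⟩ := hQ2 lam N L Nd (scT M) (owT M) J Lc W b s h r hG hI hwt
    (uu (scT M) (owT M) J b Lc s h r W T1)
    (fun ξ l => (hE.zero ξ l).le)
    (fun t ξ l => uu_le_KF hI hwt t ξ l) F hF0 t
  refine ⟨(0, l), ?_⟩
  have h5 : (fun v : (L → ZMod 5) × L => if v ∈ univ.filter
      (fun v : (L → ZMod 5) × L => xi h r N v.1 p0 ∈ A) then (1:ℝ) else 0) =
      fun v => F (xi h r N v.1) v.2 := by
    funext v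
    simp only [hF, Finset.mem_filter, Finset.mem_univ, true_and]
  rw [h5, lump m hm2]
  have h6 : xi h r N (0 : L → ZMod 5) = (0 : Nd → ZMod N → ZMod 5) := by
    funext q k; rfl
  show 3 / 4 ≤ ((KF (scT M) (owT M) J b Lc s h r W (DD W))^[t] F) (xi h r N 0) l
  rw [h6]
  refine le_trans ?_ hl
  refine le_trans (le_of_eq (by norm_num)) (le_trans hmass ?_)
  rw [Finset.sum_div]
  refine Finset.sum_le_sum fun ξ _ => ?_
  unfold avg
  refine div_le_div_of_nonneg_right (Finset.sum_le_sum fun l' _ => ?_) hL.le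
  by_cases hg : good (scT M) J b Lc T1 t ξ
  · have h7 : ξ p0 ∈ A := by
      rw [hA, Finset.mem_filter]
      refine ⟨Finset.mem_univ _, ?_⟩
      have h8 := hg p0
      unfold thr at h8
      rw [hp0, if_pos htT] at h8
      have h9 : nv b Lc ξ p0 = lev b Lc (ξ p0) := rfl
      omega
    simp only [hF, if_pos h7, mul_one]
    exact le_rfl
  · rw [hE.supp t ξ l' hg, zero_mul]

theorem part_P (h1a : S_P1a) (h1b : S_P1b) (h2 : S_P2) (h3a : S_P3a) (h3b : S_P3b)
    (h4b : S_P4b) (hQ1 : S_Q1) (hQ2 : S_Q2) : S_P := by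
  intro lam h0 h1
  obtain ⟨D, c, hc, h3⟩ := part_P34 h1a h1b h2 h3a h3b h4b hQ1 hQ2 lam h0 h1
  refine ⟨D, c, hc, fun M => ?_⟩
  obtain ⟨N0, h4⟩ := h3 M
  refine ⟨N0, fun N _ hN L _ _ _ s h b hG hb => ?_⟩
  obtain ⟨m, hm, E, hE, h5⟩ := h4 N hN L s h b hG hb
  refine ⟨m, hm, E, hE, fun t ht => ?_⟩
  obtain ⟨o, ho⟩ := h5 t ht
  exact ⟨o, le_trans (by norm_num) ho⟩

end Pool.Agent.P8H84.MX
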