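import Pool.Agent.K3h39.LT.Exp2
import Pool.Agent.P8H84.MX.Defs

/-!
# Project MX, part B: the groups
-/

set_option autoImplicit false
set_option linter.unusedSectionVars false

namespace Pool.Agent.P8H84.MX

open Pool.Agent.H494R3.GT Pool.Agent.K3h39.LT

namespace PB

/-! ### powers of `hh n` -/

/-- all coordinates of weight less than `k` vanish -/
def Low {n : ℕ} (k : ℕ) (v : V3 n) : Prop :=
  ∀ i : Fin n, (3 * i.val + 2 < k → v.1 i = 0) ∧ (3 * i.val + 1 < k → v.2.1 i = 0) ∧
    (3 * i.val < k → v.2.2 i = 0)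

/-- the shift as a linear map -/
def tl (n : ℕ) : Av n →ₗ[ZMod 5] Av n where
  toFun := tt
  map_add' := tt_add
  map_smul' := tt_smul

@[simp] theorem tl_apply {n : ℕ} (x : Av n) : tl n x = tt x := rfl

/-- `hh n - 1` as a linear map -/
def nu (n : ℕ) : Module.End (ZMod 5) (V3 n) where
  toFun v := (v.2.1 + v.2.2 + tt v.1, v.2.2 + tt v.1, tt v.1)
  map_add' u v := by
    simp only [Prod.fst_add, Prod.snd_add, tt_add, Prod.mk_add_mk, Prod.mk.injEq, and_true]
    constructor <;> abel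
  map_smul' c v := by
    simp only [Prod.smul_fst, Prod.smul_snd, tt_smul, RingHom.id_apply, Prod.smul_mk, smul_add]

theorem nu_apply {n : ℕ} (v : V3 n) :
    nu n v = (v.2.1 + v.2.2 + tt v.1, v.2.2 + tt v.1, tt v.1) := rfl

theorem hh_eq {n : ℕ} (v : V3 n) : hh n v = (1 + nu n) v := by
  obtain ⟨x, y, z⟩ := v
  rw [hh_apply, LinearMap.add_apply, Module.End.one_apply, nu_apply]
  refine Prod.ext ?_ (Prod.ext ?_ ?_)
  · show x + (y + (z + tt x)) = x + (y + z + tt x)
    abel
  · show y + (z + tt x) = y + (z + tt x)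
    rfl
  · show z + tt x = z + tt x
    rfl

theorem hh_pow_eq {n : ℕ} (k : ℕ) (v : V3 n) : (hh n ^ k) v = ((1 + nu n) ^ k) v := by
  induction k generalizing v with
  | zero => simp
  | succ k ih =>
    rw [pow_succ, pow_succ, Equiv.Perm.mul_apply, Module.End.mul_apply, hh_eq, ih]

theorem low_nu {n k : ℕ} {v : V3 n} (h : Low k v) : Low (k + 1) (nu n v) := by
  have ht : ∀ i : Fin n, 3 * i.val < k + 1 → tt v.1 i = 0 := by
    intro i hi
    unfold tt
    split_ifs with h0
    · rfl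
    · exact (h ⟨i.val - 1, by omega⟩).1 (by simp only; omega)
  intro i
  rw [nu_apply]
  refine ⟨fun hi => ?_, fun hi => ?_, fun hi => ?_⟩
  · show v.2.1 i + v.2.2 i + tt v.1 i = 0
    rw [(h i).2.1 (by omega), (h i).2.2 (by omega), ht i (by omega)]
    rfl
  · show v.2.2 i + tt v.1 i = 0
    rw [(h i).2.2 (by omega), ht i (by omega)]
    rfl
  · show tt v.1 i = 0
    exact ht i (by omega)

theorem low_nu_pow {n : ℕ} (k : ℕ) (v : V3 n) : Low k ((nu n ^ k) v) := by
  induction k with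
  | zero => intro i; refine ⟨fun h => by omega, fun h => by omega, fun h => by omega⟩
  | succ k ih =>
    rw [pow_succ', Module.End.mul_apply]
    exact low_nu ih

theorem nu_pow_zero {n k : ℕ} (hk : 3 * n ≤ k) : nu n ^ k = 0 := by
  apply LinearMap.ext
  intro v
  have h := low_nu_pow k v
  rw [LinearMap.zero_apply]
  refine Prod.ext ?_ (Prod.ext ?_ ?_)
  · funext i; exact (h i).1 (by have := i.isLt; omega)
  · funext i; exact (h i).2.1 (by have := i.isLt; omega)
  · funext i; exact (h i).2.2 (by have := i.isLt; omega)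

theorem hh_pow_one {n j : ℕ} (hn : 0 < n) (hj : 3 * n ≤ 5 ^ j) : hh n ^ (5 ^ j) = 1 := by
  have : Nonempty (Fin n) := ⟨⟨0, hn⟩⟩
  have : Nontrivial (V3 n) := inferInstance
  have : CharP (Module.End (ZMod 5) (V3 n)) 5 :=
    charP_of_injective_algebraMap (algebraMap (ZMod 5) (Module.End (ZMod 5) (V3 n))).injective 5
  have h1 : (1 + nu n) ^ (5 ^ j) = 1 := by
    rw [add_pow_char_pow_of_commute 5 j (Commute.one_left (nu n)), one_pow, nu_pow_zero hj, add_zero]
  apply Equiv.ext
  intro v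
  rw [hh_pow_eq, h1]
  rfl

/-- the element `h` -/
noncomputable def hG (n : ℕ) : Gn n := ⟨hh n, hh_mem n⟩

theorem exists_order {n : ℕ} (hn : 2 ≤ n) : ∃ j : ℕ, orderOf (hG n) = 5 ^ j ∧ n ≤ 5 ^ j ∧
    5 ^ j ≤ 15 * n := by
  obtain ⟨J, h1, h2⟩ : ∃ J : ℕ, 3 * n ≤ 5 ^ J ∧ 5 ^ J ≤ 15 * n := by
    have hex : ∃ J : ℕ, 3 * n ≤ 5 ^ J :=
      ⟨3 * n, (Nat.lt_pow_self (by norm_num : 1 < 5)).le⟩
    classical
    refine ⟨Nat.find hex, Nat.find_spec hex, ?_⟩
    rcases Nat.eq_zero_or_pos (Nat.find hex) with h0 | h0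
    · rw [h0]; omega
    · have h3 := Nat.find_min hex (m := Nat.find hex - 1) (by omega)
      push Not at h3
      obtain ⟨k, hk⟩ : ∃ k, Nat.find hex = k + 1 := ⟨Nat.find hex - 1, by omega⟩
      rw [hk, Nat.add_sub_cancel] at h3
      rw [hk, pow_succ]
      omega
  have h3 : hG n ^ (5 ^ J) = 1 := by
    apply Subtype.ext
    show (hh n) ^ (5 ^ J) = 1
    exact hh_pow_one (by omega) h1
  have h4 := orderOf_dvd_of_pow_eq_one h3
  obtain ⟨j, hj, h5⟩ := (Nat.dvd_prime_pow (by norm_num)).1 h4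
  refine ⟨j, h5, ?_, ?_⟩
  · by_contra hlt
    push Not at hlt
    have h6 := pow_orderOf_eq_one (hG n)
    have h7 : (hh n) ^ (orderOf (hG n)) = 1 := congrArg Subtype.val h6
    exact hh_pow_ne n _ (orderOf_pos _) (by rw [h5]; exact hlt) h7
  · exact (Nat.pow_le_pow_right (by norm_num) hj).trans h2

/-! ### the upper bound for the cardinality -/

theorem tt_iter {n : ℕ} (k : ℕ) (i : Fin n) :
    ((tl n ^ k) (e0v n)) i = if i.val = k then 1 else 0 := by
  induction k generalizing i with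
  | zero => rfl
  | succ k ih =>
    rw [pow_succ', Module.End.mul_apply, tl_apply]
    unfold tt
    split_ifs with h1 h2 h2
    · omega
    · rfl
    · rw [ih, if_pos (by simp only; omega)]
    · rw [ih, if_neg (by simp only; omega)]

theorem tt_single {n : ℕ} (k : Fin n) : (tl n ^ k.val) (e0v n) = Pi.single k 1 := by
  funext i
  rw [tt_iter, Pi.single_apply]
  simp only [Fin.ext_iff]

/-- additive and commuting with the shift -/
def Nice {n : ℕ} (g : Equiv.Perm (V3 n)) : Prop :=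
  (∀ u v, g (u + v) = g u + g v) ∧
    ∀ v, g (tt v.1, tt v.2.1, tt v.2.2) = (tt (g v).1, tt (g v).2.1, tt (g v).2.2)

theorem nice_sh {n : ℕ} (i : Fin 3) (a : ZMod 5) : Nice (sh n i a) := by
  fin_cases i
  · refine ⟨fun u v => ?_, fun v => ?_⟩
    · simp only [sh, sh0, Fin.zero_eta, Matrix.cons_val_zero, Equiv.coe_fn_mk, Prod.fst_add,
        Prod.snd_add, smul_add, Prod.mk_add_mk, Prod.mk.injEq, and_true]
      abel
    · simp only [sh, sh0, Fin.zero_eta, Matrix.cons_val_zero, Equiv.coe_fn_mk, tt_add, tt_smul]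
  · refine ⟨fun u v => ?_, fun v => ?_⟩
    · simp only [sh, sh1, Fin.mk_one, Matrix.cons_val_one, Matrix.cons_val_zero, Equiv.coe_fn_mk,
        Prod.fst_add, Prod.snd_add, smul_add, Prod.mk_add_mk, Prod.mk.injEq, and_true, true_and]
      abel
    · simp only [sh, sh1, Fin.mk_one, Matrix.cons_val_one, Matrix.cons_val_zero, Equiv.coe_fn_mk,
        tt_add, tt_smul]
  · refine ⟨fun u v => ?_, fun v => ?_⟩
    · simp only [sh, sh2, Fin.reduceFinMk, Matrix.cons_val, Equiv.coe_fn_mk,
        Prod.fst_add, Prod.snd_add, smul_add, tt_add, Prod.mk_add_mk, Prod.mk.injEq, true_and]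
      abel
    · simp only [sh, sh2, Fin.reduceFinMk, Matrix.cons_val, Equiv.coe_fn_mk, tt_add, tt_smul]

theorem nice_mem {n : ℕ} {g : Equiv.Perm (V3 n)} (hg : g ∈ Gn n) : Nice g := by
  unfold Gn at hg
  induction hg using Subgroup.closure_induction with
  | mem x hx => obtain ⟨p, rfl⟩ := hx; exact nice_sh p.1 p.2
  | one => exact ⟨fun u v => rfl, fun v => rfl⟩
  | mul x y _ _ hx hy =>
    refine ⟨fun u v => ?_, fun v => ?_⟩
    · rw [Equiv.Perm.mul_apply, hy.1, hx.1]; rfl
    · rw [Equiv.Perm.mul_apply, hy.2, hx.2]; rfl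
  | inv x _ hx =>
    refine ⟨fun u v => ?_, fun v => ?_⟩
    · apply x.injective
      rw [hx.1]; simp
    · apply x.injective
      rw [hx.2]
      have e : ∀ w, x (x⁻¹ w) = w := fun w => Equiv.apply_symm_apply x w
      rw [e]
      simp only [e]

/-- the linear map of a nice permutation -/
def lin {n : ℕ} (g : Equiv.Perm (V3 n)) (hg : Nice g) : V3 n →ₗ[ZMod 5] V3 n :=
  AddMonoidHom.toZModLinearMap 5 (AddMonoidHom.mk' g hg.1)

theorem lin_apply {n : ℕ} (g : Equiv.Perm (V3 n)) (hg : Nice g) (v : V3 n) : lin g hg v = g v := rfl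

/-- the shift on triples -/
def t3 (n : ℕ) : Module.End (ZMod 5) (V3 n) where
  toFun v := (tt v.1, tt v.2.1, tt v.2.2)
  map_add' u v := by simp only [Prod.fst_add, Prod.snd_add, tt_add, Prod.mk_add_mk]
  map_smul' c v := by simp only [Prod.smul_fst, Prod.smul_snd, tt_smul, RingHom.id_apply,
    Prod.smul_mk]

theorem t3_pow {n : ℕ} (k : ℕ) (x y z : Av n) :
    (t3 n ^ k) (x, y, z) = ((tl n ^ k) x, (tl n ^ k) y, (tl n ^ k) z) := by
  induction k with
  | zero => rfl
  | succ k ih =>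
    rw [pow_succ', Module.End.mul_apply, ih, pow_succ']
    rfl

theorem lin_t3 {n : ℕ} (g : Equiv.Perm (V3 n)) (hg : Nice g) (k : ℕ) (v : V3 n) :
    g ((t3 n ^ k) v) = (t3 n ^ k) (g v) := by
  induction k generalizing v with
  | zero => rfl
  | succ k ih =>
    rw [pow_succ', Module.End.mul_apply, Module.End.mul_apply, ← ih]
    exact hg.2 _

/-- the three base vectors -/
def bas (n : ℕ) : Fin 3 → V3 n := ![(e0v n, 0, 0), (0, e0v n, 0), (0, 0, e0v n)]

theorem perm_eq {n : ℕ} {g g' : Equiv.Perm (V3 n)} (hg : Nice g) (hg' : Nice g')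
    (h : ∀ i, g (bas n i) = g' (bas n i)) : g = g' := by
  have key : lin g hg = lin g' hg' := by
    have hb : ∀ (i : Fin 3) (k : Fin n), g ((t3 n ^ k.val) (bas n i)) =
        g' ((t3 n ^ k.val) (bas n i)) := by
      intro i k
      rw [lin_t3 g hg, lin_t3 g' hg', h]
    apply LinearMap.prod_ext
    · apply LinearMap.pi_ext'
      intro k
      apply LinearMap.ext_ring
      have := hb 0 k
      rw [show bas n 0 = (e0v n, 0, 0) from rfl, t3_pow, tt_single, map_zero] at this
      exact this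
    · apply LinearMap.prod_ext
      · apply LinearMap.pi_ext'
        intro k
        apply LinearMap.ext_ring
        have := hb 1 k
        rw [show bas n 1 = (0, e0v n, 0) from rfl, t3_pow, tt_single, map_zero] at this
        exact this
      · apply LinearMap.pi_ext'
        intro k
        apply LinearMap.ext_ring
        have := hb 2 k
        rw [show bas n 2 = (0, 0, e0v n) from rfl, t3_pow, tt_single, map_zero] at this
        exact this
  apply Equiv.ext
  intro v
  exact LinearMap.congr_fun key v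

theorem card_le (n : ℕ) : Nat.card (Gn n) ≤ 5 ^ (9 * n) := by
  have h1 : Nat.card (Gn n) ≤ Nat.card (Fin 3 → V3 n) := by
    apply Nat.card_le_card_of_injective (fun g : Gn n => fun i => (g : Equiv.Perm (V3 n)) (bas n i))
    intro g g' h
    exact Subtype.ext (perm_eq (nice_mem g.2) (nice_mem g'.2) fun i => congrFun h i)
  refine h1.trans (le_of_eq ?_)
  rw [Nat.card_eq_fintype_card]
  simp only [Fintype.card_fun, Fintype.card_fin, Fintype.card_prod, ZMod.card]
  rw [← pow_add, ← pow_add, ← pow_mul]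
  congr 1
  ring

/-! ### the lower bound for the cardinality -/

/-- a shear with a polynomial in the shift, first row and second column -/
def e12 (n : ℕ) (p : Module.End (ZMod 5) (Av n)) : Equiv.Perm (V3 n) where
  toFun v := (v.1 + p v.2.1, v.2.1, v.2.2)
  invFun v := (v.1 - p v.2.1, v.2.1, v.2.2)
  left_inv v := by simp
  right_inv v := by simp

/-- first row and third column -/
def e13 (n : ℕ) (p : Module.End (ZMod 5) (Av n)) : Equiv.Perm (V3 n) where
  toFun v := (v.1 + p v.2.2, v.2.1, v.2.2)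
  invFun v := (v.1 - p v.2.2, v.2.1, v.2.2)
  left_inv v := by simp
  right_inv v := by simp

theorem e12_apply {n : ℕ} (p : Module.End (ZMod 5) (Av n)) (v : V3 n) :
    e12 n p v = (v.1 + p v.2.1, v.2.1, v.2.2) := rfl
theorem e13_apply {n : ℕ} (p : Module.End (ZMod 5) (Av n)) (v : V3 n) :
    e13 n p v = (v.1 + p v.2.2, v.2.1, v.2.2) := rfl

theorem e12_add {n : ℕ} (p q : Module.End (ZMod 5) (Av n)) :
    e12 n (p + q) = e12 n p * e12 n q := by
  apply Equiv.ext
  intro v
  rw [Equiv.Perm.mul_apply, e12_apply, e12_apply, e12_apply, LinearMap.add_apply]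
  simp only [Prod.mk.injEq, and_true]
  abel

theorem com1 {n : ℕ} (p : Module.End (ZMod 5) (Av n)) :
    e12 n p * sh n 1 1 = e13 n p * (sh n 1 1 * e12 n p) := by
  apply Equiv.ext
  intro v
  simp only [Equiv.Perm.mul_apply, e12_apply, e13_apply, sh, sh1, Matrix.cons_val_one,
    Matrix.cons_val_zero, Equiv.coe_fn_mk, one_smul, map_add, Prod.mk.injEq, and_true]
  abel

theorem com2 {n : ℕ} (p : Module.End (ZMod 5) (Av n)) :
    e13 n p * zh n 2 1 = e12 n (p * tl n) * (zh n 2 1 * e13 n p) := by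
  apply Equiv.ext
  intro v
  simp only [Equiv.Perm.mul_apply, e12_apply, e13_apply, zh, zh2, Matrix.cons_val,
    Equiv.coe_fn_mk, one_smul, map_add, Prod.mk.injEq, and_true, Module.End.mul_apply, tl_apply]
  abel

theorem mem_of_com {G : Type} [Group G] {H : Subgroup G} {x y z : G} (hx : x ∈ H) (hy : y ∈ H)
    (h : x * y = z * (y * x)) : z ∈ H := by
  have : z = x * y * (y * x)⁻¹ := by rw [h]; group
  rw [this]
  exact mul_mem (mul_mem hx hy) (inv_mem (mul_mem hy hx))

theorem e12_mem {n : ℕ} (a : ZMod 5) (k : ℕ) : e12 n (a • tl n ^ k) ∈ Gn n := by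
  induction k with
  | zero =>
    have : e12 n (a • tl n ^ 0) = sh n 0 a := by
      apply Equiv.ext
      intro v
      rw [e12_apply]
      rfl
    rw [this]
    exact sh_mem n 0 a
  | succ k ih =>
    have h1 := mem_of_com ih (sh_mem n 1 1) (com1 _)
    have h2 := mem_of_com h1 (zh_mem n 2 1) (com2 _)
    have h3 : (a • tl n ^ k) * tl n = a • tl n ^ (k + 1) := by
      rw [smul_mul_assoc, pow_succ]
    rwa [h3] at h2

/-- the polynomial with the coefficients `c` -/
noncomputable def pol {n : ℕ} (c : Fin n → ZMod 5) : Module.End (ZMod 5) (Av n) :=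
  ∑ k : Fin n, c k • tl n ^ k.val

theorem pol_mem {n : ℕ} (c : Fin n → ZMod 5) : e12 n (pol c) ∈ Gn n := by
  unfold pol
  have h : ∀ S : Finset (Fin n), e12 n (∑ k ∈ S, c k • tl n ^ k.val) ∈ Gn n := by
    classical
    intro S
    induction S using Finset.induction_on with
    | empty =>
      have : e12 n (∑ k ∈ (∅ : Finset (Fin n)), c k • tl n ^ k.val) = 1 := by
        apply Equiv.ext
        intro v
        rw [Finset.sum_empty, e12_apply, LinearMap.zero_apply, add_zero]
        rfl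
      rw [this]
      exact one_mem _
    | insert a S ha ih =>
      rw [Finset.sum_insert ha, e12_add]
      exact mul_mem (e12_mem _ _) ih
  exact h Finset.univ

theorem pol_e0 {n : ℕ} (c : Fin n → ZMod 5) : pol c (e0v n) = c := by
  unfold pol
  rw [LinearMap.sum_apply]
  simp only [LinearMap.smul_apply, tt_single]
  funext i
  rw [Finset.sum_apply]
  simp only [Pi.smul_apply, Pi.single_apply, smul_eq_mul, mul_ite, mul_one, mul_zero]
  simp

theorem le_card (n : ℕ) : 5 ^ n ≤ Nat.card (Gn n) := by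
  have h1 : Nat.card (Fin n → ZMod 5) ≤ Nat.card (Gn n) := by
    apply Nat.card_le_card_of_injective (fun c : Fin n → ZMod 5 => (⟨e12 n (pol c), pol_mem c⟩ : Gn n))
    intro c c' h
    have h2 : e12 n (pol c) = e12 n (pol c') := congrArg Subtype.val h
    have h3 := congrArg (fun g : Equiv.Perm (V3 n) => (g (0, e0v n, 0)).1) h2
    simp only [e12_apply, pol_e0, zero_add] at h3
    exact h3
  refine le_trans (le_of_eq ?_) h1
  rw [Nat.card_eq_fintype_card, Fintype.card_fun, Fintype.card_fin, ZMod.card]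

/-! ### the generators -/

/-- the value `k + 1` -/
def val1 (k : Fin 4) : ZMod 5 := (k.val + 1 : ℕ)

theorem val1_ne : ∀ k : Fin 4, val1 k ≠ 0 := by decide
theorem val1_inj : ∀ k l : Fin 4, val1 k = val1 l → k = l := by decide
theorem val1_neg : ∀ k : Fin 4, val1 (3 - k) = - val1 k := by decide
theorem val1_surj : ∀ a : ZMod 5, a ≠ 0 → ∃ k : Fin 4, val1 k = a := by decide
theorem univ_val (F : ZMod 5 → ℝ) : ∑ a, F a = F 0 + ∑ k : Fin 4, F (val1 k) := by
  rw [show (Finset.univ : Finset (ZMod 5)) = {0, val1 0, val1 1, val1 2, val1 3} by decide]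
  rw [Finset.sum_insert (by decide), Finset.sum_insert (by decide), Finset.sum_insert (by decide),
    Finset.sum_insert (by decide), Finset.sum_singleton, Fin.sum_univ_four]
  ring

/-- the twelve generators -/
def gp (n : ℕ) (q : Fin 3 × Fin 4) : Gn n := ⟨sh n q.1 (val1 q.2), sh_mem n _ _⟩

/-- the twelve generators -/
def gs (n : ℕ) (i : Fin 12) : Gn n := gp n ((finProdFinEquiv (m := 3) (n := 4)).symm i)

theorem gp_inj {n : ℕ} (hn : 2 ≤ n) : Function.Injective (gp n) := by
  intro q r h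
  have h1 : sh n q.1 (val1 q.2) = sh n r.1 (val1 r.2) := congrArg Subtype.val h
  obtain ⟨h2, h3⟩ := sh_inj n hn _ _ _ _ h1 (val1_ne _)
  exact Prod.ext h2 (val1_inj _ _ h3)

theorem gs_inj {n : ℕ} (hn : 2 ≤ n) : Function.Injective (gs n) :=
  (gp_inj hn).comp (Equiv.injective _)

theorem gp_ne {n : ℕ} (hn : 2 ≤ n) (q : Fin 3 × Fin 4) : gp n q ≠ 1 := by
  intro h
  have h1 : sh n q.1 (val1 q.2) = 1 := congrArg Subtype.val h
  rw [← sh_zero n q.1] at h1
  exact val1_ne _ (sh_inj n hn _ _ _ _ h1 (val1_ne _)).2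

theorem gp_inv {n : ℕ} (q : Fin 3 × Fin 4) : gp n (q.1, 3 - q.2) = (gp n q)⁻¹ := by
  apply eq_inv_of_mul_eq_one_right
  apply Subtype.ext
  show sh n q.1 (val1 q.2) * sh n q.1 (val1 (3 - q.2)) = 1
  rw [← sh_add, val1_neg, add_neg_cancel, sh_zero]

theorem gs_symm {n : ℕ} (q : Fin 3 × Fin 4) : gs n (finProdFinEquiv q) = gp n q := by
  unfold gs
  rw [Equiv.symm_apply_apply]

theorem gs_inv {n : ℕ} (i : Fin 12) : ∃ j, gs n j = (gs n i)⁻¹ := by
  refine ⟨finProdFinEquiv (((finProdFinEquiv (m := 3) (n := 4)).symm i).1,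
    3 - ((finProdFinEquiv (m := 3) (n := 4)).symm i).2), ?_⟩
  rw [gs_symm, gp_inv]
  rfl

theorem gs_gen (n : ℕ) : Subgroup.closure (Set.range (gs n)) = ⊤ := by
  rw [eq_top_iff, ← (tri_Gn n).gen, Subgroup.closure_le]
  rintro _ ⟨p, rfl⟩
  by_cases h : p.2 = 0
  · have : (⟨sh n p.1 p.2, sh_mem n p.1 p.2⟩ : Gn n) = 1 := by
      apply Subtype.ext
      show sh n p.1 p.2 = 1
      rw [h, sh_zero]
    show (⟨sh n p.1 p.2, sh_mem n p.1 p.2⟩ : Gn n) ∈ _
    rw [this]
    exact one_mem _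
  · obtain ⟨k, hk⟩ := val1_surj _ h
    apply Subgroup.subset_closure
    refine ⟨finProdFinEquiv (p.1, k), ?_⟩
    rw [gs_symm]
    apply Subtype.ext
    show sh n p.1 (val1 k) = sh n p.1 p.2
    rw [hk]

theorem gs_gap (n : ℕ) [Fintype (Gn n)] (f : Gn n → ℝ) (hf : ∑ x, f x = 0) :
    ∑ x, (3 * f x + ∑ i, f (gs n i * x)) ^ 2 ≤ 225 * lam0 * ∑ x, f x ^ 2 := by
  have h := (tri_Gn n).real_bound f hf
  refine le_trans (le_of_eq ?_) h
  refine Finset.sum_congr rfl fun x _ => ?_
  congr 1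
  rw [← Equiv.sum_comp (finProdFinEquiv (m := 3) (n := 4)), Fintype.sum_prod_type,
    Fintype.sum_prod_type]
  have h1 : ∀ a : Fin 3, ∑ b : ZMod 5,
      f ((⟨sh n a b, sh_mem n a b⟩ : Gn n) * x) = f x + ∑ k : Fin 4, f (gp n (a, k) * x) := by
    intro a
    rw [univ_val]
    congr 2
    have : (⟨sh n a 0, sh_mem n a 0⟩ : Gn n) = 1 := Subtype.ext (sh_zero n a)
    rw [this, one_mul]
  rw [Finset.sum_congr rfl fun a _ => h1 a, Finset.sum_add_distrib]
  simp only [gs_symm, Finset.sum_const, Finset.card_univ, Fintype.card_fin, nsmul_eq_mul]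
  norm_num

end PB

/-- Part B -/
theorem part_B : S_B := by
  classical
  refine ⟨lam0, lam0_pos, lam0_lt, fun n hn => ?_⟩
  obtain ⟨j, h1, h2, h3⟩ := PB.exists_order hn
  let _ : Fintype (Gn n) := Fintype.ofFinite _
  refine ⟨j, h2, Gn n, inferInstance, inferInstance, inferInstance, PB.gs n, PB.hG n, ?_⟩
  have hc : Fintype.card (Gn n) = Nat.card (Gn n) := (Nat.card_eq_fintype_card).symm
  refine ⟨PB.gs_inj hn, fun i => PB.gp_ne hn _, PB.gs_inv, PB.gs_gen n, PB.gs_gap n, h1, ?_, ?_⟩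
  · rw [hc]
    exact (PB.card_le n).trans (Nat.pow_le_pow_right (by norm_num) (by omega))
  · rw [hc]
    calc 5 ^ (5 ^ j) ≤ 5 ^ (n * 15) := Nat.pow_le_pow_right (by norm_num) (by omega)
      _ = (5 ^ n) ^ 15 := by rw [pow_mul]
      _ ≤ _ := Nat.pow_le_pow_left (PB.le_card n) 15

end Pool.Agent.P8H84.MX
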