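import Pool.Agent.P8H84.MX.Defs

/-!
# Part F: the assembly of the disproof
-/

set_option autoImplicit false

namespace Pool.Agent.P8H84.MX

/-- The final theorem, with the mixing times as least elements: the graphs are
`(1, b)`-quasi-isometric, `G` has degree `20` and `G'` is regular of degree `D`. -/
def S_F2 : Prop := ∃ (b : ℝ) (D : ℕ), 0 ≤ b ∧ ∀ C : ℝ, 0 < C →
  ∃ (V V' : Type) (_ : Fintype V) (_ : Fintype V') (_ : DecidableEq V) (_ : DecidableEq V')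
    (G : SimpleGraph V) (G' : SimpleGraph V') (t t' : ℕ),
    G.Connected ∧ G'.Connected ∧ (∀ x y, ∃ φ : G ≃g G, φ x = y) ∧
    (∀ x, Nat.card (G.neighborSet x) = 20) ∧ (∀ x, Nat.card (G'.neighborSet x) = D) ∧
    QuasiIsometric 1 b G G' ∧ IsLeast {t : ℕ | Mixed G t} t ∧ IsLeast {t : ℕ | Mixed G' t} t' ∧
    C * t < t'

/-- Part F: the final theorem from the parts -/
theorem part_F2 (hA : S_A) (hB : S_B) (hC : S_C) (hP : S_P) (hG : S_G) (hH : S_H) (hE : S_E) :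
    S_F2 := by
  obtain ⟨lam, hl0, hl1, hB⟩ := hB
  obtain ⟨D, c, hc, hP⟩ := hP lam hl0 hl1
  obtain ⟨Cu, N0u, hC⟩ := hC lam hl0 hl1
  obtain ⟨j0, hA⟩ := hA
  refine ⟨(D : ℝ) + 1, D, by positivity, fun C hC0 => ?_⟩
  obtain ⟨M, hM⟩ := exists_nat_gt ((C * Cu) / c)
  obtain ⟨N0M, hP⟩ := hP M
  obtain ⟨q, hq⟩ : ∃ q, q = 5 ^ j0 := ⟨_, rfl⟩
  obtain ⟨j, hnj, L, iG, iF, iD, s, h, hMG⟩ := hB (N0u + N0M + 400 + q + 2) (by omega)
  have hj : j0 ≤ j := by
    by_contra hlt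
    have h1 : 5 ^ j < 5 ^ j0 := Nat.pow_lt_pow_right (by norm_num) (by omega)
    rw [← hq] at h1
    omega
  have hN0 : NeZero (5 ^ j) := ⟨by positivity⟩
  obtain ⟨b, hb⟩ := hA j hj
  obtain ⟨hGc, hGt, hGd⟩ := hG lam (5 ^ j) L s h b (by omega) hMG hb
  have hCm := hC (5 ^ j) (by omega) L s h b hMG hb
  obtain ⟨m, hw, E, hEc, hPt⟩ := hP (5 ^ j) (by omega) L s h b hMG hb
  obtain ⟨hHc, hHd, hHq, hHm⟩ := hH _ (LG s h b) m D hw hGc
  have hD2 : 2 ≤ D := by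
    have := hw.tot (0, 1)
    omega
  have hne : ∃ x y : ((L → ZMod 5) × L) × ZMod (D + 1), x ≠ y := by
    refine ⟨((0, 1), 0), ((0, 1), 1), ?_⟩
    intro h1
    have h2 : (0 : ZMod (D + 1)) = 1 := congrArg Prod.snd h1
    have h3 := congrArg ZMod.val h2
    have h4 : Fact (1 < D + 1) := ⟨by omega⟩
    rw [ZMod.val_zero, ZMod.val_one] at h3
    omega
  have hex : (∃ t, Mixed (clu m hw.symm D) t) := hE _ _ hHc hne
  have hmem : Mixed (clu m hw.symm D) (tInf (clu m hw.symm D)) :=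
    Nat.sInf_mem (s := {t : ℕ | Mixed (clu m hw.symm D) t}) hex
  have hleast : IsLeast {t : ℕ | Mixed (LG s h b) t} (tInf (LG s h b)) :=
    ⟨Nat.sInf_mem (s := {t : ℕ | Mixed (LG s h b) t}) ⟨_, hCm⟩, fun _ ht => Nat.sInf_le ht⟩
  refine ⟨(L → ZMod 5) × L, ((L → ZMod 5) × L) × ZMod (D + 1), inferInstance, inferInstance,
    inferInstance, inferInstance, LG s h b, clu m hw.symm D, tInf (LG s h b),
    tInf (clu m hw.symm D), hGc, hHc, hGt, hGd,
    hHd, hHq, hleast, ⟨hmem, fun _ ht => Nat.sInf_le ht⟩, ?_⟩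
  have hL0 : (0 : ℝ) < Fintype.card L := by
    have : 0 < Fintype.card L := Fintype.card_pos_iff.mpr ⟨1⟩
    exact_mod_cast this
  have h1 : tInf (LG s h b) ≤ Cu * Fintype.card L := Nat.sInf_le hCm
  have h1' : (tInf (LG s h b) : ℝ) ≤ Cu * Fintype.card L := by exact_mod_cast h1
  have h2 : c * M * Fintype.card L < (tInf (clu m hw.symm D) : ℝ) := by
    by_contra hle
    push Not at hle
    obtain ⟨o, ho⟩ := hPt _ hle
    have h3 := hHm (tInf (clu m hw.symm D)) E o hmem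
    have hV0 : (0 : ℝ) < Fintype.card ((L → ZMod 5) × L) := by
      have : 0 < Fintype.card ((L → ZMod 5) × L) := Fintype.card_pos_iff.mpr ⟨(0, 1)⟩
      exact_mod_cast this
    have h4 : 4 * (E.card : ℝ) ≤ Fintype.card ((L → ZMod 5) × L) := by exact_mod_cast hEc
    have h5 : 5 / 4 * (E.card : ℝ) / Fintype.card ((L → ZMod 5) × L) ≤ 5 / 16 := by
      rw [div_le_iff₀ hV0]
      linarith
    linarith
  have h6 : C * Cu < c * M := by
    rw [div_lt_iff₀ hc] at hM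
    linarith
  calc C * (tInf (LG s h b) : ℝ) ≤ C * (Cu * Fintype.card L) :=
        mul_le_mul_of_nonneg_left h1' hC0.le
    _ = C * Cu * Fintype.card L := by ring
    _ < c * M * Fintype.card L := mul_lt_mul_of_pos_right h6 hL0
    _ < _ := h2

/-- Part F -/
theorem part_F (hA : S_A) (hB : S_B) (hC : S_C) (hP : S_P) (hG : S_G) (hH : S_H) (hE : S_E) :
    S_F := by
  obtain ⟨b, D, hb, h⟩ := part_F2 hA hB hC hP hG hH hE
  refine ⟨1, b, 20, D, le_rfl, hb, fun C hC0 => ?_⟩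
  obtain ⟨V, V', i1, i2, i3, i4, G, G', t, t', h1, h2, h3, h4, h5, h6, h7, h8, h9⟩ := h C hC0
  refine ⟨V, V', i1, i2, i3, i4, G, G', h1, h2, h3, h4, fun x => (h5 x).le, h6, ?_⟩
  have e1 : tInf G = t := h7.csInf_eq
  have e2 : tInf G' = t' := h8.csInf_eq
  rw [e1, e2]
  exact h9

end Pool.Agent.P8H84.MX
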