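import Pool.Agent.P8H84.MX.Defs

/-!
# Part H: the cluster graph (project MX, MP_50f558_pr)
-/

set_option autoImplicit false

namespace Pool.Agent.P8H84.MX

open Finset

namespace HH

variable {D : ℕ}

theorem card_val_lt {M : ℕ} (hM : M ≤ D + 1) :
    (univ.filter fun k : ZMod (D + 1) => k.val < M).card = M := by
  have h : (univ.filter fun k : ZMod (D + 1) => k.val < M).card = (range M).card := by
    refine Finset.card_nbij' (fun k => k.val) (fun i => (i : ZMod (D + 1))) ?_ ?_ ?_ ?_
    · intro k hk
      simpa using hk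
    · intro i hi
      have hi' : i < M := by simpa using hi
      have h1 : ((i : ZMod (D + 1))).val = i := ZMod.val_cast_of_lt (by omega)
      simp [h1, hi']
    · intro k hk
      simp
    · intro i hi
      have hi' : i < M := by simpa using hi
      exact ZMod.val_cast_of_lt (by omega)
  rw [h, card_range]

theorem card_add_val_lt {M : ℕ} (hM : M ≤ D + 1) (j : ZMod (D + 1)) :
    (univ.filter fun k : ZMod (D + 1) => (j + k).val < M).card = M := by
  refine Eq.trans ?_ (card_val_lt hM)
  refine Finset.card_nbij' (fun k => j + k) (fun k => k - j) ?_ ?_ ?_ ?_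
  · intro k hk
    simpa using hk
  · intro k hk
    simpa using hk
  · intro k hk
    simp
  · intro k hk
    simp

theorem card_inner {r : ℕ} (hr : Even r) (hr2 : r ≤ D) (j : ZMod (D + 1)) :
    (univ.filter fun k : ZMod (D + 1) =>
      j ≠ k ∧ (2 * (j - k).val ≤ r ∨ 2 * (k - j).val ≤ r)).card = r := by
  obtain ⟨s, hs⟩ := hr
  have h1 : (univ.filter fun k : ZMod (D + 1) =>
      j ≠ k ∧ (2 * (j - k).val ≤ r ∨ 2 * (k - j).val ≤ r)).card
      = (Icc 1 s ∪ Icc (D + 1 - s) D).card := by
    refine Finset.card_nbij' (fun k => (k - j).val) (fun i => (i : ZMod (D + 1)) + j) ?_ ?_ ?_ ?_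
    · intro k hk
      simp only [coe_filter, mem_univ, true_and, Set.mem_setOf_eq] at hk
      obtain ⟨hne, hk⟩ := hk
      have hd : k - j ≠ 0 := sub_ne_zero.2 (Ne.symm hne)
      have h2 : (j - k).val = D + 1 - (k - j).val := by
        have := ZMod.neg_val (k - j)
        rw [if_neg hd, neg_sub] at this
        exact this
      have h3 : (k - j).val < D + 1 := ZMod.val_lt _
      have h4 : (k - j).val ≠ 0 := by
        rw [Ne, ZMod.val_eq_zero]; exact hd
      simp only [coe_union, coe_Icc, Set.mem_union, Set.mem_Icc]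
      rw [h2] at hk
      omega
    · intro i hi
      simp only [coe_union, coe_Icc, Set.mem_union, Set.mem_Icc] at hi
      have hi0 : i ≠ 0 := by omega
      have hilt : i < D + 1 := by omega
      have hval : ((i : ZMod (D + 1))).val = i := ZMod.val_cast_of_lt hilt
      have hd : (i : ZMod (D + 1)) ≠ 0 := by
        intro h
        rw [h, ZMod.val_zero] at hval
        exact hi0 hval.symm
      have h2 : (-(i : ZMod (D + 1))).val = D + 1 - i := by
        have := ZMod.neg_val (i : ZMod (D + 1))
        rw [if_neg hd, hval] at this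
        exact this
      simp only [coe_filter, mem_univ, true_and, Set.mem_setOf_eq]
      refine ⟨?_, ?_⟩
      · intro h
        apply hd
        have : (i : ZMod (D + 1)) + j = 0 + j := by rw [zero_add]; exact h.symm
        exact add_right_cancel this
      · have e1 : j - ((i : ZMod (D + 1)) + j) = -(i : ZMod (D + 1)) := by ring
        have e2 : ((i : ZMod (D + 1)) + j) - j = (i : ZMod (D + 1)) := by ring
        rw [e1, e2, h2, hval]
        omega
    · intro k hk
      simp
    · intro i hi
      simp only [coe_union, coe_Icc, Set.mem_union, Set.mem_Icc] at hi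
      have hilt : i < D + 1 := by omega
      have hval : ((i : ZMod (D + 1))).val = i := ZMod.val_cast_of_lt hilt
      have e2 : ((i : ZMod (D + 1)) + j) - j = (i : ZMod (D + 1)) := by ring
      simp only [e2, hval]
  rw [h1, card_union_of_disjoint, Nat.card_Icc, Nat.card_Icc]
  · omega
  · rw [Finset.disjoint_left]
    intro x hx hx'
    rw [mem_Icc] at hx hx'
    omega

variable {V : Type} [Fintype V] [DecidableEq V] {G : SimpleGraph V} {m : V → V → ℕ}

theorem m_self (hw : Weighting G m D) (a : V) : m a a = 0 := by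
  have h := hw.pos a a
  by_contra h0
  exact G.loopless.irrefl a (h.1 (Nat.pos_of_ne_zero h0))

theorem m_le (hw : Weighting G m D) (a c : V) : m a c ≤ D := by
  have h := hw.tot a
  have h2 : m a c ≤ ∑ c, m a c := Finset.single_le_sum (fun _ _ => Nat.zero_le _) (mem_univ c)
  omega

theorem even_intDeg (hw : Weighting G m D) (a : V) : Even (intDeg m D a) := by
  unfold intDeg
  have h1 : Even (∑ b, m a b) := Finset.even_sum _ (fun b _ => hw.even a b)
  have h2 := hw.tot a
  rw [Nat.even_sub (by omega)]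
  exact ⟨fun _ => h1, fun _ => hw.evenD⟩

open Classical in
/-- number of neighbours of `(a, j)` in the cluster of `c` -/
theorem cnt (hw : Weighting G m D) (a c : V) (j : ZMod (D + 1)) :
    (univ.filter fun k : ZMod (D + 1) => (clu m hw.symm D).Adj (a, j) (c, k)).card =
      if a = c then intDeg m D a else m a c := by
  by_cases hac : a = c
  · subst hac
    rw [if_pos rfl, ← card_inner (even_intDeg hw a) (Nat.sub_le _ _ : intDeg m D a ≤ D) j]
    congr 1
    ext k
    simp [clu]
  · rw [if_neg hac]
    have h0 : m a c ≤ D + 1 := (m_le hw a c).trans (Nat.le_succ D)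
    rw [← card_add_val_lt h0 j]
    rw [card_add_val_lt h0 j]
    have h1 := card_add_val_lt h0 j
    rw [← h1]
    rw [h1]
    conv_rhs => rw [← h1]
    congr 1
    ext k
    simp [clu, hac]

theorem sum_cnt (hw : Weighting G m D) (a : V) (F : V → ℝ) :
    ∑ c, ((if a = c then intDeg m D a else m a c : ℕ) : ℝ) * F c =
      ((D : ℝ) - ∑ c, (m a c : ℝ)) * F a + ∑ c, (m a c : ℝ) * F c := by
  have h1 : ∀ c, ((if a = c then intDeg m D a else m a c : ℕ) : ℝ) * F c =
      (if a = c then (intDeg m D a : ℝ) * F c else 0) + (m a c : ℝ) * F c := by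
    intro c
    by_cases hac : a = c
    · subst hac
      simp [m_self hw a]
    · simp [hac]
  rw [Finset.sum_congr rfl (fun c _ => h1 c), Finset.sum_add_distrib]
  congr 1
  rw [Finset.sum_ite_eq]
  simp only [mem_univ, if_true]
  congr 1
  unfold intDeg
  have h2 := hw.tot a
  rw [Nat.cast_sub (by omega)]
  push_cast
  rfl

theorem D_pos (hw : Weighting G m D) [Nonempty V] : 2 ≤ D := by
  obtain ⟨a⟩ := ‹Nonempty V›
  have := hw.tot a
  omega

open Classical in
/-- sums over the neighbours of functions of the cluster -/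
theorem sum_adj (hw : Weighting G m D) (p : V × ZMod (D + 1)) (F : V → ℝ) :
    ∑ q, (if (clu m hw.symm D).Adj p q then F q.1 else 0) =
      ((D : ℝ) - ∑ c, (m p.1 c : ℝ)) * F p.1 + ∑ c, (m p.1 c : ℝ) * F c := by
  obtain ⟨a, j⟩ := p
  rw [← sum_cnt hw a F, Fintype.sum_prod_type]
  refine Finset.sum_congr rfl (fun c _ => ?_)
  rw [← cnt hw a c j, ← Finset.sum_filter]
  show ∑ _k ∈ (univ.filter fun k : ZMod (D + 1) => (clu m hw.symm D).Adj (a, j) (c, k)), F c = _
  rw [Finset.sum_const, nsmul_eq_mul]

theorem deg_eq (hw : Weighting G m D) (p : V × ZMod (D + 1)) :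
    Nat.card ((clu m hw.symm D).neighborSet p) = D := by
  classical
  have h := sum_adj hw p (fun _ => 1)
  have h1 : ∑ q, (if (clu m hw.symm D).Adj p q then (1 : ℝ) else 0) = (D : ℝ) := by
    rw [h]; simp
  rw [← Finset.sum_filter, Finset.sum_const, nsmul_eq_mul, mul_one] at h1
  have h2 : (univ.filter fun q => (clu m hw.symm D).Adj p q).card = D := by exact_mod_cast h1
  refine Eq.trans ?_ h2
  rw [Nat.card_eq_fintype_card]
  exact Fintype.card_subtype _

open Classical in
theorem deg_eq' (hw : Weighting G m D) (p : V × ZMod (D + 1)) :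
    (clu m hw.symm D).degree p = D := by
  rw [← SimpleGraph.card_neighborSet_eq_degree, ← Nat.card_eq_fintype_card]
  exact deg_eq hw p

/-! ### connectedness and distances -/

theorem adj_succ (hw : Weighting G m D) (a : V) (j : ZMod (D + 1)) :
    (clu m hw.symm D).Adj (a, j) (a, j + 1) := by
  have h2 := hw.tot a
  have hD : 2 ≤ D := by omega
  haveI : Fact (1 < D + 1) := ⟨by omega⟩
  have hv : (1 : ZMod (D + 1)).val = 1 := ZMod.val_one (D + 1)
  refine Or.inr ⟨rfl, ?_, Or.inr ?_⟩
  · intro h
    have h3 : (1 : ZMod (D + 1)) = 0 := by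
      have h4 : j + 0 = j + 1 := by rw [add_zero]; exact h
      exact (add_left_cancel h4).symm
    rw [h3, ZMod.val_zero] at hv
    exact absurd hv (by norm_num)
  · have e : (j + 1) - j = (1 : ZMod (D + 1)) := by ring
    show 2 * ((j + 1) - j).val ≤ _
    rw [e, hv]
    show 2 * 1 ≤ D - ∑ b, m a b
    omega

theorem adj_zero (hw : Weighting G m D) {a c : V} (h : G.Adj a c) :
    (clu m hw.symm D).Adj (a, 0) (c, 0) := by
  refine Or.inl ⟨h.ne, ?_⟩
  show ((0 : ZMod (D + 1)) + 0).val < m a c
  rw [add_zero, ZMod.val_zero]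
  exact (hw.pos a c).2 h

/-- the zero section -/
def sec (hw : Weighting G m D) : G →g (clu m hw.symm D) where
  toFun a := (a, 0)
  map_rel' h := adj_zero hw h

theorem walk_cluster (hw : Weighting G m D) (a : V) (n : ℕ) :
    ∃ w : (clu m hw.symm D).Walk (a, 0) (a, (n : ZMod (D + 1))), w.length = n := by
  induction n with
  | zero =>
    refine ⟨SimpleGraph.Walk.nil.copy rfl (by simp), ?_⟩
    simp
  | succ n ih =>
    obtain ⟨w, hw'⟩ := ih
    refine ⟨(w.concat (adj_succ hw a n)).copy rfl (by simp), ?_⟩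
    simp [hw']

theorem exists_walk (hw : Weighting G m D) (a : V) (j : ZMod (D + 1)) :
    ∃ w : (clu m hw.symm D).Walk (a, 0) (a, j), w.length ≤ D := by
  obtain ⟨w, hw'⟩ := walk_cluster hw a j.val
  refine ⟨w.copy rfl (by simp), ?_⟩
  simp only [SimpleGraph.Walk.length_copy, hw']
  have := ZMod.val_lt j
  omega

/-- projection of walks -/
theorem proj_walk (hw : Weighting G m D) {p q : V × ZMod (D + 1)}
    (w : (clu m hw.symm D).Walk p q) : ∃ w' : G.Walk p.1 q.1, w'.length ≤ w.length := by
  induction w with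
  | nil => exact ⟨SimpleGraph.Walk.nil, le_refl _⟩
  | @cons u v x h p ih =>
    obtain ⟨w', hw'⟩ := ih
    rcases h with ⟨h1, h2⟩ | ⟨h1, h2, h3⟩
    · refine ⟨SimpleGraph.Walk.cons ((hw.pos _ _).1 (lt_of_le_of_lt (Nat.zero_le _) h2)) w', ?_⟩
      simp only [SimpleGraph.Walk.length_cons]
      omega
    · refine ⟨w'.copy h1.symm rfl, ?_⟩
      simp only [SimpleGraph.Walk.length_copy, SimpleGraph.Walk.length_cons]
      omega

theorem reach (hw : Weighting G m D) (hG : G.Connected) (p q : V × ZMod (D + 1)) :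
    (clu m hw.symm D).Reachable p q := by
  obtain ⟨a, j⟩ := p
  obtain ⟨c, k⟩ := q
  have h1 : (clu m hw.symm D).Reachable (a, 0) (a, j) := (exists_walk hw a j).choose.reachable
  have h2 : (clu m hw.symm D).Reachable (c, 0) (c, k) := (exists_walk hw c k).choose.reachable
  have h3 : (clu m hw.symm D).Reachable (a, 0) (c, 0) := (hG.preconnected a c).map (sec hw)
  exact (h1.symm.trans h3).trans h2

theorem connected (hw : Weighting G m D) (hG : G.Connected) : (clu m hw.symm D).Connected := by
  haveI : Nonempty V := hG.nonempty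
  exact { preconnected := fun p q => reach hw hG p q
          nonempty := ⟨(Classical.arbitrary V, 0)⟩ }

theorem quasi (hw : Weighting G m D) (hG : G.Connected) :
    QuasiIsometric 1 (D + 1) G (clu m hw.symm D) := by
  refine ⟨fun a => (a, 0), ?_, ?_⟩
  · intro x y
    have hD : (0 : ℝ) ≤ D := Nat.cast_nonneg D
    constructor
    · obtain ⟨w, hw1⟩ := (reach hw hG (x, 0) (y, 0)).exists_walk_length_eq_dist
      obtain ⟨w', hw2⟩ := proj_walk hw w
      have h1 : G.dist x y ≤ (clu m hw.symm D).dist (x, 0) (y, 0) :=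
        (SimpleGraph.dist_le w').trans (hw2.trans hw1.le)
      have h2 : (G.dist x y : ℝ) ≤ ((clu m hw.symm D).dist (x, 0) (y, 0) : ℝ) := by exact_mod_cast h1
      rw [inv_one, one_mul]
      linarith
    · obtain ⟨w, hw1⟩ := (hG.preconnected x y).exists_walk_length_eq_dist
      have h1 : (clu m hw.symm D).dist (x, 0) (y, 0) ≤ G.dist x y := by
        have := SimpleGraph.dist_le (w.map (sec hw))
        rw [SimpleGraph.Walk.length_map, hw1] at this
        exact this
      have h2 : ((clu m hw.symm D).dist (x, 0) (y, 0) : ℝ) ≤ (G.dist x y : ℝ) := by exact_mod_cast h1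
      rw [one_mul]
      linarith
  · rintro ⟨a, j⟩
    refine ⟨a, ?_⟩
    obtain ⟨w, hw1⟩ := exists_walk hw a j
    have h1 : (clu m hw.symm D).dist (a, 0) (a, j) ≤ D := (SimpleGraph.dist_le w).trans hw1
    have h2 : ((clu m hw.symm D).dist (a, 0) (a, j) : ℝ) ≤ D := by exact_mod_cast h1
    linarith

/-! ### lumping -/

theorem walk_apply (hw : Weighting G m D) (p q : V × ZMod (D + 1)) [Nonempty V] :
    walk (clu m hw.symm D) p q = (if p = q then 1 / 2 else 0) +
      (open Classical in if (clu m hw.symm D).Adj p q then 1 / (2 * (D : ℝ)) else 0) := by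
  classical
  unfold walk
  rw [Matrix.of_apply]
  by_cases hpq : p = q
  · subst hpq
    simp
  · rw [if_neg hpq]
    have hd : ((clu m hw.symm D).degree p : ℝ) = D := by
      have := deg_eq' hw p
      exact_mod_cast this
    by_cases h : (clu m hw.symm D).Adj p q
    · simp only [h, if_true, hpq, if_false, zero_add]
      congr 2
    · simp [h, hpq]

theorem lump_one (hw : Weighting G m D) [Nonempty V] (F : V → ℝ) :
    (walk (clu m hw.symm D)).mulVec (fun p => F p.1) = fun p => KK m D F p.1 := by
  classical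
  funext p
  have hD : (2 : ℝ) ≤ D := by exact_mod_cast D_pos hw
  show ∑ q, walk (clu m hw.symm D) p q * F q.1 = _
  have h1 : ∀ q, walk (clu m hw.symm D) p q * F q.1 =
      (if p = q then 1 / 2 * F q.1 else 0) +
        1 / (2 * (D : ℝ)) * (if (clu m hw.symm D).Adj p q then F q.1 else 0) := by
    intro q
    rw [walk_apply hw p q]
    split_ifs <;> ring
  rw [Finset.sum_congr rfl (fun q _ => h1 q), Finset.sum_add_distrib, Finset.sum_ite_eq,
    ← Finset.mul_sum]
  simp only [mem_univ, if_true]
  have h2 := sum_adj hw p F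
  rw [h2]
  unfold KK
  have h3 : ∑ c, (m p.1 c : ℝ) / (2 * D) * (F c - F p.1) =
      1 / (2 * D) * ((∑ c, (m p.1 c : ℝ) * F c) - (∑ c, (m p.1 c : ℝ)) * F p.1) := by
    rw [Finset.sum_mul, ← Finset.sum_sub_distrib, Finset.mul_sum]
    refine Finset.sum_congr rfl (fun c _ => ?_)
    ring
  rw [h3]
  have hD0 : (D : ℝ) ≠ 0 := by positivity
  field_simp
  ring

theorem lump (hw : Weighting G m D) [Nonempty V] (F : V → ℝ) (t : ℕ) :
    ((walk (clu m hw.symm D)) ^ t).mulVec (fun p => F p.1) = fun p => ((KK m D)^[t] F) p.1 := by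
  induction t generalizing F with
  | zero => simp
  | succ t ih =>
    rw [pow_succ, ← Matrix.mulVec_mulVec, lump_one hw F, ih (KK m D F)]
    rfl

theorem stat_eq (hw : Weighting G m D) [Nonempty V] (p : V × ZMod (D + 1)) :
    statLaw (clu m hw.symm D) p = 1 / ((Fintype.card V : ℝ) * (D + 1)) := by
  classical
  unfold statLaw
  have h1 := SimpleGraph.sum_degrees_eq_twice_card_edges (clu m hw.symm D)
  have h2 : ∑ v, (clu m hw.symm D).degree v = Fintype.card (V × ZMod (D + 1)) * D := by
    rw [Finset.sum_congr rfl (fun v _ => deg_eq' hw v)]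
    simp
  have h3 : Fintype.card (V × ZMod (D + 1)) = Fintype.card V * (D + 1) := by
    rw [Fintype.card_prod, ZMod.card]
  have h4 : (2 * ((clu m hw.symm D).edgeFinset.card : ℝ)) = (Fintype.card V : ℝ) * (D + 1) * D := by
    rw [h2, h3] at h1
    have : ((Fintype.card V * (D + 1) * D : ℕ) : ℝ) = ((2 * (clu m hw.symm D).edgeFinset.card : ℕ) : ℝ) := by
      exact_mod_cast h1
    push_cast at this
    linarith
  have hd : ((clu m hw.symm D).degree p : ℝ) = D := by
    exact_mod_cast deg_eq' hw p
  have hD : (2 : ℝ) ≤ D := by exact_mod_cast D_pos hw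
  have hD0 : (D : ℝ) ≠ 0 := by positivity
  have hV : (0 : ℝ) < Fintype.card V := by exact_mod_cast Fintype.card_pos
  have h5 : (D : ℝ) / ((Fintype.card V : ℝ) * (D + 1) * D) = 1 / ((Fintype.card V : ℝ) * (D + 1)) := by
    field_simp
  rw [← h5]
  rw [← h4, ← hd]

theorem lumped_bound (hw : Weighting G m D) [Nonempty V] (t : ℕ) (E : Finset V) (o : V)
    (hm : Mixed (clu m hw.symm D) t) :
    ((KK m D)^[t] (fun v => if v ∈ E then 1 else 0)) o ≤ 5 / 4 * (E.card : ℝ) / Fintype.card V := by
  have h1 := congrFun (lump hw (fun v => if v ∈ E then (1 : ℝ) else 0) t) (o, 0)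
  simp only at h1
  rw [← h1]
  show ∑ q, ((walk (clu m hw.symm D)) ^ t) (o, 0) q * (if q.1 ∈ E then (1 : ℝ) else 0) ≤ _
  have hV : (0 : ℝ) < Fintype.card V := by exact_mod_cast Fintype.card_pos
  have hpos : (0 : ℝ) < (Fintype.card V : ℝ) * (D + 1) := by positivity
  have h2 : ∀ q, ((walk (clu m hw.symm D)) ^ t) (o, 0) q ≤ 5 / 4 * (1 / ((Fintype.card V : ℝ) * (D + 1))) := by
    intro q
    have h3 := (abs_le.1 (hm (o, 0) q)).2
    rw [stat_eq hw q] at h3
    have h4 : ((walk (clu m hw.symm D)) ^ t) (o, 0) q / (1 / ((Fintype.card V : ℝ) * (D + 1))) ≤ 5 / 4 := by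
      linarith
    rwa [div_le_iff₀ (by positivity)] at h4
  have h5 : ∀ q : V × ZMod (D + 1), ((walk (clu m hw.symm D)) ^ t) (o, 0) q * (if q.1 ∈ E then (1 : ℝ) else 0) ≤
      5 / 4 * (1 / ((Fintype.card V : ℝ) * (D + 1))) * (if q.1 ∈ E then (1 : ℝ) else 0) := by
    intro q
    refine mul_le_mul_of_nonneg_right (h2 q) ?_
    split_ifs <;> norm_num
  refine (Finset.sum_le_sum (fun q _ => h5 q)).trans (le_of_eq ?_)
  have h6 : ∑ q : V × ZMod (D + 1), (if q.1 ∈ E then (1 : ℝ) else 0) = (D + 1) * E.card := by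
    rw [Fintype.sum_prod_type]
    have h7 : ∀ x : V, ∑ _y : ZMod (D + 1), (if x ∈ E then (1 : ℝ) else 0) =
        (D + 1) * (if x ∈ E then (1 : ℝ) else 0) := by
      intro x
      rw [Finset.sum_const, nsmul_eq_mul, Finset.card_univ, ZMod.card]
      push_cast
      ring
    rw [Finset.sum_congr rfl (fun x _ => h7 x), ← Finset.mul_sum, Finset.sum_ite_mem,
      Finset.univ_inter, Finset.sum_const, nsmul_eq_mul, mul_one]
  rw [← Finset.mul_sum, h6]
  field_simp

end HH

/-- Part H. -/
theorem part_H : S_H := by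
  intro V _ _ G m D hw hG
  haveI : Nonempty V := hG.nonempty
  exact ⟨HH.connected hw hG, HH.deg_eq hw, HH.quasi hw hG,
    fun t E o hm => HH.lumped_bound hw t E o hm⟩

end Pool.Agent.P8H84.MX
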