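import Pool.Agent.P8H84.MX.Defs2

/-!
# Part P1b: averaging (project MX, MP_50f558_pr)
-/

set_option autoImplicit false

namespace Pool.Agent.P8H84.MX

open Finset

namespace P1b

variable {L : Type} [Group L] [Fintype L] [DecidableEq L]

/-- `Pm` as a linear map -/
noncomputable def PmL (s : Fin 12 → L) (κ : ℝ) : (L → ℝ) →ₗ[ℝ] (L → ℝ) where
  toFun := Pm s κ
  map_add' f g := by
    funext l
    simp only [Pm, Pi.add_apply]
    have : ∑ i, (f (s i * l) + g (s i * l) - (f l + g l)) =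
        ∑ i, (f (s i * l) - f l) + ∑ i, (g (s i * l) - g l) := by
      rw [← Finset.sum_add_distrib]
      refine Finset.sum_congr rfl (fun i _ => ?_)
      ring
    rw [this]
    ring
  map_smul' c f := by
    funext l
    simp only [Pm, Pi.smul_apply, smul_eq_mul, RingHom.id_apply]
    have : ∑ i, (c * f (s i * l) - c * f l) = c * ∑ i, (f (s i * l) - f l) := by
      rw [Finset.mul_sum]
      refine Finset.sum_congr rfl (fun i _ => ?_)
      ring
    rw [this]
    ring

theorem iter_eq (s : Fin 12 → L) (κ : ℝ) (k : ℕ) (f : L → ℝ) :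
    (Pm s κ)^[k] f = ((PmL s κ) ^ k) f := by
  rw [Module.End.pow_apply]
  rfl

theorem iter_apply (s : Fin 12 → L) (κ : ℝ) (k : ℕ) (f : L → ℝ) (l : L) :
    ((Pm s κ)^[k] f) l = ∑ l', pk s κ k l l' * f l' := by
  have hf : f = ∑ l', f l' • (fun x : L => if x = l' then (1 : ℝ) else 0) := by
    funext x
    rw [Finset.sum_apply]
    simp
  have h1 : ((Pm s κ)^[k] f) =
      ∑ l', f l' • ((Pm s κ)^[k] (fun x : L => if x = l' then (1 : ℝ) else 0)) := by
    rw [iter_eq]
    conv_lhs => rw [hf]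
    rw [map_sum]
    refine Finset.sum_congr rfl (fun l' _ => ?_)
    rw [map_smul, iter_eq]
  rw [h1, Finset.sum_apply]
  refine Finset.sum_congr rfl (fun l' _ => ?_)
  rw [Pi.smul_apply, smul_eq_mul, mul_comm]
  rfl

theorem Pm_add (s : Fin 12 → L) (κ : ℝ) (f g : L → ℝ) :
    Pm s κ (f + g) = Pm s κ f + Pm s κ g := (PmL s κ).map_add f g

theorem Pm_sum (s : Fin 12 → L) (κ : ℝ) {ι : Type} (S : Finset ι) (f : ι → L → ℝ) :
    Pm s κ (∑ i ∈ S, f i) = ∑ i ∈ S, Pm s κ (f i) := map_sum (PmL s κ) f S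

theorem Pm_const (s : Fin 12 → L) (κ c : ℝ) : Pm s κ (fun _ => c) = fun _ => c := by
  funext l
  simp [Pm]

theorem sum_Pm (s : Fin 12 → L) (κ : ℝ) (f : L → ℝ) : ∑ l, Pm s κ f l = ∑ l, f l := by
  unfold Pm
  rw [Finset.sum_add_distrib, ← Finset.mul_sum, Finset.sum_comm]
  have h : ∀ i : Fin 12, ∑ l, (f (s i * l) - f l) = 0 := by
    intro i
    rw [Finset.sum_sub_distrib]
    have := Equiv.sum_comp (Equiv.mulLeft (s i)) f
    simp only [Equiv.coe_mulLeft] at this
    rw [this, sub_self]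
  rw [Finset.sum_eq_zero (fun i _ => h i), mul_zero, add_zero]

theorem avg_iter (s : Fin 12 → L) (κ : ℝ) (k : ℕ) (f : L → ℝ) :
    avg ((Pm s κ)^[k] f) = avg f := by
  induction k generalizing f with
  | zero => rfl
  | succ k ih =>
    rw [Function.iterate_succ_apply, ih]
    unfold avg
    rw [sum_Pm]

theorem avg_add (f g : L → ℝ) : avg (f + g) = avg f + avg g := by
  unfold avg
  simp only [Pi.add_apply, Finset.sum_add_distrib, add_div]

theorem avg_sum {ι : Type} (S : Finset ι) (f : ι → L → ℝ) :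
    avg (∑ i ∈ S, f i) = ∑ i ∈ S, avg (f i) := by
  unfold avg
  simp only [Finset.sum_apply]
  rw [Finset.sum_comm, Finset.sum_div]

theorem avg_const (c : ℝ) : avg (fun _ : L => c) = c := by
  unfold avg
  have : (Fintype.card L : ℝ) ≠ 0 := by
    exact_mod_cast Fintype.card_ne_zero
  rw [Finset.sum_const, nsmul_eq_mul, Finset.card_univ]
  field_simp

theorem avg_nonneg {f : L → ℝ} (hf : ∀ l, 0 ≤ f l) : 0 ≤ avg f := by
  unfold avg
  exact div_nonneg (Finset.sum_nonneg fun l _ => hf l) (Nat.cast_nonneg _)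

/-- Duhamel formula -/
theorem duhamel (s : Fin 12 → L) (κ : ℝ) (T : ℕ) (u g : ℕ → L → ℝ) (c : ℝ)
    (h0 : ∀ l, u 0 l = c) (hs : ∀ t < T, ∀ l, u (t + 1) l = Pm s κ (u t) l + g t l)
    (t : ℕ) (ht : t ≤ T) :
    u t = (fun _ => c) + ∑ τ ∈ range t, (Pm s κ)^[t - 1 - τ] (g τ) := by
  induction t with
  | zero => funext l; simp [h0]
  | succ t ih =>
    have h1 := ih (by omega)
    have h2 : u (t + 1) = Pm s κ (u t) + g t := by
      funext l
      exact hs t (by omega) l
    rw [h2, h1, Pm_add, Pm_const, Pm_sum, Finset.sum_range_succ, add_assoc]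
    congr 2
    · refine Finset.sum_congr rfl (fun τ hτ => ?_)
      rw [mem_range] at hτ
      have e : t + 1 - 1 - τ = (t - 1 - τ) + 1 := by omega
      rw [e, Function.iterate_succ_apply']
    · have e : t + 1 - 1 - t = 0 := by omega
      rw [e]
      rfl

/-- the bound for the deviation from the average -/
theorem dev (s : Fin 12 → L) (κ : ℝ) (T : ℕ) (F : Finset L) (u g : ℕ → L → ℝ)
    (h0 : ∀ l l', u 0 l = u 0 l') (hs : ∀ t < T, ∀ l, u (t + 1) l = Pm s κ (u t) l + g t l)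
    (hg : ∀ t < T, ∀ l ∉ F, g t l = 0) (t : ℕ) (ht : t ≤ T) (l : L) :
    |u t l - avg (u t)| ≤ ∑ τ ∈ range t, ∑ l' ∈ F,
      |pk s κ (t - 1 - τ) l l' - 1 / (Fintype.card L : ℝ)| * |g τ l'| := by
  have h1 := duhamel s κ T u g (u 0 1) (fun l => h0 l 1) hs t ht
  have h2 : avg (u t) = u 0 1 + ∑ τ ∈ range t, avg (g τ) := by
    rw [h1, avg_add, avg_const, avg_sum]
    congr 1
    exact Finset.sum_congr rfl (fun τ _ => avg_iter s κ _ _)
  have h3 : u t l - avg (u t) = ∑ τ ∈ range t, ∑ l' ∈ F,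
      (pk s κ (t - 1 - τ) l l' - 1 / (Fintype.card L : ℝ)) * g τ l' := by
    rw [h2, h1, Pi.add_apply, Finset.sum_apply, add_sub_add_left_eq_sub,
      ← Finset.sum_sub_distrib]
    refine Finset.sum_congr rfl (fun τ hτ => ?_)
    rw [mem_range] at hτ
    rw [iter_apply]
    unfold avg
    rw [Finset.sum_div, ← Finset.sum_sub_distrib]
    symm
    rw [← Finset.sum_subset (Finset.subset_univ F)]
    · refine Finset.sum_congr rfl (fun l' _ => ?_)
      ring
    · intro l' _ hl'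
      rw [hg τ (by omega) l' hl']
      simp
  rw [h3]
  refine (Finset.abs_sum_le_sum_abs _ _).trans (Finset.sum_le_sum fun τ _ => ?_)
  refine (Finset.abs_sum_le_sum_abs _ _).trans (Finset.sum_le_sum fun l' _ => ?_)
  rw [abs_mul]

end P1b

/-- Part P1b. -/
theorem part_P1b : S_P1b := by
  intro X L ι _ _ _ _ _ s κ F Dk CG α A ε Y T u g f hκ hκ2 hDk hker hCG hu0 hus hg hu hf hα hA hε
    hbd hY hq
  set K : ℝ := ((Fintype.card ι : ℕ) : ℝ) with hK
  have hK0 : 0 ≤ K := Nat.cast_nonneg _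
  have hY0 : 0 ≤ Y := by
    refine le_trans ?_ (hY 0 (Nat.zero_le _))
    exact Finset.sum_nonneg fun i _ => Finset.sum_nonneg fun x _ =>
      mul_nonneg (hf i x) (P1b.avg_nonneg (fun l => hu 0 (Nat.zero_le _) x l))
  have hCG0 : 0 ≤ CG := by simpa using hCG 0
  set q : ℝ := α * (A + K * ε) * CG with hqdef
  have hq0 : 0 ≤ q := by positivity
  intro t
  induction t using Nat.strong_induction_on with
  | _ t ih =>
  intro ht
  -- the bounds at the earlier times
  have ih' : ∀ τ, ∃ z : ι → ℝ, τ < t → ((∀ i, 0 ≤ z i) ∧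
    (∀ i, ∀ l ∈ F, ∑ x, f i x * |u τ x l - avg (u τ x)| ≤ z i) ∧
    ∑ i, z i ≤ 2 * q * Y) := by
    intro τ
    by_cases hτ : τ < t
    · obtain ⟨z, hz⟩ := ih τ hτ (by omega)
      exact ⟨z, fun _ => hz⟩
    · exact ⟨fun _ => 0, fun h => absurd h hτ⟩
  choose z hz using ih'
  set Yi : ℕ → ι → ℝ := fun τ i => ∑ x, f i x * avg (u τ x) with hYi
  have hYi0 : ∀ τ ≤ T, ∀ i, 0 ≤ Yi τ i := fun τ hτ i => Finset.sum_nonneg fun x _ =>
      mul_nonneg (hf i x) (P1b.avg_nonneg (fun l => hu τ hτ x l))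
  -- the bound for the source
  have hsrc : ∀ τ < t, ∀ i, ∀ l ∈ F, ∑ x, f i x * |g τ x l| ≤
      α * (A * (Yi τ i + z τ i) + ε * ∑ j, (Yi τ j + z τ j)) := by
    intro τ hτ i l hl
    refine (hbd τ (by omega) i l hl).trans ?_
    have h1 : ∀ j, ∑ x, f j x * u τ x l ≤ Yi τ j + z τ j := by
      intro j
      refine le_trans ?_ (add_le_add_right ((hz τ hτ).2.1 j l hl) _)
      rw [hYi]
      simp only
      rw [← Finset.sum_add_distrib]
      refine Finset.sum_le_sum (fun x _ => ?_)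
      rw [← mul_add]
      refine mul_le_mul_of_nonneg_left ?_ (hf j x)
      have := le_abs_self (u τ x l - avg (u τ x))
      linarith
    refine mul_le_mul_of_nonneg_left ?_ hα
    refine add_le_add (mul_le_mul_of_nonneg_left (h1 i) hA) (mul_le_mul_of_nonneg_left ?_ hε)
    exact Finset.sum_le_sum fun j _ => h1 j
  set B : ℕ → ι → ℝ := fun τ i => α * (A * (Yi τ i + z τ i) + ε * ∑ j, (Yi τ j + z τ j)) with hB
  have hB0 : ∀ τ < t, ∀ i, 0 ≤ B τ i := by
    intro τ hτ i
    have h1 : ∀ j, 0 ≤ Yi τ j + z τ j := fun j =>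
      add_nonneg (hYi0 τ (by omega) j) ((hz τ hτ).1 j)
    have h2 : 0 ≤ ∑ j, (Yi τ j + z τ j) := Finset.sum_nonneg fun j _ => h1 j
    have h3 := h1 i
    rw [hB]
    simp only
    positivity
  refine ⟨fun i => ∑ τ ∈ range t, Dk (t - 1 - τ) * B τ i, ?_, ?_, ?_⟩
  · intro i
    refine Finset.sum_nonneg fun τ hτ => ?_
    exact mul_nonneg (hDk _) (hB0 τ (by simpa using hτ) i)
  · intro i l hl
    have h1 : ∀ x, |u t x l - avg (u t x)| ≤ ∑ τ ∈ range t, ∑ l' ∈ F,
        |pk s κ (t - 1 - τ) l l' - 1 / (Fintype.card L : ℝ)| * |g τ x l'| := fun x =>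
      P1b.dev s κ T F (fun τ => u τ x) (fun τ => g τ x) (hu0 x) (fun τ hτ l => hus τ hτ x l)
        (fun τ hτ l hl => hg τ hτ x l hl) t ht l
    have h2 : ∑ x, f i x * |u t x l - avg (u t x)| ≤ ∑ x, f i x * ∑ τ ∈ range t, ∑ l' ∈ F,
        |pk s κ (t - 1 - τ) l l' - 1 / (Fintype.card L : ℝ)| * |g τ x l'| :=
      Finset.sum_le_sum fun x _ => mul_le_mul_of_nonneg_left (h1 x) (hf i x)
    refine h2.trans ?_
    have h3 : ∑ x, f i x * ∑ τ ∈ range t, ∑ l' ∈ F,
        |pk s κ (t - 1 - τ) l l' - 1 / (Fintype.card L : ℝ)| * |g τ x l'| =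
        ∑ τ ∈ range t, ∑ l' ∈ F, |pk s κ (t - 1 - τ) l l' - 1 / (Fintype.card L : ℝ)| *
          ∑ x, f i x * |g τ x l'| := by
      simp only [Finset.mul_sum]
      rw [Finset.sum_comm]
      refine Finset.sum_congr rfl (fun τ _ => ?_)
      rw [Finset.sum_comm]
      refine Finset.sum_congr rfl (fun l' _ => ?_)
      refine Finset.sum_congr rfl (fun x _ => ?_)
      ring
    rw [h3]
    refine Finset.sum_le_sum fun τ hτ => ?_
    have hτ' : τ < t := by simpa using hτ
    have h4 : ∑ l' ∈ F, |pk s κ (t - 1 - τ) l l' - 1 / (Fintype.card L : ℝ)| *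
          ∑ x, f i x * |g τ x l'| ≤
        ∑ l' ∈ F, |pk s κ (t - 1 - τ) l l' - 1 / (Fintype.card L : ℝ)| * B τ i :=
      Finset.sum_le_sum fun l' hl' =>
        mul_le_mul_of_nonneg_left (hsrc τ hτ' i l' hl') (abs_nonneg _)
    refine h4.trans ?_
    rw [← Finset.sum_mul]
    exact mul_le_mul_of_nonneg_right (hker _ l hl) (hB0 τ hτ' i)
  · rw [Finset.sum_comm]
    have h1 : ∀ τ ∈ range t, ∑ i, Dk (t - 1 - τ) * B τ i ≤
        Dk (t - 1 - τ) * (α * (A + K * ε) * (2 * Y)) := by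
      intro τ hτ
      have hτ' : τ < t := by simpa using hτ
      rw [← Finset.mul_sum]
      refine mul_le_mul_of_nonneg_left ?_ (hDk _)
      have h2 : ∑ i, B τ i = α * (A + K * ε) * ∑ j, (Yi τ j + z τ j) := by
        rw [hB]
        simp only
        rw [← Finset.mul_sum, Finset.sum_add_distrib, ← Finset.mul_sum, Finset.sum_const,
          nsmul_eq_mul, Finset.card_univ]
        rw [hK]
        ring
      rw [h2]
      refine mul_le_mul_of_nonneg_left ?_ (by positivity)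
      rw [Finset.sum_add_distrib]
      have h3 : ∑ j, Yi τ j ≤ Y := hY τ (by omega)
      have h4 := (hz τ hτ').2.2
      have h5 : 2 * q * Y ≤ Y := by nlinarith
      linarith
    refine (Finset.sum_le_sum h1).trans ?_
    rw [← Finset.sum_mul, Finset.sum_range_reflect]
    have h6 := hCG t
    have h7 : (∑ j ∈ range t, Dk j) * (α * (A + K * ε) * (2 * Y)) ≤
        CG * (α * (A + K * ε) * (2 * Y)) := mul_le_mul_of_nonneg_right h6 (by positivity)
    refine h7.trans (le_of_eq ?_)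
    rw [hqdef]
    ring

end Pool.Agent.P8H84.MX
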