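import Pool.Agent.P8H84.MX.PartP4bA

/-!
# Project MX, part P4b: the weighting of the edges and the projection of the walk
-/

set_option autoImplicit false
set_option linter.unusedSectionVars false

namespace Pool.Agent.P8H84.MX

open Finset

namespace P4b

section weighting
variable {N : ℕ} [NeZero N] {L : Type} [Group L] [Fintype L] [DecidableEq L]
  {Nd : Type} [Fintype Nd] [DecidableEq Nd]
variable (sc : Nd → ℕ) (ow : Nd → Nd) (J : ℕ) (b : ZMod N → ZMod 5) (Lc : ℕ)
variable (s : Fin 12 → L) (h : L) (r : Nd → L) (W : ℕ)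

open Classical in
/-- the weight of the toggle `e` at the vertex `a` -/
noncomputable def mtog (a : (L → ZMod 5) × L) (e : Bool × ZMod 5) : ℕ :=
  if H : ∃ qk : Nd × ZMod N, a.2 = h ^ qk.2.val * r qk.1 then
    2 * wtg sc ow J b Lc (xi h r N a.1) H.choose.1 (e.1, H.choose.2, e.2)
  else 40000000

/-- the weight of the edge from `a` to `c` -/
noncomputable def mW (a c : (L → ZMod 5) × L) : ℕ :=
  if a = c then 0 else
    ∑ i : Fin 12, (if c = (a.1, s i * a.2) then 2 * W else 0) +
    ∑ e : Bool × ZMod 5, (if c = (a.1 + tog h b a.2 e, a.2) then mtog sc ow J b Lc h r a e else 0)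

lemma mtog_out (a : (L → ZMod 5) × L) (e : Bool × ZMod 5)
    (hl : ∀ (q : Nd) (k : ZMod N), a.2 ≠ h ^ k.val * r q) :
    mtog sc ow J b Lc h r a e = 40000000 := by
  unfold mtog
  rw [dif_neg]
  rintro ⟨qk, hqk⟩
  exact hl _ _ hqk

variable {sc ow J b Lc s h r W}

lemma mtog_in (hr : ∀ (p q : Nd) (i j : ZMod N), h ^ i.val * r p = h ^ j.val * r q → p = q ∧ i = j)
    (a : (L → ZMod 5) × L) (e : Bool × ZMod 5) (q : Nd) (k : ZMod N)
    (hl : a.2 = h ^ k.val * r q) :
    mtog sc ow J b Lc h r a e = 2 * wtg sc ow J b Lc (xi h r N a.1) q (e.1, k, e.2) := by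
  have H : ∃ qk : Nd × ZMod N, a.2 = h ^ qk.2.val * r qk.1 := ⟨(q, k), hl⟩
  unfold mtog
  rw [dif_pos H]
  obtain ⟨h2, h3⟩ := hr _ _ _ _ (hl.symm.trans H.choose_spec)
  rw [← h2, ← h3]

lemma mtog_bd (hJ : 0 < J) (a : (L → ZMod 5) × L) (e : Bool × ZMod 5) :
    1 ≤ mtog sc ow J b Lc h r a e ∧ mtog sc ow J b Lc h r a e ≤ 40000000 ∧
      Even (mtog sc ow J b Lc h r a e) := by
  unfold mtog
  split_ifs with H
  · obtain ⟨h1, h2⟩ := wtg_bd sc ow J b Lc hJ (xi h r N a.1) H.choose.1 (e.1, H.choose.2, e.2)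
    exact ⟨by omega, by omega, even_two_mul _⟩
  · exact ⟨by norm_num, le_refl _, ⟨20000000, rfl⟩⟩

lemma mtog_symm (ho : orderOf h = N)
    (hr : ∀ (p q : Nd) (i j : ZMod N), h ^ i.val * r p = h ^ j.val * r q → p = q ∧ i = j)
    (x : L → ZMod 5) (l : L) (τ : Bool) (z : ZMod 5) :
    mtog sc ow J b Lc h r (x + tog h b l (τ, z), l) (τ, -z) =
      mtog sc ow J b Lc h r (x, l) (τ, z) := by
  by_cases H : ∃ qk : Nd × ZMod N, l = h ^ qk.2.val * r qk.1
  · obtain ⟨⟨q, k⟩, hl⟩ := H
    simp only at hl
    rw [mtog_in hr _ _ q k hl, mtog_in hr _ _ q k hl]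
    simp only
    rw [hl, xi_in b ho r hr, wtg_symm]
  · rw [mtog_out, mtog_out]
    · intro q k hl
      exact H ⟨(q, k), hl⟩
    · intro q k hl
      exact H ⟨(q, k), hl⟩

lemma mW_symm {lam : ℝ} (hM : MarkerGroup lam N L s h)
    (hr : ∀ (p q : Nd) (i j : ZMod N), h ^ i.val * r p = h ^ j.val * r q → p = q ∧ i = j)
    (a c : (L → ZMod 5) × L) :
    mW sc ow J b Lc s h r W a c = mW sc ow J b Lc s h r W c a := by
  unfold mW
  by_cases hac : a = c
  · rw [if_pos hac, if_pos hac.symm]
  · rw [if_neg hac, if_neg (Ne.symm hac)]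
    congr 1
    · choose σ hσ using hM.inv
      have hinv : Function.Involutive σ := by
        intro i
        apply hM.inj
        rw [hσ, hσ, inv_inv]
      rw [← Equiv.sum_comp (hinv.toPerm σ)]
      apply sum_congr rfl
      intro i _
      rw [Function.Involutive.coe_toPerm]
      have h1 : (c = (a.1, s (σ i) * a.2)) ↔ (a = (c.1, s i * c.2)) := by
        rw [hσ]
        constructor
        · intro hc
          rw [hc]
          simp
        · intro hc
          rw [hc]
          simp
      simp only [h1]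
    · let neg : Bool × ZMod 5 → Bool × ZMod 5 := fun e => (e.1, -e.2)
      have hneg : Function.Involutive neg := by
        intro e
        simp [neg]
      rw [← Equiv.sum_comp (hneg.toPerm neg)]
      apply sum_congr rfl
      rintro ⟨τ, z⟩ _
      rw [Function.Involutive.coe_toPerm]
      simp only [neg]
      by_cases hc : a = (c.1 + tog h b c.2 (τ, z), c.2)
      · rw [if_pos hc, if_pos]
        · rw [hc]
          exact mtog_symm hM.ord hr c.1 c.2 τ z
        · rw [hc]
          simp only
          rw [tog_neg]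
          simp
      · rw [if_neg hc, if_neg]
        intro hc'
        apply hc
        rw [hc']
        simp only
        rw [tog_neg]
        simp

lemma mW_sum (a : (L → ZMod 5) × L) (f : (L → ZMod 5) × L → ℝ) :
    ∑ c, (mW sc ow J b Lc s h r W a c : ℝ) * (f c - f a) =
      ∑ i : Fin 12, (2 * W : ℝ) * (f (a.1, s i * a.2) - f a) +
      ∑ e : Bool × ZMod 5, (mtog sc ow J b Lc h r a e : ℝ) *
        (f (a.1 + tog h b a.2 e, a.2) - f a) := by
  have h1 : ∀ c, (mW sc ow J b Lc s h r W a c : ℝ) * (f c - f a) =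
      ∑ i : Fin 12, (if c = (a.1, s i * a.2) then (2 * W : ℝ) * (f c - f a) else 0) +
      ∑ e : Bool × ZMod 5, (if c = (a.1 + tog h b a.2 e, a.2) then
        (mtog sc ow J b Lc h r a e : ℝ) * (f c - f a) else 0) := by
    intro c
    unfold mW
    by_cases hac : a = c
    · rw [if_pos hac]
      subst hac
      simp
    · rw [if_neg hac]
      push_cast
      rw [add_mul, sum_mul, sum_mul]
      congr 1
      · apply sum_congr rfl
        intro i _
        split_ifs <;> simp
      · apply sum_congr rfl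
        intro e _
        split_ifs <;> simp
  rw [sum_congr rfl fun c _ => h1 c, sum_add_distrib]
  congr 1
  · rw [sum_comm]
    apply sum_congr rfl
    intro i _
    rw [sum_ite_eq' univ]
    simp
  · rw [sum_comm]
    apply sum_congr rfl
    intro e _
    rw [sum_ite_eq' univ]
    simp

lemma mW_tot (hJ : 0 < J) (a : (L → ZMod 5) × L) :
    ∑ c, mW sc ow J b Lc s h r W a c + 2 ≤ DD W := by
  have h1 : ∀ c, mW sc ow J b Lc s h r W a c ≤
      ∑ i : Fin 12, (if c = (a.1, s i * a.2) then 2 * W else 0) +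
      ∑ e : Bool × ZMod 5, (if c = (a.1 + tog h b a.2 e, a.2) then
        (if e.2 = 0 then 0 else 40000000) else 0) := by
    intro c
    unfold mW
    split_ifs with hac
    · exact Nat.zero_le _
    · apply Nat.add_le_add_left
      apply sum_le_sum
      rintro ⟨τ, z⟩ _
      by_cases hc : c = (a.1 + tog h b a.2 (τ, z), a.2)
      · rw [if_pos hc, if_pos hc]
        by_cases hz : z = 0
        · exfalso
          apply hac
          rw [hc, hz, tog_zero]
          simp
        · simp only [hz, if_false]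
          exact (mtog_bd hJ a (τ, z)).2.1
      · rw [if_neg hc, if_neg hc]
  have h2 : ∑ c, mW sc ow J b Lc s h r W a c ≤ 24 * W + 320000000 := by
    refine (sum_le_sum fun c _ => h1 c).trans ?_
    rw [sum_add_distrib]
    have e1 : ∑ c : (L → ZMod 5) × L, ∑ i : Fin 12,
        (if c = (a.1, s i * a.2) then 2 * W else 0) = 24 * W := by
      rw [sum_comm]
      rw [sum_congr rfl fun i _ => sum_ite_eq' univ (a.1, s i * a.2) fun _ => 2 * W]
      simp
      ring
    have e2 : ∑ c : (L → ZMod 5) × L, ∑ e : Bool × ZMod 5,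
        (if c = (a.1 + tog h b a.2 e, a.2) then (if e.2 = 0 then 0 else 40000000) else 0) =
          320000000 := by
      rw [sum_comm]
      rw [sum_congr rfl fun e _ => sum_ite_eq' univ (a.1 + tog h b a.2 e, a.2)
        fun _ => (if e.2 = 0 then 0 else 40000000)]
      simp only [mem_univ, if_true]
      rfl
    rw [e1, e2]
  unfold DD
  omega

lemma mW_pos (hJ : 0 < J) (hW : 0 < W) {lam : ℝ} (hM : MarkerGroup lam N L s h)
    (a c : (L → ZMod 5) × L) :
    0 < mW sc ow J b Lc s h r W a c ↔ (LG s h b).Adj a c := by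
  unfold mW
  constructor
  · intro hp
    by_cases hac : a = c
    · rw [if_pos hac] at hp
      exact absurd hp (lt_irrefl 0)
    rw [if_neg hac] at hp
    refine ⟨hac, ?_⟩
    rcases Nat.add_pos_iff_pos_or_pos.1 hp with h1 | h1
    · obtain ⟨i, _, hi⟩ := exists_ne_zero_of_sum_ne_zero h1.ne'
      left
      by_cases hc : c = (a.1, s i * a.2)
      · exact ⟨by rw [hc], Or.inl ⟨i, by rw [hc]⟩⟩
      · rw [if_neg hc] at hi
        exact absurd rfl hi
    · obtain ⟨e, _, he⟩ := exists_ne_zero_of_sum_ne_zero h1.ne'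
      right
      by_cases hc : c = (a.1 + tog h b a.2 e, a.2)
      · exact ⟨by rw [hc], e, by rw [hc]⟩
      · rw [if_neg hc] at he
        exact absurd rfl he
  · rintro ⟨hac, h1⟩
    rw [if_neg hac]
    rcases h1 with ⟨h1, h2⟩ | ⟨h1, e, he⟩
    · have : ∃ i, c = (a.1, s i * a.2) := by
        rcases h2 with ⟨i, hi⟩ | ⟨i, hi⟩
        · exact ⟨i, Prod.ext h1.symm hi⟩
        · obtain ⟨j, hj⟩ := hM.inv i
          refine ⟨j, Prod.ext h1.symm ?_⟩
          simp only
          rw [hj, hi]
          simp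
      obtain ⟨i, hi⟩ := this
      apply Nat.add_pos_left
      apply sum_pos' (fun _ _ => Nat.zero_le _)
      refine ⟨i, mem_univ _, ?_⟩
      rw [if_pos hi]
      omega
    · apply Nat.add_pos_right
      apply sum_pos' (fun _ _ => Nat.zero_le _)
      refine ⟨e, mem_univ _, ?_⟩
      have hc : c = (a.1 + tog h b a.2 e, a.2) := Prod.ext he h1.symm
      rw [if_pos hc]
      exact (mtog_bd hJ a e).1

lemma mW_even (hJ : 0 < J) (a c : (L → ZMod 5) × L) :
    Even (mW sc ow J b Lc s h r W a c) := by
  unfold mW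
  split_ifs
  · exact Even.zero
  · apply Even.add
    · apply even_sum
      intro i _
      split_ifs
      · exact even_two_mul _
      · exact Even.zero
    · apply even_sum
      intro e _
      split_ifs
      · exact (mtog_bd hJ a e).2.2
      · exact Even.zero

lemma weighting_mW (hJ : 0 < J) (hW : 0 < W) {lam : ℝ} (hM : MarkerGroup lam N L s h)
    (hr : ∀ (p q : Nd) (i j : ZMod N), h ^ i.val * r p = h ^ j.val * r q → p = q ∧ i = j) :
    Weighting (LG s h b) (mW sc ow J b Lc s h r W) (DD W) where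
  symm := mW_symm hM hr
  even := mW_even hJ
  pos := mW_pos hJ hW hM
  tot := mW_tot hJ
  evenD := by
    unfold DD
    exact ⟨12 * W + 160000001, by ring⟩

lemma KK_eq {lam : ℝ} (hM : MarkerGroup lam N L s h)
    (hr : ∀ (p q : Nd) (i j : ZMod N), h ^ i.val * r p = h ^ j.val * r q → p = q ∧ i = j)
    (F : (Nd → ZMod N → ZMod 5) → L → ℝ) (a : (L → ZMod 5) × L) :
    KK (mW sc ow J b Lc s h r W) (DD W) (fun v => F (xi h r N v.1) v.2) a =
      KF sc ow J b Lc s h r W (DD W) F (xi h r N a.1) a.2 := by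
  have hD : (0 : ℝ) < DD W := by
    have : 0 < DD W := by unfold DD; omega
    exact_mod_cast this
  unfold KK KF Pm
  rw [add_assoc]
  congr 1
  have h1 : ∑ c, (mW sc ow J b Lc s h r W a c : ℝ) / (2 * DD W) *
      (F (xi h r N c.1) c.2 - F (xi h r N a.1) a.2) =
      1 / (2 * DD W) * ∑ c, (mW sc ow J b Lc s h r W a c : ℝ) *
        (F (xi h r N c.1) c.2 - F (xi h r N a.1) a.2) := by
    rw [mul_sum]
    apply sum_congr rfl
    intro c _
    ring
  rw [h1, mW_sum a (fun v => F (xi h r N v.1) v.2), mul_add]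
  congr 1
  · rw [mul_sum, mul_sum]
    apply sum_congr rfl
    intro i _
    field_simp
  · unfold TF
    by_cases H : ∃ qk : Nd × ZMod N, a.2 = h ^ qk.2.val * r qk.1
    · obtain ⟨⟨q, k⟩, hl⟩ := H
      simp only at hl
      rw [sum_eq_single q]
      · rw [sum_eq_single k]
        · rw [if_pos hl, mul_sum]
          apply sum_congr rfl
          intro e _
          rw [mtog_in hr a e q k hl]
          simp only
          have h2 : xi h r N (a.1 + tog h b a.2 e) = tgl b (xi h r N a.1) q (e.1, k, e.2) := by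
            rw [hl, xi_in b hM.ord r hr]
          rw [h2]
          push_cast
          field_simp
        · intro k' _ hk
          rw [if_neg]
          intro hc
          rw [hl] at hc
          exact hk (hr _ _ _ _ hc).2.symm
        · intro hc
          exact absurd (mem_univ _) hc
      · intro q' _ hq
        apply sum_eq_zero
        intro k' _
        rw [if_neg]
        intro hc
        rw [hl] at hc
        exact hq (hr _ _ _ _ hc).1.symm
      · intro hc
        exact absurd (mem_univ _) hc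
    · have hl : ∀ (q : Nd) (k : ZMod N), a.2 ≠ h ^ k.val * r q := fun q k hl => H ⟨(q, k), hl⟩
      have h2 : ∑ q, ∑ k : ZMod N, (if a.2 = h ^ k.val * r q then
          ∑ e : Bool × ZMod 5,
            (wtg sc ow J b Lc (xi h r N a.1) q (e.1, k, e.2) : ℝ) / (DD W : ℝ) *
              (F (tgl b (xi h r N a.1) q (e.1, k, e.2)) a.2 - F (xi h r N a.1) a.2) else 0) = 0 := by
        apply sum_eq_zero
        intro q _
        apply sum_eq_zero
        intro k _
        rw [if_neg (hl q k)]
      rw [h2]
      have h3 : ∑ e : Bool × ZMod 5, (mtog sc ow J b Lc h r a e : ℝ) *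
          (F (xi h r N (a.1 + tog h b a.2 e)) a.2 - F (xi h r N a.1) a.2) = 0 := by
        apply sum_eq_zero
        intro e _
        rw [xi_out b hM.ord r a.2 hl, sub_self, mul_zero]
      simp only
      rw [h3, mul_zero]

end weighting

end P4b

/-- Part P4b -/
theorem part_P4b : S_P4b := by
  intro lam N _ L _ _ _ s h b hM M Nd _ _ sc ow _ J Lc W r hJ hW hr
  exact ⟨P4b.mW sc ow J b Lc s h r W, P4b.weighting_mW hJ hW hM hr, P4b.KK_eq hM hr⟩

end Pool.Agent.P8H84.MX
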