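import Pool.Agent.P8H84.MX.Defs3

/-!
# Project MX, part P4b (first half): the weights and the projection to the blocks
-/

set_option autoImplicit false
set_option linter.unusedSectionVars false

namespace Pool.Agent.P8H84.MX

open Finset

namespace P4b

section om
variable {Nd : Type} [Fintype Nd] [DecidableEq Nd]
variable (sc : Nd → ℕ) (ow : Nd → Nd) (J : ℕ)

lemma cl_nonneg (z : ℝ) : 0 ≤ cl z := le_max_left _ _
lemma cl_le_one (z : ℝ) : cl z ≤ 1 := max_le zero_le_one (min_le_left _ _)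

lemma g1_nonneg (n : Nd → ℕ) (i : ℕ) : 0 ≤ g1 sc J n i := cl_nonneg _
lemma g1_le_one (n : Nd → ℕ) (i : ℕ) : g1 sc J n i ≤ 1 := cl_le_one _
lemma g2_nonneg (n : Nd → ℕ) (i : ℕ) : 0 ≤ g2 sc J n i := cl_nonneg _
lemma g2_le_one (n : Nd → ℕ) (i : ℕ) : g2 sc J n i ≤ 1 := cl_le_one _

lemma G1_nonneg (n : Nd → ℕ) (k : ℕ) : 0 ≤ G1 sc J n k :=
  prod_nonneg fun _ _ => g1_nonneg sc J n _
lemma G1_le_one (n : Nd → ℕ) (k : ℕ) : G1 sc J n k ≤ 1 :=
  prod_le_one (fun _ _ => g1_nonneg sc J n _) fun _ _ => g1_le_one sc J n _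

lemma mu_nonneg (n : Nd → ℕ) (i : ℕ) : 0 ≤ mu sc J n i :=
  mul_nonneg (prod_nonneg fun _ _ => g2_nonneg sc J n _) (sub_nonneg.2 (g2_le_one sc J n _))

lemma sum_mu (n : Nd → ℕ) (k : ℕ) :
    ∑ i ∈ range k, mu sc J n i = 1 - ∏ j ∈ range k, g2 sc J n j := by
  induction k with
  | zero => simp
  | succ k ih =>
    rw [sum_range_succ, ih, prod_range_succ, mu]
    ring

lemma g1_eq_one (hJ : 0 < J) (n : Nd → ℕ) (i : ℕ) (h : g2 sc J n i ≠ 0) : g1 sc J n i = 1 := by
  have hJ' : (0 : ℝ) < J := by exact_mod_cast hJ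
  unfold g2 cl at h
  unfold g1 cl
  have h1 : 0 < ((NN sc n i : ℝ) - 32 * J) / (16 * J) := by
    by_contra hc
    push Not at hc
    apply h
    rw [max_eq_left]
    exact (min_le_right _ _).trans hc
  have h2 : 0 < (NN sc n i : ℝ) - 32 * J := by
    by_contra hc
    push Not at hc
    exact absurd h1 (not_lt.2 (div_nonpos_of_nonpos_of_nonneg hc (by positivity)))
  have h3 : 1 ≤ ((NN sc n i : ℝ) - 16 * J) / (16 * J) := by
    rw [le_div_iff₀ (by positivity)]
    linarith
  rw [min_eq_left h3]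
  norm_num

lemma one_sub_G1 (hJ : 0 < J) (n : Nd → ℕ) (k : ℕ) :
    (1 - G1 sc J n k) * ∑ i ∈ range k, mu sc J n i = 1 - G1 sc J n k := by
  rw [sum_mu]
  by_cases h : ∏ j ∈ range k, g2 sc J n j = 0
  · rw [h]; ring
  · have h1 : G1 sc J n k = 1 := by
      unfold G1
      apply prod_eq_one
      intro i hi
      apply g1_eq_one sc J hJ
      intro h0
      exact h (prod_eq_zero hi h0)
    rw [h1]; ring

lemma del_pos : 0 < del := by unfold del; norm_num
lemma del_le_one : del ≤ 1 := by unfold del; norm_num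

lemma cc_bd (n : Nd → ℕ) (p : Nd) (i : ℕ) : del ≤ cc sc ow n p i ∧ cc sc ow n p i ≤ 1 := by
  unfold cc
  split_ifs
  · exact ⟨del_le_one, le_refl _⟩
  · exact ⟨le_refl _, del_le_one⟩

lemma rr_bd (n : Nd → ℕ) (p : Nd) : del ≤ rr ow n p ∧ rr ow n p ≤ 1 := by
  unfold rr
  split_ifs
  · exact ⟨del_le_one, le_refl _⟩
  · exact ⟨le_refl _, del_le_one⟩

lemma om_bd (hJ : 0 < J) (n : Nd → ℕ) (p : Nd) :
    del ≤ om sc ow J n p ∧ om sc ow J n p ≤ 1 := by
  have hs := one_sub_G1 sc J hJ n (sc p)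
  have hG0 := G1_nonneg sc J n (sc p)
  have hG1 := G1_le_one sc J n (sc p)
  have hr := rr_bd ow n p
  unfold om
  constructor
  · have h1 : ∑ i ∈ range (sc p), (1 - G1 sc J n (sc p)) * mu sc J n i * del ≤
        ∑ i ∈ range (sc p), (1 - G1 sc J n (sc p)) * mu sc J n i * cc sc ow n p i := by
      apply sum_le_sum
      intro i _
      exact mul_le_mul_of_nonneg_left (cc_bd sc ow n p i).1
        (mul_nonneg (sub_nonneg.2 hG1) (mu_nonneg sc J n i))
    have h2 : ∑ i ∈ range (sc p), (1 - G1 sc J n (sc p)) * mu sc J n i * del =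
        (1 - G1 sc J n (sc p)) * del := by
      rw [← sum_mul, ← mul_sum, hs]
    have h3 : G1 sc J n (sc p) * del ≤ G1 sc J n (sc p) * rr ow n p :=
      mul_le_mul_of_nonneg_left hr.1 hG0
    linarith
  · have h1 : ∑ i ∈ range (sc p), (1 - G1 sc J n (sc p)) * mu sc J n i * cc sc ow n p i ≤
        ∑ i ∈ range (sc p), (1 - G1 sc J n (sc p)) * mu sc J n i * 1 := by
      apply sum_le_sum
      intro i _
      exact mul_le_mul_of_nonneg_left (cc_bd sc ow n p i).2
        (mul_nonneg (sub_nonneg.2 hG1) (mu_nonneg sc J n i))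
    have h2 : ∑ i ∈ range (sc p), (1 - G1 sc J n (sc p)) * mu sc J n i * 1 =
        (1 - G1 sc J n (sc p)) := by
      rw [← sum_mul, ← mul_sum, hs, mul_one]
    have h3 : G1 sc J n (sc p) * rr ow n p ≤ G1 sc J n (sc p) * 1 :=
      mul_le_mul_of_nonneg_left hr.2 hG0
    linarith

lemma wi_bd (hJ : 0 < J) (n : Nd → ℕ) (p : Nd) :
    1 ≤ wi sc ow J n p ∧ wi sc ow J n p ≤ 20000000 := by
  obtain ⟨h1, h2⟩ := om_bd sc ow J hJ n p
  unfold wi
  unfold del at h1
  constructor
  · rw [Nat.one_le_ceil_iff]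
    linarith
  · rw [Nat.ceil_le]
    push_cast
    linarith

end om

section chain
variable {N : ℕ} [NeZero N] {L : Type} [Group L] [Fintype L] [DecidableEq L]
  {Nd : Type} [Fintype Nd] [DecidableEq Nd]
variable (sc : Nd → ℕ) (ow : Nd → Nd) (J : ℕ) (b : ZMod N → ZMod 5) (Lc : ℕ)

lemma tv_neg (k : ZMod N) (τ : Bool) (z : ZMod 5) : tv b (τ, k, -z) = - tv b (τ, k, z) := by
  unfold tv
  cases τ <;> simp

lemma tv_zero (k : ZMod N) (τ : Bool) : tv b (τ, k, 0) = 0 := by
  unfold tv
  cases τ <;> simp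

lemma tgl_tgl (ξ : Nd → ZMod N → ZMod 5) (q : Nd) (k : ZMod N) (τ : Bool) (z : ZMod 5) :
    tgl b (tgl b ξ q (τ, k, z)) q (τ, k, -z) = ξ := by
  unfold tgl
  rw [tv_neg]
  simp

lemma wtg_bd (hJ : 0 < J) (ξ : Nd → ZMod N → ZMod 5) (q : Nd) (e : Bool × ZMod N × ZMod 5) :
    1 ≤ wtg sc ow J b Lc ξ q e ∧ wtg sc ow J b Lc ξ q e ≤ 20000000 := wi_bd sc ow J hJ _ q

lemma wtg_symm (ξ : Nd → ZMod N → ZMod 5) (q : Nd) (k : ZMod N) (τ : Bool) (z : ZMod 5) :
    wtg sc ow J b Lc (tgl b ξ q (τ, k, z)) q (τ, k, -z) = wtg sc ow J b Lc ξ q (τ, k, z) := by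
  unfold wtg
  rw [tgl_tgl]
  congr 1
  funext p
  exact min_comm _ _

variable {h : L}

lemma hpow_add (ho : orderOf h = N) (i j : ZMod N) : h ^ i.val * h ^ j.val = h ^ (i + j).val := by
  have h1 : ∀ a : ℕ, h ^ (a % N) = h ^ a := by
    intro a
    have := pow_mod_orderOf h a
    rwa [ho] at this
  rw [← pow_add, ZMod.val_add, h1]

lemma hpow_inj (ho : orderOf h = N) (i j : ZMod N) (hij : h ^ i.val = h ^ j.val) : i = j := by
  have h1 := pow_inj_mod.1 hij
  rw [ho, Nat.mod_eq_of_lt (ZMod.val_lt i), Nat.mod_eq_of_lt (ZMod.val_lt j)] at h1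
  exact ZMod.val_injective N h1

/-- the marker is in none of the cosets: the toggle does not change the blocks -/
lemma xi_out (ho : orderOf h = N) (r : Nd → L) (l : L)
    (hl : ∀ (q : Nd) (k : ZMod N), l ≠ h ^ k.val * r q) (x : L → ZMod 5) (e : Bool × ZMod 5) :
    xi h r N (x + tog h b l e) = xi h r N x := by
  funext q k
  unfold xi
  simp only [Pi.add_apply]
  have : tog h b l e (h ^ k.val * r q) = 0 := by
    unfold tog
    split_ifs
    · have hb : bvec h b l (h ^ k.val * r q) = 0 := by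
        unfold bvec
        apply sum_eq_zero
        intro i _
        rw [if_neg]
        intro hc
        apply hl q (-i + k)
        rw [← hpow_add ho, mul_assoc, hc, ← mul_assoc, hpow_add ho]
        simp
      rw [Pi.smul_apply, hb, smul_zero]
    · rw [Pi.smul_apply, Pi.single_eq_of_ne (Ne.symm (hl q k)), smul_zero]
  rw [this, add_zero]

/-- the marker is in one of the cosets -/
lemma xi_in (ho : orderOf h = N) (r : Nd → L)
    (hr : ∀ (p q : Nd) (i j : ZMod N), h ^ i.val * r p = h ^ j.val * r q → p = q ∧ i = j)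
    (q : Nd) (k : ZMod N) (x : L → ZMod 5) (e : Bool × ZMod 5) :
    xi h r N (x + tog h b (h ^ k.val * r q) e) = tgl b (xi h r N x) q (e.1, k, e.2) := by
  funext q' k'
  unfold xi tgl
  simp only [Pi.add_apply]
  by_cases hq : q' = q
  · subst hq
    rw [Function.update_self]
    simp only [Pi.add_apply]
    congr 1
    unfold tog tv
    simp only
    split_ifs
    · rw [Pi.smul_apply, Pi.smul_apply]
      congr 1
      unfold bvec
      rw [sum_eq_single (k' - k)]
      · rw [if_pos]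
        rw [← mul_assoc, hpow_add ho, sub_add_cancel]
      · intro i _ hi
        rw [if_neg]
        intro hc
        apply hi
        rw [← mul_assoc, hpow_add ho] at hc
        rw [(hr _ _ _ _ hc).2]
        ring
      · intro hc
        exact absurd (mem_univ _) hc
    · rw [Pi.smul_apply, Pi.smul_apply]
      congr 1
      by_cases hk : k' = k
      · subst hk
        rw [Pi.single_eq_same, Pi.single_eq_same]
      · rw [Pi.single_eq_of_ne hk, Pi.single_eq_of_ne]
        intro hc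
        exact hk (hr _ _ _ _ hc).2
  · rw [Function.update_of_ne hq]
    have : tog h b (h ^ k.val * r q) e (h ^ k'.val * r q') = 0 := by
      unfold tog
      split_ifs
      · have hb : bvec h b (h ^ k.val * r q) (h ^ k'.val * r q') = 0 := by
          unfold bvec
          apply sum_eq_zero
          intro i _
          rw [if_neg]
          intro hc
          rw [← mul_assoc, hpow_add ho] at hc
          exact hq (hr _ _ _ _ hc).1
        rw [Pi.smul_apply, hb, smul_zero]
      · rw [Pi.smul_apply, Pi.single_eq_of_ne, smul_zero]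
        intro hc
        exact hq (hr _ _ _ _ hc).1
    rw [this, add_zero]

lemma tog_zero (l : L) (τ : Bool) : tog h b l (τ, 0) = 0 := by
  unfold tog; cases τ <;> simp

lemma tog_neg (l : L) (τ : Bool) (z : ZMod 5) : tog h b l (τ, -z) = - tog h b l (τ, z) := by
  unfold tog; cases τ <;> simp

end chain

end P4b

end Pool.Agent.P8H84.MX
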