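import Pool.Agent.P8H84.MX.Defs4

/-!
# Project MX, part Q1: the size of a set given by one block
-/

set_option autoImplicit false
set_option linter.unusedSectionVars false

namespace Pool.Agent.P8H84.MX

open Finset

section
variable {N : ℕ} [NeZero N] {L : Type} [Group L] [Fintype L] [DecidableEq L]
  {Nd : Type} [Fintype Nd] [DecidableEq Nd] {h : L} {r : Nd → L}

/-- a configuration with a given block -/
noncomputable def lift (h : L) (r : Nd → L) (p : Nd) (a : ZMod N → ZMod 5) : L → ZMod 5 :=
  fun l => ∑ k : ZMod N, if l = h ^ k.val * r p then a k else 0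

lemma xi_lift (hI : Inj h r N) (p : Nd) (a : ZMod N → ZMod 5) :
    xi h r N (lift h r p a) p = a := by
  funext k
  unfold xi lift
  rw [Finset.sum_eq_single k]
  · rw [if_pos rfl]
  · intro k' _ hk
    rw [if_neg]
    intro h1
    exact hk (hI _ _ _ _ h1).2.symm
  · intro h1; exact absurd (Finset.mem_univ _) h1

lemma count (hI : Inj h r N) (p : Nd) (A : Finset (ZMod N → ZMod 5)) :
    5 ^ N * (univ.filter fun x : L → ZMod 5 => xi h r N x p ∈ A).card =
      A.card * Fintype.card (L → ZMod 5) := by
  have h1 : ∀ a : ZMod N → ZMod 5,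
      (univ.filter fun x : L → ZMod 5 => xi h r N x p - a ∈ A).card =
      (univ.filter fun x : L → ZMod 5 => xi h r N x p ∈ A).card := by
    intro a
    apply Finset.card_bij (fun x _ => x - lift h r p a)
    · intro x hx
      rw [Finset.mem_filter] at hx ⊢
      refine ⟨Finset.mem_univ _, ?_⟩
      have h2 : xi h r N (x - lift h r p a) p = xi h r N x p - a := by
        have h3 := xi_lift hI p a
        funext k
        have h4 := congrFun h3 k
        show x (h ^ k.val * r p) - lift h r p a (h ^ k.val * r p) = _
        rw [show lift h r p a (h ^ k.val * r p) = a k from h4]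
        rfl
      rw [h2]; exact hx.2
    · intro x _ y _ hxy
      exact sub_left_injective hxy
    · intro y hy
      refine ⟨y + lift h r p a, ?_, by simp⟩
      rw [Finset.mem_filter] at hy ⊢
      refine ⟨Finset.mem_univ _, ?_⟩
      have h2 : xi h r N (y + lift h r p a) p - a = xi h r N y p := by
        have h3 := xi_lift hI p a
        funext k
        have h4 := congrFun h3 k
        show y (h ^ k.val * r p) + lift h r p a (h ^ k.val * r p) - a k = _
        rw [show lift h r p a (h ^ k.val * r p) = a k from h4, add_sub_cancel_right]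
        rfl
      rw [h2]; exact hy.2
  have h2 : ∀ x : L → ZMod 5,
      (univ.filter fun a : ZMod N → ZMod 5 => xi h r N x p - a ∈ A).card = A.card := by
    intro x
    apply Finset.card_bij (fun a _ => xi h r N x p - a)
    · intro a ha; exact (Finset.mem_filter.1 ha).2
    · intro a _ a' _ haa; exact sub_right_injective haa
    · intro c hc
      refine ⟨xi h r N x p - c, ?_, by abel⟩
      rw [Finset.mem_filter]
      refine ⟨Finset.mem_univ _, ?_⟩
      rw [sub_sub_cancel]; exact hc
  have h3 : ∑ a : ZMod N → ZMod 5,
      (univ.filter fun x : L → ZMod 5 => xi h r N x p - a ∈ A).card =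
      ∑ x : L → ZMod 5, (univ.filter fun a : ZMod N → ZMod 5 => xi h r N x p - a ∈ A).card := by
    simp only [Finset.card_filter]
    exact Finset.sum_comm
  simp only [h1, h2, Finset.sum_const, Finset.card_univ, smul_eq_mul] at h3
  have h4 : Fintype.card (ZMod N → ZMod 5) = 5 ^ N := by
    rw [Fintype.card_fun, ZMod.card, ZMod.card]
  rw [h4] at h3
  rw [h3, mul_comm]

end

theorem part_Q1 : S_Q1 := by
  intro N _ L _ _ _ Nd _ _ h r hI p A hA
  have h1 := count hI p A
  have h2 : (univ.filter fun v : (L → ZMod 5) × L => xi h r N v.1 p ∈ A) =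
      (univ.filter fun x : L → ZMod 5 => xi h r N x p ∈ A) ×ˢ (univ : Finset L) := by
    ext v; simp
  rw [h2, Finset.card_product, Finset.card_univ, Fintype.card_prod, ← mul_assoc]
  refine Nat.mul_le_mul_right _ ?_
  have h5 : 0 < 5 ^ N := by positivity
  apply Nat.le_of_mul_le_mul_left _ h5
  calc 5 ^ N * (4 * (univ.filter fun x : L → ZMod 5 => xi h r N x p ∈ A).card)
      = 4 * (5 ^ N * (univ.filter fun x : L → ZMod 5 => xi h r N x p ∈ A).card) := by ring
    _ = 4 * A.card * Fintype.card (L → ZMod 5) := by rw [h1]; ring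
    _ ≤ 5 ^ N * Fintype.card (L → ZMod 5) := Nat.mul_le_mul_right _ hA

end Pool.Agent.P8H84.MX
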