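import Pool.Agent.P8H84.MX.Defs4

/-!
# Project MX, part Q2: duality
-/

set_option autoImplicit false
set_option linter.unusedSectionVars false

namespace Pool.Agent.P8H84.MX

open Finset

namespace Q2

section
variable {lam : ℝ} {N : ℕ} [NeZero N] {L : Type} [Group L] [Fintype L] [DecidableEq L]
  {Nd : Type} [Fintype Nd] [DecidableEq Nd]
  {sc : Nd → ℕ} {ow : Nd → Nd} {J : ℕ} {b : ZMod N → ZMod 5} {Lc : ℕ}
  {s : Fin 12 → L} {h : L} {r : Nd → L} {W : ℕ}

lemma Pm_sub (κ : ℝ) (f g : L → ℝ) (l : L) :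
    Pm s κ (fun x => f x - g x) l = Pm s κ f l - Pm s κ g l := by
  unfold Pm
  have h1 : ∑ i, (f (s i * l) - g (s i * l) - (f l - g l)) =
      ∑ i, (f (s i * l) - f l) - ∑ i, (g (s i * l) - g l) := by
    rw [← Finset.sum_sub_distrib]
    exact Finset.sum_congr rfl fun i _ => by ring
  rw [h1]
  ring

lemma TF_sub (D : ℕ) (u v : (Nd → ZMod N → ZMod 5) → L → ℝ) (ξ : Nd → ZMod N → ZMod 5) (l : L) :
    TF sc ow J b Lc h r D (fun ξ l => u ξ l - v ξ l) ξ l =
      TF sc ow J b Lc h r D u ξ l - TF sc ow J b Lc h r D v ξ l := by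
  unfold TF
  rw [← Finset.sum_sub_distrib]
  refine Finset.sum_congr rfl fun q _ => ?_
  rw [← Finset.sum_sub_distrib]
  refine Finset.sum_congr rfl fun k _ => ?_
  by_cases hl : l = h ^ k.val * r q
  · simp only [if_pos hl]
    rw [← Finset.sum_sub_distrib]
    exact Finset.sum_congr rfl fun e _ => by ring
  · simp only [if_neg hl, sub_zero]

lemma KF_sub (D : ℕ) (u v : (Nd → ZMod N → ZMod 5) → L → ℝ) (ξ : Nd → ZMod N → ZMod 5) (l : L) :
    KF sc ow J b Lc s h r W D (fun ξ l => u ξ l - v ξ l) ξ l =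
      KF sc ow J b Lc s h r W D u ξ l - KF sc ow J b Lc s h r W D v ξ l := by
  unfold KF
  rw [Pm_sub, TF_sub]
  ring

lemma KF_mono (hI : Inj h r N) (hw : WtOK sc ow J) (u v : (Nd → ZMod N → ZMod 5) → L → ℝ)
    (huv : ∀ ξ l, u ξ l ≤ v ξ l) (ξ : Nd → ZMod N → ZMod 5) (l : L) :
    KF sc ow J b Lc s h r W (DD W) u ξ l ≤ KF sc ow J b Lc s h r W (DD W) v ξ l := by
  have h1 := KF_pos (b := b) (Lc := Lc) (s := s) (W := W) hI hw (fun ξ l => v ξ l - u ξ l)
    (fun ξ l => sub_nonneg.2 (huv ξ l)) ξ l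
  rw [KF_sub] at h1
  linarith

lemma iter_nonneg (hI : Inj h r N) (hw : WtOK sc ow J) (u : (Nd → ZMod N → ZMod 5) → L → ℝ)
    (hu : ∀ ξ l, 0 ≤ u ξ l) (t : ℕ) (ξ : Nd → ZMod N → ZMod 5) (l : L) :
    0 ≤ ((KF sc ow J b Lc s h r W (DD W))^[t] u) ξ l := by
  induction t generalizing ξ l with
  | zero => exact hu ξ l
  | succ t ih =>
    rw [Function.iterate_succ_apply']
    exact KF_pos hI hw _ ih ξ l

lemma sub_le_iter (hI : Inj h r N) (hw : WtOK sc ow J)
    (u : ℕ → (Nd → ZMod N → ZMod 5) → L → ℝ) (v : (Nd → ZMod N → ZMod 5) → L → ℝ)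
    (h0 : ∀ ξ l, u 0 ξ l ≤ v ξ l)
    (hstep : ∀ t ξ l, u (t + 1) ξ l ≤ KF sc ow J b Lc s h r W (DD W) (u t) ξ l)
    (t : ℕ) (ξ : Nd → ZMod N → ZMod 5) (l : L) :
    u t ξ l ≤ ((KF sc ow J b Lc s h r W (DD W))^[t] v) ξ l := by
  induction t generalizing ξ l with
  | zero => exact h0 ξ l
  | succ t ih =>
    rw [Function.iterate_succ_apply']
    exact (hstep t ξ l).trans (KF_mono hI hw _ _ ih ξ l)

/-- the permutation of the generators given by inversion -/
lemma exists_perm (hM : MarkerGroup lam N L s h) :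
    ∃ σ : Fin 12 ≃ Fin 12, ∀ i, s (σ i) = (s i)⁻¹ := by
  choose f hf using hM.inv
  have hinj : Function.Injective f := by
    intro i j hij
    apply hM.inj
    have h1 : (s i)⁻¹ = (s j)⁻¹ := by rw [← hf i, ← hf j, hij]
    exact inv_injective h1
  have hbij : Function.Bijective f := Finite.injective_iff_bijective.mp hinj
  exact ⟨Equiv.ofBijective f hbij, hf⟩

lemma Pm_adj (hM : MarkerGroup lam N L s h) (κ : ℝ) (f g : L → ℝ) :
    ∑ l, f l * Pm s κ g l = ∑ l, g l * Pm s κ f l := by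
  obtain ⟨σ, hσ⟩ := exists_perm hM
  have key : ∀ f g : L → ℝ, ∑ l, f l * Pm s κ g l =
      ∑ l, f l * g l + κ * (∑ i, ∑ l, f l * g (s i * l) - 12 * ∑ l, f l * g l) := by
    intro f g
    unfold Pm
    have h1 : ∀ l, f l * (g l + κ * ∑ i, (g (s i * l) - g l)) =
        f l * g l + κ * (∑ i, f l * g (s i * l) - 12 * (f l * g l)) := by
      intro l
      rw [Finset.sum_sub_distrib, Finset.sum_const, Finset.card_univ, Fintype.card_fin,
        ← Finset.mul_sum]
      simp only [nsmul_eq_mul]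
      push_cast
      ring
    simp only [h1]
    rw [Finset.sum_add_distrib, ← Finset.mul_sum, Finset.sum_sub_distrib, ← Finset.mul_sum,
      Finset.sum_comm]
  rw [key f g, key g f]
  have h2 : ∑ i, ∑ l, f l * g (s i * l) = ∑ i, ∑ l, g l * f (s i * l) := by
    rw [← Equiv.sum_comp σ (fun i => ∑ l, g l * f (s i * l))]
    refine Finset.sum_congr rfl fun i _ => ?_
    rw [← Equiv.sum_comp (Equiv.mulLeft (s i)) (fun l => g l * f (s (σ i) * l))]
    refine Finset.sum_congr rfl fun l _ => ?_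
    simp only [Equiv.coe_mulLeft, hσ i]
    rw [← mul_assoc, inv_mul_cancel, one_mul, mul_comm]
  have h3 : ∑ l, f l * g l = ∑ l, g l * f l := Finset.sum_congr rfl fun l _ => mul_comm _ _
  rw [h2, h3]

lemma KF_adj (hM : MarkerGroup lam N L s h) (D : ℕ) (u F : (Nd → ZMod N → ZMod 5) → L → ℝ) :
    ∑ ξ, ∑ l, u ξ l * KF sc ow J b Lc s h r W D F ξ l =
      ∑ ξ, ∑ l, KF sc ow J b Lc s h r W D u ξ l * F ξ l := by
  unfold KF
  simp only [mul_add, add_mul, Finset.sum_add_distrib]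
  congr 1
  · refine Finset.sum_congr rfl fun ξ _ => ?_
    rw [Pm_adj hM]
    exact Finset.sum_congr rfl fun l _ => mul_comm _ _
  · rw [Finset.sum_comm]
    conv_rhs => rw [Finset.sum_comm]
    refine Finset.sum_congr rfl fun l _ => ?_
    rw [TF_adj]
    exact Finset.sum_congr rfl fun ξ _ => mul_comm _ _

lemma iter_adj (hM : MarkerGroup lam N L s h) (D : ℕ) (t : ℕ)
    (u F : (Nd → ZMod N → ZMod 5) → L → ℝ) :
    ∑ ξ, ∑ l, u ξ l * ((KF sc ow J b Lc s h r W D)^[t] F) ξ l =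
      ∑ ξ, ∑ l, ((KF sc ow J b Lc s h r W D)^[t] u) ξ l * F ξ l := by
  induction t generalizing u with
  | zero => rfl
  | succ t ih =>
    rw [Function.iterate_succ_apply', KF_adj hM, ih, Function.iterate_succ_apply]

end

end Q2

open Q2 in
/-- **Part Q2** -/
theorem part_Q2 : S_Q2 := by
  intro lam N _ L _ _ _ Nd _ _ sc ow J Lc W b s h r hM hI hw u h0 hstep F hF t
  classical
  set ind : (Nd → ZMod N → ZMod 5) → L → ℝ := fun ξ _ => if ξ = 0 then 1 else 0 with hind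
  have h1 : ∀ ξ l, u t ξ l ≤ ((KF sc ow J b Lc s h r W (DD W))^[t] ind) ξ l := by
    intro ξ l
    refine sub_le_iter hI hw u ind ?_ hstep t ξ l
    intro ξ l
    have := h0 ξ l
    simp only [hind]
    convert this using 1
  have h2 : ∑ l, ((KF sc ow J b Lc s h r W (DD W))^[t] F) 0 l =
      ∑ ξ, ∑ l, ind ξ l * ((KF sc ow J b Lc s h r W (DD W))^[t] F) ξ l := by
    rw [Finset.sum_eq_single (0 : Nd → ZMod N → ZMod 5)]
    · simp [hind]
    · intro ξ _ hξ
      simp [hind, hξ]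
    · intro h3
      exact absurd (Finset.mem_univ _) h3
  have h3 : ∑ ξ, ∑ l', u t ξ l' * F ξ l' ≤
      ∑ l, ((KF sc ow J b Lc s h r W (DD W))^[t] F) 0 l := by
    rw [h2, iter_adj hM]
    exact Finset.sum_le_sum fun ξ _ => Finset.sum_le_sum fun l _ =>
      mul_le_mul_of_nonneg_right (h1 ξ l) (hF ξ l)
  by_contra hcon
  push Not at hcon
  have hL : 0 < (Fintype.card L : ℝ) := by
    exact_mod_cast Fintype.card_pos
  have h4 : ∑ l, ((KF sc ow J b Lc s h r W (DD W))^[t] F) 0 l <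
      ∑ _l : L, (∑ ξ, ∑ l', u t ξ l' * F ξ l') / (Fintype.card L : ℝ) :=
    Finset.sum_lt_sum_of_nonempty Finset.univ_nonempty fun l _ => hcon l
  rw [Finset.sum_const, Finset.card_univ, nsmul_eq_mul, mul_div_cancel₀ _ hL.ne'] at h4
  linarith

end Pool.Agent.P8H84.MX
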