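import Pool.Agent.P8H84.MX.Defs5

/-!
# Project MX, part R3: the weighted product with an edge is not mixed
-/

set_option autoImplicit false

namespace Pool.Agent.P8H84.MX

open Finset

namespace R3

variable {V : Type} [Fintype V] [DecidableEq V]

lemma sum_w2 (m : V → V → ℕ) (D : ℕ) (a : V × Bool) (F : V → ℝ) :
    ∑ b : V × Bool, w2 m D a b * F b.1 =
      ∑ c, (m a.1 c : ℝ) * F c + ((D : ℝ) - ∑ c, (m a.1 c : ℝ)) * F a.1 := by
  rw [Fintype.sum_prod_type]
  have h1 : ∀ c : V, ∑ j : Bool, w2 m D a (c, j) * F c =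
      (m a.1 c : ℝ) * F c + if a.1 = c then ((D : ℝ) - ∑ c, (m a.1 c : ℝ)) * F c else 0 := by
    intro c
    rw [Fintype.sum_bool]
    unfold w2
    simp only
    rcases a with ⟨a, j⟩
    cases j
    · simp only [Bool.false_eq_true, if_false, if_true]
      split_ifs <;> ring
    · simp only [Bool.true_eq_false, if_false, if_true]
      split_ifs <;> ring
  simp only [h1]
  rw [sum_add_distrib, sum_ite_eq]
  simp

lemma row (m : V → V → ℕ) (D : ℕ) (a : V × Bool) : ∑ b : V × Bool, w2 m D a b = D := by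
  have h := sum_w2 m D a (fun _ => 1)
  simp only [mul_one] at h
  rw [h]
  ring

lemma PW_act (m : V → V → ℕ) {D : ℕ} (hD : 0 < D) (F : V → ℝ) (a : V × Bool) :
    ∑ b : V × Bool, PW (w2 m D) a b * F b.1 = KK m D F a.1 := by
  have hD' : (D : ℝ) ≠ 0 := by positivity
  unfold PW KK
  simp only [Matrix.of_apply, row]
  have h1 : ∀ b : V × Bool, ((if a = b then (1 : ℝ) / 2 else 0) + w2 m D a b / (2 * D)) * F b.1 =
      (if a = b then 1 / 2 * F b.1 else 0) + 1 / (2 * D) * (w2 m D a b * F b.1) := by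
    intro b
    split_ifs <;> ring
  simp only [h1]
  rw [sum_add_distrib, sum_ite_eq, ← mul_sum, sum_w2]
  simp only [mem_univ, if_true]
  have h2 : ∑ c, (m a.1 c : ℝ) / (2 * D) * (F c - F a.1) =
      1 / (2 * D) * (∑ c, (m a.1 c : ℝ) * F c - (∑ c, (m a.1 c : ℝ)) * F a.1) := by
    rw [sum_mul, ← sum_sub_distrib, mul_sum]
    apply sum_congr rfl
    intro c _
    ring
  rw [h2]
  field_simp
  ring

lemma PW_iter (m : V → V → ℕ) {D : ℕ} (hD : 0 < D) (t : ℕ) :
    ∀ (F : V → ℝ) (a : V × Bool),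
      ∑ b : V × Bool, (PW (w2 m D) ^ t) a b * F b.1 = (KK m D)^[t] F a.1 := by
  induction t with
  | zero =>
    intro F a
    simp [Matrix.one_apply]
  | succ t ih =>
    intro F a
    rw [Function.iterate_succ_apply, ← ih (KK m D F) a, pow_succ]
    simp only [Matrix.mul_apply]
    have : ∀ c : V × Bool, (PW (w2 m D) ^ t) a c * KK m D F c.1 =
        ∑ b : V × Bool, (PW (w2 m D) ^ t) a c * (PW (w2 m D) c b * F b.1) := by
      intro c
      rw [← mul_sum, PW_act m hD]
    simp only [this]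
    rw [sum_comm]
    apply sum_congr rfl
    intro b _
    rw [sum_mul]
    apply sum_congr rfl
    intro c _
    ring

end R3

/-- Part R3 -/
theorem part_R3 : S_R3 := by
  intro V _ _ G m D hw E o t hE hmix
  have hD : 0 < D := by
    have := hw.tot o
    omega
  have hD' : (0 : ℝ) < D := by exact_mod_cast hD
  have hV : 0 < Fintype.card V := Fintype.card_pos_iff.2 ⟨o⟩
  have hV' : (0 : ℝ) < Fintype.card V := by exact_mod_cast hV
  have h0 := hmix (o, true)
  simp only [R3.row] at h0
  have htot : ∑ _a : V × Bool, (D : ℝ) = D * (2 * Fintype.card V) := by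
    rw [sum_const, card_univ, Fintype.card_prod, Fintype.card_bool, nsmul_eq_mul]
    push_cast
    ring
  rw [htot] at h0
  set π : ℝ := (D : ℝ) / (D * (2 * Fintype.card V)) with hπ
  have hπe : π = 1 / (2 * Fintype.card V) := by
    rw [hπ]
    field_simp
  have hπ0 : 0 < π := by rw [hπe]; positivity
  set q : V × Bool → ℝ := fun y => (PW (w2 m D) ^ t) (o, true) y / π with hq
  have h1 : ∑ y, π * (q y - 1) ^ 2 ≤ 1 / 4 := h0
  set I : V → ℝ := fun v => if v ∈ E then 1 else 0 with hI
  have hIsum : ∑ b : V × Bool, π * I b.1 ≤ 1 / 4 := by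
    rw [← mul_sum, Fintype.sum_prod_type]
    simp only [sum_const, card_univ, Fintype.card_bool, nsmul_eq_mul]
    rw [← mul_sum]
    have : ∑ v, I v = E.card := by
      rw [hI]
      simp
    rw [this, hπe]
    have hE' : 4 * (E.card : ℝ) ≤ Fintype.card V := by exact_mod_cast hE
    push_cast
    rw [show 1 / (2 * (Fintype.card V : ℝ)) * (2 * (E.card : ℝ)) = E.card / Fintype.card V by
      field_simp]
    rw [div_le_iff₀ hV']
    linarith
  rw [← R3.PW_iter m hD t I (o, true)]
  have h2 : ∀ b : V × Bool, (PW (w2 m D) ^ t) (o, true) b * I b.1 ≤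
      π * I b.1 + (π * (q b - 1) ^ 2 + π * I b.1) / 2 := by
    intro b
    have e1 : (PW (w2 m D) ^ t) (o, true) b = π * q b := by
      rw [hq]
      field_simp
    rw [e1]
    by_cases hb : b.1 ∈ E
    · have e2 : I b.1 = 1 := by simp [hI, hb]
      rw [e2]
      nlinarith [mul_nonneg hπ0.le (sq_nonneg (q b - 1 - 1))]
    · have e2 : I b.1 = 0 := by simp [hI, hb]
      rw [e2]
      nlinarith [mul_nonneg hπ0.le (sq_nonneg (q b - 1))]
  calc ∑ b : V × Bool, (PW (w2 m D) ^ t) (o, true) b * I b.1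
      ≤ ∑ b : V × Bool, (π * I b.1 + (π * (q b - 1) ^ 2 + π * I b.1) / 2) :=
        sum_le_sum fun b _ => h2 b
    _ = ∑ b : V × Bool, π * I b.1 + (∑ b : V × Bool, π * (q b - 1) ^ 2 +
          ∑ b : V × Bool, π * I b.1) / 2 := by
        rw [sum_add_distrib, ← sum_div, sum_add_distrib]
    _ ≤ 1 / 2 := by linarith

end Pool.Agent.P8H84.MX
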